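import Pool.Agent.Lib.KCN.Defs

/-!
# Theorem B (MP_678664_lc), row ACC: the accounting along a derivation
-/

set_option autoImplicit false

namespace Pool.Agent.KCN

open Finset Pool.Agent.SL Pool.Agent.KCM

namespace ACCx

open Classical in
/-- value of a set of tuples -/
noncomputable def val {k n : ℕ} {Ω : Type} (S : Finset Ω) (φ : Ω → (Fin k → Fin n)) (f : Ω → ℝ)
    (W : Finset (Fin k → Fin n)) : ℝ := ∑ x ∈ S.filter (fun x => φ x ∈ W), f x

section

variable {k n : ℕ} {Ω : Type} (S : Finset Ω) (φ : Ω → (Fin k → Fin n)) (f : Ω → ℝ)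

open Classical in
theorem val_split (W W' : Finset (Fin k → Fin n)) :
    val S φ f W = ∑ x ∈ S.filter (fun x => φ x ∈ W ∧ φ x ∈ W'), f x +
      ∑ x ∈ S.filter (fun x => φ x ∈ W ∧ φ x ∉ W'), f x := by
  unfold ACCx.val
  rw [← sum_filter_add_sum_filter_not (S.filter fun x => φ x ∈ W) (fun x => φ x ∈ W'),
    filter_filter, filter_filter]

open Classical in
theorem UU_empty (W₁ W₂ : Finset (Fin k → Fin n)) :
    UU S φ W₁ W₂ ∅ = S.filter (fun x => φ x ∈ W₁ ∧ φ x ∉ W₂) := by
  unfold UU
  refine filter_congr fun x _ => ?_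
  simp

theorem val_empty : val S φ f ∅ = 0 := by
  classical
  unfold ACCx.val
  rw [filter_false_of_mem (fun x _ => by simp), sum_empty]

open Classical in
theorem val_three (W₁ W₂ W₃ : Finset (Fin k → Fin n)) :
    val S φ f W₁ = ∑ x ∈ S.filter (fun x => φ x ∈ W₁ ∧ (φ x ∈ W₂ ∧ φ x ∉ W₃)), f x +
      ∑ x ∈ UU S φ W₁ W₂ W₃, f x := by
  unfold ACCx.val UU
  rw [← sum_filter_add_sum_filter_not (S.filter fun x => φ x ∈ W₁)
    (fun x => φ x ∈ W₂ ∧ φ x ∉ W₃), filter_filter, filter_filter]

end

end ACCx

open ACCx in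
theorem acc : ACC := by
  classical
  intro k n Ω G V S φ f Λ hΛ hlow hupp T e hder
  have key : ∀ (W : Finset (Fin k → Fin n)) (T : ℕ) (e : (Fin k → Fin n) → ℕ),
      Der G V W T e → (T = 0 → W = ∅) ∧ ∃ W₀ : Finset (Fin k → Fin n),
        (W₀ ∈ V ∨ W₀ = ∅) ∧ W ⊆ W₀ ∧ (T = 0 → W₀ = ∅) ∧
        (1 ≤ T → val S φ f W₀ ≤ (4 * (T : ℝ) - 2) * Λ) := by
    intro W T e h
    induction h with
    | start =>
      exact ⟨fun _ => rfl, ∅, Or.inr rfl, subset_refl _, fun _ => rfl,
        fun h => absurd h (by omega)⟩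
    | @look W T e W' i j a b hd hW' hij hab hsub ih =>
      obtain ⟨_, W₀, hW₀, hWW, h0, h1⟩ := ih
      refine ⟨fun h => absurd h (by omega), W', Or.inl hW', subset_refl _,
        fun h => absurd h (by omega), fun _ => ?_⟩
      have e1 := val_split S φ f W' W₀
      have e2 := val_split S φ f W₀ W'
      have l1 := hlow W₀ W' ∅ hW₀ (Or.inl hW') (Or.inr rfl)
      rw [UU_empty] at l1
      have u1 := hupp W' W₀ (Or.inl hW') hW₀ i j a b hij hab (by
        intro x hx
        rw [UU_empty, mem_filter] at hx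
        rcases hsub (φ x) hx.2.1 with h | h
        · exact absurd (hWW h) hx.2.2
        · exact h)
      rw [UU_empty] at u1
      have e3 : ∑ x ∈ S.filter (fun x => φ x ∈ W' ∧ φ x ∈ W₀), f x =
          ∑ x ∈ S.filter (fun x => φ x ∈ W₀ ∧ φ x ∈ W'), f x := by
        refine sum_congr (filter_congr fun x _ => and_comm) fun _ _ => rfl
      rcases Nat.eq_zero_or_pos T with hT | hT
      · have hW0 := h0 hT
        rw [hW0, val_empty] at e2
        subst hT
        rw [hW0] at e1 e3 l1 u1
        push_cast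
        linarith
      · have h2 := h1 hT
        push_cast
        nlinarith
    | @join W₁ W₂ T₁ T₂ e₁ e₂ W' hd₁ hd₂ hW' hsub ih₁ ih₂ =>
      obtain ⟨z₁, A, hA, hWA, hA0, hA1⟩ := ih₁
      obtain ⟨z₂, B, hB, hWB, hB0, hB1⟩ := ih₂
      rcases Nat.eq_zero_or_pos T₁ with hT₁ | hT₁
      · have hs : W' ⊆ W₂ := by
          intro v hv
          rcases hsub v hv with h | h
          · rw [z₁ hT₁] at h
            exact absurd h (by simp)
          · exact h
        subst hT₁
        rw [zero_add]
        exact ⟨fun h => subset_empty.1 (by rw [← z₂ h]; exact hs), B, hB, hs.trans hWB, hB0, hB1⟩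
      · rcases Nat.eq_zero_or_pos T₂ with hT₂ | hT₂
        · have hs : W' ⊆ W₁ := by
            intro v hv
            rcases hsub v hv with h | h
            · exact h
            · rw [z₂ hT₂] at h
              exact absurd h (by simp)
          subst hT₂
          rw [add_zero]
          exact ⟨fun h => subset_empty.1 (by rw [← z₁ h]; exact hs), A, hA, hs.trans hWA, hA0,
            hA1⟩
        · refine ⟨fun h => absurd h (by omega), W', Or.inl hW', subset_refl _,
            fun h => absurd h (by omega), fun _ => ?_⟩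
          have e1 := val_split S φ f W' A
          have e2 := val_split S φ f A W'
          have e3 := val_three S φ f B W' A
          have l1 := hlow A W' ∅ hA (Or.inl hW') (Or.inr rfl)
          rw [UU_empty] at l1
          have l2 := hlow B W' A hB (Or.inl hW') hA
          have e4 : ∑ x ∈ S.filter (fun x => φ x ∈ W' ∧ φ x ∈ A), f x =
              ∑ x ∈ S.filter (fun x => φ x ∈ A ∧ φ x ∈ W'), f x :=
            sum_congr (filter_congr fun x _ => and_comm) fun _ _ => rfl
          have e5 : ∑ x ∈ S.filter (fun x => φ x ∈ W' ∧ φ x ∉ A), f x =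
              ∑ x ∈ S.filter (fun x => φ x ∈ B ∧ (φ x ∈ W' ∧ φ x ∉ A)), f x := by
            refine sum_congr (filter_congr fun x _ => ?_) fun _ _ => rfl
            refine ⟨fun h => ⟨?_, h⟩, fun h => h.2⟩
            rcases hsub (φ x) h.1 with h' | h'
            · exact absurd (hWA h') h.2
            · exact hWB h'
          have h2 := hA1 hT₁
          have h3 := hB1 hT₂
          push_cast
          linarith
  obtain ⟨_, W₀, _, hWW, h0, h1⟩ := key univ T e hder
  have hu : W₀ = univ := univ_subset_iff.1 hWW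
  have hS : val S φ f univ = ∑ x ∈ S, f x := by
    unfold ACCx.val
    rw [filter_true_of_mem fun x _ => mem_univ _]
  rcases Nat.eq_zero_or_pos T with hT | hT
  · have h2 := h0 hT
    rw [hu] at h2
    rw [← hS, h2, val_empty, hT]
    simp
  · have h2 := h1 hT
    rw [hu, hS] at h2
    linarith

end Pool.Agent.KCN
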