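import Mathlib

/-!
# Monotone circuits with the inputs `a, b are not adjacent`, and their proofs (MP_678664_lc)
-/

namespace Pool.Agent.KCN

/-- A gate of a circuit (and-or graph) with `N` gates: an input `a, b are not adjacent`, or the
disjunction or the conjunction of the gates `i` and `j`. -/
inductive MGate (n N : ℕ) where
  | input (a b : Fin n)
  | or (i j : Fin N)
  | and (i j : Fin N)

/-- `Proof C G g T P D`: the gate `g` of `C` has for the graph `G` a proof tree with `T` leaves,
in which at most `D` conjunctions lie on every path, and `P` is the set of all gates that occur.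
A leaf is an input which is true. A true disjunction has a true premise, a true conjunction two. -/
inductive Proof {n N : ℕ} (C : Fin N → MGate n N) (G : SimpleGraph (Fin n)) :
    Fin N → ℕ → Finset (Fin N) → ℕ → Prop
  | leaf (g : Fin N) (a b : Fin n) : C g = MGate.input a b → ¬ G.Adj a b → Proof C G g 1 {g} 0
  | left (g i j : Fin N) (T : ℕ) (P : Finset (Fin N)) (D : ℕ) :
      C g = MGate.or i j → Proof C G i T P D → Proof C G g T (insert g P) D
  | right (g i j : Fin N) (T : ℕ) (P : Finset (Fin N)) (D : ℕ) :
      C g = MGate.or i j → Proof C G j T P D → Proof C G g T (insert g P) D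
  | and (g i j : Fin N) (T₁ T₂ : ℕ) (P₁ P₂ : Finset (Fin N)) (D₁ D₂ : ℕ) :
      C g = MGate.and i j → Proof C G i T₁ P₁ D₁ → Proof C G j T₂ P₂ D₂ →
      Proof C G g (T₁ + T₂) (insert g (P₁ ∪ P₂)) (max D₁ D₂ + 1)

/-- `C` with the output `out` is sound: false for every graph with a `k`-clique. -/
def Sound {n N : ℕ} (k : ℕ) (C : Fin N → MGate n N) (out : Fin N) : Prop :=
  ∀ H : SimpleGraph (Fin n), ¬ H.CliqueFree k → ∀ T P D, ¬ Proof C H out T P D

end Pool.Agent.KCN
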