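import Pool.Agent.Lib.KCN.DefsE
import Pool.Agent.Lib.KCN.Proofs

/-!
# Two-sided error: interface rows

`PM2` = `PM 0` with the value of all large sets, `CIC2` = `CIC 0` for gates which reject an
`n ^ (-β)` fraction of a fixed set of graphs with a `k`-clique.
-/

set_option autoImplicit false

namespace Pool.Agent.KCN

open Finset Pool.Agent.SL Pool.Agent.KCM

/-- P5H: as P5G, with the value of all sets of the family which are large in `S` -/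
def P5H : Prop :=
  ∀ (k m κ q D h : ℕ) (α : Type) [Fintype α] [DecidableEq α], 1 ≤ k → 1 ≤ m → 1 ≤ κ → 1 ≤ q →
    1 ≤ D →
    ∀ (η : Fin k → Fin m) (S : Finset (Fin k → α)) (Fam : Finset (Finset (Fin k → α))),
      S.Nonempty → SSp q (2 * D) S → (∀ U ∈ Fam, U ⊆ S) →
      4 * ((2 * Fam.card + 2) * (2 ^ k * Fintype.card (Fin k → α)) * 2 ^ k) ≤ 4 ^ κ →
      4 * (S.card * 2 ^ k) ≤ m ^ h →
      Lam k m κ q D ≤ 1 / 4 →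
      ∃ (g : Fin k → α → Fin m) (f : (Fin k → α) → ℝ),
        (∀ x ∈ S, ∀ L : Finset (Fin k), h ≤ L.card → ∃ i ∈ L, g i (x i) ≠ η i) ∧
        (∀ L : ℕ, 1 ≤ L → L * ((16 * k) ^ 2 * (24 * κ * m ^ 2)) ≤ q →
          ∀ U ∈ Fam, S.card ≤ L * U.card →
            (S.card : ℝ) / (2 * L) - Lam k m κ q D * S.card ≤ ∑ x ∈ U, f x) ∧
        (∀ U ∈ Fam, -(Lam k m κ q D * S.card) ≤ ∑ x ∈ U, f x) ∧
        (∀ U ∈ Fam, ∀ (i : Fin k) (v : α), (∀ x ∈ U, x i = v) → g i v ≠ η i →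
          ∑ x ∈ U, f x ≤ Lam k m κ q D * S.card)

/-- GRE2: as GRE; moreover `φ` is injective if `t ≥ 2` -/
def GRE2 : Prop :=
  ∀ (t k' e n K w : ℕ), 2 ≤ t → 1 ≤ k' → 1 ≤ K → 1 ≤ w → t * k' * w ^ (K ^ k') + e ≤ n →
    ∀ cod : Fin t → Fin w × Fin w → Fin w, Cod cod →
    ∃ φ : (Fin k' → Cw k' K w) → (Fin (t * k' + e) → Fin n), Function.Injective φ ∧
      (∀ (x y : Fin k' → Cw k' K w) (i j : Fin (t * k' + e)), φ x i = φ y j → i = j) ∧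
      ∀ (m h : ℕ) (g : Fin k' → Cw k' K w → Fin m) (η : Fin k' → Fin m), 1 ≤ h →
        (∀ x ∈ SE k' K w, ∀ L : Finset (Fin k'), h ≤ L.card → ∃ i ∈ L, g i (x i) ≠ η i) →
        ∃ G : SimpleGraph (Fin n), G.CliqueFree (k' + t ^ 3 * h + e) ∧
          ∀ (i j : Fin (t * k' + e)) (u v : Fin n), i ≠ j → ¬ G.Adj u v →
            (∀ x ∈ SE k' K w, ¬ (φ x i = u ∧ φ x j = v)) ∨
            ∃ (l : Fin k') (c : Cw k' K w), g l c ≠ η l ∧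
              ∀ x ∈ SE k' K w, φ x i = u → φ x j = v → x l = c

/-- PARE2: as PARE, with `t ≥ 2` and room for the factor `L ≤ n ^ (γ / 8)` -/
def PARE2 : Prop :=
  ∀ γ ε : ℝ, 0 < γ → γ ≤ 1 → 0 < ε → ∃ t : ℕ, 2 ≤ t ∧ ∃ c : ℝ, 0 < c ∧ ∃ k₀ : ℕ,
    ∀ k' e : ℕ, k₀ ≤ k' → e < t → ∃ h : ℕ, 1 ≤ h ∧
    (k' : ℝ) + t ^ 3 * h + e ≤ ε * (t * k' + e) ∧
    ∃ n₀ : ℕ, ∀ n : ℕ, n₀ ≤ n → ∃ K p j D q m κ : ℕ, p.Prime ∧ t ≤ p ∧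
      1 ≤ K ∧ 1 ≤ D ∧ 1 ≤ q ∧ 1 ≤ m ∧ 1 ≤ κ ∧ 2 * D ≤ K ∧
      t * k' * (p ^ j) ^ (K ^ k') + e ≤ n ∧
      q ≤ (p ^ j * p ^ j) ^ (K ^ (k' - 1) * (K - 2 * D)) ∧
      4 * ((p ^ j * p ^ j) ^ (K * K ^ k') * 2 ^ k') ≤ m ^ h ∧
      (∀ F : ℕ, (F : ℝ) ≤ (2 : ℝ) ^ ((n : ℝ) ^ (2 - γ)) →
        4 * ((F + 1) * (2 ^ k' * ((p ^ j * p ^ j) ^ (K ^ k')) ^ k') * 2 ^ k') ≤ 4 ^ κ) ∧
      Lam k' m κ q D ≤ 1 / 4 ∧
      16 * Lam k' m κ q D * (n : ℝ) ^ (c * (t * k' + e)) ≤ 1 ∧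
      ∀ L : ℕ, (L : ℝ) ≤ (n : ℝ) ^ (γ / 8) → L * ((16 * k') ^ 2 * (24 * κ * m ^ 2)) ≤ q

/-- PM2: the pseudo-measure; sets with at least an `n ^ (-β)` fraction of `R` have value at least
`n ^ (-2 β)`. -/
def PM2 : Prop :=
  ∀ γ ε : ℝ, 0 < γ → 0 < ε → ∃ c β : ℝ, 0 < c ∧ 0 < β ∧ ∃ k₀ : ℕ, ∀ k : ℕ, k₀ ≤ k →
    ∃ n₀ : ℕ, ∀ n : ℕ, n₀ ≤ n → ∃ R : Finset (Fin k → Fin n), R.Nonempty ∧
      (∀ v ∈ R, ∀ v' ∈ R, ∀ i j : Fin k, v i = v' j → i = j) ∧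
      ∀ Fam : Finset (Finset (Fin k → Fin n)), (Fam.card : ℝ) ≤ 2 ^ ((n : ℝ) ^ (2 - γ)) →
        ∃ (G : SimpleGraph (Fin n)) (μ : (Fin k → Fin n) → ℝ),
          (∀ u : ℕ, ε * k ≤ u → G.CliqueFree u) ∧
          (∀ U ∈ Fam, U ⊆ R → (R.card : ℝ) ≤ (n : ℝ) ^ β * U.card →
            1 ≤ (n : ℝ) ^ (2 * β) * ∑ v ∈ U, μ v) ∧
          (∀ U ∈ Fam, U ⊆ R → -(n : ℝ) ^ (-(c * k)) ≤ ∑ v ∈ U, μ v) ∧
          (∀ U ∈ Fam, U ⊆ R → ∀ (i j : Fin k) (a b : Fin n), i ≠ j → ¬ G.Adj a b →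
            (∀ v ∈ U, v i = a ∧ v j = b) → ∑ v ∈ U, μ v ≤ (n : ℝ) ^ (-(c * k)))

open Classical in
/-- CIC2: one set `K` of graphs with a `k`-clique; gates which have no proof for at least an
`n ^ (-β)` fraction of `K`. -/
def CIC2 : Prop :=
  ∀ γ ε : ℝ, 0 < γ → 0 < ε → ∃ c β : ℝ, 0 < c ∧ 0 < β ∧ ∃ k₀ : ℕ, ∀ k : ℕ, k₀ ≤ k →
    ∃ n₀ : ℕ, ∀ n : ℕ, n₀ ≤ n → ∃ K : Finset (SimpleGraph (Fin n)), K.Nonempty ∧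
      (∀ H ∈ K, ¬ H.CliqueFree k) ∧
      ∀ N : ℕ, (N : ℝ) ≤ 2 ^ ((n : ℝ) ^ (2 - γ)) → ∀ C : Fin N → MGate n N,
        ∃ G : SimpleGraph (Fin n), (∀ u : ℕ, ε * k ≤ u → G.CliqueFree u) ∧
          ∀ out : Fin N, (K.card : ℝ) ≤
              (n : ℝ) ^ β * (K.filter (fun H => ∀ T P D, ¬ Proof C H out T P D)).card →
            ∀ (T : ℕ) (P : Finset (Fin N)) (D : ℕ), Proof C G out T P D →
              (n : ℝ) ^ (c * k) ≤ T ∧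
              c * (k * Real.logb 2 n) ^ 2 ≤
                (D + k * Real.logb 2 n) * Real.logb 2 ((P.card : ℝ) + 1)

end Pool.Agent.KCN
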