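import Pool.Agent.Lib.KCN.AVG
import Pool.Agent.Lib.KCN.PMD2

/-!
# Average-case form with two-sided error
-/

set_option autoImplicit false

namespace Pool.Agent.KCN

open Finset Filter

open Classical in
/-- AVG2: one set `S` of graphs without large cliques and one set `K` of graphs with a `k`-clique;
every circuit fails on almost all of `S` at every gate which rejects an `n ^ (-β)` fraction
of `K`. -/
def AVG2 : Prop :=
  ∀ γ ε : ℝ, 0 < γ → 0 < ε → ∃ c β : ℝ, 0 < c ∧ 0 < β ∧ ∃ k₀ : ℕ, ∀ k : ℕ, k₀ ≤ k →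
    ∃ n₀ : ℕ, ∀ n : ℕ, n₀ ≤ n →
      ∃ S K : Finset (SimpleGraph (Fin n)), S.Nonempty ∧ K.Nonempty ∧
        (∀ G ∈ S, ∀ u : ℕ, ε * k ≤ u → G.CliqueFree u) ∧ (∀ H ∈ K, ¬ H.CliqueFree k) ∧
        ∀ N : ℕ, (N : ℝ) ≤ 2 ^ ((n : ℝ) ^ (2 - γ)) → ∀ C : Fin N → MGate n N,
          ∃ B ⊆ S, (2 : ℝ) ^ ((n : ℝ) ^ (2 - γ)) * (B.card : ℝ) ≤ S.card ∧
            ∀ G ∈ S, G ∉ B → ∀ out : Fin N, (K.card : ℝ) ≤
                (n : ℝ) ^ β * (K.filter (fun H => ∀ T P D, ¬ Proof C H out T P D)).card →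
              ∀ (T : ℕ) (P : Finset (Fin N)) (D : ℕ), Proof C G out T P D →
                (n : ℝ) ^ (c * k) ≤ T ∧
                c * (k * Real.logb 2 n) ^ 2 ≤
                  (D + k * Real.logb 2 n) * Real.logb 2 ((P.card : ℝ) + 1)

open AVGx in
open Classical in
/-- the average-case form follows from the worst-case form -/
theorem avg2 (h : CIC2) : AVG2 := by
  intro γ₀ ε hγ₀ hε
  set γ : ℝ := min γ₀ 1 with hγdef
  have hγ : 0 < γ := lt_min hγ₀ one_pos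
  have hγ1 : γ ≤ 1 := min_le_right _ _
  have hγγ : γ ≤ γ₀ := min_le_left _ _
  obtain ⟨c, β, hc, hβ, k₀, hk₀⟩ := h (γ / 2) ε (by linarith) hε
  refine ⟨c, β, hc, hβ, k₀, fun k hk => ?_⟩
  obtain ⟨n₀, hn₀⟩ := hk₀ k hk
  have hroot := (tendsto_rpow_atTop (half_pos hγ)).comp tendsto_natCast_atTop_atTop
    |>.eventually_ge_atTop (5 : ℝ)
  obtain ⟨n₁, hn₁⟩ := Filter.eventually_atTop.1 hroot
  refine ⟨max (max n₀ n₁) 1, fun n hn => ?_⟩
  have h0 : n₀ ≤ n := le_trans (le_trans (le_max_left _ _) (le_max_left _ _)) hn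
  have h1 : n₁ ≤ n := le_trans (le_trans (le_max_right _ _) (le_max_left _ _)) hn
  have hnN : 1 ≤ n := le_trans (le_max_right _ _) hn
  have hn1 : (1 : ℝ) ≤ n := by exact_mod_cast hnN
  have hn0 : (0 : ℝ) < n := by linarith
  have h5 : (5 : ℝ) ≤ (n : ℝ) ^ (γ / 2) := hn₁ n h1
  obtain ⟨Q, hQ⟩ : ∃ Q : ℝ, Q = (n : ℝ) ^ (2 - γ) := ⟨_, rfl⟩
  have hQn : (n : ℝ) ≤ Q := by
    rw [hQ]
    calc (n : ℝ) = (n : ℝ) ^ (1 : ℝ) := (Real.rpow_one _).symm
      _ ≤ _ := Real.rpow_le_rpow_of_exponent_le hn1 (by linarith)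
  have hQ1 : 1 ≤ Q := by linarith
  have hQ2 : (n : ℝ) ^ (2 - γ / 2) = Q * (n : ℝ) ^ (γ / 2) := by
    rw [hQ, ← Real.rpow_add hn0]
    congr 1
    ring
  obtain ⟨a, ha⟩ : ∃ a : ℝ, a = (2 : ℝ) ^ Q := ⟨_, rfl⟩
  have ha0 : 0 < a := by rw [ha]; positivity
  have ha1 : 1 ≤ a := by rw [ha]; exact Real.one_le_rpow (by norm_num) (by linarith)
  obtain ⟨m, hm⟩ : ∃ m : ℕ, m = ⌈(n : ℝ) ^ 2 * a⌉₊ := ⟨_, rfl⟩
  have hm1 : (n : ℝ) ^ 2 * a ≤ m := by rw [hm]; exact Nat.le_ceil _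
  have hm2 : (m : ℝ) < (n : ℝ) ^ 2 * a + 1 := by
    rw [hm]
    exact Nat.ceil_lt_add_one (by positivity)
  -- the size of a union
  have hsize : (m : ℝ) * a ≤ 2 ^ ((n : ℝ) ^ (2 - γ / 2)) := by
    have e1 : (n : ℝ) ≤ a := by
      have e2 : (n : ℝ) ≤ 2 ^ n := by exact_mod_cast (Nat.lt_two_pow_self (n := n)).le
      refine e2.trans ?_
      rw [ha, ← Real.rpow_natCast]
      exact Real.rpow_le_rpow_of_exponent_le (by norm_num) hQn
    have e3 : (2 : ℝ) ≤ a := by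
      rw [ha]
      calc (2 : ℝ) = 2 ^ (1 : ℝ) := (Real.rpow_one _).symm
        _ ≤ _ := Real.rpow_le_rpow_of_exponent_le (by norm_num) hQ1
    have e4 : (m : ℝ) ≤ a ^ 4 := by
      have e5 : (n : ℝ) ^ 2 ≤ a ^ 2 := pow_le_pow_left₀ hn0.le e1 2
      have e6 : (1 : ℝ) ≤ a ^ 3 := one_le_pow₀ ha1
      calc (m : ℝ) ≤ (n : ℝ) ^ 2 * a + 1 := hm2.le
        _ ≤ a ^ 2 * a + 1 := by gcongr
        _ ≤ a ^ 3 + a ^ 3 := by linarith [show a ^ 2 * a = a ^ 3 by ring]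
        _ = 2 * a ^ 3 := by ring
        _ ≤ a * a ^ 3 := by gcongr
        _ = a ^ 4 := by ring
    calc (m : ℝ) * a ≤ a ^ 4 * a := mul_le_mul_of_nonneg_right e4 ha0.le
      _ = a ^ 5 := by ring
      _ = 2 ^ (Q * 5) := by
          rw [ha, ← Real.rpow_natCast, ← Real.rpow_mul (by norm_num)]
          norm_num
      _ ≤ 2 ^ ((n : ℝ) ^ (2 - γ / 2)) := by
          refine Real.rpow_le_rpow_of_exponent_le (by norm_num) ?_
          rw [hQ2]
          exact mul_le_mul_of_nonneg_left h5 (by linarith)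
  -- all graphs
  set X : Finset (SimpleGraph (Fin n)) :=
    (Set.toFinite {G : SimpleGraph (Fin n) | ∀ u : ℕ, ε * k ≤ u →
      G.CliqueFree u}).toFinset with hX
  have hmemX : ∀ G, G ∈ X ↔ ∀ u : ℕ, ε * k ≤ u → G.CliqueFree u := by
    intro G
    rw [hX, Set.Finite.mem_toFinset]
    rfl
  have hcardX : (X.card : ℝ) * (1 - 1 / a) ^ m < 1 := by
    have e1 : (X.card : ℝ) ≤ 2 ^ n ^ 2 := by exact_mod_cast card_graphs X
    have e2 : (1 - 1 / a) ≤ Real.exp (-(1 / a)) := by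
      have := Real.add_one_le_exp (-(1 / a))
      linarith
    have e3 : 0 ≤ 1 - 1 / a := by
      rw [sub_nonneg, div_le_one ha0]
      exact ha1
    have e4 : (1 - 1 / a) ^ m ≤ Real.exp (-((n : ℝ) ^ 2)) := by
      calc (1 - 1 / a) ^ m ≤ Real.exp (-(1 / a)) ^ m := pow_le_pow_left₀ e3 e2 m
        _ = Real.exp (m * (-(1 / a))) := by rw [← Real.exp_nat_mul]
        _ ≤ Real.exp (-((n : ℝ) ^ 2)) := by
            refine Real.exp_le_exp.2 ?_
            have : (n : ℝ) ^ 2 ≤ m * (1 / a) := by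
              rw [mul_one_div, le_div_iff₀ ha0]
              exact hm1
            linarith
    have e5 : (2 : ℝ) ^ n ^ 2 < Real.exp ((n : ℝ) ^ 2) := by
      have e6 : Real.exp ((n : ℝ) ^ 2) = Real.exp 1 ^ n ^ 2 := by
        rw [← Real.exp_nat_mul]
        push_cast
        ring_nf
      rw [e6]
      have e7 : (2 : ℝ) < Real.exp 1 := by
        have := Real.exp_one_gt_d9
        linarith
      exact pow_lt_pow_left₀ e7 (by norm_num) (by positivity)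
    calc (X.card : ℝ) * (1 - 1 / a) ^ m ≤ 2 ^ n ^ 2 * Real.exp (-((n : ℝ) ^ 2)) :=
          mul_le_mul e1 e4 (pow_nonneg e3 m) (by positivity)
      _ < Real.exp ((n : ℝ) ^ 2) * Real.exp (-((n : ℝ) ^ 2)) :=
          mul_lt_mul_of_pos_right e5 (Real.exp_pos _)
      _ = 1 := by rw [← Real.exp_add, add_neg_cancel, Real.exp_zero]
  obtain ⟨KK, hKne, hKc, hn₀'⟩ := hn₀ n h0
  -- the circuits
  let ι : Type := {z : (Σ N : ℕ, (Fin N → MGate n N)) // (z.1 : ℝ) ≤ a}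
  let H : ι → SimpleGraph (Fin n) → Prop := fun z G =>
    ∃ out : Fin z.1.1, (KK.card : ℝ) ≤ (n : ℝ) ^ β *
        (KK.filter (fun H => ∀ T P D, ¬ Proof z.1.2 H out T P D)).card ∧ ∃ (T : ℕ) (P : Finset (Fin z.1.1)) (D : ℕ),
      Proof z.1.2 G out T P D ∧ ¬ ((n : ℝ) ^ (c * k) ≤ T ∧
        c * (k * Real.logb 2 n) ^ 2 ≤
          (D + k * Real.logb 2 n) * Real.logb 2 ((P.card : ℝ) + 1))
  have hcov : ∀ L : List ι, L.length ≤ m → ∃ G ∈ X, ∀ z ∈ L, ¬ H z G := by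
    intro L hL
    set Ns : Fin L.length → ℕ := fun i => (L.get i).1.1 with hNs
    set Cs : ∀ i, Fin (Ns i) → MGate n (Ns i) := fun i => (L.get i).1.2 with hCs
    have hN : ((∑ i, Ns i : ℕ) : ℝ) ≤ 2 ^ ((n : ℝ) ^ (2 - γ / 2)) := by
      refine le_trans ?_ hsize
      push_cast
      calc ∑ i, (Ns i : ℝ) ≤ ∑ _i : Fin L.length, a := sum_le_sum fun i _ => (L.get i).2
        _ = L.length * a := by rw [sum_const, card_univ, Fintype.card_fin, nsmul_eq_mul]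
        _ ≤ m * a := by
            refine mul_le_mul_of_nonneg_right ?_ ha0.le
            exact_mod_cast hL
    obtain ⟨G, hG1, hG2⟩ := hn₀' _ hN (UC Ns Cs)
    refine ⟨G, (hmemX G).2 hG1, ?_⟩
    intro z hz hH
    obtain ⟨i, hi⟩ := List.get_of_mem hz
    subst hi
    obtain ⟨out, hs, T, P, D, hp, hnot⟩ := hH
    have hs' : (KK.card : ℝ) ≤ (n : ℝ) ^ β *
        (KK.filter (fun H => ∀ T P D, ¬ Proof (UC Ns Cs) H (nam Ns i out) T P D)).card := by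
      refine hs.trans (mul_le_mul_of_nonneg_left ?_ (Real.rpow_nonneg hn0.le _))
      refine Nat.cast_le.2 (card_le_card ?_)
      intro G' hG'
      rw [mem_filter] at hG' ⊢
      refine ⟨hG'.1, fun T' P' D' hp' => ?_⟩
      obtain ⟨P'', hp''⟩ := down Ns Cs hp' i out rfl
      exact hG'.2 _ _ _ hp''
    have hb := hG2 (nam Ns i out) hs' T _ D (up Ns Cs hp)
    rw [card_image_of_injective _ (nam_inj Ns i)] at hb
    exact hnot hb
  obtain ⟨Y, hYX, hYne, hY⟩ := greedy X H (1 / a) m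
    (by rw [div_le_one ha0]; exact ha1) hcardX hcov
  refine ⟨Y, KK, hYne, hKne, fun G hG => (hmemX G).1 (hYX hG), hKc, fun N hN C => ?_⟩
  have hQQ : (2 : ℝ) ^ ((n : ℝ) ^ (2 - γ₀)) ≤ a := by
    rw [ha, hQ]
    refine Real.rpow_le_rpow_of_exponent_le (by norm_num) ?_
    exact Real.rpow_le_rpow_of_exponent_le hn1 (by linarith)
  obtain ⟨B, hB1, hB2, hB3⟩ := hY ⟨⟨N, C⟩, hN.trans hQQ⟩
  refine ⟨B, hB1, ?_, ?_⟩
  · rw [one_div_mul_eq_div, le_div_iff₀ ha0] at hB2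
    calc (2 : ℝ) ^ ((n : ℝ) ^ (2 - γ₀)) * (B.card : ℝ) ≤ a * B.card :=
          mul_le_mul_of_nonneg_right hQQ (Nat.cast_nonneg _)
      _ ≤ Y.card := by linarith
  · intro G hG hGB out hs T P D hp
    by_contra hcon
    exact hB3 G hG hGB ⟨out, hs, T, P, D, hp, hcon⟩

end Pool.Agent.KCN
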