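import Pool.Agent.Lib.KCN.EProofs

/-!
# Rows over circuits which also read edges
-/

set_option autoImplicit false

namespace Pool.Agent.KCN

/-- EUP: upper side (from `CUPD`), without reading edges -/
def EUP : Prop :=
  ∀ γ : ℝ, 0 < γ → γ ≤ 1 → ∃ k₀ : ℕ, ∀ k : ℕ, k₀ ≤ k → ∃ n₀ : ℕ, ∀ n : ℕ, n₀ ≤ n →
    ∃ (N : ℕ) (C : Fin N → EGate n N) (out : Fin N),
      (N : ℝ) ≤ 2 ^ ((n : ℝ) ^ (2 - γ)) ∧ ESound k C out ∧
      ∀ G : SimpleGraph (Fin n), G.CliqueFree k →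
        ∃ (T : ℕ) (P : Finset (Fin N)) (D : ℕ), EProof C G out T P D ∅ ∧
          (T : ℝ) ≤ (n : ℝ) ^ (γ * k) ∧ (P.card : ℝ) ≤ (n : ℝ) ^ (γ * k) ∧
          (D : ℝ) ≤ γ * k * Real.logb 2 n

/-- EIA: small memory, at most `e` edges are read (from `CIA`) -/
def EIA : Prop :=
  ∃ B : ℕ, ∀ u k n s e N : ℕ, 2 ≤ u → u ≤ k → n ≤ 2 ^ s → N ≤ 2 ^ s →
    ∀ C : Fin N → EGate n N,
      ∃ (G : SimpleGraph (Fin n)) (c : Fin n → Fin (u - 1)),
        (∀ a b, G.Adj a b ↔ c a ≠ c b) ∧ ∀ out : Fin N, ESound k C out →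
        ∀ (T : ℕ) (P : Finset (Fin N)) (D : ℕ) (E : Finset (Fin n × Fin n)),
          EProof C G out T P D E → E.card ≤ e →
          ((n : ℝ) / ((k : ℝ) ^ B * s * (e + 1))) ^ (u + 2) ≤ (T : ℝ) ^ 2

open Classical in
/-- AVG3: one set `S` of graphs without large cliques and one set `K` of graphs with a `k`-clique.
Every circuit fails on almost all of `S`, at every gate which for at least an `n ^ (-β)` fraction
of the `H` in `K` has no proof for any graph containing `H`, as long as the proof reads at most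
`n ^ (2 - γ)` edges. -/
def AVG3 : Prop :=
  ∀ γ ε : ℝ, 0 < γ → 0 < ε → ∃ c β : ℝ, 0 < c ∧ 0 < β ∧ ∃ k₀ : ℕ, ∀ k : ℕ, k₀ ≤ k →
    ∃ n₀ : ℕ, ∀ n : ℕ, n₀ ≤ n →
      ∃ S K : Finset (SimpleGraph (Fin n)), S.Nonempty ∧ K.Nonempty ∧
        (∀ G ∈ S, ∀ u : ℕ, ε * k ≤ u → G.CliqueFree u) ∧ (∀ H ∈ K, ¬ H.CliqueFree k) ∧
        ∀ N : ℕ, (N : ℝ) ≤ 2 ^ ((n : ℝ) ^ (2 - γ)) → ∀ C : Fin N → EGate n N,
          ∃ B ⊆ S, (2 : ℝ) ^ ((n : ℝ) ^ (2 - γ)) * (B.card : ℝ) ≤ S.card ∧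
            ∀ G ∈ S, G ∉ B → ∀ out : Fin N, (K.card : ℝ) ≤ (n : ℝ) ^ β *
                (K.filter (fun H => ∀ H' : SimpleGraph (Fin n), H ≤ H' →
                  ∀ T P D E, ¬ EProof C H' out T P D E)).card →
              ∀ (T : ℕ) (P : Finset (Fin N)) (D : ℕ) (E : Finset (Fin n × Fin n)),
                EProof C G out T P D E → (E.card : ℝ) ≤ (n : ℝ) ^ (2 - γ) →
                (n : ℝ) ^ (c * k) ≤ T ∧
                c * (k * Real.logb 2 n) ^ 2 ≤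
                  (D + k * Real.logb 2 n) * Real.logb 2 ((P.card : ℝ) + 1)

end Pool.Agent.KCN
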