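import Mathlib

/-!
# Circuits which read edges and non-edges, and their proofs (MP_678664_lc)
-/

namespace Pool.Agent.KCN

/-- A gate of a circuit (and-or graph) with `N` gates: an input `a, b are not adjacent` or
`a, b are adjacent`, or the disjunction or the conjunction of the gates `i` and `j`. -/
inductive EGate (n N : ℕ) where
  | non (a b : Fin n)
  | adj (a b : Fin n)
  | or (i j : Fin N)
  | and (i j : Fin N)

/-- `EProof C G g T P D E`: the gate `g` of `C` has for the graph `G` a proof tree with `T`
leaves, in which at most `D` conjunctions lie on every path, `P` is the set of all gates that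
occur and `E` the set of all pairs which are read as edges. A leaf is an input which is true. A
true disjunction has a true premise, a true conjunction two. -/
inductive EProof {n N : ℕ} (C : Fin N → EGate n N) (G : SimpleGraph (Fin n)) :
    Fin N → ℕ → Finset (Fin N) → ℕ → Finset (Fin n × Fin n) → Prop
  | non (g : Fin N) (a b : Fin n) : C g = EGate.non a b → ¬ G.Adj a b →
      EProof C G g 1 {g} 0 ∅
  | adj (g : Fin N) (a b : Fin n) : C g = EGate.adj a b → G.Adj a b →
      EProof C G g 1 {g} 0 {(a, b)}
  | left (g i j : Fin N) (T : ℕ) (P : Finset (Fin N)) (D : ℕ) (E : Finset (Fin n × Fin n)) :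
      C g = EGate.or i j → EProof C G i T P D E → EProof C G g T (insert g P) D E
  | right (g i j : Fin N) (T : ℕ) (P : Finset (Fin N)) (D : ℕ) (E : Finset (Fin n × Fin n)) :
      C g = EGate.or i j → EProof C G j T P D E → EProof C G g T (insert g P) D E
  | and (g i j : Fin N) (T₁ T₂ : ℕ) (P₁ P₂ : Finset (Fin N)) (D₁ D₂ : ℕ)
      (E₁ E₂ : Finset (Fin n × Fin n)) :
      C g = EGate.and i j → EProof C G i T₁ P₁ D₁ E₁ → EProof C G j T₂ P₂ D₂ E₂ →
      EProof C G g (T₁ + T₂) (insert g (P₁ ∪ P₂)) (max D₁ D₂ + 1) (E₁ ∪ E₂)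

/-- The gate `out` of `C` is sound: it has no proof for a graph with a `k`-clique. -/
def ESound {n N : ℕ} (k : ℕ) (C : Fin N → EGate n N) (out : Fin N) : Prop :=
  ∀ H : SimpleGraph (Fin n), ¬ H.CliqueFree k → ∀ T P D E, ¬ EProof C H out T P D E

end Pool.Agent.KCN
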