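import Pool.Agent.Lib.KCN.Proofs
import Pool.Agent.Lib.KCN.EProofs

/-!
# From circuits which read edges to monotone circuits, for a fixed set of edges
-/

set_option autoImplicit false

namespace Pool.Agent.KCN

namespace ToMx

variable {n N : ℕ}

open Classical in
/-- the gates for the set `E` of edges: a false gate is a loop, a true gate is the input
`a, a not adjacent` -/
noncomputable def toM (E : Finset (Fin n × Fin n)) (C : Fin N → EGate n N) (g : Fin N) :
    MGate n N :=
  match C g with
  | EGate.non a b => if a ≠ b ∧ ((a, b) ∈ E ∨ (b, a) ∈ E) then MGate.or g g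
      else MGate.input a b
  | EGate.adj a b => if a ≠ b ∧ (a, b) ∈ E then MGate.input a a else MGate.or g g
  | EGate.or i j => MGate.or i j
  | EGate.and i j => MGate.and i j

/-- the graph with the edges `E` -/
def EG (E : Finset (Fin n × Fin n)) : SimpleGraph (Fin n) where
  Adj a b := a ≠ b ∧ ((a, b) ∈ E ∨ (b, a) ∈ E)
  symm := ⟨fun _ _ h => ⟨h.1.symm, h.2.symm⟩⟩
  loopless := ⟨fun _ h => h.1 rfl⟩

/-- a proof which reads only edges in `E` -/
theorem forward {E : Finset (Fin n × Fin n)} {C : Fin N → EGate n N} {G : SimpleGraph (Fin n)}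
    (hE : ∀ z ∈ E, z.1 ≠ z.2 → G.Adj z.1 z.2) {g : Fin N} {T : ℕ} {P : Finset (Fin N)} {D : ℕ}
    {F : Finset (Fin n × Fin n)} (h : EProof C G g T P D F) (hF : F ⊆ E) :
    Proof (toM E C) G g T P D := by
  classical
  induction h with
  | non g a b hg hab =>
    refine Proof.leaf g a b ?_ hab
    unfold toM
    rw [hg]
    dsimp only
    rw [if_neg]
    rintro ⟨hne, h | h⟩
    · exact hab (hE _ h hne)
    · exact hab (hE _ h hne.symm).symm
  | adj g a b hg hab =>
    refine Proof.leaf g a a ?_ (G.loopless.irrefl a)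
    unfold toM
    rw [hg]
    dsimp only
    rw [if_pos ⟨hab.ne, hF (Finset.mem_singleton_self _)⟩]
  | left g i j T P D F hg _ ih =>
    refine Proof.left g i j T P D ?_ (ih hF)
    unfold toM
    rw [hg]
  | right g i j T P D F hg _ ih =>
    refine Proof.right g i j T P D ?_ (ih hF)
    unfold toM
    rw [hg]
  | and g i j T₁ T₂ P₁ P₂ D₁ D₂ F₁ F₂ hg _ _ ih₁ ih₂ =>
    refine Proof.and g i j T₁ T₂ P₁ P₂ D₁ D₂ ?_ (ih₁ (Finset.subset_union_left.trans hF))
      (ih₂ (Finset.subset_union_right.trans hF))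
    unfold toM
    rw [hg]

/-- a proof of the monotone circuit for `H` is a proof for `H` with the edges `E` -/
theorem backward {E : Finset (Fin n × Fin n)} {C : Fin N → EGate n N} {H : SimpleGraph (Fin n)}
    {g : Fin N} {T : ℕ} {P : Finset (Fin N)} {D : ℕ} (h : Proof (toM E C) H g T P D) :
    ∃ (T' : ℕ) (P' : Finset (Fin N)) (D' : ℕ) (F : Finset (Fin n × Fin n)),
      EProof C (H ⊔ EG E) g T' P' D' F := by
  classical
  induction h with
  | leaf g a b hg hab =>
    unfold toM at hg
    rcases hc : C g with ⟨x, y⟩ | ⟨x, y⟩ | ⟨x, y⟩ | ⟨x, y⟩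
    · rw [hc] at hg
      dsimp only at hg
      split_ifs at hg with h1
      injection hg with h2 h3
      subst h2 h3
      refine ⟨_, _, _, _, EProof.non g x y hc ?_⟩
      rintro (h4 | h4)
      · exact hab h4
      · exact h1 h4
    · rw [hc] at hg
      dsimp only at hg
      split_ifs at hg with h1
      exact ⟨_, _, _, _, EProof.adj g x y hc (Or.inr ⟨h1.1, Or.inl h1.2⟩)⟩
    · rw [hc] at hg
      cases hg
    · rw [hc] at hg
      cases hg
  | left g i j T P D hg _ ih =>
    obtain ⟨T', P', D', F, hp⟩ := ih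
    unfold toM at hg
    rcases hc : C g with ⟨x, y⟩ | ⟨x, y⟩ | ⟨x, y⟩ | ⟨x, y⟩
    · rw [hc] at hg
      dsimp only at hg
      split_ifs at hg with h1
      injection hg with h2 h3
      subst h2
      exact ⟨_, _, _, _, hp⟩
    · rw [hc] at hg
      dsimp only at hg
      split_ifs at hg with h1
      injection hg with h2 h3
      subst h2
      exact ⟨_, _, _, _, hp⟩
    · rw [hc] at hg
      injection hg with h2 h3
      subst h2
      exact ⟨_, _, _, _, EProof.left g x y _ _ _ _ hc hp⟩
    · rw [hc] at hg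
      cases hg
  | right g i j T P D hg _ ih =>
    obtain ⟨T', P', D', F, hp⟩ := ih
    unfold toM at hg
    rcases hc : C g with ⟨x, y⟩ | ⟨x, y⟩ | ⟨x, y⟩ | ⟨x, y⟩
    · rw [hc] at hg
      dsimp only at hg
      split_ifs at hg with h1
      injection hg with h2 h3
      subst h3
      exact ⟨_, _, _, _, hp⟩
    · rw [hc] at hg
      dsimp only at hg
      split_ifs at hg with h1
      injection hg with h2 h3
      subst h3
      exact ⟨_, _, _, _, hp⟩
    · rw [hc] at hg
      injection hg with h2 h3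
      subst h3
      exact ⟨_, _, _, _, EProof.right g x y _ _ _ _ hc hp⟩
    · rw [hc] at hg
      cases hg
  | and g i j T₁ T₂ P₁ P₂ D₁ D₂ hg _ _ ih₁ ih₂ =>
    obtain ⟨T₁', P₁', D₁', F₁, hp₁⟩ := ih₁
    obtain ⟨T₂', P₂', D₂', F₂, hp₂⟩ := ih₂
    unfold toM at hg
    rcases hc : C g with ⟨x, y⟩ | ⟨x, y⟩ | ⟨x, y⟩ | ⟨x, y⟩
    · rw [hc] at hg
      dsimp only at hg
      split_ifs at hg with h1
    · rw [hc] at hg
      dsimp only at hg
      split_ifs at hg with h1
    · rw [hc] at hg
      cases hg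
    · rw [hc] at hg
      injection hg with h2 h3
      subst h2 h3
      exact ⟨_, _, _, _, EProof.and g x y _ _ _ _ _ _ _ _ hc hp₁ hp₂⟩

end ToMx

end Pool.Agent.KCN
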