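import Pool.Agent.Lib.KCN.AVG2
import Pool.Agent.Lib.KCN.PME3D
import Pool.Agent.Lib.KCN.ToM

/-!
# Average-case form with two-sided error, for circuits which also read edges
-/

set_option autoImplicit false

namespace Pool.Agent.KCN

open Finset Filter

namespace AVG3x

theorem edges {n N : ℕ} {C : Fin N → EGate n N} {G : SimpleGraph (Fin n)} {g : Fin N} {T : ℕ}
    {P : Finset (Fin N)} {D : ℕ} {E : Finset (Fin n × Fin n)} (h : EProof C G g T P D E) :
    ∀ z ∈ E, G.Adj z.1 z.2 := by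
  induction h with
  | non g a b hg hab => exact fun z hz => absurd hz (notMem_empty z)
  | adj g a b hg hab =>
    intro z hz
    rw [mem_singleton.1 hz]
    exact hab
  | left g i j T P D E hg _ ih => exact ih
  | right g i j T P D E hg _ ih => exact ih
  | and g i j T₁ T₂ P₁ P₂ D₁ D₂ E₁ E₂ hg _ _ ih₁ ih₂ =>
    intro z hz
    rcases mem_union.1 hz with h | h
    · exact ih₁ z h
    · exact ih₂ z h

/-- every small set of pairs is contained in the range of a function, up to one loop -/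
theorem exists_fun {n e : ℕ} (hn : 1 ≤ n) (E : Finset (Fin n × Fin n)) (hE : E.card ≤ e) :
    ∃ w : Fin e → Fin n × Fin n, E ⊆ univ.image w ∧
      ∀ z ∈ univ.image w, z.1 ≠ z.2 → z ∈ E := by
  classical
  set a₀ : Fin n := ⟨0, hn⟩
  refine ⟨fun j => E.toList.getD j.1 (a₀, a₀), ?_, ?_⟩
  · intro z hz
    obtain ⟨j, hj, hjz⟩ := List.getElem_of_mem (mem_toList.2 hz)
    have hjE : j < E.card := by rwa [length_toList] at hj
    refine mem_image.2 ⟨⟨j, by omega⟩, mem_univ _, ?_⟩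
    rw [List.getD_eq_getElem _ _ hj]
    exact hjz
  · intro z hz hne
    obtain ⟨j, _, hj⟩ := mem_image.1 hz
    rcases Nat.lt_or_ge j.1 E.toList.length with hlt | hge
    · rw [List.getD_eq_getElem _ _ hlt] at hj
      rw [← hj]
      exact mem_toList.1 (List.getElem_mem hlt)
    · rw [List.getD_eq_default _ _ hge] at hj
      exact absurd (by rw [← hj]) hne

end AVG3x

open AVGx AVG3x ToMx in
open Classical in
/-- the average-case form follows from the worst-case form -/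
theorem avg3 (h : CIC2) : AVG3 := by
  intro γ₀ ε hγ₀ hε
  set γ : ℝ := min γ₀ 1 with hγdef
  have hγ : 0 < γ := lt_min hγ₀ one_pos
  have hγ1 : γ ≤ 1 := min_le_right _ _
  have hγγ : γ ≤ γ₀ := min_le_left _ _
  obtain ⟨c, β, hc, hβ, k₀, hk₀⟩ := h (γ / 2) ε (by linarith) hε
  refine ⟨c, β, hc, hβ, k₀, fun k hk => ?_⟩
  obtain ⟨n₀, hn₀⟩ := hk₀ k hk
  have hroot := (tendsto_rpow_atTop (half_pos hγ)).comp tendsto_natCast_atTop_atTop
    |>.eventually_ge_atTop (5 : ℝ)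
  obtain ⟨n₁, hn₁⟩ := Filter.eventually_atTop.1 hroot
  obtain ⟨n₂, hn₂⟩ := Filter.eventually_atTop.1 (TBCx.ev_log 4 (γ / 2) (half_pos hγ))
  obtain ⟨n₃, hn₃⟩ := Filter.eventually_atTop.1 (((tendsto_rpow_atTop (half_pos hγ)).comp
    tendsto_natCast_atTop_atTop).eventually_ge_atTop (10 : ℝ))
  refine ⟨max (max (max n₀ n₁) (max n₂ n₃)) 1, fun n hn => ?_⟩
  have h0 : n₀ ≤ n := by omega
  have h1 : n₁ ≤ n := by omega
  have hnN : 1 ≤ n := by omega
  have hn1 : (1 : ℝ) ≤ n := by exact_mod_cast hnN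
  have hn0 : (0 : ℝ) < n := by linarith
  have h5 : 2 * Real.logb 2 n + 5 ≤ (n : ℝ) ^ (γ / 2) := by
    have e1 := hn₂ n (by omega)
    have e2 : (10 : ℝ) ≤ (n : ℝ) ^ (γ / 2) := hn₃ n (by omega)
    linarith
  have hlog0 : 0 ≤ Real.logb 2 n := Real.logb_nonneg (by norm_num) hn1
  obtain ⟨Q, hQ⟩ : ∃ Q : ℝ, Q = (n : ℝ) ^ (2 - γ) := ⟨_, rfl⟩
  have hQn : (n : ℝ) ≤ Q := by
    rw [hQ]
    calc (n : ℝ) = (n : ℝ) ^ (1 : ℝ) := (Real.rpow_one _).symm
      _ ≤ _ := Real.rpow_le_rpow_of_exponent_le hn1 (by linarith)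
  have hQ1 : 1 ≤ Q := by linarith
  have hQ2 : (n : ℝ) ^ (2 - γ / 2) = Q * (n : ℝ) ^ (γ / 2) := by
    rw [hQ, ← Real.rpow_add hn0]
    congr 1
    ring
  obtain ⟨a, ha⟩ : ∃ a : ℝ, a = (2 : ℝ) ^ Q := ⟨_, rfl⟩
  have ha0 : 0 < a := by rw [ha]; positivity
  have ha1 : 1 ≤ a := by rw [ha]; exact Real.one_le_rpow (by norm_num) (by linarith)
  obtain ⟨m, hm⟩ : ∃ m : ℕ, m = ⌈(n : ℝ) ^ 2 * a⌉₊ := ⟨_, rfl⟩
  have hm1 : (n : ℝ) ^ 2 * a ≤ m := by rw [hm]; exact Nat.le_ceil _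
  have hm2 : (m : ℝ) < (n : ℝ) ^ 2 * a + 1 := by
    rw [hm]
    exact Nat.ceil_lt_add_one (by positivity)
  obtain ⟨e, he⟩ : ∃ e : ℕ, e = ⌊Q⌋₊ := ⟨_, rfl⟩
  have heQ : (e : ℝ) ≤ Q := by rw [he]; exact Nat.floor_le (by linarith)
  have hpairs : ((n * n : ℕ) : ℝ) ^ e ≤ 2 ^ (Q * (2 * Real.logb 2 n)) := by
    have e1 : ((n * n : ℕ) : ℝ) = 2 ^ (2 * Real.logb 2 n) := by
      have e2 : (n : ℝ) = 2 ^ Real.logb 2 n := by
        rw [Real.rpow_logb (by norm_num) (by norm_num) hn0]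
      rw [two_mul, Real.rpow_add (by norm_num), ← e2]
      push_cast
      ring
    rw [e1, ← Real.rpow_natCast, ← Real.rpow_mul (by norm_num)]
    refine Real.rpow_le_rpow_of_exponent_le (by norm_num) ?_
    rw [mul_comm]
    exact mul_le_mul_of_nonneg_right heQ (by linarith)
  -- the size of a union
  have hsize : (m : ℝ) * a * ((n * n : ℕ) : ℝ) ^ e ≤ 2 ^ ((n : ℝ) ^ (2 - γ / 2)) := by
    have e1 : (n : ℝ) ≤ a := by
      have e2 : (n : ℝ) ≤ 2 ^ n := by exact_mod_cast (Nat.lt_two_pow_self (n := n)).le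
      refine e2.trans ?_
      rw [ha, ← Real.rpow_natCast]
      exact Real.rpow_le_rpow_of_exponent_le (by norm_num) hQn
    have e3 : (2 : ℝ) ≤ a := by
      rw [ha]
      calc (2 : ℝ) = 2 ^ (1 : ℝ) := (Real.rpow_one _).symm
        _ ≤ _ := Real.rpow_le_rpow_of_exponent_le (by norm_num) hQ1
    have e4 : (m : ℝ) ≤ a ^ 4 := by
      have e5 : (n : ℝ) ^ 2 ≤ a ^ 2 := pow_le_pow_left₀ hn0.le e1 2
      have e6 : (1 : ℝ) ≤ a ^ 3 := one_le_pow₀ ha1
      calc (m : ℝ) ≤ (n : ℝ) ^ 2 * a + 1 := hm2.le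
        _ ≤ a ^ 2 * a + 1 := by gcongr
        _ ≤ a ^ 3 + a ^ 3 := by linarith [show a ^ 2 * a = a ^ 3 by ring]
        _ = 2 * a ^ 3 := by ring
        _ ≤ a * a ^ 3 := by gcongr
        _ = a ^ 4 := by ring
    have e7 : (m : ℝ) * a ≤ 2 ^ (Q * 5) := by
      calc (m : ℝ) * a ≤ a ^ 4 * a := mul_le_mul_of_nonneg_right e4 ha0.le
        _ = a ^ 5 := by ring
        _ = 2 ^ (Q * 5) := by
            rw [ha, ← Real.rpow_natCast, ← Real.rpow_mul (by norm_num)]
            norm_num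
    calc (m : ℝ) * a * ((n * n : ℕ) : ℝ) ^ e
        ≤ 2 ^ (Q * 5) * 2 ^ (Q * (2 * Real.logb 2 n)) :=
          mul_le_mul e7 hpairs (by positivity) (by positivity)
      _ = 2 ^ (Q * (2 * Real.logb 2 n + 5)) := by
          rw [← Real.rpow_add (by norm_num)]
          congr 1
          ring
      _ ≤ 2 ^ ((n : ℝ) ^ (2 - γ / 2)) := by
          refine Real.rpow_le_rpow_of_exponent_le (by norm_num) ?_
          rw [hQ2]
          exact mul_le_mul_of_nonneg_left h5 (by linarith)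
  -- all graphs
  set X : Finset (SimpleGraph (Fin n)) :=
    (Set.toFinite {G : SimpleGraph (Fin n) | ∀ u : ℕ, ε * k ≤ u →
      G.CliqueFree u}).toFinset with hX
  have hmemX : ∀ G, G ∈ X ↔ ∀ u : ℕ, ε * k ≤ u → G.CliqueFree u := by
    intro G
    rw [hX, Set.Finite.mem_toFinset]
    rfl
  have hcardX : (X.card : ℝ) * (1 - 1 / a) ^ m < 1 := by
    have e1 : (X.card : ℝ) ≤ 2 ^ n ^ 2 := by exact_mod_cast card_graphs X
    have e2 : (1 - 1 / a) ≤ Real.exp (-(1 / a)) := by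
      have := Real.add_one_le_exp (-(1 / a))
      linarith
    have e3 : 0 ≤ 1 - 1 / a := by
      rw [sub_nonneg, div_le_one ha0]
      exact ha1
    have e4 : (1 - 1 / a) ^ m ≤ Real.exp (-((n : ℝ) ^ 2)) := by
      calc (1 - 1 / a) ^ m ≤ Real.exp (-(1 / a)) ^ m := pow_le_pow_left₀ e3 e2 m
        _ = Real.exp (m * (-(1 / a))) := by rw [← Real.exp_nat_mul]
        _ ≤ Real.exp (-((n : ℝ) ^ 2)) := by
            refine Real.exp_le_exp.2 ?_
            have : (n : ℝ) ^ 2 ≤ m * (1 / a) := by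
              rw [mul_one_div, le_div_iff₀ ha0]
              exact hm1
            linarith
    have e5 : (2 : ℝ) ^ n ^ 2 < Real.exp ((n : ℝ) ^ 2) := by
      have e6 : Real.exp ((n : ℝ) ^ 2) = Real.exp 1 ^ n ^ 2 := by
        rw [← Real.exp_nat_mul]
        push_cast
        ring_nf
      rw [e6]
      have e7 : (2 : ℝ) < Real.exp 1 := by
        have := Real.exp_one_gt_d9
        linarith
      exact pow_lt_pow_left₀ e7 (by norm_num) (by positivity)
    calc (X.card : ℝ) * (1 - 1 / a) ^ m ≤ 2 ^ n ^ 2 * Real.exp (-((n : ℝ) ^ 2)) :=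
          mul_le_mul e1 e4 (pow_nonneg e3 m) (by positivity)
      _ < Real.exp ((n : ℝ) ^ 2) * Real.exp (-((n : ℝ) ^ 2)) :=
          mul_lt_mul_of_pos_right e5 (Real.exp_pos _)
      _ = 1 := by rw [← Real.exp_add, add_neg_cancel, Real.exp_zero]
  obtain ⟨KK, hKne, hKc, hn₀'⟩ := hn₀ n h0
  -- the circuits
  let ι : Type := {z : (Σ N : ℕ, (Fin N → EGate n N)) // (z.1 : ℝ) ≤ a}
  let H : ι → SimpleGraph (Fin n) → Prop := fun z G =>
    ∃ out : Fin z.1.1, (KK.card : ℝ) ≤ (n : ℝ) ^ β *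
        (KK.filter (fun H => ∀ H' : SimpleGraph (Fin n), H ≤ H' →
          ∀ T P D E, ¬ EProof z.1.2 H' out T P D E)).card ∧
      ∃ (T : ℕ) (P : Finset (Fin z.1.1)) (D : ℕ) (E : Finset (Fin n × Fin n)),
      EProof z.1.2 G out T P D E ∧ (E.card : ℝ) ≤ Q ∧ ¬ ((n : ℝ) ^ (c * k) ≤ T ∧
        c * (k * Real.logb 2 n) ^ 2 ≤
          (D + k * Real.logb 2 n) * Real.logb 2 ((P.card : ℝ) + 1))
  have hcov : ∀ L : List ι, L.length ≤ m → ∃ G ∈ X, ∀ z ∈ L, ¬ H z G := by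
    intro L hL
    have hcardI : Fintype.card (Fin L.length × (Fin e → Fin n × Fin n)) =
        L.length * (n * n) ^ e := by
      rw [Fintype.card_prod, Fintype.card_fun, Fintype.card_prod, Fintype.card_fin,
        Fintype.card_fin, Fintype.card_fin]
    set eI : (Fin L.length × (Fin e → Fin n × Fin n)) ≃ Fin (L.length * (n * n) ^ e) :=
      Fintype.equivFinOfCardEq hcardI with heI
    set Ns : Fin (L.length * (n * n) ^ e) → ℕ := fun x => (L.get (eI.symm x).1).1.1 with hNs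
    set Cs : ∀ x, Fin (Ns x) → MGate n (Ns x) := fun x =>
      toM (univ.image (eI.symm x).2) (L.get (eI.symm x).1).1.2 with hCs
    have hN : ((∑ x, Ns x : ℕ) : ℝ) ≤ 2 ^ ((n : ℝ) ^ (2 - γ / 2)) := by
      refine le_trans ?_ hsize
      push_cast
      calc ∑ x, (Ns x : ℝ) ≤ ∑ _x : Fin (L.length * (n * n) ^ e), a :=
            sum_le_sum fun x _ => (L.get (eI.symm x).1).2
        _ = L.length * ((n : ℝ) * n) ^ e * a := by
            rw [sum_const, card_univ, Fintype.card_fin, nsmul_eq_mul]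
            push_cast
            ring
        _ ≤ m * ((n : ℝ) * n) ^ e * a := by
            gcongr
        _ = m * a * ((n : ℝ) * n) ^ e := by ring
    obtain ⟨G, hG1, hG2⟩ := hn₀' _ hN (UC Ns Cs)
    refine ⟨G, (hmemX G).2 hG1, ?_⟩
    intro z hz hH
    obtain ⟨i, hi⟩ := List.get_of_mem hz
    subst hi
    obtain ⟨out, hs, T, P, D, E, hp, hEQ, hnot⟩ := hH
    have hEe : E.card ≤ e := by
      rw [he]
      exact Nat.le_floor hEQ
    obtain ⟨w, hw1, hw2⟩ := exists_fun hnN E hEe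
    obtain ⟨x, hx⟩ : ∃ x, eI.symm x = (i, w) := ⟨eI (i, w), eI.symm_apply_apply _⟩
    -- the gate in the part `x`
    have key : ∀ (y : Fin L.length × (Fin e → Fin n × Fin n)), y = (i, w) →
        ∀ (hy : eI.symm x = y), ∃ o : Fin (Ns x),
          (KK.card : ℝ) ≤ (n : ℝ) ^ β * (KK.filter (fun H => ∀ T P D,
            ¬ Proof (Cs x) H o T P D)).card ∧
          ∃ P' : Finset (Fin (Ns x)), P'.card = P.card ∧ Proof (Cs x) G o T P' D := by
      intro y hyi hy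
      have hx1 : (eI.symm x).1 = i := by rw [hy, hyi]
      have hx2 : (eI.symm x).2 = w := by rw [hy, hyi]
      subst hx1
      refine ⟨out, ?_, P, rfl, ?_⟩
      · refine hs.trans (mul_le_mul_of_nonneg_left ?_ (Real.rpow_nonneg hn0.le _))
        refine Nat.cast_le.2 (card_le_card ?_)
        intro G' hG'
        rw [mem_filter] at hG' ⊢
        refine ⟨hG'.1, fun T' P' D' hp' => ?_⟩
        obtain ⟨T₂, P₂, D₂, F₂, hp₂⟩ := backward hp'
        exact hG'.2 _ le_sup_left _ _ _ _ hp₂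
      · refine forward ?_ hp ?_
        · intro z hz hne
          rw [hx2] at hz
          exact edges hp z (hw2 z hz hne)
        · rw [hx2]
          exact hw1
    obtain ⟨o, ho1, P', hP', ho2⟩ := key _ rfl hx
    have hs' : (KK.card : ℝ) ≤ (n : ℝ) ^ β *
        (KK.filter (fun H => ∀ T P D, ¬ Proof (UC Ns Cs) H (nam Ns x o) T P D)).card := by
      refine ho1.trans (mul_le_mul_of_nonneg_left ?_ (Real.rpow_nonneg hn0.le _))
      refine Nat.cast_le.2 (card_le_card ?_)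
      intro G' hG'
      rw [mem_filter] at hG' ⊢
      refine ⟨hG'.1, fun T' P'' D' hp' => ?_⟩
      obtain ⟨P₃, hp₃⟩ := down Ns Cs hp' x o rfl
      exact hG'.2 _ _ _ hp₃
    have hb := hG2 (nam Ns x o) hs' T _ D (up Ns Cs ho2)
    rw [card_image_of_injective _ (nam_inj Ns x), hP'] at hb
    exact hnot hb
  obtain ⟨Y, hYX, hYne, hY⟩ := greedy X H (1 / a) m
    (by rw [div_le_one ha0]; exact ha1) hcardX hcov
  refine ⟨Y, KK, hYne, hKne, fun G hG => (hmemX G).1 (hYX hG), hKc, fun N hN C => ?_⟩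
  have hQQ : (2 : ℝ) ^ ((n : ℝ) ^ (2 - γ₀)) ≤ a := by
    rw [ha, hQ]
    refine Real.rpow_le_rpow_of_exponent_le (by norm_num) ?_
    exact Real.rpow_le_rpow_of_exponent_le hn1 (by linarith)
  obtain ⟨B, hB1, hB2, hB3⟩ := hY ⟨⟨N, C⟩, hN.trans hQQ⟩
  refine ⟨B, hB1, ?_, ?_⟩
  · rw [one_div_mul_eq_div, le_div_iff₀ ha0] at hB2
    calc (2 : ℝ) ^ ((n : ℝ) ^ (2 - γ₀)) * (B.card : ℝ) ≤ a * B.card :=
          mul_le_mul_of_nonneg_right hQQ (Nat.cast_nonneg _)
      _ ≤ Y.card := by linarith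
  · intro G hG hGB out hs T P D E hp hE
    by_contra hcon
    have hE' : (E.card : ℝ) ≤ Q := by
      refine hE.trans ?_
      rw [hQ]
      exact Real.rpow_le_rpow_of_exponent_le hn1 (by linarith)
    exact hB3 G hG hGB ⟨out, hs, T, P, D, E, hp, hE', hcon⟩

end Pool.Agent.KCN
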