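import Pool.Agent.Lib.KCN.Defs

/-!
# Row TBX: assembly of the main theorem
-/

set_option autoImplicit false

namespace Pool.Agent.KCN

open Finset Pool.Agent.SL Pool.Agent.KCM

namespace TBXx

theorem card_Vx (k' K w : ℕ) : Fintype.card (Vx k' K w) = w ^ (K ^ (2 * k')) := by
  rw [Fintype.card_fun, Fintype.card_fun, Fintype.card_fin, Fintype.card_fin, Fintype.card_prod,
    Fintype.card_fin, Fintype.card_bool, mul_comm k' 2]

theorem card_tuples (k' K w : ℕ) : Fintype.card (Fin k' → Vx k' K w × Vx k' K w) =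
    (w ^ (K ^ (2 * k')) * w ^ (K ^ (2 * k'))) ^ k' := by
  rw [Fintype.card_fun, Fintype.card_prod, card_Vx, Fintype.card_fin]

/-- the core, for fixed parameters -/
theorem core (h5 : P5) (hst : ST) (hgr : GR) (hacc : ACC) {k' e n K w D q m κ : ℕ}
    (hk : 1 ≤ k') (hK : 1 ≤ K) (hw : 1 ≤ w) (hD : 1 ≤ D) (hq : 1 ≤ q) (hm : 1 ≤ m) (hκ : 1 ≤ κ)
    (hDK : 2 * D ≤ K) (hn : 2 * k' * w ^ (K ^ (2 * k')) + e ≤ n)
    (hqw : q ≤ w ^ (2 * K ^ (2 * k' - 1) * (K - 2 * D)))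
    (hmk : 4 * w ^ (K * K ^ (2 * k')) ≤ m ^ k')
    (V : Finset (Finset (Fin (2 * k' + e) → Fin n)))
    (hF : 4 * (((V.card + 1) ^ 3 + 1) *
      (2 ^ k' * (w ^ (K ^ (2 * k')) * w ^ (K ^ (2 * k'))) ^ k') * 2 ^ k') ≤ 4 ^ κ)
    (hL : Lam k' m κ q D ≤ 1 / 4) :
    ∃ G : SimpleGraph (Fin n), G.CliqueFree (2 * k' + e) ∧
      ∀ (T : ℕ) (ee : (Fin (2 * k' + e) → Fin n) → ℕ), Der G V univ T ee →
        1 ≤ 16 * Lam k' m κ q D * T := by
  classical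
  obtain ⟨hne, hcard, hsp⟩ := hst k' K w (2 * D) q hk hK hw hDK hqw
  obtain ⟨φ, hφ⟩ := hgr k' e n K w hk hK hw hn
  set S := SS k' K w with hS
  set V1 : Finset (Finset (Fin (2 * k' + e) → Fin n)) := insert ∅ V with hV1
  set Fam : Finset (Finset (Fin k' → Vx k' K w × Vx k' K w)) :=
    (V1 ×ˢ V1 ×ˢ V1).image (fun z => UU S φ z.1 z.2.1 z.2.2) with hFam
  have hFcard : Fam.card ≤ (V.card + 1) ^ 3 := by
    refine card_image_le.trans ?_
    rw [card_product, card_product]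
    have h1 : V1.card ≤ V.card + 1 := card_insert_le _ _
    calc V1.card * (V1.card * V1.card) ≤ (V.card + 1) * ((V.card + 1) * (V.card + 1)) :=
          Nat.mul_le_mul h1 (Nat.mul_le_mul h1 h1)
      _ = (V.card + 1) ^ 3 := by ring
  have hmem : ∀ W₁ W₂ W₃ : Finset (Fin (2 * k' + e) → Fin n), (W₁ ∈ V ∨ W₁ = ∅) →
      (W₂ ∈ V ∨ W₂ = ∅) → (W₃ ∈ V ∨ W₃ = ∅) → UU S φ W₁ W₂ W₃ ∈ Fam := by
    intro W₁ W₂ W₃ h1 h2 h3
    refine mem_image.2 ⟨(W₁, W₂, W₃), ?_, rfl⟩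
    have hi : ∀ W : Finset (Fin (2 * k' + e) → Fin n), (W ∈ V ∨ W = ∅) → W ∈ V1 := by
      rintro W (h | h)
      · exact mem_insert_of_mem h
      · rw [h]; exact mem_insert_self _ _
    rw [mem_product, mem_product]
    exact ⟨hi _ h1, hi _ h2, hi _ h3⟩
  have hFS : ∀ U ∈ Fam, U ⊆ S := by
    intro U hU
    obtain ⟨z, _, rfl⟩ := mem_image.1 hU
    exact filter_subset _ _
  have hcond : 4 * ((Fam.card + 1) *
      (2 ^ k' * Fintype.card (Fin k' → Vx k' K w × Vx k' K w)) * 2 ^ k') ≤ 4 ^ κ := by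
    rw [card_tuples]
    refine le_trans ?_ hF
    gcongr
  obtain ⟨g, f, hg1, hg2, hg3, hg4⟩ := h5 k' m κ q D (Vx k' K w × Vx k' K w) hk hm hκ hq hD
    (fun _ => ⟨0, hm⟩) S Fam hne hsp hFS hcond
    ((Nat.mul_le_mul_left 4 hcard).trans hmk) hL
  obtain ⟨G, hG1, hG2⟩ := hφ m g (fun _ => ⟨0, hm⟩) hg1
  refine ⟨G, hG1, fun T ee hDer => ?_⟩
  have hScard : (0 : ℝ) < S.card := by exact_mod_cast card_pos.2 hne
  have hLam0 : 0 ≤ Lam k' m κ q D := by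
    unfold Lam
    positivity
  have hacc' := hacc (2 * k' + e) n (Fin k' → Vx k' K w × Vx k' K w) G V S φ f
    (Lam k' m κ q D * S.card) (by positivity)
    (fun W₁ W₂ W₃ h1 h2 h3 => hg3 _ (hmem W₁ W₂ W₃ h1 h2 h3))
    (fun W₁ W₂ h1 h2 i j a b hij hab hx => by
      rcases hG2 i j a b hij hab with h | ⟨l, c, hc, h⟩
      · have hempty : UU S φ W₁ W₂ ∅ = ∅ := by
          rw [eq_empty_iff_forall_notMem]
          intro x hxU
          exact h x (filter_subset _ _ hxU) (hx x hxU)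
        rw [hempty, sum_empty]
        positivity
      · refine hg4 _ (hmem W₁ W₂ ∅ h1 h2 (Or.inr rfl)) l c (fun x hxU => ?_) hc
        exact h x (filter_subset _ _ hxU) (hx x hxU).1 (hx x hxU).2) T ee hDer
  have h1 : (S.card : ℝ) / 4 ≤ 4 * T * (Lam k' m κ q D * S.card) := hg2.trans hacc'
  have h2 : (S.card : ℝ) * 1 ≤ S.card * (16 * Lam k' m κ q D * T) := by nlinarith
  exact le_of_mul_le_mul_left h2 hScard

end TBXx

open TBXx in
/-- TBX -/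
theorem tbx (h5 : P5) (hst : ST) (hgr : GR) (hacc : ACC) (hpar : PAR) : TB := by
  intro γ hγ
  set γ' : ℝ := min γ 1 with hγ'
  have hγ0 : 0 < γ' := lt_min hγ one_pos
  have hγ1 : γ' ≤ 1 := min_le_right _ _
  have hγγ : γ' ≤ γ := min_le_left _ _
  obtain ⟨c, hc, k₀, hk₀⟩ := hpar γ' hγ0 hγ1
  refine ⟨c, hc, 2 * k₀ + 2, fun k hk => ?_⟩
  obtain ⟨k', e, he, hk', hk1, rfl⟩ : ∃ k' e, e ≤ 1 ∧ k₀ ≤ k' ∧ 1 ≤ k' ∧ k = 2 * k' + e :=
    ⟨k / 2, k % 2, by omega, by omega, by omega, by omega⟩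
  obtain ⟨n₀, hn₀⟩ := hk₀ k' e hk' he
  refine ⟨max n₀ 1, fun n hn V hV => ?_⟩
  obtain ⟨K, w, D, q, m, κ, h1, h2, h3, h4, h5', h6, h7, h8, h9, h10, h11, h12, h13⟩ :=
    hn₀ n (le_trans (le_max_left _ _) hn)
  have hn1 : (1 : ℝ) ≤ n := by exact_mod_cast le_trans (le_max_right _ _) hn
  have hV' : ((((V.card + 1) ^ 3 : ℕ)) : ℝ) ≤ ((2 : ℝ) ^ ((n : ℝ) ^ (2 - γ')) + 1) ^ 3 := by
    push_cast
    have h14 : (V.card : ℝ) ≤ (2 : ℝ) ^ ((n : ℝ) ^ (2 - γ')) := by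
      refine hV.trans ?_
      refine Real.rpow_le_rpow_of_exponent_le (by norm_num) ?_
      exact Real.rpow_le_rpow_of_exponent_le hn1 (by linarith)
    gcongr
  obtain ⟨G, hG, hD⟩ := core h5 hst hgr hacc (k' := k') (e := e) (n := n) hk1 h1 h2 h3 h4 h5' h6
    h7 h8 h9 h10 V (h11 _ hV') h12
  refine ⟨G, hG, fun T ee hDer => ?_⟩
  have h15 := hD T ee hDer
  have hLam0 : 0 ≤ Lam k' m κ q D := by
    unfold Lam
    positivity
  have hT0 : (0 : ℝ) ≤ T := Nat.cast_nonneg _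
  have hLam : 0 < Lam k' m κ q D := by
    rcases hLam0.eq_or_lt with h | h
    · rw [← h] at h15
      norm_num at h15
    · exact h
  push_cast
  have h16 : 16 * Lam k' m κ q D * (n : ℝ) ^ (c * (2 * k' + e)) ≤ 16 * Lam k' m κ q D * T :=
    h13.trans h15
  exact le_of_mul_le_mul_left h16 (by positivity)

end Pool.Agent.KCN
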