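import Pool.Agent.Lib.KCN.Dag

/-!
# Theorem C, row W: the accounting along a dag-like search
-/

set_option autoImplicit false

namespace Pool.Agent.KCN

open Finset

open Classical in
/-- the elements of `S` which satisfy the literals of `L` -/
noncomputable def UL {k n : ℕ} {Ω : Type} (S : Finset Ω) (φ : Ω → (Fin k → Fin n))
    (L : List (Finset (Fin k → Fin n) × Bool)) : Finset Ω :=
  S.filter (fun x => ∀ l ∈ L, (φ x ∈ l.1 ↔ l.2 = true))

namespace Wx

section

variable {k n : ℕ} {ι : Type} (W : ι → Finset (Fin k → Fin n)) (p1 p2 : ι → Option ι)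

/-- the set of an optional line -/
def Wo : Option (ι) → Finset (Fin k → Fin n)
  | none => ∅
  | some t => W t

/-- the next line for the tuple `v` -/
def nxt (t : ι) (v : Fin k → Fin n) : Option (ι) :=
  if v ∈ Wo W (p1 t) then p1 t else if v ∈ Wo W (p2 t) then p2 t else none

/-- `q` steps -/
def walk : ℕ → ι → (Fin k → Fin n) → Option (ι)
  | 0, t, _ => some t
  | q + 1, t, v => (nxt W p1 p2 t v).bind (fun r => walk q r v)

theorem walk_mem (q : ℕ) : ∀ (t : ι) (v : Fin k → Fin n), v ∈ W t → ∀ e,
    walk W p1 p2 q t v = some e → v ∈ W e := by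
  induction q with
  | zero =>
    intro t v hv e he
    simp only [walk, Option.some.injEq] at he
    rw [← he]
    exact hv
  | succ q ih =>
    intro t v hv e he
    simp only [walk, nxt] at he
    by_cases h1 : v ∈ Wo W (p1 t)
    · rw [if_pos h1] at he
      rcases hp : p1 t with _ | r
      · rw [hp] at h1
        simp [Wo] at h1
      · rw [hp] at he h1
        exact ih r v h1 e he
    · rw [if_neg h1] at he
      by_cases h2 : v ∈ Wo W (p2 t)
      · rw [if_pos h2] at he
        rcases hp : p2 t with _ | r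
        · rw [hp] at h2
          simp [Wo] at h2
        · rw [hp] at he h2
          exact ih r v h2 e he
      · rw [if_neg h2] at he
        simp at he

theorem walk_rank (rank : ι → ℕ) (h1 : ∀ t r, p1 t = some r → rank r < rank t)
    (h2 : ∀ t r, p2 t = some r → rank r < rank t) (q : ℕ) : ∀ (t : ι) (v : Fin k → Fin n) (e),
    walk W p1 p2 q t v = some e → rank e + q ≤ rank t := by
  induction q with
  | zero =>
    intro t v e he
    simp only [walk, Option.some.injEq] at he
    rw [← he]
    exact le_refl _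
  | succ q ih =>
    intro t v e he
    simp only [walk, nxt] at he
    by_cases hv1 : v ∈ Wo W (p1 t)
    · rw [if_pos hv1] at he
      rcases hp : p1 t with _ | r
      · rw [hp] at hv1
        simp [Wo] at hv1
      · rw [hp] at he
        have := ih r v e he
        have := h1 t r hp
        omega
    · rw [if_neg hv1] at he
      by_cases hv2 : v ∈ Wo W (p2 t)
      · rw [if_pos hv2] at he
        rcases hp : p2 t with _ | r
        · rw [hp] at hv2
          simp [Wo] at hv2
        · rw [hp] at he
          have := ih r v e he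
          have := h2 t r hp
          omega
      · rw [if_neg hv2] at he
        simp at he

end

section

variable {k n : ℕ} {ι : Type} {Ω : Type} (S : Finset Ω) (φ : Ω → (Fin k → Fin n)) (f : Ω → ℝ)

theorem mem_UL {L : List (Finset (Fin k → Fin n) × Bool)} {x : Ω} :
    x ∈ UL S φ L ↔ x ∈ S ∧ ∀ l ∈ L, (φ x ∈ l.1 ↔ l.2 = true) := by
  classical
  unfold UL
  rw [mem_filter]

theorem mem_ULc {L : List (Finset (Fin k → Fin n) × Bool)} {A : Finset (Fin k → Fin n)}
    {β : Bool} {x : Ω} :
    x ∈ UL S φ ((A, β) :: L) ↔ x ∈ UL S φ L ∧ (φ x ∈ A ↔ β = true) := by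
  rw [mem_UL, mem_UL]
  simp only [List.mem_cons, forall_eq_or_imp]
  tauto

open Classical in
/-- the three parts -/
theorem split3 (L : List (Finset (Fin k → Fin n) × Bool)) (A B : Finset (Fin k → Fin n))
    (Q : Ω → Prop) :
    ∑ x ∈ (UL S φ L).filter Q, f x =
      ∑ x ∈ (UL S φ ((A, true) :: L)).filter Q, f x +
      ∑ x ∈ (UL S φ ((B, true) :: (A, false) :: L)).filter Q, f x +
      ∑ x ∈ (UL S φ ((B, false) :: (A, false) :: L)).filter Q, f x := by
  have e1 : ∀ x, x ∈ UL S φ ((A, true) :: L) ↔ x ∈ UL S φ L ∧ φ x ∈ A := by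
    intro x
    rw [mem_ULc]
    simp
  have e2 : ∀ x, x ∈ UL S φ ((B, true) :: (A, false) :: L) ↔
      x ∈ UL S φ L ∧ φ x ∉ A ∧ φ x ∈ B := by
    intro x
    rw [mem_ULc, mem_ULc]
    simp
    tauto
  have e3 : ∀ x, x ∈ UL S φ ((B, false) :: (A, false) :: L) ↔
      x ∈ UL S φ L ∧ φ x ∉ A ∧ φ x ∉ B := by
    intro x
    rw [mem_ULc, mem_ULc]
    simp
    tauto
  have h1 : ((UL S φ L).filter Q).filter (fun x => φ x ∈ A) =
      (UL S φ ((A, true) :: L)).filter Q := by
    ext x
    simp only [mem_filter, e1]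
    tauto
  have h2 : (((UL S φ L).filter Q).filter (fun x => φ x ∉ A)).filter (fun x => φ x ∈ B) =
      (UL S φ ((B, true) :: (A, false) :: L)).filter Q := by
    ext x
    simp only [mem_filter, e2]
    tauto
  have h3 : (((UL S φ L).filter Q).filter (fun x => φ x ∉ A)).filter (fun x => φ x ∉ B) =
      (UL S φ ((B, false) :: (A, false) :: L)).filter Q := by
    ext x
    simp only [mem_filter, e3]
    tauto
  rw [← sum_filter_add_sum_filter_not ((UL S φ L).filter Q) (fun x => φ x ∈ A),
    ← sum_filter_add_sum_filter_not (((UL S φ L).filter Q).filter fun x => φ x ∉ A)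
      (fun x => φ x ∈ B), h1, h2, h3]
  ring

variable (V : Finset (Finset (Fin k → Fin n))) (Λ : ℝ) (r : ℕ)
  (W : ι → Finset (Fin k → Fin n)) (p1 p2 : ι → Option (ι))

open Classical in
/-- lower bound for all sets of ends -/
theorem lowE (hΛ : 0 ≤ Λ)
    (hlow : ∀ L : List (Finset (Fin k → Fin n) × Bool), L.length ≤ r →
      (∀ l ∈ L, l.1 ∈ V ∨ l.1 = ∅) → -Λ ≤ ∑ x ∈ UL S φ L, f x)
    (hWV : ∀ t, W t ∈ V) (q : ℕ) :
    ∀ (L : List (Finset (Fin k → Fin n) × Bool)) (t : ι) (E : Option (ι) → Prop),
      L.length + 2 * q ≤ r → (∀ l ∈ L, l.1 ∈ V ∨ l.1 = ∅) →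
      -((2 ^ (q + 1) - 1) * Λ) ≤
        ∑ x ∈ (UL S φ L).filter (fun x => E (walk W p1 p2 q t (φ x))), f x := by
  have hWo : ∀ o : Option (ι), Wo W o ∈ V ∨ Wo W o = ∅ := by
    intro o
    cases o with
    | none => exact Or.inr rfl
    | some t => exact Or.inl (hWV t)
  induction q with
  | zero =>
    intro L t E hr hL
    by_cases hE : E (some t)
    · have e : (UL S φ L).filter (fun x => E (walk W p1 p2 0 t (φ x))) = UL S φ L := by
        refine filter_true_of_mem fun x _ => ?_
        exact hE
      rw [e]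
      have := hlow L (by omega) hL
      norm_num
      exact this
    · have e : (UL S φ L).filter (fun x => E (walk W p1 p2 0 t (φ x))) = ∅ := by
        refine filter_false_of_mem fun x _ => ?_
        exact hE
      rw [e, sum_empty]
      norm_num
      exact hΛ
  | succ q ih =>
    intro L t E hr hL
    rw [split3 S φ f L (Wo W (p1 t)) (Wo W (p2 t))]
    have hp : (2 : ℝ) ^ (q + 1 + 1) = 2 * 2 ^ (q + 1) := by ring
    have hp0 : (1 : ℝ) ≤ 2 ^ (q + 1) := one_le_pow₀ (by norm_num)
    have a1 : -((2 ^ (q + 1) - 1) * Λ) ≤ ∑ x ∈ (UL S φ ((Wo W (p1 t), true) :: L)).filter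
        (fun x => E (walk W p1 p2 (q + 1) t (φ x))), f x := by
      rcases hpt : p1 t with _ | r1
      · have e : (UL S φ ((Wo W (none : Option (ι)), true) :: L)).filter
            (fun x => E (walk W p1 p2 (q + 1) t (φ x))) = ∅ := by
          rw [eq_empty_iff_forall_notMem]
          intro x hx
          rw [mem_filter, mem_ULc] at hx
          have := hx.1.2
          simp [Wo] at this
        rw [e, sum_empty]
        have : 0 ≤ (2 ^ (q + 1) - 1) * Λ := mul_nonneg (by linarith) hΛ
        linarith
      · have e : (UL S φ ((Wo W (some r1), true) :: L)).filter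
            (fun x => E (walk W p1 p2 (q + 1) t (φ x))) =
            (UL S φ ((Wo W (some r1), true) :: L)).filter
            (fun x => E (walk W p1 p2 q r1 (φ x))) := by
          refine filter_congr fun x hx => ?_
          rw [mem_ULc] at hx
          have hx2 : φ x ∈ Wo W (some r1) := by simpa using hx.2
          have : walk W p1 p2 (q + 1) t (φ x) = walk W p1 p2 q r1 (φ x) := by
            simp only [walk, nxt]
            rw [hpt, if_pos hx2]
            rfl
          rw [this]
        rw [e]
        refine ih _ r1 E ?_ ?_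
        · simp only [List.length_cons]
          omega
        · intro l hl
          rw [List.mem_cons] at hl
          rcases hl with rfl | hl
          · exact hWo (some r1)
          · exact hL l hl
    have a2 : -((2 ^ (q + 1) - 1) * Λ) ≤
        ∑ x ∈ (UL S φ ((Wo W (p2 t), true) :: (Wo W (p1 t), false) :: L)).filter
        (fun x => E (walk W p1 p2 (q + 1) t (φ x))), f x := by
      rcases hpt : p2 t with _ | r2
      · have e : (UL S φ ((Wo W (none : Option (ι)), true) ::
            (Wo W (p1 t), false) :: L)).filter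
            (fun x => E (walk W p1 p2 (q + 1) t (φ x))) = ∅ := by
          rw [eq_empty_iff_forall_notMem]
          intro x hx
          rw [mem_filter, mem_ULc] at hx
          have := hx.1.2
          simp [Wo] at this
        rw [e, sum_empty]
        have : 0 ≤ (2 ^ (q + 1) - 1) * Λ := mul_nonneg (by linarith) hΛ
        linarith
      · have e : (UL S φ ((Wo W (some r2), true) :: (Wo W (p1 t), false) :: L)).filter
            (fun x => E (walk W p1 p2 (q + 1) t (φ x))) =
            (UL S φ ((Wo W (some r2), true) :: (Wo W (p1 t), false) :: L)).filter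
            (fun x => E (walk W p1 p2 q r2 (φ x))) := by
          refine filter_congr fun x hx => ?_
          rw [mem_ULc, mem_ULc] at hx
          have hx1 : φ x ∉ Wo W (p1 t) := by
            have := hx.1.2
            simpa using this
          have hx2 : φ x ∈ Wo W (some r2) := by simpa using hx.2
          have : walk W p1 p2 (q + 1) t (φ x) = walk W p1 p2 q r2 (φ x) := by
            simp only [walk, nxt]
            rw [if_neg hx1, hpt, if_pos hx2]
            rfl
          rw [this]
        rw [e]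
        refine ih _ r2 E ?_ ?_
        · simp only [List.length_cons]
          omega
        · intro l hl
          rw [List.mem_cons, List.mem_cons] at hl
          rcases hl with rfl | rfl | hl
          · exact hWo (some r2)
          · exact hWo _
          · exact hL l hl
    have a3 : -Λ ≤
        ∑ x ∈ (UL S φ ((Wo W (p2 t), false) :: (Wo W (p1 t), false) :: L)).filter
        (fun x => E (walk W p1 p2 (q + 1) t (φ x))), f x := by
      have hw : ∀ x ∈ UL S φ ((Wo W (p2 t), false) :: (Wo W (p1 t), false) :: L),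
          walk W p1 p2 (q + 1) t (φ x) = none := by
        intro x hx
        rw [mem_ULc, mem_ULc] at hx
        have hx1 : φ x ∉ Wo W (p1 t) := by
          have := hx.1.2
          simpa using this
        have hx2 : φ x ∉ Wo W (p2 t) := by simpa using hx.2
        simp only [walk, nxt]
        rw [if_neg hx1, if_neg hx2]
        rfl
      by_cases hE : E none
      · have e : (UL S φ ((Wo W (p2 t), false) :: (Wo W (p1 t), false) :: L)).filter
            (fun x => E (walk W p1 p2 (q + 1) t (φ x))) =
            UL S φ ((Wo W (p2 t), false) :: (Wo W (p1 t), false) :: L) := by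
          refine filter_true_of_mem fun x hx => ?_
          rw [hw x hx]
          exact hE
        rw [e]
        refine hlow _ ?_ ?_
        · simp only [List.length_cons]
          omega
        · intro l hl
          rw [List.mem_cons, List.mem_cons] at hl
          rcases hl with rfl | rfl | hl
          · exact hWo _
          · exact hWo _
          · exact hL l hl
      · have e : (UL S φ ((Wo W (p2 t), false) :: (Wo W (p1 t), false) :: L)).filter
            (fun x => E (walk W p1 p2 (q + 1) t (φ x))) = ∅ := by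
          refine filter_false_of_mem fun x hx => ?_
          rw [hw x hx]
          exact hE
        rw [e, sum_empty]
        linarith
    rw [hp]
    linarith

open Classical in
/-- upper bound for the stopped part -/
theorem uppE {G : SimpleGraph (Fin n)} (hΛ : 0 ≤ Λ) (E : Option (ι) → Prop)
    (hE0 : E none) (hE1 : ∀ e, ¬ E (some e))
    (hupp : ∀ L : List (Finset (Fin k → Fin n) × Bool), L.length ≤ r →
      (∀ l ∈ L, l.1 ∈ V ∨ l.1 = ∅) → ∀ (i j : Fin k) (a b : Fin n), i ≠ j → ¬ G.Adj a b →
      (∀ x ∈ UL S φ L, φ x i = a ∧ φ x j = b) → ∑ x ∈ UL S φ L, f x ≤ Λ)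
    (hWV : ∀ t, W t ∈ V)
    (hinf : ∀ t, ∃ (i j : Fin k) (a b : Fin n), i ≠ j ∧ ¬ G.Adj a b ∧
      ∀ v ∈ W t, v ∉ Wo W (p1 t) → v ∉ Wo W (p2 t) → (v i = a ∧ v j = b)) (q : ℕ) :
    ∀ (L : List (Finset (Fin k → Fin n) × Bool)) (t : ι),
      L.length + 2 * q ≤ r → (∀ l ∈ L, l.1 ∈ V ∨ l.1 = ∅) →
      (∀ x ∈ UL S φ L, φ x ∈ W t) →
      ∑ x ∈ (UL S φ L).filter (fun x => E (walk W p1 p2 q t (φ x))), f x ≤
        (2 ^ q - 1) * Λ := by
  have hWo : ∀ o : Option (ι), Wo W o ∈ V ∨ Wo W o = ∅ := by
    intro o
    cases o with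
    | none => exact Or.inr rfl
    | some t => exact Or.inl (hWV t)
  induction q with
  | zero =>
    intro L t hr hL hLt
    have e : (UL S φ L).filter (fun x => E (walk W p1 p2 0 t (φ x))) = ∅ := by
      refine filter_false_of_mem fun x _ => ?_
      exact hE1 t
    rw [e, sum_empty]
    norm_num
  | succ q ih =>
    intro L t hr hL hLt
    rw [split3 S φ f L (Wo W (p1 t)) (Wo W (p2 t))]
    have hp : (2 : ℝ) ^ (q + 1) = 2 * 2 ^ q := by ring
    have hp0 : (1 : ℝ) ≤ 2 ^ q := one_le_pow₀ (by norm_num)
    have hz : 0 ≤ (2 ^ q - 1) * Λ := mul_nonneg (by linarith) hΛ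
    have a1 : ∑ x ∈ (UL S φ ((Wo W (p1 t), true) :: L)).filter
        (fun x => E (walk W p1 p2 (q + 1) t (φ x))), f x ≤ (2 ^ q - 1) * Λ := by
      rcases hpt : p1 t with _ | r1
      · have e : (UL S φ ((Wo W (none : Option (ι)), true) :: L)).filter
            (fun x => E (walk W p1 p2 (q + 1) t (φ x))) = ∅ := by
          rw [eq_empty_iff_forall_notMem]
          intro x hx
          rw [mem_filter, mem_ULc] at hx
          have := hx.1.2
          simp [Wo] at this
        rw [e, sum_empty]
        exact hz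
      · have e : (UL S φ ((Wo W (some r1), true) :: L)).filter
            (fun x => E (walk W p1 p2 (q + 1) t (φ x))) =
            (UL S φ ((Wo W (some r1), true) :: L)).filter
            (fun x => E (walk W p1 p2 q r1 (φ x))) := by
          refine filter_congr fun x hx => ?_
          rw [mem_ULc] at hx
          have hx2 : φ x ∈ Wo W (some r1) := by simpa using hx.2
          have : walk W p1 p2 (q + 1) t (φ x) = walk W p1 p2 q r1 (φ x) := by
            simp only [walk, nxt]
            rw [hpt, if_pos hx2]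
            rfl
          rw [this]
        rw [e]
        refine ih _ r1 ?_ ?_ ?_
        · simp only [List.length_cons]
          omega
        · intro l hl
          rw [List.mem_cons] at hl
          rcases hl with rfl | hl
          · exact hWo (some r1)
          · exact hL l hl
        · intro x hx
          rw [mem_ULc] at hx
          have hx2 : φ x ∈ Wo W (some r1) := by simpa using hx.2
          exact hx2
    have a2 : ∑ x ∈ (UL S φ ((Wo W (p2 t), true) :: (Wo W (p1 t), false) :: L)).filter
        (fun x => E (walk W p1 p2 (q + 1) t (φ x))), f x ≤ (2 ^ q - 1) * Λ := by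
      rcases hpt : p2 t with _ | r2
      · have e : (UL S φ ((Wo W (none : Option (ι)), true) ::
            (Wo W (p1 t), false) :: L)).filter
            (fun x => E (walk W p1 p2 (q + 1) t (φ x))) = ∅ := by
          rw [eq_empty_iff_forall_notMem]
          intro x hx
          rw [mem_filter, mem_ULc] at hx
          have := hx.1.2
          simp [Wo] at this
        rw [e, sum_empty]
        exact hz
      · have e : (UL S φ ((Wo W (some r2), true) :: (Wo W (p1 t), false) :: L)).filter
            (fun x => E (walk W p1 p2 (q + 1) t (φ x))) =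
            (UL S φ ((Wo W (some r2), true) :: (Wo W (p1 t), false) :: L)).filter
            (fun x => E (walk W p1 p2 q r2 (φ x))) := by
          refine filter_congr fun x hx => ?_
          rw [mem_ULc, mem_ULc] at hx
          have hx1 : φ x ∉ Wo W (p1 t) := by
            have := hx.1.2
            simpa using this
          have hx2 : φ x ∈ Wo W (some r2) := by simpa using hx.2
          have : walk W p1 p2 (q + 1) t (φ x) = walk W p1 p2 q r2 (φ x) := by
            simp only [walk, nxt]
            rw [if_neg hx1, hpt, if_pos hx2]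
            rfl
          rw [this]
        rw [e]
        refine ih _ r2 ?_ ?_ ?_
        · simp only [List.length_cons]
          omega
        · intro l hl
          rw [List.mem_cons, List.mem_cons] at hl
          rcases hl with rfl | rfl | hl
          · exact hWo (some r2)
          · exact hWo _
          · exact hL l hl
        · intro x hx
          rw [mem_ULc] at hx
          have hx2 : φ x ∈ Wo W (some r2) := by simpa using hx.2
          exact hx2
    have a3 : ∑ x ∈ (UL S φ ((Wo W (p2 t), false) :: (Wo W (p1 t), false) :: L)).filter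
        (fun x => E (walk W p1 p2 (q + 1) t (φ x))), f x ≤ Λ := by
      have hw : ∀ x ∈ UL S φ ((Wo W (p2 t), false) :: (Wo W (p1 t), false) :: L),
          x ∈ UL S φ L ∧ φ x ∉ Wo W (p1 t) ∧ φ x ∉ Wo W (p2 t) := by
        intro x hx
        rw [mem_ULc, mem_ULc] at hx
        exact ⟨hx.1.1, by simpa using hx.1.2, by simpa using hx.2⟩
      have e : (UL S φ ((Wo W (p2 t), false) :: (Wo W (p1 t), false) :: L)).filter
            (fun x => E (walk W p1 p2 (q + 1) t (φ x))) =
            UL S φ ((Wo W (p2 t), false) :: (Wo W (p1 t), false) :: L) := by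
        refine filter_true_of_mem fun x hx => ?_
        obtain ⟨-, hx1, hx2⟩ := hw x hx
        have hwn : walk W p1 p2 (q + 1) t (φ x) = none := by
          simp only [walk, nxt]
          rw [if_neg hx1, if_neg hx2]
          rfl
        rw [hwn]
        exact hE0
      rw [e]
      obtain ⟨i, j, a, b, hij, hab, hv⟩ := hinf t
      refine hupp _ ?_ ?_ i j a b hij hab ?_
      · simp only [List.length_cons]
        omega
      · intro l hl
        rw [List.mem_cons, List.mem_cons] at hl
        rcases hl with rfl | rfl | hl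
        · exact hWo _
        · exact hWo _
        · exact hL l hl
      · intro x hx
        obtain ⟨hx0, hx1, hx2⟩ := hw x hx
        exact hv (φ x) (hLt x hx0) hx1 hx2
    rw [hp]
    linarith

end

end Wx

open Wx in
/-- W: the accounting along a family of lines, general form -/
theorem walk_gen {k n : ℕ} {Ω : Type} (G : SimpleGraph (Fin n))
    (V : Finset (Finset (Fin k → Fin n))) (S : Finset Ω) (φ : Ω → (Fin k → Fin n)) (f : Ω → ℝ)
    (Λ : ℝ) (hΛ : 0 ≤ Λ) (q : ℕ) (hq : 1 ≤ q)
    (hlow : ∀ L : List (Finset (Fin k → Fin n) × Bool), L.length ≤ 2 * q + 2 →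
      (∀ l ∈ L, l.1 ∈ V ∨ l.1 = ∅) → -Λ ≤ ∑ x ∈ UL S φ L, f x)
    (hupp : ∀ L : List (Finset (Fin k → Fin n) × Bool), L.length ≤ 2 * q + 2 →
      (∀ l ∈ L, l.1 ∈ V ∨ l.1 = ∅) → ∀ (i j : Fin k) (a b : Fin n), i ≠ j → ¬ G.Adj a b →
      (∀ x ∈ UL S φ L, φ x i = a ∧ φ x j = b) → ∑ x ∈ UL S φ L, f x ≤ Λ)
    {ι : Type} [Fintype ι] [DecidableEq ι] {D : ℕ} (W : ι → Finset (Fin k → Fin n))
    (rank : ι → ℕ) (hWV : ∀ t, W t ∈ V) (t₀ : ι) (hrank : rank t₀ ≤ D)
    (ht₀ : ∀ x ∈ S, φ x ∈ W t₀)
    (hinf : ∀ t, ∃ J : Finset ι, J.card ≤ 2 ∧ (∀ r ∈ J, rank r < rank t) ∧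
      ∃ (i j : Fin k) (a b : Fin n), i ≠ j ∧ ¬ G.Adj a b ∧
        ∀ v ∈ W t, (∃ r ∈ J, v ∈ W r) ∨ (v i = a ∧ v j = b)) :
    ∑ x ∈ S, f x ≤
      2 ^ (q + 2) * ((D / q + 1 : ℕ) : ℝ) * (Fintype.card ι : ℝ) ^ (D / q + 1) * Λ := by
  classical
  -- the two parents
  have hpar : ∀ t, ∃ p1 p2 : Option ι, (∀ r, p1 = some r → rank r < rank t) ∧
      (∀ r, p2 = some r → rank r < rank t) ∧
      ∃ (i j : Fin k) (a b : Fin n), i ≠ j ∧ ¬ G.Adj a b ∧
      ∀ v ∈ W t, v ∉ Wo W p1 → v ∉ Wo W p2 → (v i = a ∧ v j = b) := by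
    intro t
    obtain ⟨J, hJ, hJr, i, j, a, b, hij, hab, hv⟩ := hinf t
    rcases Nat.lt_or_ge J.card 1 with h0 | h0
    · have hJ0 : J = ∅ := card_eq_zero.1 (by omega)
      refine ⟨none, none, by simp, by simp, i, j, a, b, hij, hab, fun v hvt _ _ => ?_⟩
      rcases hv v hvt with ⟨r, hr, _⟩ | h
      · rw [hJ0] at hr
        simp at hr
      · exact h
    rcases Nat.lt_or_ge J.card 2 with h1 | h1
    · obtain ⟨r, hr⟩ := card_eq_one.1 (show J.card = 1 by omega)
      refine ⟨some r, none, ?_, by simp, i, j, a, b, hij, hab, fun v hvt h1 _ => ?_⟩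
      · intro r' hr'
        simp only [Option.some.injEq] at hr'
        rw [← hr']
        exact hJr r (by rw [hr]; simp)
      · rcases hv v hvt with ⟨r', hr', hv'⟩ | h
        · rw [hr, mem_singleton] at hr'
          rw [hr'] at hv'
          exact absurd hv' h1
        · exact h
    · obtain ⟨r, s, _, hrs⟩ := card_eq_two.1 (show J.card = 2 by omega)
      refine ⟨some r, some s, ?_, ?_, i, j, a, b, hij, hab, fun v hvt h1 h2 => ?_⟩
      · intro r' hr'
        simp only [Option.some.injEq] at hr'
        rw [← hr']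
        exact hJr r (by rw [hrs]; simp)
      · intro r' hr'
        simp only [Option.some.injEq] at hr'
        rw [← hr']
        exact hJr s (by rw [hrs]; simp)
      · rcases hv v hvt with ⟨r', hr', hv'⟩ | h
        · rw [hrs, mem_insert, mem_singleton] at hr'
          rcases hr' with rfl | rfl
          · exact absurd hv' h1
          · exact absurd hv' h2
        · exact h
  choose p1 p2 hp1 hp2 hpinf using hpar
  -- the value of a line
  set val : ι → ℝ := fun t => ∑ x ∈ UL S φ [(W t, true)], f x with hval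
  obtain ⟨M, hM⟩ : ∃ M : ℕ, M = Fintype.card ι := ⟨_, rfl⟩
  have hM1 : 1 ≤ M := by
    rw [hM]
    exact Fintype.card_pos_iff.2 ⟨t₀⟩
  have hM1R : (1 : ℝ) ≤ M := by exact_mod_cast hM1
  have hmemW : ∀ t x, x ∈ UL S φ [(W t, true)] ↔ x ∈ S ∧ φ x ∈ W t := by
    intro t x
    rw [mem_UL]
    simp
  have hmem2 : ∀ t e (β : Bool) x, x ∈ UL S φ [(W t, β), (W e, true)] ↔
      (x ∈ S ∧ φ x ∈ W e) ∧ (φ x ∈ W t ↔ β = true) := by
    intro t e β x
    rw [mem_UL]
    simp
    tauto
  -- one end
  have hend : ∀ t e, ∑ x ∈ (UL S φ [(W t, true)]).filter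
      (fun x => walk W p1 p2 q t (φ x) = some e), f x ≤ val e + 2 ^ (q + 1) * Λ := by
    intro t e
    have h1 : UL S φ [(W e, true)] = ((UL S φ [(W t, true)]).filter
        (fun x => walk W p1 p2 q t (φ x) = some e)) ∪
        (UL S φ [(W t, false), (W e, true)] ∪
        (UL S φ [(W t, true), (W e, true)]).filter
          (fun x => walk W p1 p2 q t (φ x) ≠ some e)) := by
      ext x
      rw [mem_union, mem_union, mem_filter, mem_filter, hmemW, hmemW, hmem2, hmem2]
      have hwm := walk_mem W p1 p2 q t (φ x)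
      constructor
      · rintro ⟨hxS, hxe⟩
        by_cases hxt : φ x ∈ W t
        · by_cases hw : walk W p1 p2 q t (φ x) = some e
          · exact Or.inl ⟨⟨hxS, hxt⟩, hw⟩
          · exact Or.inr (Or.inr ⟨⟨⟨hxS, hxe⟩, by simp [hxt]⟩, hw⟩)
        · exact Or.inr (Or.inl ⟨⟨hxS, hxe⟩, by simp [hxt]⟩)
      · rintro (⟨⟨hxS, hxt⟩, hw⟩ | ⟨⟨hxS, hxe⟩, _⟩ | ⟨⟨⟨hxS, hxe⟩, _⟩, _⟩)
        · exact ⟨hxS, hwm hxt e hw⟩
        · exact ⟨hxS, hxe⟩
        · exact ⟨hxS, hxe⟩
    have hd2 : Disjoint (UL S φ [(W t, false), (W e, true)])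
        ((UL S φ [(W t, true), (W e, true)]).filter
          (fun x => walk W p1 p2 q t (φ x) ≠ some e)) := by
      rw [disjoint_left]
      intro x hx hx'
      rw [hmem2] at hx
      rw [mem_filter, hmem2] at hx'
      have h2 : φ x ∉ W t := by simpa using hx.2
      have h3 : φ x ∈ W t := by simpa using hx'.1.2
      exact h2 h3
    have hd1 : Disjoint ((UL S φ [(W t, true)]).filter
        (fun x => walk W p1 p2 q t (φ x) = some e))
        (UL S φ [(W t, false), (W e, true)] ∪
        (UL S φ [(W t, true), (W e, true)]).filter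
          (fun x => walk W p1 p2 q t (φ x) ≠ some e)) := by
      rw [disjoint_left]
      intro x hx hx'
      rw [mem_filter, hmemW] at hx
      rw [mem_union, hmem2, mem_filter] at hx'
      rcases hx' with h2 | h2
      · have h3 : φ x ∉ W t := by simpa using h2.2
        exact h3 hx.1.2
      · exact h2.2 hx.2
    have h2 : val e = ∑ x ∈ (UL S φ [(W t, true)]).filter
        (fun x => walk W p1 p2 q t (φ x) = some e), f x +
        (∑ x ∈ UL S φ [(W t, false), (W e, true)], f x +
          ∑ x ∈ (UL S φ [(W t, true), (W e, true)]).filter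
          (fun x => walk W p1 p2 q t (φ x) ≠ some e), f x) := by
      rw [hval]
      dsimp only
      rw [h1, sum_union hd1, sum_union hd2]
    have h3 : -Λ ≤ ∑ x ∈ UL S φ [(W t, false), (W e, true)], f x := by
      refine hlow _ ?_ ?_
      · simp
      · intro l hl
        simp only [List.mem_cons, List.not_mem_nil, or_false] at hl
        rcases hl with rfl | rfl
        · exact Or.inl (hWV t)
        · exact Or.inl (hWV e)
    have h4 := lowE S φ f V Λ (2 * q + 2) W p1 p2 hΛ hlow hWV q
      [(W t, true), (W e, true)] t (fun o => o ≠ some e) (by simp; omega) (by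
        intro l hl
        simp only [List.mem_cons, List.not_mem_nil, or_false] at hl
        rcases hl with rfl | rfl
        · exact Or.inl (hWV t)
        · exact Or.inl (hWV e))
    have h5 : -((2 ^ (q + 1) - 1) * Λ) ≤ ∑ x ∈ (UL S φ [(W t, true), (W e, true)]).filter
          (fun x => walk W p1 p2 q t (φ x) ≠ some e), f x := by
      convert h4
    linarith
  -- one segment
  have hseg : ∀ (t : ι) (m : ℝ), 0 ≤ m → (∀ e, rank e + q ≤ rank t → val e ≤ m) →
      val t ≤ 2 ^ q * Λ + M * (m + 2 ^ (q + 1) * Λ) := by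
    intro t m hm0 hm
    have h1 : val t = ∑ x ∈ (UL S φ [(W t, true)]).filter
        (fun x => walk W p1 p2 q t (φ x) = none), f x +
        ∑ e : ι, ∑ x ∈ (UL S φ [(W t, true)]).filter
          (fun x => walk W p1 p2 q t (φ x) = some e), f x := by
      have h2 := sum_fiberwise_of_maps_to (s := UL S φ [(W t, true)])
        (t := (univ : Finset (Option ι))) (g := fun x => walk W p1 p2 q t (φ x))
        (fun _ _ => mem_univ _) f
      rw [hval]
      dsimp only
      rw [← h2, Fintype.sum_option]
    have h2' := uppE S φ f V Λ (2 * q + 2) W p1 p2 hΛ (fun o => o = none) rfl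
      (fun e => by simp) hupp hWV hpinf q
      [(W t, true)] t (by simp; omega) (by
        intro l hl
        simp only [List.mem_cons, List.not_mem_nil, or_false] at hl
        rw [hl]
        exact Or.inl (hWV t)) (fun x hx => ((hmemW t x).1 hx).2)
    have h2 : ∑ x ∈ (UL S φ [(W t, true)]).filter
        (fun x => walk W p1 p2 q t (φ x) = none), f x ≤ (2 ^ q - 1) * Λ := by
      convert h2'
    have hΛq : 0 ≤ 2 ^ (q + 1) * Λ := by positivity
    have h3 : ∀ e : ι, ∑ x ∈ (UL S φ [(W t, true)]).filter
          (fun x => walk W p1 p2 q t (φ x) = some e), f x ≤ m + 2 ^ (q + 1) * Λ := by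
      intro e
      by_cases he : rank e + q ≤ rank t
      · exact (hend t e).trans (by linarith [hm e he])
      · have e1 : (UL S φ [(W t, true)]).filter
            (fun x => walk W p1 p2 q t (φ x) = some e) = ∅ := by
          refine filter_false_of_mem fun x _ hx => ?_
          exact he (walk_rank W p1 p2 rank (fun t r => hp1 t r) (fun t r => hp2 t r) q t
            (φ x) e hx)
        rw [e1, sum_empty]
        linarith
    rw [h1]
    have h4 : ∑ e : ι, ∑ x ∈ (UL S φ [(W t, true)]).filter
          (fun x => walk W p1 p2 q t (φ x) = some e), f x ≤ M * (m + 2 ^ (q + 1) * Λ) := by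
      refine (sum_le_sum fun e _ => h3 e).trans (le_of_eq ?_)
      rw [sum_const, card_univ, ← hM, nsmul_eq_mul]
    have h5 : (2 ^ q - 1) * Λ ≤ 2 ^ q * Λ := by linarith
    linarith
  -- all segments
  have hall : ∀ P : ℕ, ∀ t : ι, rank t < P * q →
      val t ≤ 2 ^ (q + 2) * (P : ℝ) * (M : ℝ) ^ P * Λ := by
    intro P
    induction P with
    | zero =>
      intro t ht
      omega
    | succ P ih =>
      intro t ht
      have h0 : 0 ≤ 2 ^ (q + 2) * (P : ℝ) * (M : ℝ) ^ P * Λ := by positivity
      have h1 := hseg t _ h0 (fun e he => ih e (by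
        have : (P + 1) * q = P * q + q := by ring
        omega))
      refine h1.trans ?_
      have h2 : (M : ℝ) ≤ (M : ℝ) ^ (P + 1) := le_self_pow₀ hM1R (by omega)
      have h3 : (0 : ℝ) ≤ 2 ^ q * Λ := by positivity
      have h4 : 2 ^ q * Λ ≤ 2 ^ q * Λ * M := by nlinarith
      have h5 : 2 ^ q * Λ * M ≤ 2 ^ q * Λ * M ^ (P + 1) := mul_le_mul_of_nonneg_left h2 h3
      have e1 : (2 : ℝ) ^ (q + 2) = 4 * 2 ^ q := by ring
      have e2 : (2 : ℝ) ^ (q + 1) = 2 * 2 ^ q := by ring
      have e3 : 2 ^ (q + 2) * ((P + 1 : ℕ) : ℝ) * (M : ℝ) ^ (P + 1) * Λ =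
          M * (2 ^ (q + 2) * (P : ℝ) * (M : ℝ) ^ P * Λ) + 4 * (2 ^ q * Λ * M ^ (P + 1)) := by
        rw [e1]
        push_cast
        ring
      rw [e3, e2]
      nlinarith
  have h1 := hall (D / q + 1) t₀ (by
    have h2 := hrank
    have h3 := Nat.lt_div_mul_add (a := D) (show 0 < q by omega)
    have h4 : (D / q + 1) * q = D / q * q + q := by ring
    omega)
  have h2 : val t₀ = ∑ x ∈ S, f x := by
    rw [hval]
    dsimp only
    refine sum_congr ?_ fun _ _ => rfl
    ext x
    rw [hmemW]
    exact ⟨fun hx => hx.1, fun hx => ⟨hx, ht₀ x hx⟩⟩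
  rw [← h2, ← hM]
  exact h1

/-- W: the accounting along a dag-like search -/
theorem walk_acc {k n : ℕ} {Ω : Type} (G : SimpleGraph (Fin n))
    (V : Finset (Finset (Fin k → Fin n))) (S : Finset Ω) (φ : Ω → (Fin k → Fin n)) (f : Ω → ℝ)
    (Λ : ℝ) (hΛ : 0 ≤ Λ) (q : ℕ) (hq : 1 ≤ q)
    (hlow : ∀ L : List (Finset (Fin k → Fin n) × Bool), L.length ≤ 2 * q + 2 →
      (∀ l ∈ L, l.1 ∈ V ∨ l.1 = ∅) → -Λ ≤ ∑ x ∈ UL S φ L, f x)
    (hupp : ∀ L : List (Finset (Fin k → Fin n) × Bool), L.length ≤ 2 * q + 2 →
      (∀ l ∈ L, l.1 ∈ V ∨ l.1 = ∅) → ∀ (i j : Fin k) (a b : Fin n), i ≠ j → ¬ G.Adj a b →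
      (∀ x ∈ UL S φ L, φ x i = a ∧ φ x j = b) → ∑ x ∈ UL S φ L, f x ≤ Λ)
    {M D : ℕ} (h : HasDag G V M D) :
    ∑ x ∈ S, f x ≤ 2 ^ (q + 2) * ((D / q + 1 : ℕ) : ℝ) * (M : ℝ) ^ (D / q + 1) * Λ := by
  obtain ⟨W, rank, hWV, hrank, ⟨t₀, ht₀⟩, hinf⟩ := h
  have h1 := walk_gen G V S φ f Λ hΛ q hq hlow hupp W rank hWV t₀ (hrank t₀)
    (fun x _ => by rw [ht₀]; exact mem_univ _) hinf
  rw [Fintype.card_fin] at h1
  exact h1

end Pool.Agent.KCN
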