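import Pool.Agent.Lib.KCN.Defs2
import Pool.Agent.Lib.KCN.TBX
import Pool.Agent.Lib.KCN.W

/-!
# Theorem C: tree-like and dag-like search, gap form
-/

set_option autoImplicit false

namespace Pool.Agent.KCN

open Finset Filter Pool.Agent.SL Pool.Agent.KCM

/-- TBC: tree-like search, and dag-like search of bounded depth, lines of `n ^ (2 - γ)` bits -/
def TBC : Prop :=
  ∀ γ ε : ℝ, 0 < γ → 0 < ε → ∃ c : ℝ, 0 < c ∧ ∃ k₀ : ℕ, ∀ k : ℕ, k₀ ≤ k →
    ∃ n₀ : ℕ, ∀ n : ℕ, n₀ ≤ n →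
    ∀ V : Finset (Finset (Fin k → Fin n)), (V.card : ℝ) ≤ 2 ^ ((n : ℝ) ^ (2 - γ)) →
      ∃ G : SimpleGraph (Fin n), (∀ u : ℕ, (1 / 2 + ε) * k ≤ u → G.CliqueFree u) ∧
        (∀ (T : ℕ) (e : (Fin k → Fin n) → ℕ), Der G V univ T e → (n : ℝ) ^ (c * k) ≤ T) ∧
        ∀ M D : ℕ, HasDag G V M D →
          c * (k * Real.logb 2 n) ^ 2 ≤ (D + k * Real.logb 2 n) * Real.logb 2 ((M : ℝ) + 1)

namespace TBCx

open TBXx in
/-- the core, for fixed parameters -/
theorem core (h5 : P5G) (hst : ST) (hgr : GRG) (hacc : ACC) {k' e n K w D q m κ h s : ℕ}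
    (hk : 1 ≤ k') (hK : 1 ≤ K) (hw : 1 ≤ w) (hD : 1 ≤ D) (hq : 1 ≤ q) (hm : 1 ≤ m) (hκ : 1 ≤ κ)
    (hDK : 2 * D ≤ K) (hn : 2 * k' * w ^ (K ^ (2 * k')) + e ≤ n)
    (hqw : q ≤ w ^ (2 * K ^ (2 * k' - 1) * (K - 2 * D)))
    (hmk : 4 * (w ^ (K * K ^ (2 * k')) * 2 ^ k') ≤ m ^ h) (hs : 1 ≤ s)
    (V : Finset (Finset (Fin (2 * k' + e) → Fin n)))
    (hF : 4 * (((V.card + 1) ^ 3 + (2 * (V.card + 1)) ^ (2 * s + 2) + 1) *
      (2 ^ k' * (w ^ (K ^ (2 * k')) * w ^ (K ^ (2 * k'))) ^ k') * 2 ^ k') ≤ 4 ^ κ)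
    (hL : Lam k' m κ q D ≤ 1 / 4) :
    ∃ G : SimpleGraph (Fin n), G.CliqueFree (k' + h + e) ∧
      (∀ (T : ℕ) (ee : (Fin (2 * k' + e) → Fin n) → ℕ), Der G V univ T ee →
        1 ≤ 16 * Lam k' m κ q D * T) ∧
      ∀ M D' : ℕ, HasDag G V M D' →
        1 ≤ 16 * Lam k' m κ q D * (2 ^ s * ((D' / s + 1 : ℕ) : ℝ) * (M : ℝ) ^ (D' / s + 1)) := by
  classical
  obtain ⟨hne, hcard, hsp⟩ := hst k' K w (2 * D) q hk hK hw hDK hqw
  obtain ⟨φ, hφ⟩ := hgr k' e n K w hk hK hw hn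
  set S := SS k' K w with hS
  set V1 : Finset (Finset (Fin (2 * k' + e) → Fin n)) := insert ∅ V with hV1
  have hV1c : V1.card ≤ V.card + 1 := card_insert_le _ _
  have hi : ∀ W : Finset (Fin (2 * k' + e) → Fin n), (W ∈ V ∨ W = ∅) → W ∈ V1 := by
    rintro W (h | h)
    · exact mem_insert_of_mem h
    · rw [h]; exact mem_insert_self _ _
  set Fam1 : Finset (Finset (Fin k' → Vx k' K w × Vx k' K w)) :=
    (V1 ×ˢ V1 ×ˢ V1).image (fun z => UU S φ z.1 z.2.1 z.2.2) with hFam1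
  set Fam2 : Finset (Finset (Fin k' → Vx k' K w × Vx k' K w)) :=
    (Fintype.piFinset (fun _ : Fin (2 * s + 2) => V1 ×ˢ (univ : Finset Bool))).image
      (fun z => S.filter (fun x => ∀ i, (φ x ∈ (z i).1 ↔ (z i).2 = true))) with hFam2
  set Fam := Fam1 ∪ Fam2 with hFam
  have hF1card : Fam1.card ≤ (V.card + 1) ^ 3 := by
    refine card_image_le.trans ?_
    rw [card_product, card_product]
    calc V1.card * (V1.card * V1.card) ≤ (V.card + 1) * ((V.card + 1) * (V.card + 1)) :=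
          Nat.mul_le_mul hV1c (Nat.mul_le_mul hV1c hV1c)
      _ = (V.card + 1) ^ 3 := by ring
  have hF2card : Fam2.card ≤ (2 * (V.card + 1)) ^ (2 * s + 2) := by
    refine card_image_le.trans ?_
    rw [Fintype.card_piFinset, prod_const, card_univ, Fintype.card_fin, card_product, card_univ,
      Fintype.card_bool]
    exact Nat.pow_le_pow_left (by omega) _
  have hFcard : Fam.card ≤ (V.card + 1) ^ 3 + (2 * (V.card + 1)) ^ (2 * s + 2) :=
    (card_union_le _ _).trans (Nat.add_le_add hF1card hF2card)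
  have hmem : ∀ W₁ W₂ W₃ : Finset (Fin (2 * k' + e) → Fin n), (W₁ ∈ V ∨ W₁ = ∅) →
      (W₂ ∈ V ∨ W₂ = ∅) → (W₃ ∈ V ∨ W₃ = ∅) → UU S φ W₁ W₂ W₃ ∈ Fam := by
    intro W₁ W₂ W₃ h1 h2 h3
    refine mem_union_left _ (mem_image.2 ⟨(W₁, W₂, W₃), ?_, rfl⟩)
    rw [mem_product, mem_product]
    exact ⟨hi _ h1, hi _ h2, hi _ h3⟩
  have hmem2 : ∀ L : List (Finset (Fin (2 * k' + e) → Fin n) × Bool), L.length ≤ 2 * s + 2 →
      (∀ l ∈ L, l.1 ∈ V ∨ l.1 = ∅) → UL S φ L ∈ Fam := by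
    intro L hLl hLV
    refine mem_union_right _ (mem_image.2 ⟨fun i => L.getD i.1 (∅, false), ?_, ?_⟩)
    · rw [Fintype.mem_piFinset]
      intro i
      rw [mem_product]
      refine ⟨?_, mem_univ _⟩
      rcases Nat.lt_or_ge i.1 L.length with hlt | hge
      · rw [List.getD_eq_getElem _ _ hlt]
        exact hi _ (hLV _ (List.getElem_mem hlt))
      · rw [List.getD_eq_default _ _ hge]
        exact hi _ (Or.inr rfl)
    · ext x
      rw [Wx.mem_UL, mem_filter]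
      refine and_congr_right fun _ => ⟨fun hx l hl => ?_, fun hx i => ?_⟩
      · obtain ⟨j, hj, rfl⟩ := List.getElem_of_mem hl
        have := hx ⟨j, by omega⟩
        dsimp only at this
        rw [List.getD_eq_getElem _ _ hj] at this
        exact this
      · dsimp only
        rcases Nat.lt_or_ge i.1 L.length with hlt | hge
        · rw [List.getD_eq_getElem _ _ hlt]
          exact hx _ (List.getElem_mem hlt)
        · rw [List.getD_eq_default _ _ hge]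
          simp
  have hFS : ∀ U ∈ Fam, U ⊆ S := by
    intro U hU
    rcases mem_union.1 hU with hU | hU
    · obtain ⟨z, _, rfl⟩ := mem_image.1 hU
      exact filter_subset _ _
    · obtain ⟨z, _, rfl⟩ := mem_image.1 hU
      exact filter_subset _ _
  have hcond : 4 * ((Fam.card + 1) *
      (2 ^ k' * Fintype.card (Fin k' → Vx k' K w × Vx k' K w)) * 2 ^ k') ≤ 4 ^ κ := by
    rw [card_tuples]
    refine le_trans ?_ hF
    gcongr
  obtain ⟨g, f, hg1, hg2, hg3, hg4⟩ := h5 k' m κ q D h (Vx k' K w × Vx k' K w) hk hm hκ hq hD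
    (fun _ => ⟨0, hm⟩) S Fam hne hsp hFS hcond
    ((Nat.mul_le_mul_left 4 (Nat.mul_le_mul_right _ hcard)).trans hmk) hL
  obtain ⟨G, hG1, hG2⟩ := hφ m h g (fun _ => ⟨0, hm⟩) hg1
  have hScard : (0 : ℝ) < S.card := by exact_mod_cast card_pos.2 hne
  have hLam0 : 0 ≤ Lam k' m κ q D := by
    unfold Lam
    positivity
  have hup : ∀ U ∈ Fam, ∀ (i j : Fin (2 * k' + e)) (a b : Fin n), i ≠ j → ¬ G.Adj a b →
      (∀ x ∈ U, φ x i = a ∧ φ x j = b) → ∑ x ∈ U, f x ≤ Lam k' m κ q D * S.card := by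
    intro U hU i j a b hij hab hx
    rcases hG2 i j a b hij hab with h | ⟨l, c, hc, h⟩
    · have hempty : U = ∅ := by
        rw [eq_empty_iff_forall_notMem]
        intro x hxU
        exact h x (hFS U hU hxU) (hx x hxU)
      rw [hempty, sum_empty]
      positivity
    · refine hg4 _ hU l c (fun x hxU => ?_) hc
      exact h x (hFS U hU hxU) (hx x hxU).1 (hx x hxU).2
  refine ⟨G, hG1, fun T ee hDer => ?_, fun M D' hdag => ?_⟩
  · have hacc' := hacc (2 * k' + e) n (Fin k' → Vx k' K w × Vx k' K w) G V S φ f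
      (Lam k' m κ q D * S.card) (by positivity)
      (fun W₁ W₂ W₃ h1 h2 h3 => hg3 _ (hmem W₁ W₂ W₃ h1 h2 h3))
      (fun W₁ W₂ h1 h2 i j a b hij hab hx =>
        hup _ (hmem W₁ W₂ ∅ h1 h2 (Or.inr rfl)) i j a b hij hab hx) T ee hDer
    have h1 : (S.card : ℝ) / 4 ≤ 4 * T * (Lam k' m κ q D * S.card) := hg2.trans hacc'
    have h2 : (S.card : ℝ) * 1 ≤ S.card * (16 * Lam k' m κ q D * T) := by nlinarith
    exact le_of_mul_le_mul_left h2 hScard
  · have hw' := walk_acc G V S φ f (Lam k' m κ q D * S.card) (by positivity) s hs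
      (fun L h1 h2 => hg3 _ (hmem2 L h1 h2))
      (fun L h1 h2 i j a b hij hab hx => hup _ (hmem2 L h1 h2) i j a b hij hab hx) hdag
    have h1 := hg2.trans hw'
    have h2 : (S.card : ℝ) * 1 ≤ S.card * (16 * Lam k' m κ q D *
        (2 ^ s * ((D' / s + 1 : ℕ) : ℝ) * (M : ℝ) ^ (D' / s + 1))) := by
      have e1 : (2 : ℝ) ^ (s + 2) = 4 * 2 ^ s := by ring
      rw [e1] at h1
      linarith
    exact le_of_mul_le_mul_left h2 hScard

/-- growth -/
theorem ev_log (C δ : ℝ) (hδ : 0 < δ) :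
    ∀ᶠ n : ℕ in atTop, C * Real.logb 2 n ≤ (n : ℝ) ^ δ := by
  have h1 := (isLittleO_log_rpow_atTop hδ).bound
    (show (0 : ℝ) < Real.log 2 / (|C| + 1) by
      have := Real.log_pos (by norm_num : (1 : ℝ) < 2)
      positivity)
  have h2 := tendsto_natCast_atTop_atTop (R := ℝ) |>.eventually h1
  filter_upwards [h2, eventually_ge_atTop 1] with n hn hn1
  have hn1' : (1 : ℝ) ≤ n := by exact_mod_cast hn1
  have hlog : 0 ≤ Real.log n := Real.log_nonneg hn1'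
  have hr : 0 ≤ (n : ℝ) ^ δ := Real.rpow_nonneg (by linarith) _
  rw [Real.norm_of_nonneg hlog, Real.norm_of_nonneg hr] at hn
  have hl2 : 0 < Real.log 2 := Real.log_pos (by norm_num)
  have h3 : (|C| + 1) * (Real.log n / Real.log 2) ≤ (n : ℝ) ^ δ := by
    have hC : 0 < |C| + 1 := by positivity
    calc (|C| + 1) * (Real.log n / Real.log 2)
        ≤ (|C| + 1) * ((Real.log 2 / (|C| + 1) * (n : ℝ) ^ δ) / Real.log 2) := by gcongr
      _ = (n : ℝ) ^ δ := by field_simp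
  refine le_trans ?_ h3
  rw [Real.logb]
  have h4 : 0 ≤ Real.log n / Real.log 2 := by positivity
  have h5 := le_abs_self C
  nlinarith

end TBCx

open TBXx TBCx in
/-- TBC -/
theorem tbc (h5 : P5G) (hst : ST) (hgr : GRG) (hacc : ACC) (hpar : PARG) : TBC := by
  intro γ ε hγ hε
  obtain ⟨δ, hδ⟩ : ∃ δ : ℝ, δ = min γ 1 / 2 := ⟨_, rfl⟩
  have hmin0 : 0 < min γ 1 := lt_min hγ one_pos
  have hδ0 : 0 < δ := by rw [hδ]; linarith
  have hδ1 : 2 * δ ≤ 1 := by
    have := min_le_right γ 1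
    rw [hδ]
    linarith
  have hδγ : 2 * δ ≤ γ := by
    have := min_le_left γ 1
    rw [hδ]
    linarith
  obtain ⟨c, hc, k₀, hk₀⟩ := hpar δ ε hδ0 (by linarith) hε
  obtain ⟨c₁, hc₁⟩ : ∃ c₁ : ℝ, c₁ = min c 1 := ⟨_, rfl⟩
  have hc₁0 : 0 < c₁ := by rw [hc₁]; exact lt_min hc one_pos
  have hc₁1 : c₁ ≤ 1 := by rw [hc₁]; exact min_le_right _ _
  have hc₁c : c₁ ≤ c := by rw [hc₁]; exact min_le_left _ _
  refine ⟨c₁ ^ 2 / 16, by positivity, 2 * k₀ + 2, fun k hk => ?_⟩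
  obtain ⟨k', e, he, hk', hk1, rfl⟩ : ∃ k' e, e ≤ 1 ∧ k₀ ≤ k' ∧ 1 ≤ k' ∧ k = 2 * k' + e :=
    ⟨k / 2, k % 2, by omega, by omega, by omega, by omega⟩
  obtain ⟨h, hh, n₀, hn₀⟩ := hk₀ k' e hk' he
  obtain ⟨k, hkk⟩ : ∃ k : ℝ, k = ((2 * k' + e : ℕ) : ℝ) := ⟨_, rfl⟩
  have hk1R : 1 ≤ k := by
    rw [hkk]
    have : 1 ≤ 2 * k' + e := by omega
    exact_mod_cast this
  have hev := (ev_log (7 * k) δ hδ0).and (((tendsto_rpow_atTop one_pos).comp
    (tendsto_natCast_atTop_atTop (R := ℝ))).eventually_ge_atTop ((2 : ℝ) ^ (4 / c₁)))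
  obtain ⟨n₁, hn₁⟩ := eventually_atTop.1 hev
  refine ⟨max (max n₀ n₁) 1, fun n hn V hV => ?_⟩
  obtain ⟨K, w, D, q, m, κ, h1, h2, h3, h4, h5', h6, h7, h8, h9, h10, h11, h12, h13⟩ :=
    hn₀ n (by omega)
  obtain ⟨hA, hB⟩ := hn₁ n (by omega)
  have hn1 : (1 : ℝ) ≤ n := by
    have : 1 ≤ n := by omega
    exact_mod_cast this
  have hn0 : (0 : ℝ) < n := by linarith
  -- the logarithm
  obtain ⟨Lg, hLg⟩ : ∃ Lg : ℝ, Lg = Real.logb 2 n := ⟨_, rfl⟩
  have hLg4 : 4 / c₁ ≤ Lg := by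
    rw [hLg, Real.le_logb_iff_rpow_le (by norm_num) hn0]
    have : ((fun x : ℝ => x ^ (1 : ℝ)) ∘ Nat.cast) n = (n : ℝ) := by
      simp
    rw [this] at hB
    exact hB
  have hcL : 4 ≤ c₁ * Lg := by
    rw [div_le_iff₀ hc₁0] at hLg4
    linarith
  have hLg0 : 0 < Lg := lt_of_lt_of_le (by positivity) hLg4
  have hkL : Lg ≤ k * Lg := by nlinarith
  have hckL : 4 ≤ c₁ * (k * Lg) := by nlinarith
  -- the number of steps in a segment
  obtain ⟨s, hs⟩ : ∃ s : ℕ, s = ⌊c₁ / 2 * (k * Lg)⌋₊ := ⟨_, rfl⟩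
  have hs1 : (s : ℝ) ≤ c₁ / 2 * (k * Lg) := by
    rw [hs]
    exact Nat.floor_le (by positivity)
  have hs2 : c₁ / 2 * (k * Lg) < s + 1 := by
    rw [hs]
    exact Nat.lt_floor_add_one _
  have hs3 : c₁ / 4 * (k * Lg) ≤ s := by linarith
  have hs4 : 1 ≤ s := by
    have : (1 : ℝ) ≤ s := by linarith
    exact_mod_cast this
  have hs4R : (1 : ℝ) ≤ s := by exact_mod_cast hs4
  have hs5 : (s : ℝ) ≤ k * Lg := by
    refine hs1.trans ?_
    have : 0 ≤ k * Lg := by positivity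
    nlinarith
  -- the family
  obtain ⟨N, hN⟩ : ∃ N : ℝ, N = (n : ℝ) ^ (2 - 2 * δ) := ⟨_, rfl⟩
  have hN1 : 1 ≤ N := by
    rw [hN]
    exact Real.one_le_rpow hn1 (by linarith)
  have hVN : (V.card : ℝ) ≤ 2 ^ N := by
    refine hV.trans ?_
    refine Real.rpow_le_rpow_of_exponent_le (by norm_num) ?_
    rw [hN]
    exact Real.rpow_le_rpow_of_exponent_le hn1 (by linarith)
  have h2N : (1 : ℝ) ≤ 2 ^ N := Real.one_le_rpow (by norm_num) (by linarith)
  have hV1 : (V.card : ℝ) + 1 ≤ 2 ^ (N + 1) := by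
    rw [Real.rpow_add (by norm_num), Real.rpow_one]
    linarith
  have hFam : ((((V.card + 1) ^ 3 + (2 * (V.card + 1)) ^ (2 * s + 2) : ℕ)) : ℝ) ≤
      ((2 : ℝ) ^ ((n : ℝ) ^ (2 - δ)) + 1) ^ 3 := by
    have hV0 : (0 : ℝ) ≤ V.card := Nat.cast_nonneg _
    obtain ⟨X, hX⟩ : ∃ X : ℝ, X = (N + 2) * (2 * s + 2) := ⟨_, rfl⟩
    have a1 : ((2 * ((V.card : ℝ) + 1)) ^ (2 * s + 2) : ℝ) ≤ 2 ^ X := by
      have b1 : 2 * ((V.card : ℝ) + 1) ≤ 2 ^ (N + 2) := by
        have : (2 : ℝ) ^ (N + 2) = 2 * 2 ^ (N + 1) := by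
          rw [show N + 2 = 1 + (N + 1) by ring, Real.rpow_add (by norm_num) 1, Real.rpow_one]
        rw [this]
        linarith
      refine (pow_le_pow_left₀ (by positivity) b1 _).trans (le_of_eq ?_)
      rw [← Real.rpow_natCast, ← Real.rpow_mul (by norm_num), hX]
      push_cast
      ring_nf
    have a2 : (((V.card : ℝ) + 1) ^ 3 : ℝ) ≤ 2 ^ X := by
      refine (pow_le_pow_left₀ (by positivity) hV1 3).trans ?_
      rw [← Real.rpow_natCast, ← Real.rpow_mul (by norm_num)]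
      refine Real.rpow_le_rpow_of_exponent_le (by norm_num) ?_
      rw [hX]
      push_cast
      nlinarith
    have a3 : (2 : ℝ) ^ X + 2 ^ X = 2 ^ (X + 1) := by
      rw [Real.rpow_add (by norm_num), Real.rpow_one]
      ring
    have a4 : X + 1 ≤ 3 * (n : ℝ) ^ (2 - δ) := by
      have b1 : (n : ℝ) ^ (2 - δ) = N * (n : ℝ) ^ δ := by
        rw [hN, ← Real.rpow_add hn0]
        congr 1
        ring
      have b2 : X ≤ 6 * (N * (k * Lg)) := by
        rw [hX]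
        have : (2 * (s : ℝ) + 2) ≤ 2 * (k * Lg) := by
          have c1 : 2 * (s : ℝ) + 2 ≤ 4 * s := by linarith
          have c2 : 4 * (s : ℝ) ≤ 4 * (c₁ / 2 * (k * Lg)) := by linarith
          have c3 : 4 * (c₁ / 2 * (k * Lg)) ≤ 2 * (k * Lg) := by
            have : 0 ≤ k * Lg := by positivity
            nlinarith
          linarith
        calc (N + 2) * (2 * s + 2) ≤ (3 * N) * (2 * (k * Lg)) :=
              mul_le_mul (by linarith) this (by positivity) (by positivity)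
          _ = 6 * (N * (k * Lg)) := by ring
      have b3 : 1 ≤ N * (k * Lg) := by
        have c1 : 1 ≤ k * Lg := by nlinarith
        nlinarith
      have b4 : 7 * (k * Lg) ≤ (n : ℝ) ^ δ := by
        rw [hLg]
        linarith
      have b5 : N * (7 * (k * Lg)) ≤ N * (n : ℝ) ^ δ :=
        mul_le_mul_of_nonneg_left b4 (by linarith)
      rw [b1]
      have b6 : 0 ≤ N * (n : ℝ) ^ δ := by positivity
      linarith
    have a5 : (2 : ℝ) ^ (X + 1) ≤ ((2 : ℝ) ^ ((n : ℝ) ^ (2 - δ))) ^ 3 := by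
      rw [← Real.rpow_natCast, ← Real.rpow_mul (by norm_num)]
      refine Real.rpow_le_rpow_of_exponent_le (by norm_num) ?_
      push_cast
      linarith
    push_cast
    have a6 : ((2 : ℝ) ^ ((n : ℝ) ^ (2 - δ))) ^ 3 ≤ ((2 : ℝ) ^ ((n : ℝ) ^ (2 - δ)) + 1) ^ 3 :=
      pow_le_pow_left₀ (by positivity) (by linarith) 3
    linarith
  obtain ⟨G, hG, hT, hDag⟩ := core h5 hst hgr hacc (k' := k') (e := e) (n := n) (h := h)
    hk1 h1 h2 h3 h4 h5' h6 h7 h8 h9 h10 hs4 V (h11 _ hFam) h12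
  have hLam0 : 0 ≤ Lam k' m κ q D := by
    unfold Lam
    positivity
  have hkc : (2 * (k' : ℝ) + e) = k := by
    rw [hkk]
    push_cast
    ring
  rw [hkc] at h13
  refine ⟨G, fun u hu => ?_, fun T ee hDer => ?_, fun M D' hdag => ?_⟩
  · refine hG.mono ?_
    have h14 : ((k' + h + e : ℕ) : ℝ) ≤ (u : ℝ) := by
      push_cast at hu ⊢
      linarith
    exact_mod_cast h14
  · have h15 := hT T ee hDer
    have hLam : 0 < Lam k' m κ q D := by
      rcases hLam0.eq_or_lt with h | h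
      · rw [← h] at h15
        norm_num at h15
      · exact h
    have h16 : 16 * Lam k' m κ q D * (n : ℝ) ^ (c * k) ≤ 16 * Lam k' m κ q D * T :=
      h13.trans h15
    have h17 := le_of_mul_le_mul_left h16 (by positivity)
    refine le_trans ?_ h17
    rw [← hkk]
    refine Real.rpow_le_rpow_of_exponent_le hn1 ?_
    have : c₁ ^ 2 / 16 ≤ c := by nlinarith
    exact mul_le_mul_of_nonneg_right this (by linarith)
  · have h15 := hDag M D' hdag
    have hLam : 0 < Lam k' m κ q D := by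
      rcases hLam0.eq_or_lt with h | h
      · rw [← h] at h15
        norm_num at h15
      · exact h
    have hM1 : 1 ≤ M := by
      obtain ⟨_, _, _, _, ⟨t, _⟩, _⟩ := hdag
      have := t.pos
      omega
    have hM1R : (1 : ℝ) ≤ M := by exact_mod_cast hM1
    obtain ⟨P, hP⟩ : ∃ P : ℕ, P = D' / s + 1 := ⟨_, rfl⟩
    rw [← hP] at h15
    have h16 := le_of_mul_le_mul_left (h13.trans h15) (by positivity)
    -- `n ^ (c₁ k / 2) ≤ (M + 1) ^ (2 P)`
    have h17 : (2 : ℝ) ^ s ≤ (n : ℝ) ^ (c₁ / 2 * k) := by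
      have e1 : (n : ℝ) = 2 ^ Lg := by
        rw [hLg, Real.rpow_logb (by norm_num) (by norm_num) hn0]
      rw [e1, ← Real.rpow_mul (by norm_num), ← Real.rpow_natCast]
      refine Real.rpow_le_rpow_of_exponent_le (by norm_num) ?_
      linarith
    have h18 : (n : ℝ) ^ (c₁ / 2 * k) * (n : ℝ) ^ (c₁ / 2 * k) ≤ (n : ℝ) ^ (c * k) := by
      rw [← Real.rpow_add hn0]
      refine Real.rpow_le_rpow_of_exponent_le hn1 ?_
      have : c₁ * k ≤ c * k := mul_le_mul_of_nonneg_right hc₁c (by linarith)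
      linarith
    have hpos : 0 < (n : ℝ) ^ (c₁ / 2 * k) := Real.rpow_pos_of_pos hn0 _
    have h19 : (P : ℝ) * (M : ℝ) ^ P ≤ ((M : ℝ) + 1) ^ (2 * P) := by
      have e1 : (P : ℝ) ≤ 2 ^ P := by
        have := Nat.lt_two_pow_self (n := P)
        exact_mod_cast this.le
      have e2 : (2 : ℝ) ^ P ≤ ((M : ℝ) + 1) ^ P := pow_le_pow_left₀ (by norm_num) (by linarith) P
      have e3 : (M : ℝ) ^ P ≤ ((M : ℝ) + 1) ^ P := pow_le_pow_left₀ (by linarith) (by linarith) P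
      calc (P : ℝ) * (M : ℝ) ^ P ≤ ((M : ℝ) + 1) ^ P * ((M : ℝ) + 1) ^ P :=
            mul_le_mul (e1.trans e2) e3 (by positivity) (by positivity)
        _ = ((M : ℝ) + 1) ^ (2 * P) := by rw [← pow_add]; congr 1; ring
    have h20 : (n : ℝ) ^ (c₁ / 2 * k) ≤ ((M : ℝ) + 1) ^ (2 * P) := by
      refine le_of_mul_le_mul_left ?_ hpos
      refine h18.trans (h16.trans ?_)
      calc (2 : ℝ) ^ s * P * (M : ℝ) ^ P = 2 ^ s * (P * (M : ℝ) ^ P) := by ring
        _ ≤ (n : ℝ) ^ (c₁ / 2 * k) * ((M : ℝ) + 1) ^ (2 * P) :=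
            mul_le_mul h17 h19 (by positivity) hpos.le
    obtain ⟨Y, hY⟩ : ∃ Y : ℝ, Y = Real.logb 2 ((M : ℝ) + 1) := ⟨_, rfl⟩
    have h21 : c₁ / 2 * k * Lg ≤ 2 * P * Y := by
      have h22 := Real.logb_le_logb_of_le (b := 2) (by norm_num) hpos h20
      rw [Real.logb_pow, Real.logb_rpow_eq_mul_logb_of_pos hn0, ← hLg, ← hY] at h22
      push_cast at h22
      linarith
    have hY0 : 0 ≤ Y := by
      rw [hY]
      exact Real.logb_nonneg (by norm_num) (by linarith)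
    have h23 : (P : ℝ) * s ≤ D' + s := by
      have h24 : P * s ≤ D' + s := by
        rw [hP, Nat.add_mul, one_mul]
        have := Nat.div_mul_le_self D' s
        omega
      exact_mod_cast h24
    have hsnn : (0 : ℝ) ≤ s := by linarith
    have h25 : c₁ / 4 * (k * Lg) * s ≤ (D' + s) * Y := by
      have h26 := mul_le_mul_of_nonneg_right h21 hsnn
      have h27 := mul_le_mul_of_nonneg_right h23 hY0
      nlinarith
    have hkL0 : 0 ≤ c₁ / 4 * (k * Lg) := by positivity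
    have h28 := mul_le_mul_of_nonneg_left hs3 hkL0
    have hD0 : (0 : ℝ) ≤ D' := Nat.cast_nonneg _
    rw [← hLg, ← hY, ← hkk]
    calc c₁ ^ 2 / 16 * (k * Lg) ^ 2 = c₁ / 4 * (k * Lg) * (c₁ / 4 * (k * Lg)) := by ring
      _ ≤ c₁ / 4 * (k * Lg) * s := h28
      _ ≤ (D' + s) * Y := h25
      _ ≤ (D' + k * Lg) * Y := by
          refine mul_le_mul_of_nonneg_right ?_ hY0
          linarith

end Pool.Agent.KCN
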