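import Pool.Agent.Lib.KCN.PMD
import Pool.Agent.Lib.KCN.Proofs
import Pool.Agent.Lib.KCN.TBC

/-!
# Circuit form: proof trees and proof dags
-/

set_option autoImplicit false

namespace Pool.Agent.KCN

open Finset Filter Pool.Agent.KCM

/-- CIC: circuits with `2 ^ (n ^ (2 - γ))` gates, lower bound for proof trees and proof dags -/
def CIC (δ : ℝ) : Prop :=
  ∀ γ ε : ℝ, 0 < γ → 0 < ε → ∃ c : ℝ, 0 < c ∧ ∃ k₀ : ℕ, ∀ k : ℕ, k₀ ≤ k →
    ∃ n₀ : ℕ, ∀ n : ℕ, n₀ ≤ n → ∀ N : ℕ, (N : ℝ) ≤ 2 ^ ((n : ℝ) ^ (2 - γ)) →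
      ∀ C : Fin N → MGate n N,
        ∃ G : SimpleGraph (Fin n), (∀ u : ℕ, (δ + ε) * k ≤ u → G.CliqueFree u) ∧
          ∀ out : Fin N, Sound k C out →
          ∀ (T : ℕ) (P : Finset (Fin N)) (D : ℕ), Proof C G out T P D →
            (n : ℝ) ^ (c * k) ≤ T ∧
            c * (k * Real.logb 2 n) ^ 2 ≤
              (D + k * Real.logb 2 n) * Real.logb 2 ((P.card : ℝ) + 1)

namespace CICx

variable {n k N : ℕ}

/-- the clique on the entries of a tuple -/
def KK (v : Fin k → Fin n) : SimpleGraph (Fin n) where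
  Adj a b := a ≠ b ∧ ∃ i j : Fin k, v i = a ∧ v j = b
  symm := ⟨fun _ _ h => ⟨h.1.symm, by obtain ⟨_, i, j, h1, h2⟩ := h; exact ⟨j, i, h2, h1⟩⟩⟩
  loopless := ⟨fun _ h => h.1 rfl⟩

theorem KK_clique {v : Fin k → Fin n} (hv : Function.Injective v) : ¬ (KK v).CliqueFree k := by
  intro h
  refine h (univ.map ⟨v, hv⟩) ?_
  rw [SimpleGraph.isNClique_iff]
  constructor
  · intro a ha b hb hab
    rw [mem_coe, Finset.mem_map] at ha hb
    obtain ⟨i, _, hi⟩ := ha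
    obtain ⟨j, _, hj⟩ := hb
    exact ⟨hab, i, j, hi, hj⟩
  · simp

/-- the gate `g` is true for the graph `G` -/
def Tr (C : Fin N → MGate n N) (G : SimpleGraph (Fin n)) (g : Fin N) : Prop :=
  ∃ T P D, Proof C G g T P D

open Classical in
/-- the set of a gate -/
noncomputable def WS (R : Finset (Fin k → Fin n)) (C : Fin N → MGate n N) (g : Fin N) :
    Finset (Fin k → Fin n) :=
  R.filter (fun v => ¬ Tr C (KK v) g)

theorem mem_WS {R : Finset (Fin k → Fin n)} {C : Fin N → MGate n N} {g : Fin N}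
    {v : Fin k → Fin n} : v ∈ WS R C g ↔ v ∈ R ∧ ¬ Tr C (KK v) g := by
  classical
  unfold WS
  rw [mem_filter]

theorem WS_or_left {R : Finset (Fin k → Fin n)} {C : Fin N → MGate n N} {g i j : Fin N}
    (hg : C g = MGate.or i j) : WS R C g ⊆ WS R C i := by
  intro v hv
  rw [mem_WS] at hv ⊢
  refine ⟨hv.1, fun h => hv.2 ?_⟩
  obtain ⟨T, P, D, h⟩ := h
  exact ⟨_, _, _, Proof.left g i j T P D hg h⟩

theorem WS_or_right {R : Finset (Fin k → Fin n)} {C : Fin N → MGate n N} {g i j : Fin N}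
    (hg : C g = MGate.or i j) : WS R C g ⊆ WS R C j := by
  intro v hv
  rw [mem_WS] at hv ⊢
  refine ⟨hv.1, fun h => hv.2 ?_⟩
  obtain ⟨T, P, D, h⟩ := h
  exact ⟨_, _, _, Proof.right g i j T P D hg h⟩

theorem WS_and {R : Finset (Fin k → Fin n)} {C : Fin N → MGate n N} {g i j : Fin N}
    (hg : C g = MGate.and i j) : ∀ v ∈ WS R C g, v ∈ WS R C i ∨ v ∈ WS R C j := by
  intro v hv
  rw [mem_WS] at hv
  by_contra hcon
  rw [not_or, mem_WS, mem_WS, not_and, not_and, not_not, not_not] at hcon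
  obtain ⟨T₁, P₁, D₁, h1⟩ := hcon.1 hv.1
  obtain ⟨T₂, P₂, D₂, h2⟩ := hcon.2 hv.1
  exact hv.2 ⟨_, _, _, Proof.and g i j T₁ T₂ P₁ P₂ D₁ D₂ hg h1 h2⟩

/-- an input looks at one non-edge, at two fixed positions -/
theorem WS_input {R : Finset (Fin k → Fin n)}
    (hR : ∀ v ∈ R, ∀ v' ∈ R, ∀ i j : Fin k, v i = v' j → i = j)
    {C : Fin N → MGate n N} {g : Fin N} {a b : Fin n}
    (hg : C g = MGate.input a b) (hk : 2 ≤ k) : ∃ i j : Fin k, i ≠ j ∧
      ∀ v ∈ WS R C g, v i = a ∧ v j = b := by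
  rcases (WS R C g).eq_empty_or_nonempty with h0 | ⟨v₀, hv₀⟩
  · refine ⟨⟨0, by omega⟩, ⟨1, by omega⟩, ?_, ?_⟩
    · rw [Ne, Fin.ext_iff]
      simp
    · intro v hv
      rw [h0] at hv
      exact absurd hv (notMem_empty v)
  · have key : ∀ v ∈ WS R C g, a ≠ b ∧ ∃ i j : Fin k, v i = a ∧ v j = b := by
      intro v hv
      rw [mem_WS] at hv
      by_contra hcon
      exact hv.2 ⟨_, _, _, Proof.leaf g a b hg hcon⟩
    obtain ⟨hab, i, j, hi, hj⟩ := key v₀ hv₀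
    refine ⟨i, j, ?_, ?_⟩
    · rintro rfl
      exact hab (hi.symm.trans hj)
    · intro v hv
      obtain ⟨_, i', j', hi', hj'⟩ := key v hv
      have hvR := (mem_WS.1 hv).1
      have hv₀R := (mem_WS.1 hv₀).1
      have e1 := hR v hvR v₀ hv₀R i' i (by rw [hi', hi])
      have e2 := hR v hvR v₀ hv₀R j' j (by rw [hj', hj])
      rw [← e1, ← e2]
      exact ⟨hi', hj'⟩

section tree

variable (R : Finset (Fin k → Fin n)) (C : Fin N → MGate n N) (μ : (Fin k → Fin n) → ℝ) (Λ : ℝ)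

/-- proof trees -/
theorem tree_acc {G : SimpleGraph (Fin n)} (hΛ : 0 ≤ Λ) (hk : 2 ≤ k)
    (hR : ∀ v ∈ R, ∀ v' ∈ R, ∀ i j : Fin k, v i = v' j → i = j)
    (hlow : ∀ A B E : Finset (Fin k → Fin n), (A = ∅ ∨ ∃ g, A = WS R C g) →
      (B = ∅ ∨ ∃ g, B = WS R C g) → (E = ∅ ∨ ∃ g, E = WS R C g) →
      -Λ ≤ ∑ v ∈ A \ (B \ E), μ v)
    (hupp : ∀ g, ∀ (i j : Fin k) (a b : Fin n), i ≠ j → ¬ G.Adj a b →
      (∀ v ∈ WS R C g, v i = a ∧ v j = b) → ∑ v ∈ WS R C g, μ v ≤ Λ)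
    {g : Fin N} {T : ℕ} {P : Finset (Fin N)} {D : ℕ} (h : Proof C G g T P D) :
    1 ≤ T ∧ ∃ g' : Fin N, WS R C g ⊆ WS R C g' ∧
      ∑ v ∈ WS R C g', μ v ≤ (3 * (T : ℝ) - 2) * Λ := by
  classical
  induction h with
  | leaf g a b hg hab =>
    refine ⟨le_refl _, g, subset_refl _, ?_⟩
    obtain ⟨i, j, hij, hv⟩ := WS_input hR hg hk
    have := hupp g i j a b hij hab hv
    norm_num
    exact this
  | left g i j T P D hg _ ih =>
    obtain ⟨h1, g', h2, h3⟩ := ih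
    exact ⟨h1, g', (WS_or_left hg).trans h2, h3⟩
  | right g i j T P D hg _ ih =>
    obtain ⟨h1, g', h2, h3⟩ := ih
    exact ⟨h1, g', (WS_or_right hg).trans h2, h3⟩
  | and g i j T₁ T₂ P₁ P₂ D₁ D₂ hg _ _ ih₁ ih₂ =>
    obtain ⟨h1, g₁, h2, h3⟩ := ih₁
    obtain ⟨h1', g₂, h2', h3'⟩ := ih₂
    refine ⟨by omega, g, subset_refl _, ?_⟩
    set W := WS R C g with hW
    set A := WS R C g₁ with hA
    set B := WS R C g₂ with hB
    have hsub : ∀ v ∈ W, v ∈ A ∨ v ∈ B := by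
      intro v hv
      rcases WS_and hg v hv with h | h
      · exact Or.inl (h2 h)
      · exact Or.inr (h2' h)
    -- `μ W = μ (W ∩ A) + μ (W \ A)`
    have e1 : ∑ v ∈ W, μ v = ∑ v ∈ W ∩ A, μ v + ∑ v ∈ W \ A, μ v := by
      rw [← sum_union (disjoint_left.2 fun v h h' =>
        (Finset.mem_sdiff.1 h').2 (mem_inter.1 h).2)]
      congr 1
      ext v
      rw [mem_union, mem_inter, Finset.mem_sdiff]
      tauto
    have e2 : ∑ v ∈ A, μ v = ∑ v ∈ W ∩ A, μ v + ∑ v ∈ A \ (W \ ∅), μ v := by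
      rw [← sum_union (disjoint_left.2 fun v h h' =>
        (Finset.mem_sdiff.1 h').2 (by simpa using (mem_inter.1 h).1))]
      congr 1
      ext v
      rw [mem_union, mem_inter, Finset.mem_sdiff, sdiff_empty]
      tauto
    have e3 : ∑ v ∈ B, μ v = ∑ v ∈ W \ A, μ v + ∑ v ∈ B \ (W \ A), μ v := by
      rw [← sum_union (disjoint_left.2 fun v h h' => (Finset.mem_sdiff.1 h').2 h)]
      congr 1
      ext v
      rw [mem_union, Finset.mem_sdiff, Finset.mem_sdiff, Finset.mem_sdiff]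
      have := hsub v
      tauto
    have l1 := hlow A W ∅ (Or.inr ⟨g₁, rfl⟩) (Or.inr ⟨g, rfl⟩) (Or.inl rfl)
    have l2 := hlow B W A (Or.inr ⟨g₂, rfl⟩) (Or.inr ⟨g, rfl⟩) (Or.inr ⟨g₁, rfl⟩)
    push_cast
    nlinarith

end tree

section dag

variable (R : Finset (Fin k → Fin n)) (C : Fin N → MGate n N)

/-- `e` is not a disjunction -/
def NonOr (e : Fin N) : Prop := ∀ i j, C e ≠ MGate.or i j

/-- a proof of `h` with gates in `P`, depth `d` -/
def Q (G : SimpleGraph (Fin n)) (P : Finset (Fin N)) (h : Fin N) (d : ℕ) : Prop :=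
  ∃ (T' : ℕ) (P' : Finset (Fin N)), P' ⊆ P ∧ Proof C G h T' P' d

/-- follow the disjunctions -/
theorem repr {G : SimpleGraph (Fin n)} (P : Finset (Fin N)) {h : Fin N} {T : ℕ}
    {P' : Finset (Fin N)} {d : ℕ} (hp : Proof C G h T P' d) : P' ⊆ P →
    ∃ e ∈ P, NonOr C e ∧ Q C G P e d ∧ WS R C h ⊆ WS R C e := by
  induction hp with
  | leaf g a b hg hab =>
    intro hP
    refine ⟨g, hP (mem_singleton_self g), fun i j hij => ?_, ⟨1, {g}, hP,
      Proof.leaf g a b hg hab⟩, subset_refl _⟩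
    rw [hg] at hij
    cases hij
  | left g i j T P₁ D hg hp ih =>
    intro hP
    obtain ⟨e, h1, h2, h3, h4⟩ := ih ((subset_insert _ _).trans hP)
    exact ⟨e, h1, h2, h3, (WS_or_left hg).trans h4⟩
  | right g i j T P₁ D hg hp ih =>
    intro hP
    obtain ⟨e, h1, h2, h3, h4⟩ := ih ((subset_insert _ _).trans hP)
    exact ⟨e, h1, h2, h3, (WS_or_right hg).trans h4⟩
  | and g i j T₁ T₂ P₁ P₂ D₁ D₂ hg hp₁ hp₂ _ _ =>
    intro hP
    refine ⟨g, hP (mem_insert_self _ _), fun i' j' hij => ?_, ⟨_, _, hP,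
      Proof.and g i j T₁ T₂ P₁ P₂ D₁ D₂ hg hp₁ hp₂⟩, subset_refl _⟩
    rw [hg] at hij
    cases hij

/-- the lines for the walk -/
theorem dag_lines {G : SimpleGraph (Fin n)} (hk : 2 ≤ k) (hn : 1 ≤ n)
    (hR : ∀ v ∈ R, ∀ v' ∈ R, ∀ i j : Fin k, v i = v' j → i = j)
    {g : Fin N} {T : ℕ} {P : Finset (Fin N)} {D : ℕ} (h : Proof C G g T P D) :
    ∃ (ι : Type) (_ : Fintype ι) (_ : DecidableEq ι) (γ : ι → Fin N) (rank : ι → ℕ) (t₀ : ι),
      Fintype.card ι ≤ P.card ∧ rank t₀ ≤ D ∧ WS R C g ⊆ WS R C (γ t₀) ∧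
      ∀ t, ∃ J : Finset ι, J.card ≤ 2 ∧ (∀ r ∈ J, rank r < rank t) ∧
        ∃ (i j : Fin k) (a b : Fin n), i ≠ j ∧ ¬ G.Adj a b ∧
          ∀ v ∈ WS R C (γ t), (∃ r ∈ J, v ∈ WS R C (γ r)) ∨ (v i = a ∧ v j = b) := by
  classical
  let good : Fin N → Prop := fun e => e ∈ P ∧ NonOr C e ∧ ∃ d, Q C G P e d
  have hrk : ∀ t : {e // good e}, ∃ d, Q C G P t.1 d := fun t => t.2.2.2
  obtain ⟨e₀, he1, he2, he3, he4⟩ := repr R C P h (subset_refl P)
  refine ⟨{e // good e}, inferInstance, inferInstance, fun t => t.1,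
    fun t => Nat.find (hrk t), ⟨e₀, he1, he2, D, he3⟩, ?_, ?_, he4, ?_⟩
  · rw [Fintype.card_subtype]
    refine card_le_card fun e he => ?_
    rw [mem_filter] at he
    exact he.2.1
  · exact Nat.find_min' _ he3
  · intro t
    obtain ⟨T', P', hP', hpf⟩ := Nat.find_spec (hrk t)
    -- the last step of the shortest proof
    have hmin : ∀ (s : {e // good e}) (d : ℕ), Q C G P s.1 d → d < Nat.find (hrk t) →
        Nat.find (hrk s) < Nat.find (hrk t) := by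
      intro s d hs hd
      exact lt_of_le_of_lt (Nat.find_min' _ hs) hd
    generalize hd : Nat.find (hrk t) = d at hpf hmin
    have hnon := t.2.2.1
    generalize ht : t.1 = e at hpf hnon
    have i₀ : Fin k := ⟨0, by omega⟩
    cases hpf with
    | leaf _ a b hg hab =>
      obtain ⟨i, j, hij, hv⟩ := WS_input hR hg hk
      refine ⟨∅, by simp, by simp, i, j, a, b, hij, hab, fun v hvt => Or.inr ?_⟩
      dsimp only at hvt
      rw [ht] at hvt
      exact hv v hvt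
    | left _ i j T P D hg hp => exact absurd hg (hnon i j)
    | right _ i j T P D hg hp => exact absurd hg (hnon i j)
    | and _ i j T₁ T₂ P₁ P₂ D₁ D₂ hg hp₁ hp₂ =>
      have hs1 : P₁ ⊆ P := fun x hx => hP' (mem_insert_of_mem (mem_union_left _ hx))
      have hs2 : P₂ ⊆ P := fun x hx => hP' (mem_insert_of_mem (mem_union_right _ hx))
      obtain ⟨e₁, a1, a2, a3, a4⟩ := repr R C P hp₁ hs1
      obtain ⟨e₂, b1, b2, b3, b4⟩ := repr R C P hp₂ hs2
      let s₁ : {e // good e} := ⟨e₁, a1, a2, _, a3⟩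
      let s₂ : {e // good e} := ⟨e₂, b1, b2, _, b3⟩
      refine ⟨{s₁, s₂}, card_le_two, ?_, ⟨0, by omega⟩, ⟨1, by omega⟩, ⟨0, by omega⟩,
        ⟨0, by omega⟩, ?_, G.loopless.irrefl _, ?_⟩
      · intro r hr
        dsimp only
        rw [hd]
        rw [mem_insert, mem_singleton] at hr
        rcases hr with rfl | rfl
        · exact hmin s₁ D₁ a3 (by omega)
        · exact hmin s₂ D₂ b3 (by omega)
      · rw [Ne, Fin.ext_iff]
        simp
      · intro v hvt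
        left
        dsimp only at hvt
        rw [ht] at hvt
        rcases WS_and hg v hvt with h | h
        · exact ⟨s₁, by simp, a4 h⟩
        · exact ⟨s₂, by simp, b4 h⟩

end dag

end CICx

open CICx TBCx in
/-- the circuit form follows from the pseudo-measure -/
theorem cic (δ : ℝ) (hδ : 0 ≤ δ) (h : PM δ) : CIC δ := by
  intro γ ε hγ hε
  obtain ⟨η, hη⟩ : ∃ η : ℝ, η = min γ 1 / 2 := ⟨_, rfl⟩
  have hmin0 : 0 < min γ 1 := lt_min hγ one_pos
  have hη0 : 0 < η := by rw [hη]; linarith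
  have hη1 : 2 * η ≤ 1 := by
    have := min_le_right γ 1
    rw [hη]
    linarith
  have hηγ : 2 * η ≤ γ := by
    have := min_le_left γ 1
    rw [hη]
    linarith
  obtain ⟨c, hc, k₀, hk₀⟩ := h η ε hη0 hε
  obtain ⟨c₁, hc₁⟩ : ∃ c₁ : ℝ, c₁ = min c 1 := ⟨_, rfl⟩
  have hc₁0 : 0 < c₁ := by rw [hc₁]; exact lt_min hc one_pos
  have hc₁1 : c₁ ≤ 1 := by rw [hc₁]; exact min_le_right _ _
  have hc₁c : c₁ ≤ c := by rw [hc₁]; exact min_le_left _ _
  refine ⟨c₁ ^ 2 / 32, by positivity, max k₀ 2, fun kN hk => ?_⟩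
  obtain ⟨n₀, hn₀⟩ := hk₀ kN (le_trans (le_max_left _ _) hk)
  have hk2 : 2 ≤ kN := le_trans (le_max_right _ _) hk
  obtain ⟨k, hkk⟩ : ∃ k : ℝ, k = (kN : ℝ) := ⟨_, rfl⟩
  have hk1R : 1 ≤ k := by
    rw [hkk]
    have : 1 ≤ kN := by omega
    exact_mod_cast this
  have hev := (ev_log (7 * k) η hη0).and (((tendsto_rpow_atTop one_pos).comp
    (tendsto_natCast_atTop_atTop (R := ℝ))).eventually_ge_atTop ((2 : ℝ) ^ (8 / c₁)))
  obtain ⟨n₁, hn₁⟩ := eventually_atTop.1 hev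
  refine ⟨max (max n₀ n₁) 1, fun n hn NN hNN C => ?_⟩
  obtain ⟨R, hR, hFamR⟩ := hn₀ n (by omega)
  obtain ⟨hA, hB⟩ := hn₁ n (by omega)
  have hn1N : 1 ≤ n := by omega
  have hn1 : (1 : ℝ) ≤ n := by exact_mod_cast hn1N
  have hn0 : (0 : ℝ) < n := by linarith
  -- the logarithm
  obtain ⟨Lg, hLg⟩ : ∃ Lg : ℝ, Lg = Real.logb 2 n := ⟨_, rfl⟩
  have hLg8 : 8 / c₁ ≤ Lg := by
    rw [hLg, Real.le_logb_iff_rpow_le (by norm_num) hn0]
    have : ((fun x : ℝ => x ^ (1 : ℝ)) ∘ Nat.cast) n = (n : ℝ) := by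
      simp
    rw [this] at hB
    exact hB
  have hcL : 8 ≤ c₁ * Lg := by
    rw [div_le_iff₀ hc₁0] at hLg8
    linarith
  have hLg0 : 0 < Lg := lt_of_lt_of_le (by positivity) hLg8
  have hkL : Lg ≤ k * Lg := by nlinarith
  have hckL : 8 ≤ c₁ * (k * Lg) := by nlinarith
  -- the number of steps in a segment
  obtain ⟨s, hs⟩ : ∃ s : ℕ, s = ⌊c₁ / 4 * (k * Lg)⌋₊ := ⟨_, rfl⟩
  have hs1 : (s : ℝ) ≤ c₁ / 4 * (k * Lg) := by
    rw [hs]
    exact Nat.floor_le (by positivity)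
  have hs2 : c₁ / 4 * (k * Lg) < s + 1 := by
    rw [hs]
    exact Nat.lt_floor_add_one _
  have hs3 : c₁ / 8 * (k * Lg) ≤ s := by linarith
  have hs4 : 1 ≤ s := by
    have : (1 : ℝ) ≤ s := by linarith
    exact_mod_cast this
  have hs4R : (1 : ℝ) ≤ s := by exact_mod_cast hs4
  have hkLnn : 0 ≤ k * Lg := by positivity
  have hs5 : (s : ℝ) ≤ k * Lg := by
    refine hs1.trans ?_
    nlinarith
  -- the family
  classical
  set V : Finset (Finset (Fin kN → Fin n)) := univ.image (WS R C) with hV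
  have hVcard : V.card ≤ NN := by
    refine card_image_le.trans ?_
    rw [card_univ, Fintype.card_fin]
  set V1 : Finset (Finset (Fin kN → Fin n)) := insert ∅ V with hV1
  have hV1c : V1.card ≤ NN + 1 := (card_insert_le _ _).trans (by omega)
  have hVmem : ∀ g, WS R C g ∈ V := fun g => mem_image_of_mem _ (mem_univ _)
  set Fam1 : Finset (Finset (Fin kN → Fin n)) :=
    (V1 ×ˢ V1 ×ˢ V1).image (fun z => z.1 \ (z.2.1 \ z.2.2)) with hFam1
  set Fam2 : Finset (Finset (Fin kN → Fin n)) :=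
    (Fintype.piFinset (fun _ : Fin (2 * s + 2) => V1 ×ˢ (univ : Finset Bool))).image
      (fun z => R.filter (fun x => ∀ i, (x ∈ (z i).1 ↔ (z i).2 = true))) with hFam2
  set Fam := Fam1 ∪ Fam2 with hFam
  have hF1card : Fam1.card ≤ (NN + 1) ^ 3 := by
    refine card_image_le.trans ?_
    rw [card_product, card_product]
    calc V1.card * (V1.card * V1.card) ≤ (NN + 1) * ((NN + 1) * (NN + 1)) :=
          Nat.mul_le_mul hV1c (Nat.mul_le_mul hV1c hV1c)
      _ = (NN + 1) ^ 3 := by ring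
  have hF2card : Fam2.card ≤ (2 * (NN + 1)) ^ (2 * s + 2) := by
    refine card_image_le.trans ?_
    rw [Fintype.card_piFinset, prod_const, card_univ, Fintype.card_fin, card_product, card_univ,
      Fintype.card_bool]
    exact Nat.pow_le_pow_left (by omega) _
  have hFcard : Fam.card ≤ (NN + 1) ^ 3 + (2 * (NN + 1)) ^ (2 * s + 2) :=
    (card_union_le _ _).trans (Nat.add_le_add hF1card hF2card)
  have hi : ∀ A : Finset (Fin kN → Fin n), (A = ∅ ∨ ∃ g, A = WS R C g) → A ∈ V1 := by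
    rintro A (h | ⟨g, h⟩)
    · rw [h]; exact mem_insert_self _ _
    · rw [h]; exact mem_insert_of_mem (hVmem g)
  have hsubR : ∀ A : Finset (Fin kN → Fin n), (A = ∅ ∨ ∃ g, A = WS R C g) → A ⊆ R := by
    rintro A (h | ⟨g, h⟩)
    · rw [h]; exact empty_subset _
    · rw [h]
      intro v hv
      exact (mem_WS.1 hv).1
  have hmem1 : ∀ A B E : Finset (Fin kN → Fin n), (A = ∅ ∨ ∃ g, A = WS R C g) →
      (B = ∅ ∨ ∃ g, B = WS R C g) → (E = ∅ ∨ ∃ g, E = WS R C g) → A \ (B \ E) ∈ Fam := by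
    intro A B E h1 h2 h3
    refine mem_union_left _ (mem_image.2 ⟨(A, B, E), ?_, rfl⟩)
    rw [mem_product, mem_product]
    exact ⟨hi _ h1, hi _ h2, hi _ h3⟩
  have hmem2 : ∀ L : List (Finset (Fin kN → Fin n) × Bool), L.length ≤ 2 * s + 2 →
      (∀ l ∈ L, l.1 ∈ V ∨ l.1 = ∅) → UL R id L ∈ Fam := by
    intro L hLl hLV
    have hi' : ∀ A : Finset (Fin kN → Fin n), (A ∈ V ∨ A = ∅) → A ∈ V1 := by
      rintro A (h | h)
      · exact mem_insert_of_mem h
      · rw [h]; exact mem_insert_self _ _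
    refine mem_union_right _ (mem_image.2 ⟨fun i => L.getD i.1 (∅, false), ?_, ?_⟩)
    · rw [Fintype.mem_piFinset]
      intro i
      rw [mem_product]
      refine ⟨?_, mem_univ _⟩
      rcases Nat.lt_or_ge i.1 L.length with hlt | hge
      · rw [List.getD_eq_getElem _ _ hlt]
        exact hi' _ (hLV _ (List.getElem_mem hlt))
      · rw [List.getD_eq_default _ _ hge]
        exact hi' _ (Or.inr rfl)
    · ext x
      rw [Wx.mem_UL, mem_filter]
      refine and_congr_right fun _ => ⟨fun hx l hl => ?_, fun hx i => ?_⟩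
      · obtain ⟨j, hj, rfl⟩ := List.getElem_of_mem hl
        have := hx ⟨j, by omega⟩
        dsimp only at this
        rw [List.getD_eq_getElem _ _ hj] at this
        exact this
      · dsimp only
        rcases Nat.lt_or_ge i.1 L.length with hlt | hge
        · rw [List.getD_eq_getElem _ _ hlt]
          exact hx _ (List.getElem_mem hlt)
        · rw [List.getD_eq_default _ _ hge]
          simp
  -- the number of sets
  obtain ⟨N, hN⟩ : ∃ N : ℝ, N = (n : ℝ) ^ (2 - 2 * η) := ⟨_, rfl⟩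
  have hN1 : 1 ≤ N := by
    rw [hN]
    exact Real.one_le_rpow hn1 (by linarith)
  have hVN : (NN : ℝ) ≤ 2 ^ N := by
    refine hNN.trans ?_
    refine Real.rpow_le_rpow_of_exponent_le (by norm_num) ?_
    rw [hN]
    exact Real.rpow_le_rpow_of_exponent_le hn1 (by linarith)
  have h2N : (1 : ℝ) ≤ 2 ^ N := Real.one_le_rpow (by norm_num) (by linarith)
  have hV1' : (NN : ℝ) + 1 ≤ 2 ^ (N + 1) := by
    rw [Real.rpow_add (by norm_num), Real.rpow_one]
    linarith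
  have hFamR' : (Fam.card : ℝ) ≤ 2 ^ ((n : ℝ) ^ (2 - η)) := by
    have hV0 : (0 : ℝ) ≤ NN := Nat.cast_nonneg _
    obtain ⟨X, hX⟩ : ∃ X : ℝ, X = (N + 2) * (2 * s + 2) := ⟨_, rfl⟩
    have a1 : ((2 * ((NN : ℝ) + 1)) ^ (2 * s + 2) : ℝ) ≤ 2 ^ X := by
      have b1 : 2 * ((NN : ℝ) + 1) ≤ 2 ^ (N + 2) := by
        have : (2 : ℝ) ^ (N + 2) = 2 * 2 ^ (N + 1) := by
          rw [show N + 2 = 1 + (N + 1) by ring, Real.rpow_add (by norm_num) 1, Real.rpow_one]
        rw [this]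
        linarith
      refine (pow_le_pow_left₀ (by positivity) b1 _).trans (le_of_eq ?_)
      rw [← Real.rpow_natCast, ← Real.rpow_mul (by norm_num), hX]
      push_cast
      ring_nf
    have a2 : (((NN : ℝ) + 1) ^ 3 : ℝ) ≤ 2 ^ X := by
      refine (pow_le_pow_left₀ (by positivity) hV1' 3).trans ?_
      rw [← Real.rpow_natCast, ← Real.rpow_mul (by norm_num)]
      refine Real.rpow_le_rpow_of_exponent_le (by norm_num) ?_
      rw [hX]
      push_cast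
      nlinarith
    have a3 : (2 : ℝ) ^ X + 2 ^ X = 2 ^ (X + 1) := by
      rw [Real.rpow_add (by norm_num), Real.rpow_one]
      ring
    have a4 : X + 1 ≤ (n : ℝ) ^ (2 - η) := by
      have b1 : (n : ℝ) ^ (2 - η) = N * (n : ℝ) ^ η := by
        rw [hN, ← Real.rpow_add hn0]
        congr 1
        ring
      have b2 : X ≤ 6 * (N * (k * Lg)) := by
        rw [hX]
        have : (2 * (s : ℝ) + 2) ≤ 2 * (k * Lg) := by
          have c1 : 2 * (s : ℝ) + 2 ≤ 4 * s := by linarith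
          have c2 : 4 * (s : ℝ) ≤ 4 * (c₁ / 4 * (k * Lg)) := by linarith
          have c3 : 4 * (c₁ / 4 * (k * Lg)) ≤ 2 * (k * Lg) := by nlinarith
          linarith
        calc (N + 2) * (2 * s + 2) ≤ (3 * N) * (2 * (k * Lg)) :=
              mul_le_mul (by linarith) this (by positivity) (by positivity)
          _ = 6 * (N * (k * Lg)) := by ring
      have b3 : 1 ≤ N * (k * Lg) := by
        have c1 : 1 ≤ k * Lg := by nlinarith
        nlinarith
      have b4 : 7 * (k * Lg) ≤ (n : ℝ) ^ η := by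
        rw [hLg]
        linarith
      have b5 : N * (7 * (k * Lg)) ≤ N * (n : ℝ) ^ η :=
        mul_le_mul_of_nonneg_left b4 (by linarith)
      rw [b1]
      linarith
    have a5 : (2 : ℝ) ^ (X + 1) ≤ (2 : ℝ) ^ ((n : ℝ) ^ (2 - η)) :=
      Real.rpow_le_rpow_of_exponent_le (by norm_num) a4
    have a6 : (Fam.card : ℝ) ≤ ((NN : ℝ) + 1) ^ 3 + (2 * ((NN : ℝ) + 1)) ^ (2 * s + 2) := by
      exact_mod_cast hFcard
    linarith
  obtain ⟨G, μ, hG, hμ, hμ1, hμ2⟩ := hFamR Fam hFamR'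
  obtain ⟨Λ, hΛ⟩ : ∃ Λ : ℝ, Λ = (n : ℝ) ^ (-(c * kN)) := ⟨_, rfl⟩
  have hΛ0 : 0 < Λ := by rw [hΛ]; exact Real.rpow_pos_of_pos hn0 _
  rw [← hΛ] at hμ1 hμ2
  have hΛk : Λ * (n : ℝ) ^ (c * k) = 1 := by
    rw [hΛ, hkk, ← Real.rpow_add hn0]
    rw [show -(c * (kN : ℝ)) + c * kN = 0 by ring, Real.rpow_zero]
  have hmain : (4 : ℝ) ≤ (n : ℝ) ^ (c₁ / 4 * k) := by
    have e1 : (n : ℝ) = 2 ^ Lg := by
      rw [hLg, Real.rpow_logb (by norm_num) (by norm_num) hn0]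
    rw [e1, ← Real.rpow_mul (by norm_num)]
    calc (4 : ℝ) = 2 ^ (2 : ℝ) := by norm_num
      _ ≤ _ := Real.rpow_le_rpow_of_exponent_le (by norm_num) (by linarith)
  refine ⟨G, fun u hu => hG u hu, fun out hC T P D hp => ?_⟩
  have hout : WS R C out = R := by
    ext v
    rw [mem_WS]
    refine ⟨fun h => h.1, fun hv => ⟨hv, ?_⟩⟩
    rintro ⟨T, P, D, hp⟩
    refine hC _ (KK_clique (v := v) ?_) T P D hp
    intro i j hij
    exact hR v hv v hv i j hij
  refine ⟨?_, ?_⟩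
  · -- proof trees
    obtain ⟨hT1, g', hg1, hg2⟩ := tree_acc R C μ Λ hΛ0.le hk2 hR
      (fun A B E h1 h2 h3 => hμ1 _ (hmem1 A B E h1 h2 h3)
        ((sdiff_subset).trans (hsubR A h1)))
      (fun g i j a b hij hab hv => by
        have hmemg : WS R C g ∈ Fam := by
          have := hmem1 (WS R C g) ∅ ∅ (Or.inr ⟨g, rfl⟩) (Or.inl rfl) (Or.inl rfl)
          simpa using this
        exact hμ2 _ hmemg (hsubR _ (Or.inr ⟨g, rfl⟩)) i j a b hij hab hv) hp
    have hg'R : WS R C g' = R := by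
      refine Subset.antisymm (hsubR _ (Or.inr ⟨g', rfl⟩)) fun v hv => hg1 ?_
      rw [hout]
      exact hv
    rw [hg'R, hμ] at hg2
    have hT0 : (1 : ℝ) ≤ T := by exact_mod_cast hT1
    have h1 : 1 ≤ 3 * (T : ℝ) * Λ := by nlinarith
    have h2 : (n : ℝ) ^ (c * k) ≤ 3 * T := by
      have hp0 : 0 ≤ (n : ℝ) ^ (c * k) := (Real.rpow_pos_of_pos hn0 _).le
      have := mul_le_mul_of_nonneg_right h1 hp0
      rw [one_mul] at this
      calc (n : ℝ) ^ (c * k) ≤ 3 * T * Λ * (n : ℝ) ^ (c * k) := this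
        _ = 3 * T * (Λ * (n : ℝ) ^ (c * k)) := by ring
        _ = 3 * T := by rw [hΛk, mul_one]
    have h3 : (n : ℝ) ^ (c₁ ^ 2 / 32 * k) * 4 ≤ (n : ℝ) ^ (c * k) := by
      calc (n : ℝ) ^ (c₁ ^ 2 / 32 * k) * 4 ≤
          (n : ℝ) ^ (c₁ ^ 2 / 32 * k) * (n : ℝ) ^ (c₁ / 4 * k) := by gcongr
        _ = (n : ℝ) ^ (c₁ ^ 2 / 32 * k + c₁ / 4 * k) := by rw [← Real.rpow_add hn0]
        _ ≤ (n : ℝ) ^ (c * k) := by
            refine Real.rpow_le_rpow_of_exponent_le hn1 ?_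
            have : c₁ ^ 2 / 32 + c₁ / 4 ≤ c := by nlinarith
            nlinarith
    rw [← hkk]
    linarith
  · -- proof dags
    obtain ⟨ι, i1, i2, γι, rank, t₀, hιP, hrk, hsub, hinf⟩ := dag_lines R C hk2 hn1N hR hp
    have hw := walk_gen G V R id μ Λ hΛ0.le s hs4
      (fun L h1 h2 => hμ1 _ (hmem2 L h1 h2) (by
        intro x hx
        exact ((Wx.mem_UL R id).1 hx).1))
      (fun L h1 h2 i j a b hij hab hx => hμ2 _ (hmem2 L h1 h2) (by
        intro x hx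
        exact ((Wx.mem_UL R id).1 hx).1) i j a b hij hab hx)
      (fun t => WS R C (γι t)) rank (fun t => hVmem _) t₀ hrk
      (fun x hx => hsub (by rw [hout]; exact hx)) hinf
    rw [hμ] at hw
    obtain ⟨M, hM⟩ : ∃ M : ℕ, M = P.card := ⟨_, rfl⟩
    have hιM : (Fintype.card ι : ℝ) ≤ M := by
      rw [hM]
      exact_mod_cast hιP
    have hM1R : (1 : ℝ) ≤ M := by
      have : 1 ≤ Fintype.card ι := Fintype.card_pos_iff.2 ⟨t₀⟩
      have : (1 : ℝ) ≤ Fintype.card ι := by exact_mod_cast this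
      linarith
    obtain ⟨Pn, hPn⟩ : ∃ Pn : ℕ, Pn = D / s + 1 := ⟨_, rfl⟩
    rw [← hPn] at hw
    have hw2 : 1 ≤ 2 ^ (s + 2) * (Pn : ℝ) * (M : ℝ) ^ Pn * Λ := by
      refine hw.trans ?_
      gcongr
    have h16 : (n : ℝ) ^ (c * k) ≤ 2 ^ (s + 2) * (Pn : ℝ) * (M : ℝ) ^ Pn := by
      have hp0 : 0 ≤ (n : ℝ) ^ (c * k) := (Real.rpow_pos_of_pos hn0 _).le
      have := mul_le_mul_of_nonneg_right hw2 hp0
      rw [one_mul] at this
      calc (n : ℝ) ^ (c * k) ≤ 2 ^ (s + 2) * (Pn : ℝ) * (M : ℝ) ^ Pn * Λ * (n : ℝ) ^ (c * k) :=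
            this
        _ = 2 ^ (s + 2) * (Pn : ℝ) * (M : ℝ) ^ Pn * (Λ * (n : ℝ) ^ (c * k)) := by ring
        _ = _ := by rw [hΛk, mul_one]
    have h17 : (2 : ℝ) ^ (s + 2) ≤ (n : ℝ) ^ (c₁ / 2 * k) := by
      have e0 : (2 : ℝ) ^ s ≤ (n : ℝ) ^ (c₁ / 4 * k) := by
        have e1 : (n : ℝ) = 2 ^ Lg := by
          rw [hLg, Real.rpow_logb (by norm_num) (by norm_num) hn0]
        rw [e1, ← Real.rpow_mul (by norm_num), ← Real.rpow_natCast]
        refine Real.rpow_le_rpow_of_exponent_le (by norm_num) ?_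
        linarith
      have e2 : (n : ℝ) ^ (c₁ / 2 * k) = (n : ℝ) ^ (c₁ / 4 * k) * (n : ℝ) ^ (c₁ / 4 * k) := by
        rw [← Real.rpow_add hn0]
        congr 1
        ring
      have e3 : (2 : ℝ) ^ (s + 2) = 2 ^ s * 4 := by ring
      rw [e2, e3]
      exact mul_le_mul e0 hmain (by norm_num) (Real.rpow_pos_of_pos hn0 _).le
    have h18 : (n : ℝ) ^ (c₁ / 2 * k) * (n : ℝ) ^ (c₁ / 2 * k) ≤ (n : ℝ) ^ (c * k) := by
      rw [← Real.rpow_add hn0]
      refine Real.rpow_le_rpow_of_exponent_le hn1 ?_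
      have : c₁ * k ≤ c * k := mul_le_mul_of_nonneg_right hc₁c (by linarith)
      linarith
    have hpos : 0 < (n : ℝ) ^ (c₁ / 2 * k) := Real.rpow_pos_of_pos hn0 _
    have h19 : (Pn : ℝ) * (M : ℝ) ^ Pn ≤ ((M : ℝ) + 1) ^ (2 * Pn) := by
      have e1 : (Pn : ℝ) ≤ 2 ^ Pn := by
        have := Nat.lt_two_pow_self (n := Pn)
        exact_mod_cast this.le
      have e2 : (2 : ℝ) ^ Pn ≤ ((M : ℝ) + 1) ^ Pn :=
        pow_le_pow_left₀ (by norm_num) (by linarith) Pn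
      have e3 : (M : ℝ) ^ Pn ≤ ((M : ℝ) + 1) ^ Pn :=
        pow_le_pow_left₀ (by linarith) (by linarith) Pn
      calc (Pn : ℝ) * (M : ℝ) ^ Pn ≤ ((M : ℝ) + 1) ^ Pn * ((M : ℝ) + 1) ^ Pn :=
            mul_le_mul (e1.trans e2) e3 (by positivity) (by positivity)
        _ = ((M : ℝ) + 1) ^ (2 * Pn) := by rw [← pow_add]; congr 1; ring
    have h20 : (n : ℝ) ^ (c₁ / 2 * k) ≤ ((M : ℝ) + 1) ^ (2 * Pn) := by
      refine le_of_mul_le_mul_left ?_ hpos
      refine h18.trans (h16.trans ?_)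
      calc (2 : ℝ) ^ (s + 2) * Pn * (M : ℝ) ^ Pn = 2 ^ (s + 2) * (Pn * (M : ℝ) ^ Pn) := by ring
        _ ≤ (n : ℝ) ^ (c₁ / 2 * k) * ((M : ℝ) + 1) ^ (2 * Pn) :=
            mul_le_mul h17 h19 (by positivity) hpos.le
    obtain ⟨Y, hY⟩ : ∃ Y : ℝ, Y = Real.logb 2 ((M : ℝ) + 1) := ⟨_, rfl⟩
    have h21 : c₁ / 2 * k * Lg ≤ 2 * Pn * Y := by
      have h22 := Real.logb_le_logb_of_le (b := 2) (by norm_num) hpos h20
      rw [Real.logb_pow, Real.logb_rpow_eq_mul_logb_of_pos hn0, ← hLg, ← hY] at h22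
      push_cast at h22
      linarith
    have hY0 : 0 ≤ Y := by
      rw [hY]
      exact Real.logb_nonneg (by norm_num) (by linarith)
    have h23 : (Pn : ℝ) * s ≤ D + s := by
      have h24 : Pn * s ≤ D + s := by
        rw [hPn, Nat.add_mul, one_mul]
        have := Nat.div_mul_le_self D s
        omega
      exact_mod_cast h24
    have hsnn : (0 : ℝ) ≤ s := by linarith
    have h25 : c₁ / 4 * (k * Lg) * s ≤ (D + s) * Y := by
      have h26 := mul_le_mul_of_nonneg_right h21 hsnn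
      have h27 := mul_le_mul_of_nonneg_right h23 hY0
      nlinarith
    have hkL0 : 0 ≤ c₁ / 4 * (k * Lg) := by positivity
    have h28 := mul_le_mul_of_nonneg_left hs3 hkL0
    have hD0 : (0 : ℝ) ≤ D := Nat.cast_nonneg _
    rw [← hLg, ← hM, ← hY, ← hkk]
    calc c₁ ^ 2 / 32 * (k * Lg) ^ 2 = c₁ / 4 * (k * Lg) * (c₁ / 8 * (k * Lg)) := by ring
      _ ≤ c₁ / 4 * (k * Lg) * s := h28
      _ ≤ (D + s) * Y := h25
      _ ≤ (D + k * Lg) * Y := by
          refine mul_le_mul_of_nonneg_right ?_ hY0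
          linarith

end Pool.Agent.KCN
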