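import Pool.Agent.Lib.KCN.DefsA
import Pool.Agent.Lib.KCN.CIC
import Pool.Agent.Lib.KCM.K8

/-!
# MP_678664_lc, row CIA: Theorem A for circuits
-/

set_option autoImplicit false

namespace Pool.Agent.KCN

open Finset Pool.Agent.KCM

namespace CIAx

open CICx

variable {n k N : ℕ}

/-- the numbering of the pairs of positions -/
def num (k : ℕ) : Fin k × Fin k ≃ Fin (k * k) := finProdFinEquiv

/-- the numbering of the pairs of positions with a vertex -/
def num' (k n : ℕ) : (Fin k × Fin k) × Fin n ≃ Fin (k * k * n) :=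
  (Equiv.prodCongr finProdFinEquiv (Equiv.refl _)).trans finProdFinEquiv

open Classical in
/-- the sets at a leaf -/
noncomputable def LL (a b : Fin n) (r : ℕ) : Finset (Fin k → Fin n) :=
  univ.filter (fun v => ∃ t : Fin k × Fin k, (num k t).val < r ∧ t.1 ≠ t.2 ∧ v t.1 = a ∧
    v t.2 = b)

theorem mem_LL {a b : Fin n} {r : ℕ} {v : Fin k → Fin n} :
    v ∈ LL a b r ↔ ∃ t : Fin k × Fin k, (num k t).val < r ∧ t.1 ≠ t.2 ∧ v t.1 = a ∧
      v t.2 = b := by
  classical
  unfold LL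
  rw [mem_filter]
  exact ⟨fun h => h.2, fun h => ⟨mem_univ _, h⟩⟩

/-- the set of a gate -/
noncomputable def WW (C : Fin N → MGate n N) (g : Fin N) : Finset (Fin k → Fin n) :=
  WS univ C g

open Classical in
/-- the sets at the end -/
noncomputable def NN (C : Fin N → MGate n N) (g : Fin N) (r : ℕ) : Finset (Fin k → Fin n) :=
  univ.filter (fun v => v ∈ WW C g ∨ ∃ t : (Fin k × Fin k) × Fin n, (num' k n t).val < r ∧
    t.1.1 ≠ t.1.2 ∧ v t.1.1 = t.2 ∧ v t.1.2 = t.2)

theorem mem_NN {C : Fin N → MGate n N} {g : Fin N} {r : ℕ} {v : Fin k → Fin n} :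
    v ∈ NN C g r ↔ v ∈ WW C g ∨ ∃ t : (Fin k × Fin k) × Fin n, (num' k n t).val < r ∧
      t.1.1 ≠ t.1.2 ∧ v t.1.1 = t.2 ∧ v t.1.2 = t.2 := by
  classical
  unfold NN
  rw [mem_filter]
  exact ⟨fun h => h.2, fun h => ⟨mem_univ _, h⟩⟩

open Classical in
/-- the family -/
noncomputable def VV (k : ℕ) (C : Fin N → MGate n N) (out : Fin N) :
    Finset (Finset (Fin k → Fin n)) :=
  (univ.image (WW C) ∪ (univ : Finset ((Fin n × Fin n) × Fin (k * k + 1))).image
    (fun z => LL z.1.1 z.1.2 z.2.val)) ∪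
    (univ : Finset (Fin (k * k * n + 1))).image (fun z => NN C out z.val)

theorem card_VV (C : Fin N → MGate n N) (out : Fin N) :
    (VV k C out).card ≤ N + n * n * (k * k + 1) + (k * k * n + 1) := by
  classical
  unfold VV
  refine (card_union_le _ _).trans (Nat.add_le_add ?_ ?_)
  · refine (card_union_le _ _).trans (Nat.add_le_add ?_ ?_)
    · refine card_image_le.trans ?_
      rw [card_univ, Fintype.card_fin]
    · refine card_image_le.trans (le_of_eq ?_)
      rw [card_univ, Fintype.card_prod, Fintype.card_prod, Fintype.card_fin, Fintype.card_fin]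
  · refine card_image_le.trans (le_of_eq ?_)
    rw [card_univ, Fintype.card_fin]

theorem WW_mem (C : Fin N → MGate n N) (out g : Fin N) : WW C g ∈ VV k C out := by
  classical
  unfold VV
  exact mem_union_left _ (mem_union_left _ (mem_image_of_mem _ (mem_univ _)))

theorem LL_mem (C : Fin N → MGate n N) (out : Fin N) (a b : Fin n) (r : ℕ) (hr : r ≤ k * k) :
    LL a b r ∈ VV k C out := by
  classical
  unfold VV
  exact mem_union_left _ (mem_union_right _
    (mem_image.2 ⟨((a, b), ⟨r, by omega⟩), mem_univ _, rfl⟩))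

theorem NN_mem (C : Fin N → MGate n N) (out : Fin N) (r : ℕ) (hr : r ≤ k * k * n) :
    NN C out r ∈ VV k C out := by
  classical
  unfold VV
  exact mem_union_right _ (mem_image.2 ⟨⟨r, by omega⟩, mem_univ _, rfl⟩)

/-- the derivation of the sets at a leaf -/
theorem leafs (C : Fin N → MGate n N) (out : Fin N) (G : SimpleGraph (Fin n)) (a b : Fin n)
    (hab : ¬ G.Adj a b) : ∀ r ≤ k * k, ∃ (T : ℕ) (e : (Fin k → Fin n) → ℕ),
      T ≤ r ∧ Der G (VV k C out) (LL a b r) T e := by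
  classical
  intro r
  induction r with
  | zero =>
    intro _
    refine ⟨0, fun _ => 0, le_refl _, ?_⟩
    have : (LL a b 0 : Finset (Fin k → Fin n)) = ∅ := by
      rw [eq_empty_iff_forall_notMem]
      intro v hv
      obtain ⟨t, ht, _⟩ := mem_LL.1 hv
      omega
    rw [this]
    exact Der.start
  | succ r ih =>
    intro hr
    obtain ⟨T, e, hT, hD⟩ := ih (by omega)
    set t := (num k).symm ⟨r, by omega⟩ with ht
    have hstep : ∀ v ∈ LL a b (r + 1), v ∈ LL a b r ∨ (t.1 ≠ t.2 ∧ v t.1 = a ∧ v t.2 = b) := by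
      intro v hv
      obtain ⟨t', h1, h2⟩ := mem_LL.1 hv
      by_cases h3 : (num k t').val < r
      · exact Or.inl (mem_LL.2 ⟨t', h3, h2⟩)
      · right
        have h4 : num k t' = ⟨r, by omega⟩ := Fin.ext (by simp; omega)
        have h5 : t = t' := by rw [ht, ← h4]; simp
        rw [h5]
        exact h2
    by_cases hne : t.1 = t.2
    · have h1 := Der.join (LL a b (r + 1)) hD Der.start (LL_mem C out a b (r + 1) hr)
        (fun v hv => by
          rcases hstep v hv with h | h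
          · exact Or.inl h
          · exact absurd hne h.1)
      exact ⟨T + 0, _, by omega, h1⟩
    · refine ⟨T + 1, _, by omega, Der.look (LL a b (r + 1)) t.1 t.2 a b
        hD (LL_mem C out a b (r + 1) hr) hne hab (fun v hv => ?_)⟩
      rcases hstep v hv with h | h
      · exact Or.inl h
      · exact Or.inr h.2

theorem leaf_sub (C : Fin N → MGate n N) (g : Fin N) (a b : Fin n)
    (hg : C g = MGate.input a b) : (WW C g : Finset (Fin k → Fin n)) ⊆ LL a b (k * k) := by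
  intro v hv
  rw [mem_LL]
  have h := (mem_WS.1 hv).2
  have h1 : (KK v).Adj a b := by
    by_contra h2
    exact h ⟨_, _, _, Proof.leaf g a b hg h2⟩
  obtain ⟨h2, i, j, h3, h4⟩ := h1
  refine ⟨(i, j), Fin.isLt _, ?_, h3, h4⟩
  intro h5
  apply h2
  have h6 : i = j := h5
  rw [← h3, ← h4, h6]

theorem der_of_proof (C : Fin N → MGate n N) (out : Fin N) (G : SimpleGraph (Fin n)) (g : Fin N)
    (T : ℕ) (P : Finset (Fin N)) (D : ℕ) (h : Proof C G g T P D) :
    ∃ (T' : ℕ) (e : (Fin k → Fin n) → ℕ), T' ≤ T * (k * k) ∧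
      Der G (VV k C out) (WW C g) T' e := by
  induction h with
  | leaf g a b hg hab =>
    obtain ⟨T', e, hT, hD⟩ := leafs (k := k) C out G a b hab _ (le_refl _)
    exact ⟨T', _, by rw [one_mul]; exact hT, Der.join (WW C g) hD Der.start (WW_mem C out g)
      (fun v hv => Or.inl (leaf_sub C g a b hg hv))⟩
  | left g i j T P D hg _ ih =>
    obtain ⟨T', e, hT, hD⟩ := ih
    exact ⟨T', _, hT, Der.join (WW C g) hD Der.start (WW_mem C out g)
      (fun v hv => Or.inl (WS_or_left hg hv))⟩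
  | right g i j T P D hg _ ih =>
    obtain ⟨T', e, hT, hD⟩ := ih
    exact ⟨T', _, hT, Der.join (WW C g) hD Der.start (WW_mem C out g)
      (fun v hv => Or.inl (WS_or_right hg hv))⟩
  | and g i j T₁ T₂ P₁ P₂ D₁ D₂ hg _ _ ih₁ ih₂ =>
    obtain ⟨T₁', e₁, hT₁, hD₁⟩ := ih₁
    obtain ⟨T₂', e₂, hT₂, hD₂⟩ := ih₂
    exact ⟨T₁' + T₂', _, by rw [add_mul]; omega,
      Der.join (WW C g) hD₁ hD₂ (WW_mem C out g) (fun v hv => WS_and hg v hv)⟩

/-- the end of the derivation -/
theorem finals (C : Fin N → MGate n N) (out : Fin N) (G : SimpleGraph (Fin n)) (T₀ : ℕ)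
    (e₀ : (Fin k → Fin n) → ℕ) (h0 : Der G (VV k C out) (WW C out) T₀ e₀) :
    ∀ r ≤ k * k * n, ∃ (T : ℕ) (e : (Fin k → Fin n) → ℕ),
      T ≤ T₀ + r ∧ Der G (VV k C out) (NN C out r) T e := by
  classical
  intro r
  induction r with
  | zero =>
    intro _
    refine ⟨T₀, e₀, le_refl _, ?_⟩
    have : (NN C out 0 : Finset (Fin k → Fin n)) = WW C out := by
      ext v
      rw [mem_NN]
      constructor
      · rintro (h | ⟨t, ht, -⟩)
        · exact h
        · omega
      · exact Or.inl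
    rw [this]
    exact h0
  | succ r ih =>
    intro hr
    obtain ⟨T, e, hT, hD⟩ := ih (by omega)
    set t := (num' k n).symm ⟨r, by omega⟩ with ht
    have hstep : ∀ v ∈ NN C out (r + 1), v ∈ NN C out r ∨
        (t.1.1 ≠ t.1.2 ∧ v t.1.1 = t.2 ∧ v t.1.2 = t.2) := by
      intro v hv
      rcases mem_NN.1 hv with h | ⟨t', h1, h2⟩
      · exact Or.inl (mem_NN.2 (Or.inl h))
      · by_cases h3 : (num' k n t').val < r
        · exact Or.inl (mem_NN.2 (Or.inr ⟨t', h3, h2⟩))
        · right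
          have h4 : num' k n t' = ⟨r, by omega⟩ := Fin.ext (by simp; omega)
          have h5 : t = t' := by rw [ht, ← h4]; simp
          rw [h5]
          exact h2
    by_cases hne : t.1.1 = t.1.2
    · have h1 := Der.join (NN C out (r + 1)) hD Der.start (NN_mem C out (r + 1) hr)
        (fun v hv => by
          rcases hstep v hv with h | h
          · exact Or.inl h
          · exact absurd hne h.1)
      exact ⟨T + 0, _, by omega, h1⟩
    · refine ⟨T + 1, _, by omega, Der.look (NN C out (r + 1)) t.1.1 t.1.2 t.2 t.2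
        hD (NN_mem C out (r + 1) hr) hne (G.loopless.irrefl _) (fun v hv => ?_)⟩
      rcases hstep v hv with h | h
      · exact Or.inl h
      · exact Or.inr h.2

theorem NN_last {C : Fin N → MGate n N} {out : Fin N} (hC : Sound k C out) :
    (NN C out (k * k * n) : Finset (Fin k → Fin n)) = univ := by
  rw [eq_univ_iff_forall]
  intro v
  rw [mem_NN]
  by_cases hv : Function.Injective v
  · left
    refine mem_WS.2 ⟨mem_univ _, ?_⟩
    rintro ⟨T, P, D, h⟩
    exact hC _ (KK_clique hv) T P D h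
  · right
    unfold Function.Injective at hv
    push Not at hv
    obtain ⟨i, j, h1, h2⟩ := hv
    exact ⟨((i, j), v i), Fin.isLt _, h2, rfl, h1.symm⟩

/-- the leaves of a proof -/
theorem leaves (C : Fin N → MGate n N) (G : SimpleGraph (Fin n)) (g : Fin N)
    (T : ℕ) (P : Finset (Fin N)) (D : ℕ) (h : Proof C G g T P D) :
    1 ≤ T ∧ ∃ L : Finset (Fin n × Fin n), L.card ≤ T ∧
      ∀ H : SimpleGraph (Fin n), (∀ p ∈ L, ¬ H.Adj p.1 p.2) → Tr C H g := by
  classical
  induction h with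
  | leaf g a b hg hab =>
    refine ⟨le_refl _, {(a, b)}, by simp, fun H hH => ?_⟩
    exact ⟨_, _, _, Proof.leaf g a b hg (hH (a, b) (mem_singleton_self _))⟩
  | left g i j T P D hg _ ih =>
    obtain ⟨h1, L, hL, hH⟩ := ih
    refine ⟨h1, L, hL, fun H h => ?_⟩
    obtain ⟨T', P', D', h'⟩ := hH H h
    exact ⟨_, _, _, Proof.left g i j T' P' D' hg h'⟩
  | right g i j T P D hg _ ih =>
    obtain ⟨h1, L, hL, hH⟩ := ih
    refine ⟨h1, L, hL, fun H h => ?_⟩
    obtain ⟨T', P', D', h'⟩ := hH H h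
    exact ⟨_, _, _, Proof.right g i j T' P' D' hg h'⟩
  | and g i j T₁ T₂ P₁ P₂ D₁ D₂ hg _ _ ih₁ ih₂ =>
    obtain ⟨h1, L₁, hL₁, hH₁⟩ := ih₁
    obtain ⟨h2, L₂, hL₂, hH₂⟩ := ih₂
    refine ⟨by omega, L₁ ∪ L₂, (card_union_le _ _).trans (Nat.add_le_add hL₁ hL₂),
      fun H h => ?_⟩
    obtain ⟨T', P', D', h'⟩ := hH₁ H fun p hp => h p (mem_union_left _ hp)
    obtain ⟨T'', P'', D'', h''⟩ := hH₂ H fun p hp => h p (mem_union_right _ hp)
    exact ⟨_, _, _, Proof.and g i j T' T'' P' P'' D' D'' hg h' h''⟩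

/-- a proof reads a pair in each block of `k` vertices -/
theorem le_T {C : Fin N → MGate n N} {out : Fin N} (hk : 1 ≤ k) (hC : Sound k C out)
    {G : SimpleGraph (Fin n)} {T : ℕ} {P : Finset (Fin N)} {D : ℕ}
    (h : Proof C G out T P D) : n / k ≤ T := by
  classical
  obtain ⟨-, L, hL, hH⟩ := leaves C G out T P D h
  by_contra hcon
  have h1 : (L.image fun p => (p.1 : ℕ) / k).card < (range (n / k)).card := by
    rw [card_range]
    exact lt_of_le_of_lt (card_image_le.trans hL) (not_le.1 hcon)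
  obtain ⟨b, hb, hb'⟩ := exists_mem_notMem_of_card_lt_card h1
  rw [mem_range] at hb
  have hbk : b * k + k ≤ n := by
    calc b * k + k = (b + 1) * k := by ring
      _ ≤ n / k * k := Nat.mul_le_mul_right k hb
      _ ≤ n := Nat.div_mul_le_self n k
  let v : Fin k → Fin n := fun i => ⟨b * k + i, by have := i.2; omega⟩
  have hv : Function.Injective v := by
    intro i j hij
    have h2 : b * k + (i : ℕ) = b * k + j := congrArg Fin.val hij
    exact Fin.ext (by omega)
  have hdiv : ∀ i, ((v i : Fin n) : ℕ) / k = b := by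
    intro i
    change (b * k + (i : ℕ)) / k = b
    rw [Nat.add_comm, Nat.add_mul_div_right _ _ (by omega), Nat.div_eq_of_lt i.2, Nat.zero_add]
  obtain ⟨T', P', D', h'⟩ := hH (KK v) fun p hp hadj => by
    obtain ⟨-, i, -, hi, -⟩ := hadj
    refine hb' (mem_image.2 ⟨p, hp, ?_⟩)
    rw [← hi]
    exact hdiv i
  exact hC _ (KK_clique hv) T' P' D' h'

/-- more memories -/
theorem der_mono {G : SimpleGraph (Fin n)} {V V' : Finset (Finset (Fin k → Fin n))}
    (hV : V ⊆ V') {W : Finset (Fin k → Fin n)} {T : ℕ} {e : (Fin k → Fin n) → ℕ}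
    (h : Der G V W T e) : Der G V' W T e := by
  induction h with
  | start => exact Der.start
  | look W' i j a b _ h1 h2 h3 h4 ih => exact Der.look W' i j a b ih (hV h1) h2 h3 h4
  | join W' _ _ h1 h2 ih₁ ih₂ => exact Der.join W' ih₁ ih₂ (hV h1) h2

end CIAx

open CIAx in
/-- **Row CIA**: Theorem A for circuits. -/
theorem cia : CIA := by
  classical
  refine ⟨48, fun u k n s N hu huk hn hN C => ?_⟩
  have hk2 : 2 ≤ k := hu.trans huk
  set s' : ℕ := 3 * s + 2 + 2 * k with hs'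
  have hn' : n ≤ 2 ^ s' := hn.trans (Nat.pow_le_pow_right (by norm_num) (by omega))
  have hV : ((univ : Finset (Fin N)).biUnion (fun out => VV k C out)).card ≤ 2 ^ s' := by
    have h0 : ((univ : Finset (Fin N)).biUnion (fun out => VV k C out)).card ≤
        N * (N + n * n * (k * k + 1) + (k * k * n + 1)) := by
      refine (card_biUnion_le_card_mul _ _ _ fun out _ => card_VV C out).trans (le_of_eq ?_)
      rw [card_univ, Fintype.card_fin]
    refine h0.trans ?_
    have h1 : k * k ≤ 2 ^ (2 * k) := by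
      have h2 : k ≤ 2 ^ k := Nat.lt_two_pow_self.le
      calc k * k ≤ 2 ^ k * 2 ^ k := Nat.mul_le_mul h2 h2
        _ = 2 ^ (2 * k) := by rw [← pow_add]; congr 1; ring
    have h2 : 2 ^ s' = 2 ^ s * (2 ^ s * 2 ^ s * (4 * 2 ^ (2 * k))) := by
      rw [hs', pow_add, pow_add, pow_mul]
      have : (2 ^ 3 : ℕ) ^ s = 2 ^ s * (2 ^ s * 2 ^ s) := by
        rw [← mul_pow, ← mul_pow]
        norm_num
      rw [this]
      ring
    have hA : 1 ≤ 2 ^ s := Nat.one_le_two_pow
    set A := 2 ^ s with hAdef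
    set Q := 2 ^ (2 * k) with hQ
    have hQ4 : 4 ≤ k * k := Nat.mul_le_mul hk2 hk2
    have h3 : n * n ≤ A * A := Nat.mul_le_mul hn hn
    have h4 : A ≤ A * A := Nat.le_mul_of_pos_left _ hA
    have h5 : 1 ≤ A * A := hA.trans h4
    rw [h2]
    refine Nat.mul_le_mul hN ?_
    calc N + n * n * (k * k + 1) + (k * k * n + 1) ≤
          A * A + A * A * (k * k + 1) + (k * k * (A * A) + A * A) := by
            have h6 : k * k * n ≤ k * k * (A * A) := Nat.mul_le_mul_left _ (hn.trans h4)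
            have h7 : n * n * (k * k + 1) ≤ A * A * (k * k + 1) := Nat.mul_le_mul_right _ h3
            omega
      _ = A * A * (2 * (k * k) + 3) := by ring
      _ ≤ A * A * (4 * Q) := Nat.mul_le_mul_left _ (by omega)
  obtain ⟨c, hc⟩ := lower u k n s' hu huk hn' _ hV
  refine ⟨mpG c, c, fun a b => Iff.rfl, fun out hC T P D hp => ?_⟩
  obtain ⟨T₀, e₀, hT₀, hD₀⟩ := der_of_proof (k := k) C out (mpG c) out T P D hp
  obtain ⟨T', e', hT', hD'⟩ := finals C out (mpG c) T₀ e₀ hD₀ _ le_rfl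
  rw [NN_last hC] at hD'
  have hmain := (hc T' e' (der_mono (subset_biUnion_of_mem (fun out => VV k C out)
    (mem_univ out)) hD')).2.1
  have hT1 : 1 ≤ T := (leaves C (mpG c) out T P D hp).1
  have hTk : n / k ≤ T := le_T (by omega) hC hp
  have hn2 : n ≤ 2 * k * T := by
    have h1 : n < k * (n / k + 1) := Nat.lt_mul_div_succ n (by omega)
    have h2 : k * (n / k + 1) ≤ k * (T + T) := Nat.mul_le_mul_left _ (by omega)
    calc n ≤ k * (T + T) := (h1.le.trans h2)
      _ = 2 * k * T := by ring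
  have hk' : (2 : ℝ) ≤ k := by exact_mod_cast hk2
  have hTr : (1 : ℝ) ≤ T := by exact_mod_cast hT1
  have hT'r : (T' : ℝ) ≤ 3 * (k : ℝ) ^ 3 * T := by
    have h1 : T' ≤ T * (k * k) + k * k * n := hT'.trans (Nat.add_le_add_right hT₀ _)
    have h2 : k * k * n ≤ k * k * (2 * k * T) := Nat.mul_le_mul_left _ hn2
    have h3 : (T' : ℝ) ≤ T * (k * k) + k * k * (2 * k * T) := by
      exact_mod_cast h1.trans (Nat.add_le_add_left h2 _)
    have h4 : (T : ℝ) * (k * k) ≤ (k : ℝ) ^ 3 * T := by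
      have : (k : ℝ) * k ≤ (k : ℝ) ^ 3 := by nlinarith
      nlinarith
    nlinarith
  rcases Nat.eq_zero_or_pos s with h0 | h0
  · rw [h0]
    simp only [Nat.cast_zero, mul_zero, div_zero]
    rw [zero_pow (by omega)]
    positivity
  · have hs1 : (1 : ℝ) ≤ s := by exact_mod_cast h0
    have hk0 : (0 : ℝ) < k := by linarith
    have hs0 : (0 : ℝ) < s := by linarith
    set X : ℝ := (n : ℝ) / ((k : ℝ) ^ 48 * s) with hX
    have hX0 : 0 ≤ X := by positivity
    have hs'r : (s' : ℝ) ≤ 6 * k * s := by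
      rw [hs']
      push_cast
      nlinarith
    have hs'0 : (0 : ℝ) < s' := by
      rw [hs']
      positivity
    have h1 : X * (3 * (k : ℝ) ^ 2) ≤ (n : ℝ) / ((k : ℝ) ^ 40 * s') := by
      have h2 : (n : ℝ) / ((k : ℝ) ^ 40 * (6 * k * s)) ≤ (n : ℝ) / ((k : ℝ) ^ 40 * s') := by
        gcongr
      refine le_trans ?_ h2
      have h3 : X * (3 * (k : ℝ) ^ 2) = (n : ℝ) * 18 / (6 * (k : ℝ) ^ 46 * s) := by
        rw [hX]
        field_simp
        ring
      have h4 : (n : ℝ) / ((k : ℝ) ^ 40 * (6 * k * s)) =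
          (n : ℝ) * (k : ℝ) ^ 5 / (6 * (k : ℝ) ^ 46 * s) := by
        field_simp
      rw [h3, h4]
      have h5 : (18 : ℝ) ≤ (k : ℝ) ^ 5 := by
        calc (18 : ℝ) ≤ 2 ^ 5 := by norm_num
          _ ≤ (k : ℝ) ^ 5 := pow_le_pow_left₀ (by norm_num) hk' 5
      gcongr
    have h2 : X ^ (u + 2) * (3 * (k : ℝ) ^ 2) ^ (u + 2) ≤ (3 * (k : ℝ) ^ 3 * T) ^ 2 := by
      rw [← mul_pow]
      calc (X * (3 * (k : ℝ) ^ 2)) ^ (u + 2) ≤ ((n : ℝ) / ((k : ℝ) ^ 40 * s')) ^ (u + 2) :=
            pow_le_pow_left₀ (by positivity) h1 _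
        _ ≤ (T' : ℝ) ^ 2 := hmain
        _ ≤ (3 * (k : ℝ) ^ 3 * T) ^ 2 := pow_le_pow_left₀ (by positivity) hT'r 2
    have h3 : 9 * (k : ℝ) ^ 6 ≤ (3 * (k : ℝ) ^ 2) ^ (u + 2) := by
      have h4 : (1 : ℝ) ≤ 3 * (k : ℝ) ^ 2 := by nlinarith
      calc 9 * (k : ℝ) ^ 6 ≤ (3 * (k : ℝ) ^ 2) ^ 4 := by
            have h5 : (3 * (k : ℝ) ^ 2) ^ 4 = 81 * (k : ℝ) ^ 2 * (k : ℝ) ^ 6 := by ring
            rw [h5]
            have h6 : (9 : ℝ) ≤ 81 * (k : ℝ) ^ 2 := by nlinarith
            exact mul_le_mul_of_nonneg_right h6 (by positivity)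
        _ ≤ (3 * (k : ℝ) ^ 2) ^ (u + 2) := pow_le_pow_right₀ h4 (by omega)
    have h4 : X ^ (u + 2) * (9 * (k : ℝ) ^ 6) ≤ (T : ℝ) ^ 2 * (9 * (k : ℝ) ^ 6) := by
      calc X ^ (u + 2) * (9 * (k : ℝ) ^ 6) ≤ X ^ (u + 2) * (3 * (k : ℝ) ^ 2) ^ (u + 2) :=
            mul_le_mul_of_nonneg_left h3 (by positivity)
        _ ≤ (3 * (k : ℝ) ^ 3 * T) ^ 2 := h2
        _ = (T : ℝ) ^ 2 * (9 * (k : ℝ) ^ 6) := by ring
    exact le_of_mul_le_mul_right h4 (by positivity)

end Pool.Agent.KCN
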