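import Pool.Agent.Lib.KCN.CIC
import Pool.Agent.Lib.KCN.PMD2

/-!
# Two-sided error: circuit form
-/

set_option autoImplicit false

namespace Pool.Agent.KCN

open Finset Filter Pool.Agent.KCM

namespace CICx

variable {n k N : ℕ}

theorem KK_inj {R : Finset (Fin k → Fin n)} (hk : 2 ≤ k)
    (hR : ∀ v ∈ R, ∀ v' ∈ R, ∀ i j : Fin k, v i = v' j → i = j) :
    ∀ v ∈ R, ∀ v' ∈ R, KK v = KK v' → v = v' := by
  intro v hv v' hv' he
  funext i
  obtain ⟨j, hj⟩ : ∃ j : Fin k, j ≠ i := by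
    by_cases h0 : i = ⟨0, by omega⟩
    · refine ⟨⟨1, by omega⟩, fun h => ?_⟩
      rw [h0, Fin.ext_iff] at h
      simp at h
    · exact ⟨⟨0, by omega⟩, fun h => h0 h.symm⟩
  have h1 : (KK v).Adj (v i) (v j) := by
    refine ⟨fun h => hj ?_, i, j, rfl, rfl⟩
    exact (hR v hv v hv i j h).symm
  rw [he] at h1
  obtain ⟨_, i', j', h2, h3⟩ := h1
  have h4 : i' = i := hR v' hv' v hv i' i h2
  rw [← h2, h4]

open Classical in
theorem card_KK {R : Finset (Fin k → Fin n)} (hk : 2 ≤ k)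
    (hR : ∀ v ∈ R, ∀ v' ∈ R, ∀ i j : Fin k, v i = v' j → i = j) (C : Fin N → MGate n N)
    (out : Fin N) :
    ((R.image KK).filter (fun H => ∀ T P D, ¬ Proof C H out T P D)).card =
      (WS R C out).card := by
  have h1 : (R.image KK).filter (fun H => ∀ T P D, ¬ Proof C H out T P D) =
      (WS R C out).image KK := by
    ext H
    rw [mem_filter, mem_image, mem_image]
    constructor
    · rintro ⟨⟨v, hv, rfl⟩, h⟩
      refine ⟨v, mem_WS.2 ⟨hv, ?_⟩, rfl⟩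
      rintro ⟨T, P, D, hp⟩
      exact h T P D hp
    · rintro ⟨v, hv, rfl⟩
      obtain ⟨h2, h3⟩ := mem_WS.1 hv
      exact ⟨⟨v, h2, rfl⟩, fun T P D hp => h3 ⟨T, P, D, hp⟩⟩
  rw [h1]
  refine card_image_of_injOn fun v hv v' hv' he => ?_
  exact KK_inj hk hR v (mem_WS.1 hv).1 v' (mem_WS.1 hv').1 he

end CICx

open CICx TBCx in
/-- the circuit form with two-sided error follows from the pseudo-measure -/
theorem cic2 (h : PM2) : CIC2 := by
  intro γ ε hγ hε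
  obtain ⟨η, hη⟩ : ∃ η : ℝ, η = min γ 1 / 2 := ⟨_, rfl⟩
  have hmin0 : 0 < min γ 1 := lt_min hγ one_pos
  have hη0 : 0 < η := by rw [hη]; linarith
  have hη1 : 2 * η ≤ 1 := by
    have := min_le_right γ 1
    rw [hη]
    linarith
  have hηγ : 2 * η ≤ γ := by
    have := min_le_left γ 1
    rw [hη]
    linarith
  obtain ⟨c, β, hc, hβ, k₀, hk₀⟩ := h η ε hη0 hε
  obtain ⟨c₁, hc₁⟩ : ∃ c₁ : ℝ, c₁ = min c 1 := ⟨_, rfl⟩
  have hc₁0 : 0 < c₁ := by rw [hc₁]; exact lt_min hc one_pos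
  have hc₁1 : c₁ ≤ 1 := by rw [hc₁]; exact min_le_right _ _
  have hc₁c : c₁ ≤ c := by rw [hc₁]; exact min_le_left _ _
  refine ⟨c₁ ^ 2 / 64, β, by positivity, hβ, max (max k₀ 2) ⌈8 * β / c₁⌉₊, fun kN hk => ?_⟩
  obtain ⟨n₀, hn₀⟩ := hk₀ kN (by omega)
  have hk2 : 2 ≤ kN := by omega
  obtain ⟨k, hkk⟩ : ∃ k : ℝ, k = (kN : ℝ) := ⟨_, rfl⟩
  have hk1R : 1 ≤ k := by
    rw [hkk]
    have : 1 ≤ kN := by omega
    exact_mod_cast this
  have hβk : 2 * β ≤ c₁ / 4 * k := by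
    have h1 : 8 * β / c₁ ≤ (⌈8 * β / c₁⌉₊ : ℝ) := Nat.le_ceil _
    have h2 : ((⌈8 * β / c₁⌉₊ : ℕ) : ℝ) ≤ kN := by exact_mod_cast (by omega : ⌈8 * β / c₁⌉₊ ≤ kN)
    have h3 : 8 * β / c₁ ≤ k := by rw [hkk]; exact h1.trans h2
    rw [div_le_iff₀ hc₁0] at h3
    linarith
  have hev := (ev_log (7 * k) η hη0).and (((tendsto_rpow_atTop one_pos).comp
    (tendsto_natCast_atTop_atTop (R := ℝ))).eventually_ge_atTop ((2 : ℝ) ^ (16 / c₁)))
  obtain ⟨n₁, hn₁⟩ := eventually_atTop.1 hev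
  refine ⟨max (max n₀ n₁) 1, fun n hn => ?_⟩
  obtain ⟨R, hRne, hR, hFamR⟩ := hn₀ n (by omega)
  classical
  refine ⟨R.image KK, hRne.image _, ?_, fun NN hNN C => ?_⟩
  · intro H hH
    obtain ⟨v, hv, rfl⟩ := mem_image.1 hH
    exact KK_clique fun i j hij => hR v hv v hv i j hij
  obtain ⟨hA, hB⟩ := hn₁ n (by omega)
  have hn1N : 1 ≤ n := by omega
  have hn1 : (1 : ℝ) ≤ n := by exact_mod_cast hn1N
  have hn0 : (0 : ℝ) < n := by linarith
  -- the logarithm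
  obtain ⟨Lg, hLg⟩ : ∃ Lg : ℝ, Lg = Real.logb 2 n := ⟨_, rfl⟩
  have hLg8 : 16 / c₁ ≤ Lg := by
    rw [hLg, Real.le_logb_iff_rpow_le (by norm_num) hn0]
    have : ((fun x : ℝ => x ^ (1 : ℝ)) ∘ Nat.cast) n = (n : ℝ) := by
      simp
    rw [this] at hB
    exact hB
  have hcL : 16 ≤ c₁ * Lg := by
    rw [div_le_iff₀ hc₁0] at hLg8
    linarith
  have hLg0 : 0 < Lg := lt_of_lt_of_le (by positivity) hLg8
  have hkL : Lg ≤ k * Lg := by nlinarith
  have hckL : 16 ≤ c₁ * (k * Lg) := by nlinarith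
  -- the number of steps in a segment
  obtain ⟨s, hs⟩ : ∃ s : ℕ, s = ⌊c₁ / 8 * (k * Lg)⌋₊ := ⟨_, rfl⟩
  have hs1 : (s : ℝ) ≤ c₁ / 8 * (k * Lg) := by
    rw [hs]
    exact Nat.floor_le (by positivity)
  have hs2 : c₁ / 8 * (k * Lg) < s + 1 := by
    rw [hs]
    exact Nat.lt_floor_add_one _
  have hs3 : c₁ / 16 * (k * Lg) ≤ s := by linarith
  have hs4 : 1 ≤ s := by
    have : (1 : ℝ) ≤ s := by linarith
    exact_mod_cast this
  have hs4R : (1 : ℝ) ≤ s := by exact_mod_cast hs4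
  have hkLnn : 0 ≤ k * Lg := by positivity
  have hs5 : (s : ℝ) ≤ k * Lg := by
    refine hs1.trans ?_
    nlinarith
  -- the family
  set V : Finset (Finset (Fin kN → Fin n)) := univ.image (WS R C) with hV
  have hVcard : V.card ≤ NN := by
    refine card_image_le.trans ?_
    rw [card_univ, Fintype.card_fin]
  set V1 : Finset (Finset (Fin kN → Fin n)) := insert ∅ V with hV1
  have hV1c : V1.card ≤ NN + 1 := (card_insert_le _ _).trans (by omega)
  have hVmem : ∀ g, WS R C g ∈ V := fun g => mem_image_of_mem _ (mem_univ _)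
  set Fam1 : Finset (Finset (Fin kN → Fin n)) :=
    (V1 ×ˢ V1 ×ˢ V1).image (fun z => z.1 \ (z.2.1 \ z.2.2)) with hFam1
  set Fam2 : Finset (Finset (Fin kN → Fin n)) :=
    (Fintype.piFinset (fun _ : Fin (2 * s + 3) => V1 ×ˢ (univ : Finset Bool))).image
      (fun z => R.filter (fun x => ∀ i, (x ∈ (z i).1 ↔ (z i).2 = true))) with hFam2
  set Fam := Fam1 ∪ Fam2 with hFam
  have hF1card : Fam1.card ≤ (NN + 1) ^ 3 := by
    refine card_image_le.trans ?_
    rw [card_product, card_product]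
    calc V1.card * (V1.card * V1.card) ≤ (NN + 1) * ((NN + 1) * (NN + 1)) :=
          Nat.mul_le_mul hV1c (Nat.mul_le_mul hV1c hV1c)
      _ = (NN + 1) ^ 3 := by ring
  have hF2card : Fam2.card ≤ (2 * (NN + 1)) ^ (2 * s + 3) := by
    refine card_image_le.trans ?_
    rw [Fintype.card_piFinset, prod_const, card_univ, Fintype.card_fin, card_product, card_univ,
      Fintype.card_bool]
    exact Nat.pow_le_pow_left (by omega) _
  have hFcard : Fam.card ≤ (NN + 1) ^ 3 + (2 * (NN + 1)) ^ (2 * s + 3) :=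
    (card_union_le _ _).trans (Nat.add_le_add hF1card hF2card)
  have hi : ∀ A : Finset (Fin kN → Fin n), (A = ∅ ∨ ∃ g, A = WS R C g) → A ∈ V1 := by
    rintro A (h | ⟨g, h⟩)
    · rw [h]; exact mem_insert_self _ _
    · rw [h]; exact mem_insert_of_mem (hVmem g)
  have hsubR : ∀ A : Finset (Fin kN → Fin n), (A = ∅ ∨ ∃ g, A = WS R C g) → A ⊆ R := by
    rintro A (h | ⟨g, h⟩)
    · rw [h]; exact empty_subset _
    · rw [h]
      intro v hv
      exact (mem_WS.1 hv).1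
  have hmem1 : ∀ A B E : Finset (Fin kN → Fin n), (A = ∅ ∨ ∃ g, A = WS R C g) →
      (B = ∅ ∨ ∃ g, B = WS R C g) → (E = ∅ ∨ ∃ g, E = WS R C g) → A \ (B \ E) ∈ Fam := by
    intro A B E h1 h2 h3
    refine mem_union_left _ (mem_image.2 ⟨(A, B, E), ?_, rfl⟩)
    rw [mem_product, mem_product]
    exact ⟨hi _ h1, hi _ h2, hi _ h3⟩
  have hmem2 : ∀ L : List (Finset (Fin kN → Fin n) × Bool), L.length ≤ 2 * s + 3 →
      (∀ l ∈ L, l.1 ∈ V ∨ l.1 = ∅) → UL R id L ∈ Fam := by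
    intro L hLl hLV
    have hi' : ∀ A : Finset (Fin kN → Fin n), (A ∈ V ∨ A = ∅) → A ∈ V1 := by
      rintro A (h | h)
      · exact mem_insert_of_mem h
      · rw [h]; exact mem_insert_self _ _
    refine mem_union_right _ (mem_image.2 ⟨fun i => L.getD i.1 (∅, false), ?_, ?_⟩)
    · rw [Fintype.mem_piFinset]
      intro i
      rw [mem_product]
      refine ⟨?_, mem_univ _⟩
      rcases Nat.lt_or_ge i.1 L.length with hlt | hge
      · rw [List.getD_eq_getElem _ _ hlt]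
        exact hi' _ (hLV _ (List.getElem_mem hlt))
      · rw [List.getD_eq_default _ _ hge]
        exact hi' _ (Or.inr rfl)
    · ext x
      rw [Wx.mem_UL, mem_filter]
      refine and_congr_right fun _ => ⟨fun hx l hl => ?_, fun hx i => ?_⟩
      · obtain ⟨j, hj, rfl⟩ := List.getElem_of_mem hl
        have := hx ⟨j, by omega⟩
        dsimp only at this
        rw [List.getD_eq_getElem _ _ hj] at this
        exact this
      · dsimp only
        rcases Nat.lt_or_ge i.1 L.length with hlt | hge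
        · rw [List.getD_eq_getElem _ _ hlt]
          exact hx _ (List.getElem_mem hlt)
        · rw [List.getD_eq_default _ _ hge]
          simp
  -- the number of sets
  obtain ⟨N, hN⟩ : ∃ N : ℝ, N = (n : ℝ) ^ (2 - 2 * η) := ⟨_, rfl⟩
  have hN1 : 1 ≤ N := by
    rw [hN]
    exact Real.one_le_rpow hn1 (by linarith)
  have hVN : (NN : ℝ) ≤ 2 ^ N := by
    refine hNN.trans ?_
    refine Real.rpow_le_rpow_of_exponent_le (by norm_num) ?_
    rw [hN]
    exact Real.rpow_le_rpow_of_exponent_le hn1 (by linarith)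
  have h2N : (1 : ℝ) ≤ 2 ^ N := Real.one_le_rpow (by norm_num) (by linarith)
  have hV1' : (NN : ℝ) + 1 ≤ 2 ^ (N + 1) := by
    rw [Real.rpow_add (by norm_num), Real.rpow_one]
    linarith
  have hFamR' : (Fam.card : ℝ) ≤ 2 ^ ((n : ℝ) ^ (2 - η)) := by
    have hV0 : (0 : ℝ) ≤ NN := Nat.cast_nonneg _
    obtain ⟨X, hX⟩ : ∃ X : ℝ, X = (N + 2) * (2 * s + 3) := ⟨_, rfl⟩
    have a1 : ((2 * ((NN : ℝ) + 1)) ^ (2 * s + 3) : ℝ) ≤ 2 ^ X := by
      have b1 : 2 * ((NN : ℝ) + 1) ≤ 2 ^ (N + 2) := by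
        have : (2 : ℝ) ^ (N + 2) = 2 * 2 ^ (N + 1) := by
          rw [show N + 2 = 1 + (N + 1) by ring, Real.rpow_add (by norm_num) 1, Real.rpow_one]
        rw [this]
        linarith
      refine (pow_le_pow_left₀ (by positivity) b1 _).trans (le_of_eq ?_)
      rw [← Real.rpow_natCast, ← Real.rpow_mul (by norm_num), hX]
      push_cast
      ring_nf
    have a2 : (((NN : ℝ) + 1) ^ 3 : ℝ) ≤ 2 ^ X := by
      refine (pow_le_pow_left₀ (by positivity) hV1' 3).trans ?_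
      rw [← Real.rpow_natCast, ← Real.rpow_mul (by norm_num)]
      refine Real.rpow_le_rpow_of_exponent_le (by norm_num) ?_
      rw [hX]
      push_cast
      nlinarith
    have a3 : (2 : ℝ) ^ X + 2 ^ X = 2 ^ (X + 1) := by
      rw [Real.rpow_add (by norm_num), Real.rpow_one]
      ring
    have a4 : X + 1 ≤ (n : ℝ) ^ (2 - η) := by
      have b1 : (n : ℝ) ^ (2 - η) = N * (n : ℝ) ^ η := by
        rw [hN, ← Real.rpow_add hn0]
        congr 1
        ring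
      have b2 : X ≤ 6 * (N * (k * Lg)) := by
        rw [hX]
        have : (2 * (s : ℝ) + 3) ≤ 2 * (k * Lg) := by
          have c1 : 2 * (s : ℝ) + 3 ≤ 5 * s := by linarith
          have c2 : 5 * (s : ℝ) ≤ 5 * (c₁ / 8 * (k * Lg)) := by linarith
          have c3 : 5 * (c₁ / 8 * (k * Lg)) ≤ 2 * (k * Lg) := by nlinarith
          linarith
        calc (N + 2) * (2 * s + 3) ≤ (3 * N) * (2 * (k * Lg)) :=
              mul_le_mul (by linarith) this (by positivity) (by positivity)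
          _ = 6 * (N * (k * Lg)) := by ring
      have b3 : 1 ≤ N * (k * Lg) := by
        have c1 : 1 ≤ k * Lg := by nlinarith
        nlinarith
      have b4 : 7 * (k * Lg) ≤ (n : ℝ) ^ η := by
        rw [hLg]
        linarith
      have b5 : N * (7 * (k * Lg)) ≤ N * (n : ℝ) ^ η :=
        mul_le_mul_of_nonneg_left b4 (by linarith)
      rw [b1]
      linarith
    have a5 : (2 : ℝ) ^ (X + 1) ≤ (2 : ℝ) ^ ((n : ℝ) ^ (2 - η)) :=
      Real.rpow_le_rpow_of_exponent_le (by norm_num) a4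
    have a6 : (Fam.card : ℝ) ≤ ((NN : ℝ) + 1) ^ 3 + (2 * ((NN : ℝ) + 1)) ^ (2 * s + 3) := by
      exact_mod_cast hFcard
    linarith
  obtain ⟨G, μ, hG, hμ, hμ1, hμ2⟩ := hFamR Fam hFamR'
  obtain ⟨Λ, hΛ⟩ : ∃ Λ : ℝ, Λ = (n : ℝ) ^ (-(c * kN)) := ⟨_, rfl⟩
  have hΛ0 : 0 < Λ := by rw [hΛ]; exact Real.rpow_pos_of_pos hn0 _
  rw [← hΛ] at hμ1 hμ2
  have hΛk : Λ * (n : ℝ) ^ (c * k) = 1 := by
    rw [hΛ, hkk, ← Real.rpow_add hn0]
    rw [show -(c * (kN : ℝ)) + c * kN = 0 by ring, Real.rpow_zero]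
  have hmain : (4 : ℝ) ≤ (n : ℝ) ^ (c₁ / 8 * k) := by
    have e1 : (n : ℝ) = 2 ^ Lg := by
      rw [hLg, Real.rpow_logb (by norm_num) (by norm_num) hn0]
    rw [e1, ← Real.rpow_mul (by norm_num)]
    calc (4 : ℝ) = 2 ^ (2 : ℝ) := by norm_num
      _ ≤ _ := Real.rpow_le_rpow_of_exponent_le (by norm_num) (by linarith)
  refine ⟨G, fun u hu => hG u hu, fun out hC T P D hp => ?_⟩
  have hout : (R.card : ℝ) ≤ (n : ℝ) ^ β * (WS R C out).card := by
    have h1 := card_KK hk2 hR C out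
    have h2 : (R.image KK).card = R.card := by
      refine card_image_of_injOn fun v hv v' hv' he => ?_
      exact KK_inj hk2 hR v hv v' hv' he
    rw [h2] at hC
    rw [← h1]
    convert hC using 4
  have hβ0 : 0 < (n : ℝ) ^ (2 * β) := Real.rpow_pos_of_pos hn0 _
  have hβ1 : (n : ℝ) ^ (2 * β) ≤ (n : ℝ) ^ (c₁ / 4 * k) :=
    Real.rpow_le_rpow_of_exponent_le hn1 hβk
  refine ⟨?_, ?_⟩
  · -- proof trees
    obtain ⟨hT1, g', hg1, hg2⟩ := tree_acc R C μ Λ hΛ0.le hk2 hR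
      (fun A B E h1 h2 h3 => hμ1 _ (hmem1 A B E h1 h2 h3)
        ((sdiff_subset).trans (hsubR A h1)))
      (fun g i j a b hij hab hv => by
        have hmemg : WS R C g ∈ Fam := by
          have := hmem1 (WS R C g) ∅ ∅ (Or.inr ⟨g, rfl⟩) (Or.inl rfl) (Or.inl rfl)
          simpa using this
        exact hμ2 _ hmemg (hsubR _ (Or.inr ⟨g, rfl⟩)) i j a b hij hab hv) hp
    have hg'F : WS R C g' ∈ Fam := by
      have := hmem1 (WS R C g') ∅ ∅ (Or.inr ⟨g', rfl⟩) (Or.inl rfl) (Or.inl rfl)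
      simpa using this
    have hg'c : (R.card : ℝ) ≤ (n : ℝ) ^ β * (WS R C g').card := by
      refine hout.trans ?_
      refine mul_le_mul_of_nonneg_left ?_ (Real.rpow_pos_of_pos hn0 _).le
      exact_mod_cast card_le_card hg1
    have hbig := hμ _ hg'F (hsubR _ (Or.inr ⟨g', rfl⟩)) hg'c
    have hT0 : (1 : ℝ) ≤ T := by exact_mod_cast hT1
    have h0 : ∑ v ∈ WS R C g', μ v ≤ 3 * T * Λ := by nlinarith
    have h1 : 1 ≤ (n : ℝ) ^ (2 * β) * (3 * (T : ℝ) * Λ) :=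
      hbig.trans (mul_le_mul_of_nonneg_left h0 hβ0.le)
    have h2 : (n : ℝ) ^ (c * k) ≤ (n : ℝ) ^ (2 * β) * (3 * T) := by
      have hp0 : 0 ≤ (n : ℝ) ^ (c * k) := (Real.rpow_pos_of_pos hn0 _).le
      have := mul_le_mul_of_nonneg_right h1 hp0
      rw [one_mul] at this
      calc (n : ℝ) ^ (c * k) ≤ (n : ℝ) ^ (2 * β) * (3 * T * Λ) * (n : ℝ) ^ (c * k) := this
        _ = (n : ℝ) ^ (2 * β) * (3 * T) * (Λ * (n : ℝ) ^ (c * k)) := by ring
        _ = (n : ℝ) ^ (2 * β) * (3 * T) := by rw [hΛk, mul_one]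
    have h3 : (n : ℝ) ^ (2 * β) * ((n : ℝ) ^ (c₁ ^ 2 / 64 * k) * 4) ≤ (n : ℝ) ^ (c * k) := by
      calc (n : ℝ) ^ (2 * β) * ((n : ℝ) ^ (c₁ ^ 2 / 64 * k) * 4) ≤
          (n : ℝ) ^ (c₁ / 4 * k) * ((n : ℝ) ^ (c₁ ^ 2 / 64 * k) * (n : ℝ) ^ (c₁ / 8 * k)) := by
            gcongr
        _ = (n : ℝ) ^ (c₁ / 4 * k + (c₁ ^ 2 / 64 * k + c₁ / 8 * k)) := by
            rw [← Real.rpow_add hn0, ← Real.rpow_add hn0]
        _ ≤ (n : ℝ) ^ (c * k) := by
            refine Real.rpow_le_rpow_of_exponent_le hn1 ?_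
            have : c₁ / 4 + (c₁ ^ 2 / 64 + c₁ / 8) ≤ c := by nlinarith
            nlinarith
    have h4 : (n : ℝ) ^ (c₁ ^ 2 / 64 * k) * 4 ≤ 3 * T :=
      le_of_mul_le_mul_left (h3.trans h2) hβ0
    rw [← hkk]
    linarith
  · -- proof dags
    obtain ⟨ι, i1, i2, γι, rank, t₀, hιP, hrk, hsub, hinf⟩ := dag_lines R C hk2 hn1N hR hp
    have hUL : ∀ L : List (Finset (Fin kN → Fin n) × Bool), UL (WS R C out) id L =
        UL R id ((WS R C out, true) :: L) := by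
      intro L
      ext x
      rw [Wx.mem_UL, Wx.mem_UL]
      constructor
      · rintro ⟨h1, h2⟩
        refine ⟨(mem_WS.1 h1).1, fun l hl => ?_⟩
        rcases List.mem_cons.1 hl with h3 | h3
        · rw [h3]
          simpa using h1
        · exact h2 l h3
      · rintro ⟨h1, h2⟩
        have h3 := h2 (WS R C out, true) (by simp)
        exact ⟨by simpa using h3, fun l hl => h2 l (List.mem_cons_of_mem _ hl)⟩
    have hmem3 : ∀ L : List (Finset (Fin kN → Fin n) × Bool), L.length ≤ 2 * s + 2 →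
        (∀ l ∈ L, l.1 ∈ V ∨ l.1 = ∅) → UL (WS R C out) id L ∈ Fam := by
      intro L h1 h2
      rw [hUL]
      refine hmem2 _ (by rw [List.length_cons]; omega) ?_
      intro l hl
      rcases List.mem_cons.1 hl with h3 | h3
      · rw [h3]
        exact Or.inl (hVmem out)
      · exact h2 l h3
    have hsub3 : ∀ L : List (Finset (Fin kN → Fin n) × Bool), UL (WS R C out) id L ⊆ R := by
      intro L x hx
      exact (mem_WS.1 ((Wx.mem_UL (WS R C out) id).1 hx).1).1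
    have hw := walk_gen G V (WS R C out) id μ Λ hΛ0.le s hs4
      (fun L h1 h2 => hμ1 _ (hmem3 L h1 h2) (hsub3 L))
      (fun L h1 h2 i j a b hij hab hx => hμ2 _ (hmem3 L h1 h2) (hsub3 L) i j a b hij hab hx)
      (fun t => WS R C (γι t)) rank (fun t => hVmem _) t₀ hrk
      (fun x hx => hsub hx) hinf
    have houtF : WS R C out ∈ Fam := by
      have := hmem1 (WS R C out) ∅ ∅ (Or.inr ⟨out, rfl⟩) (Or.inl rfl) (Or.inl rfl)
      simpa using this
    have hbig := hμ _ houtF (hsubR _ (Or.inr ⟨out, rfl⟩)) hout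
    obtain ⟨M, hM⟩ : ∃ M : ℕ, M = P.card := ⟨_, rfl⟩
    have hιM : (Fintype.card ι : ℝ) ≤ M := by
      rw [hM]
      exact_mod_cast hιP
    have hM1R : (1 : ℝ) ≤ M := by
      have : 1 ≤ Fintype.card ι := Fintype.card_pos_iff.2 ⟨t₀⟩
      have : (1 : ℝ) ≤ Fintype.card ι := by exact_mod_cast this
      linarith
    obtain ⟨Pn, hPn⟩ : ∃ Pn : ℕ, Pn = D / s + 1 := ⟨_, rfl⟩
    rw [← hPn] at hw
    have hw2 : 1 ≤ (n : ℝ) ^ (2 * β) * (2 ^ (s + 2) * (Pn : ℝ) * (M : ℝ) ^ Pn * Λ) := by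
      refine hbig.trans (mul_le_mul_of_nonneg_left (hw.trans ?_) hβ0.le)
      gcongr
    have h16 : (n : ℝ) ^ (c * k) ≤
        (n : ℝ) ^ (2 * β) * (2 ^ (s + 2) * (Pn : ℝ) * (M : ℝ) ^ Pn) := by
      have hp0 : 0 ≤ (n : ℝ) ^ (c * k) := (Real.rpow_pos_of_pos hn0 _).le
      have := mul_le_mul_of_nonneg_right hw2 hp0
      rw [one_mul] at this
      calc (n : ℝ) ^ (c * k) ≤
            (n : ℝ) ^ (2 * β) * (2 ^ (s + 2) * (Pn : ℝ) * (M : ℝ) ^ Pn * Λ) * (n : ℝ) ^ (c * k) :=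
            this
        _ = (n : ℝ) ^ (2 * β) * (2 ^ (s + 2) * (Pn : ℝ) * (M : ℝ) ^ Pn) *
              (Λ * (n : ℝ) ^ (c * k)) := by ring
        _ = _ := by rw [hΛk, mul_one]
    have h17 : (n : ℝ) ^ (2 * β) * (2 : ℝ) ^ (s + 2) ≤ (n : ℝ) ^ (c₁ / 2 * k) := by
      have e0 : (2 : ℝ) ^ s ≤ (n : ℝ) ^ (c₁ / 8 * k) := by
        have e1 : (n : ℝ) = 2 ^ Lg := by
          rw [hLg, Real.rpow_logb (by norm_num) (by norm_num) hn0]
        rw [e1, ← Real.rpow_mul (by norm_num), ← Real.rpow_natCast]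
        refine Real.rpow_le_rpow_of_exponent_le (by norm_num) ?_
        linarith
      have e2 : (n : ℝ) ^ (c₁ / 2 * k) = (n : ℝ) ^ (c₁ / 4 * k) *
          ((n : ℝ) ^ (c₁ / 8 * k) * (n : ℝ) ^ (c₁ / 8 * k)) := by
        rw [← Real.rpow_add hn0, ← Real.rpow_add hn0]
        congr 1
        ring
      have e3 : (2 : ℝ) ^ (s + 2) = 2 ^ s * 4 := by ring
      rw [e2, e3]
      exact mul_le_mul hβ1 (mul_le_mul e0 hmain (by norm_num) (Real.rpow_pos_of_pos hn0 _).le)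
        (by positivity) (Real.rpow_pos_of_pos hn0 _).le
    have h18 : (n : ℝ) ^ (c₁ / 2 * k) * (n : ℝ) ^ (c₁ / 2 * k) ≤ (n : ℝ) ^ (c * k) := by
      rw [← Real.rpow_add hn0]
      refine Real.rpow_le_rpow_of_exponent_le hn1 ?_
      have : c₁ * k ≤ c * k := mul_le_mul_of_nonneg_right hc₁c (by linarith)
      linarith
    have hpos : 0 < (n : ℝ) ^ (c₁ / 2 * k) := Real.rpow_pos_of_pos hn0 _
    have h19 : (Pn : ℝ) * (M : ℝ) ^ Pn ≤ ((M : ℝ) + 1) ^ (2 * Pn) := by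
      have e1 : (Pn : ℝ) ≤ 2 ^ Pn := by
        have := Nat.lt_two_pow_self (n := Pn)
        exact_mod_cast this.le
      have e2 : (2 : ℝ) ^ Pn ≤ ((M : ℝ) + 1) ^ Pn :=
        pow_le_pow_left₀ (by norm_num) (by linarith) Pn
      have e3 : (M : ℝ) ^ Pn ≤ ((M : ℝ) + 1) ^ Pn :=
        pow_le_pow_left₀ (by linarith) (by linarith) Pn
      calc (Pn : ℝ) * (M : ℝ) ^ Pn ≤ ((M : ℝ) + 1) ^ Pn * ((M : ℝ) + 1) ^ Pn :=
            mul_le_mul (e1.trans e2) e3 (by positivity) (by positivity)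
        _ = ((M : ℝ) + 1) ^ (2 * Pn) := by rw [← pow_add]; congr 1; ring
    have h20 : (n : ℝ) ^ (c₁ / 2 * k) ≤ ((M : ℝ) + 1) ^ (2 * Pn) := by
      refine le_of_mul_le_mul_left ?_ hpos
      refine h18.trans (h16.trans ?_)
      calc (n : ℝ) ^ (2 * β) * ((2 : ℝ) ^ (s + 2) * Pn * (M : ℝ) ^ Pn) =
            ((n : ℝ) ^ (2 * β) * 2 ^ (s + 2)) * (Pn * (M : ℝ) ^ Pn) := by ring
        _ ≤ (n : ℝ) ^ (c₁ / 2 * k) * ((M : ℝ) + 1) ^ (2 * Pn) :=
            mul_le_mul h17 h19 (by positivity) hpos.le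
    obtain ⟨Y, hY⟩ : ∃ Y : ℝ, Y = Real.logb 2 ((M : ℝ) + 1) := ⟨_, rfl⟩
    have h21 : c₁ / 2 * k * Lg ≤ 2 * Pn * Y := by
      have h22 := Real.logb_le_logb_of_le (b := 2) (by norm_num) hpos h20
      rw [Real.logb_pow, Real.logb_rpow_eq_mul_logb_of_pos hn0, ← hLg, ← hY] at h22
      push_cast at h22
      linarith
    have hY0 : 0 ≤ Y := by
      rw [hY]
      exact Real.logb_nonneg (by norm_num) (by linarith)
    have h23 : (Pn : ℝ) * s ≤ D + s := by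
      have h24 : Pn * s ≤ D + s := by
        rw [hPn, Nat.add_mul, one_mul]
        have := Nat.div_mul_le_self D s
        omega
      exact_mod_cast h24
    have hsnn : (0 : ℝ) ≤ s := by linarith
    have h25 : c₁ / 4 * (k * Lg) * s ≤ (D + s) * Y := by
      have h26 := mul_le_mul_of_nonneg_right h21 hsnn
      have h27 := mul_le_mul_of_nonneg_right h23 hY0
      nlinarith
    have hkL0 : 0 ≤ c₁ / 4 * (k * Lg) := by positivity
    have h28 := mul_le_mul_of_nonneg_left hs3 hkL0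
    have hD0 : (0 : ℝ) ≤ D := Nat.cast_nonneg _
    rw [← hLg, ← hM, ← hY, ← hkk]
    calc c₁ ^ 2 / 64 * (k * Lg) ^ 2 = c₁ / 4 * (k * Lg) * (c₁ / 16 * (k * Lg)) := by ring
      _ ≤ c₁ / 4 * (k * Lg) * s := h28
      _ ≤ (D + s) * Y := h25
      _ ≤ (D + k * Lg) * Y := by
          refine mul_le_mul_of_nonneg_right ?_ hY0
          linarith

end Pool.Agent.KCN
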