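import Mathlib

/-!
# Monotone circuits (and-or graphs) with the inputs `a, b non-adjacent`, and their proof trees
-/

namespace Pool.Agent.KCN

/-- A node of an and-or graph with `N` nodes: an input `a, b are not adjacent`, or the
disjunction or the conjunction of two nodes. -/
inductive Gate (n N : ℕ) where
  | input (a b : Fin n)
  | or (i j : Fin N)
  | and (i j : Fin N)

/-- `Prf C G g T`: the node `g` of `C` has a proof tree with `T` leaves for the graph `G`. -/
inductive Prf {n N : ℕ} (C : Fin N → Gate n N) (G : SimpleGraph (Fin n)) : Fin N → ℕ → Prop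
  | leaf (g : Fin N) (a b : Fin n) : C g = Gate.input a b → ¬ G.Adj a b → Prf C G g 1
  | orL (g i j : Fin N) (T : ℕ) : C g = Gate.or i j → Prf C G i T → Prf C G g T
  | orR (g i j : Fin N) (T : ℕ) : C g = Gate.or i j → Prf C G j T → Prf C G g T
  | and (g i j : Fin N) (T₁ T₂ : ℕ) : C g = Gate.and i j → Prf C G i T₁ → Prf C G j T₂ →
      Prf C G g (T₁ + T₂)

end Pool.Agent.KCN
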