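import Pool.Agent.Lib.KCN.Defs2
import Pool.Agent.Lib.KCN.Circ

/-!
# Circuit form of the main theorem
-/

set_option autoImplicit false

namespace Pool.Agent.KCN

open Finset Pool.Agent.KCM

/-- the circuit form -/
def CIR : Prop :=
  ∀ γ ε : ℝ, 0 < γ → 0 < ε → ∃ c : ℝ, 0 < c ∧ ∃ k₀ : ℕ, ∀ k : ℕ, k₀ ≤ k →
    ∃ n₀ : ℕ, ∀ n : ℕ, n₀ ≤ n → ∀ N : ℕ, (N : ℝ) ≤ 2 ^ ((n : ℝ) ^ (2 - γ)) →
      ∀ (C : Fin N → Gate n N) (out : Fin N),
        (∀ H : SimpleGraph (Fin n), ¬ H.CliqueFree k → ∀ T, ¬ Prf C H out T) →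
        ∃ G : SimpleGraph (Fin n), (∀ u : ℕ, (1 / 2 + ε) * k ≤ u → G.CliqueFree u) ∧
          ∀ T : ℕ, Prf C G out T → (n : ℝ) ^ (c * k) ≤ T

namespace CIRx

variable {n k N : ℕ}

/-- the clique on the entries of a tuple -/
def KK (v : Fin k → Fin n) : SimpleGraph (Fin n) where
  Adj a b := a ≠ b ∧ ∃ i j : Fin k, v i = a ∧ v j = b
  symm := ⟨fun _ _ h => ⟨h.1.symm, by obtain ⟨_, i, j, h1, h2⟩ := h; exact ⟨j, i, h2, h1⟩⟩⟩
  loopless := ⟨fun _ h => h.1 rfl⟩

theorem KK_clique {v : Fin k → Fin n} (hv : Function.Injective v) : ¬ (KK v).CliqueFree k := by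
  intro h
  refine h (univ.map ⟨v, hv⟩) ?_
  rw [SimpleGraph.isNClique_iff]
  constructor
  · intro a ha b hb hab
    rw [mem_coe, mem_map] at ha hb
    obtain ⟨i, _, hi⟩ := ha
    obtain ⟨j, _, hj⟩ := hb
    exact ⟨hab, i, j, hi, hj⟩
  · simp

/-- the looks at a leaf `a, b`: all places `(i, j)` with an equal pair, then with `a, b` -/
abbrev Lk (k n : ℕ) := (Fin k × Fin k) × Option (Fin n)

theorem card_Lk (k n : ℕ) : Fintype.card (Lk k n) = k ^ 2 * (n + 1) := by
  simp [Lk, Fintype.card_prod, Fintype.card_option]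
  ring

noncomputable def num (k n : ℕ) : Lk k n ≃ Fin (k ^ 2 * (n + 1)) :=
  Fintype.equivFinOfCardEq (card_Lk k n)

/-- the tuple `v` is excluded by the look `t` -/
def At (a b : Fin n) (t : Lk k n) (v : Fin k → Fin n) : Prop :=
  t.1.1 ≠ t.1.2 ∧ v t.1.1 = t.2.getD a ∧ v t.1.2 = t.2.getD b

open Classical in
/-- the sets at a leaf -/
noncomputable def LL (a b : Fin n) (r : ℕ) : Finset (Fin k → Fin n) :=
  univ.filter (fun v => ∃ t : Lk k n, (num k n t).val < r ∧ At a b t v)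

theorem mem_LL {a b : Fin n} {r : ℕ} {v : Fin k → Fin n} :
    v ∈ LL a b r ↔ ∃ t : Lk k n, (num k n t).val < r ∧ At a b t v := by
  classical
  unfold LL
  rw [mem_filter]
  exact ⟨fun h => h.2, fun h => ⟨mem_univ _, h⟩⟩

open Classical in
/-- the set of a node -/
noncomputable def WW (C : Fin N → Gate n N) (g : Fin N) : Finset (Fin k → Fin n) :=
  univ.filter (fun v => ¬ Function.Injective v ∨ ∀ T, ¬ Prf C (KK v) g T)

theorem mem_WW {C : Fin N → Gate n N} {g : Fin N} {v : Fin k → Fin n} :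
    v ∈ WW C g ↔ ¬ Function.Injective v ∨ ∀ T, ¬ Prf C (KK v) g T := by
  classical
  unfold WW
  rw [mem_filter]
  exact ⟨fun h => h.2, fun h => ⟨mem_univ _, h⟩⟩

open Classical in
/-- the family -/
noncomputable def VV (k : ℕ) (C : Fin N → Gate n N) : Finset (Finset (Fin k → Fin n)) :=
  univ.image (WW C) ∪ (univ : Finset ((Fin n × Fin n) × Fin (k ^ 2 * (n + 1) + 1))).image
    (fun z => LL z.1.1 z.1.2 z.2.val)

theorem card_VV (C : Fin N → Gate n N) :
    (VV k C).card ≤ N + n * n * (k ^ 2 * (n + 1) + 1) := by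
  classical
  unfold VV
  refine (card_union_le _ _).trans (Nat.add_le_add ?_ ?_)
  · refine card_image_le.trans ?_
    rw [card_univ, Fintype.card_fin]
  · refine card_image_le.trans (le_of_eq ?_)
    rw [card_univ, Fintype.card_prod, Fintype.card_prod, Fintype.card_fin, Fintype.card_fin]

theorem WW_mem (C : Fin N → Gate n N) (g : Fin N) : WW C g ∈ VV k C := by
  classical
  unfold VV
  exact mem_union_left _ (mem_image_of_mem _ (mem_univ _))

theorem LL_mem (C : Fin N → Gate n N) (a b : Fin n) (r : ℕ) (hr : r ≤ k ^ 2 * (n + 1)) :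
    LL a b r ∈ VV k C := by
  classical
  unfold VV
  exact mem_union_right _ (mem_image.2 ⟨((a, b), ⟨r, by omega⟩), mem_univ _, rfl⟩)

/-- the derivation of the sets at a leaf -/
theorem leafs (C : Fin N → Gate n N) (G : SimpleGraph (Fin n)) (a b : Fin n)
    (hab : ¬ G.Adj a b) : ∀ r ≤ k ^ 2 * (n + 1), ∃ (T : ℕ) (e : (Fin k → Fin n) → ℕ),
      T ≤ r ∧ Der G (VV k C) (LL a b r) T e := by
  classical
  intro r
  induction r with
  | zero =>
    intro _
    refine ⟨0, fun _ => 0, le_refl _, ?_⟩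
    have : (LL a b 0 : Finset (Fin k → Fin n)) = ∅ := by
      rw [eq_empty_iff_forall_notMem]
      intro v hv
      obtain ⟨t, ht, _⟩ := mem_LL.1 hv
      omega
    rw [this]
    exact Der.start
  | succ r ih =>
    intro hr
    obtain ⟨T, e, hT, hD⟩ := ih (by omega)
    set t := (num k n).symm ⟨r, by omega⟩ with ht
    have hstep : ∀ v ∈ LL a b (r + 1), v ∈ LL a b r ∨ At a b t v := by
      intro v hv
      obtain ⟨t', h1, h2⟩ := mem_LL.1 hv
      by_cases h3 : (num k n t').val < r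
      · exact Or.inl (mem_LL.2 ⟨t', h3, h2⟩)
      · right
        have h4 : num k n t' = ⟨r, by omega⟩ := Fin.ext (by simp; omega)
        have h5 : t = t' := by rw [ht, ← h4]; simp
        rw [h5]
        exact h2
    by_cases hne : t.1.1 = t.1.2
    · have h1 := Der.join (LL a b (r + 1)) hD Der.start (LL_mem C a b (r + 1) hr)
        (fun v hv => by
          rcases hstep v hv with h | h
          · exact Or.inl h
          · exact absurd hne h.1)
      exact ⟨T + 0, _, by omega, h1⟩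
    · refine ⟨T + 1, _, by omega, Der.look (LL a b (r + 1)) t.1.1 t.1.2 (t.2.getD a) (t.2.getD b)
        hD (LL_mem C a b (r + 1) hr) hne ?_ (fun v hv => ?_)⟩
      · rcases t.2 with _ | x
        · exact hab
        · exact G.loopless.irrefl x
      · rcases hstep v hv with h | h
        · exact Or.inl h
        · exact Or.inr h.2

theorem leaf_sub (C : Fin N → Gate n N) (g : Fin N) (a b : Fin n) (hg : C g = Gate.input a b) :
    (WW C g : Finset (Fin k → Fin n)) ⊆ LL a b (k ^ 2 * (n + 1)) := by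
  intro v hv
  rw [mem_LL]
  rcases mem_WW.1 hv with h | h
  · unfold Function.Injective at h
    push Not at h
    obtain ⟨i, j, h1, h2⟩ := h
    exact ⟨((i, j), some (v i)), Fin.isLt _, h2, rfl, h1.symm⟩
  · have h1 : (KK v).Adj a b := by
      by_contra h2
      exact h 1 (Prf.leaf g a b hg h2)
    obtain ⟨h2, i, j, h3, h4⟩ := h1
    refine ⟨((i, j), none), Fin.isLt _, ?_, h3, h4⟩
    intro h5
    apply h2
    have h6 : i = j := h5
    rw [← h3, ← h4, h6]

theorem der_of_prf (C : Fin N → Gate n N) (G : SimpleGraph (Fin n)) (g : Fin N) (T : ℕ)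
    (h : Prf C G g T) : ∃ (T' : ℕ) (e : (Fin k → Fin n) → ℕ), T' ≤ T * (k ^ 2 * (n + 1)) ∧
      Der G (VV k C) (WW C g) T' e := by
  induction h with
  | leaf g a b hg hab =>
    obtain ⟨T', e, hT, hD⟩ := leafs (k := k) C G a b hab _ (le_refl _)
    exact ⟨T', _, by rw [one_mul]; exact hT, Der.join (WW C g) hD Der.start (WW_mem C g)
      (fun v hv => Or.inl (leaf_sub C g a b hg hv))⟩
  | orL g i j T hg _ ih =>
    obtain ⟨T', e, hT, hD⟩ := ih
    refine ⟨T', _, hT, Der.join (WW C g) hD Der.start (WW_mem C g) (fun v hv => Or.inl ?_)⟩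
    rcases mem_WW.1 hv with h | h
    · exact mem_WW.2 (Or.inl h)
    · exact mem_WW.2 (Or.inr fun S hS => h S (Prf.orL g i j S hg hS))
  | orR g i j T hg _ ih =>
    obtain ⟨T', e, hT, hD⟩ := ih
    refine ⟨T', _, hT, Der.join (WW C g) hD Der.start (WW_mem C g) (fun v hv => Or.inl ?_)⟩
    rcases mem_WW.1 hv with h | h
    · exact mem_WW.2 (Or.inl h)
    · exact mem_WW.2 (Or.inr fun S hS => h S (Prf.orR g i j S hg hS))
  | and g i j T₁ T₂ hg _ _ ih₁ ih₂ =>
    obtain ⟨T₁', e₁, hT₁, hD₁⟩ := ih₁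
    obtain ⟨T₂', e₂, hT₂, hD₂⟩ := ih₂
    refine ⟨T₁' + T₂', _, by rw [add_mul]; omega,
      Der.join (WW C g) hD₁ hD₂ (WW_mem C g) (fun v hv => ?_)⟩
    rcases mem_WW.1 hv with h | h
    · exact Or.inl (mem_WW.2 (Or.inl h))
    · by_contra hcon
      rw [not_or, mem_WW, mem_WW, not_or, not_or] at hcon
      obtain ⟨⟨_, h1⟩, ⟨_, h2⟩⟩ := hcon
      push Not at h1 h2
      obtain ⟨S₁, h1⟩ := h1
      obtain ⟨S₂, h2⟩ := h2
      exact h _ (Prf.and g i j S₁ S₂ hg h1 h2)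

theorem WW_out (C : Fin N → Gate n N) (out : Fin N)
    (hC : ∀ H : SimpleGraph (Fin n), ¬ H.CliqueFree k → ∀ T, ¬ Prf C H out T) :
    (WW C out : Finset (Fin k → Fin n)) = univ := by
  rw [eq_univ_iff_forall]
  intro v
  rw [mem_WW]
  by_cases hv : Function.Injective v
  · exact Or.inr (hC _ (KK_clique hv))
  · exact Or.inl hv

end CIRx

open CIRx in
/-- the circuit form follows from TBG -/
theorem cir (h : TBG) : CIR := by
  intro γ ε hγ hε
  set γ' : ℝ := min γ 1 with hγ'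
  have hγ0 : 0 < γ' := lt_min hγ one_pos
  have hγ1 : γ' ≤ 1 := min_le_right _ _
  have hγγ : γ' ≤ γ := min_le_left _ _
  obtain ⟨c, hc, k₀, hk₀⟩ := h (γ' / 2) ε (by linarith) hε
  refine ⟨c / 2, by linarith, max (max k₀ 1) ⌈4 / c⌉₊, fun k hk => ?_⟩
  have hkk : k₀ ≤ k := le_trans (le_trans (le_max_left _ _) (le_max_left _ _)) hk
  have hk1 : 1 ≤ k := le_trans (le_trans (le_max_right _ _) (le_max_left _ _)) hk
  have hkc : 4 ≤ c * k := by
    have h1 : ⌈4 / c⌉₊ ≤ k := le_trans (le_max_right _ _) hk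
    have h2 : (4 : ℝ) / c ≤ k := (Nat.le_ceil _).trans (by exact_mod_cast h1)
    rw [div_le_iff₀ hc] at h2
    linarith
  obtain ⟨n₀, hn₀⟩ := hk₀ k hkk
  -- polynomial against exponential
  have hpoly := (isLittleO_pow_const_const_pow_of_one_lt (R := ℝ) 5
    (by norm_num : (1 : ℝ) < 2)).bound one_pos
  obtain ⟨n₁, hn₁⟩ := Filter.eventually_atTop.1 hpoly
  -- `n ^ (γ' / 2) ≥ 2`
  have hroot := (tendsto_rpow_atTop (half_pos hγ0)).comp tendsto_natCast_atTop_atTop
    |>.eventually_ge_atTop (2 : ℝ)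
  obtain ⟨n₂, hn₂⟩ := Filter.eventually_atTop.1 hroot
  refine ⟨max (max n₀ n₁) (max n₂ (2 * k ^ 2 + 2)), fun n hn N hN C out hC => ?_⟩
  have h0 : n₀ ≤ n := le_trans (le_trans (le_max_left _ _) (le_max_left _ _)) hn
  have h1 : n₁ ≤ n := le_trans (le_trans (le_max_right _ _) (le_max_left _ _)) hn
  have h2 : n₂ ≤ n := le_trans (le_trans (le_max_left _ _) (le_max_right _ _)) hn
  have h3 : 2 * k ^ 2 + 2 ≤ n := le_trans (le_trans (le_max_right _ _) (le_max_right _ _)) hn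
  have hk2 : 1 ≤ k ^ 2 := Nat.one_le_pow _ _ hk1
  have hn1 : (1 : ℝ) ≤ n := by
    have : 1 ≤ n := by omega
    exact_mod_cast this
  have hn0 : (0 : ℝ) < n := by linarith
  have p1 : (n : ℝ) ^ 5 ≤ 2 ^ n := by
    have := hn₁ n h1
    rw [one_mul, Real.norm_of_nonneg (by positivity), Real.norm_of_nonneg (by positivity)] at this
    exact this
  have p2 : (2 : ℝ) ≤ (n : ℝ) ^ (γ' / 2) := hn₂ n h2
  set A : ℝ := (n : ℝ) ^ (2 - γ') with hA
  have hAn : (n : ℝ) ≤ A := by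
    calc (n : ℝ) = (n : ℝ) ^ (1 : ℝ) := (Real.rpow_one _).symm
      _ ≤ A := Real.rpow_le_rpow_of_exponent_le hn1 (by linarith)
  have hB : (n : ℝ) ^ (2 - γ' / 2) = A * (n : ℝ) ^ (γ' / 2) := by
    rw [hA, ← Real.rpow_add hn0]
    congr 1
    ring
  have hBA : A + 1 ≤ (n : ℝ) ^ (2 - γ' / 2) := by
    rw [hB]
    nlinarith
  have hVcard : ((VV k C).card : ℝ) ≤ 2 ^ ((n : ℝ) ^ (2 - γ' / 2)) := by
    have e1 : ((VV k C).card : ℝ) ≤ N + (n : ℝ) ^ 5 := by
      have e2 : n * n * (k ^ 2 * (n + 1) + 1) ≤ n ^ 5 := by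
        have e3 : k ^ 2 * (n + 1) + 1 ≤ n ^ 3 := by
          have e4 : k ^ 2 ≤ n := by omega
          calc k ^ 2 * (n + 1) + 1 ≤ n * (n + 1) + 1 := by gcongr
            _ ≤ n ^ 3 := by
                have : 4 ≤ n := by omega
                nlinarith [Nat.mul_le_mul this (Nat.mul_le_mul this this)]
        calc n * n * (k ^ 2 * (n + 1) + 1) ≤ n * n * n ^ 3 := Nat.mul_le_mul_left _ e3
          _ = n ^ 5 := by ring
      have e5 := (card_VV (k := k) C).trans (Nat.add_le_add_left e2 N)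
      exact_mod_cast e5
    have e6 : (N : ℝ) ≤ 2 ^ A := by
      refine hN.trans ?_
      refine Real.rpow_le_rpow_of_exponent_le (by norm_num) ?_
      exact Real.rpow_le_rpow_of_exponent_le hn1 (by linarith)
    have e7 : (n : ℝ) ^ 5 ≤ 2 ^ A := by
      refine p1.trans ?_
      rw [← Real.rpow_natCast]
      exact Real.rpow_le_rpow_of_exponent_le (by norm_num) hAn
    calc ((VV k C).card : ℝ) ≤ 2 ^ A + 2 ^ A := by linarith
      _ = 2 ^ (A + 1) := by
          rw [Real.rpow_add (by norm_num), Real.rpow_one]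
          ring
      _ ≤ _ := Real.rpow_le_rpow_of_exponent_le (by norm_num) hBA
  obtain ⟨G, hG1, hG2⟩ := hn₀ n h0 (VV k C) hVcard
  refine ⟨G, hG1, fun T hT => ?_⟩
  obtain ⟨T', e, hT', hD⟩ := der_of_prf (k := k) C G out T hT
  rw [WW_out C out hC] at hD
  have h5 := hG2 T' e hD
  have h6 : (T' : ℝ) ≤ T * ((k : ℝ) ^ 2 * (n + 1)) := by exact_mod_cast hT'
  have h7 : (n : ℝ) ^ (c / 2 * k) * ((k : ℝ) ^ 2 * (n + 1)) ≤ (n : ℝ) ^ (c * k) := by
    have e1 : (n : ℝ) ^ (c * k) = (n : ℝ) ^ (c / 2 * k) * (n : ℝ) ^ (c / 2 * k) := by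
      rw [← Real.rpow_add hn0]
      congr 1
      ring
    rw [e1]
    refine mul_le_mul_of_nonneg_left ?_ (by positivity)
    have e2 : (n : ℝ) ^ (2 : ℕ) ≤ (n : ℝ) ^ (c / 2 * k) := by
      rw [← Real.rpow_natCast]
      refine Real.rpow_le_rpow_of_exponent_le hn1 ?_
      push_cast
      linarith
    refine le_trans ?_ e2
    have e3 : 2 * (k : ℝ) ^ 2 + 2 ≤ n := by exact_mod_cast h3
    have e4 : (1 : ℝ) ≤ (k : ℝ) ^ 2 := by exact_mod_cast hk2
    nlinarith
  have h8 : 0 < (k : ℝ) ^ 2 * ((n : ℝ) + 1) := by positivity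
  exact le_of_mul_le_mul_right (h7.trans (h5.trans h6)) h8

end Pool.Agent.KCN
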