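import Pool.Agent.Lib.KCN.DefsU

/-!
# Row CUB: the circuit of the upper side
-/

set_option autoImplicit false

namespace Pool.Agent.KCN

open Finset

namespace CUBx

/-- number of pairs of names -/
abbrev MM (k n b : ℕ) : ℕ := (k * (n / b + 1)) ^ 2

/-- names of the vertices in the blocks of a pattern -/
abbrev PP (k n b : ℕ) := Fin k × Fin (n / b + 1)

theorem card_QQ (k n b : ℕ) : Fintype.card (PP k n b × PP k n b) = MM k n b := by
  simp only [Fintype.card_prod, Fintype.card_fin]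
  ring

noncomputable def eQ (k n b : ℕ) : (PP k n b × PP k n b) ≃ Fin (MM k n b) :=
  Fintype.equivFinOfCardEq (card_QQ k n b)

theorem card_pat (k b : ℕ) : Fintype.card (Fin k → Fin b) = b ^ k := by
  rw [Fintype.card_fun, Fintype.card_fin, Fintype.card_fin]

noncomputable def eP (k b : ℕ) : (Fin k → Fin b) ≃ Fin (b ^ k) :=
  Fintype.equivFinOfCardEq (card_pat k b)

section

variable {k n b N : ℕ}

/-- the vertex with a name -/
def nm (hn : 1 ≤ n) (τ : Fin k → Fin b) (p : PP k n b) : Fin n :=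
  if h : (τ p.1).val + b * p.2.val < n then ⟨_, h⟩ else ⟨0, hn⟩

theorem nm_eq (hn : 1 ≤ n) (τ : Fin k → Fin b) (i : Fin k) (v : Fin n)
    (hv : v.val % b = (τ i).val) :
    nm hn τ (i, ⟨v.val / b, by
      have := Nat.div_le_div_right (c := b) v.isLt.le
      omega⟩) = v := by
  have h1 : (τ i).val + b * (v.val / b) = v.val := by
    rw [← hv]
    exact Nat.mod_add_div _ _
  unfold nm
  rw [dif_pos (by dsimp only; rw [h1]; exact v.isLt)]
  exact Fin.ext h1

/-- the pair number `r` -/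
noncomputable def pr' (hn : 1 ≤ n) (τ : Fin k → Fin b) (r : Fin (MM k n b)) : Fin n × Fin n :=
  (nm hn τ ((eQ k n b).symm r).1, nm hn τ ((eQ k n b).symm r).2)

/-- the set `F` of non-edges excludes all cliques with the pattern `τ` -/
def Good (hn : 1 ≤ n) (τ : Fin k → Fin b) (F : Finset (Fin (MM k n b))) : Prop :=
  ∀ H : SimpleGraph (Fin n), (∀ r ∈ F, ¬ H.Adj (pr' hn τ r).1 (pr' hn τ r).2) →
    ∀ v : Fin k → Fin n, (∀ i, (v i).val % b = (τ i).val) → ¬ ∀ i j, i ≠ j → H.Adj (v i) (v j)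

/-- the nodes -/
abbrev Nd (k n b : ℕ) :=
  (((Fin k → Fin b) × Fin (MM k n b + 1) × Finset (Fin (MM k n b))) × Bool) ⊕
    (Fin (b ^ k + 1) ⊕ (Fin n × Fin n))

theorem card_Nd (k n b : ℕ) : Fintype.card (Nd k n b) =
    2 * b ^ k * (MM k n b + 1) * 2 ^ MM k n b + b ^ k + 1 + n ^ 2 := by
  rw [Fintype.card_sum, Fintype.card_prod, Fintype.card_prod, Fintype.card_prod, card_pat,
    Fintype.card_finset, Fintype.card_bool, Fintype.card_sum, Fintype.card_prod]
  simp only [Fintype.card_fin]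
  ring

open Classical in
/-- the gates -/
noncomputable def gt (hn : 1 ≤ n) (e : Nd k n b → Fin N) : Nd k n b → MGate n N
  | Sum.inl ((τ, r, F), false) =>
      if h : r.val < MM k n b then
        MGate.or (e (Sum.inl ((τ, r, F), true))) (e (Sum.inl ((τ, ⟨r.val + 1, by omega⟩, F), false)))
      else if Good hn τ F then MGate.input ⟨0, hn⟩ ⟨0, hn⟩
      else MGate.or (e (Sum.inl ((τ, r, F), false))) (e (Sum.inl ((τ, r, F), false)))
  | Sum.inl ((τ, r, F), true) =>
      if h : r.val < MM k n b then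
        MGate.and (e (Sum.inr (Sum.inr (pr' hn τ ⟨r.val, h⟩))))
          (e (Sum.inl ((τ, ⟨r.val + 1, by omega⟩, insert ⟨r.val, h⟩ F), false)))
      else MGate.or (e (Sum.inl ((τ, r, F), true))) (e (Sum.inl ((τ, r, F), true)))
  | Sum.inr (Sum.inl i) =>
      if h : i.val < b ^ k then
        MGate.and (e (Sum.inl (((eP k b).symm ⟨i.val, h⟩, ⟨0, by omega⟩, ∅), false)))
          (e (Sum.inr (Sum.inl ⟨i.val + 1, by omega⟩)))
      else MGate.input ⟨0, hn⟩ ⟨0, hn⟩
  | Sum.inr (Sum.inr z) => MGate.input z.1 z.2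

open Classical in
theorem gt_A (hn : 1 ≤ n) (e : Nd k n b → Fin N) (τ : Fin k → Fin b) (r : Fin (MM k n b + 1))
    (F : Finset (Fin (MM k n b))) : gt hn e (Sum.inl ((τ, r, F), false)) =
      if h : r.val < MM k n b then
        MGate.or (e (Sum.inl ((τ, r, F), true)))
          (e (Sum.inl ((τ, ⟨r.val + 1, by omega⟩, F), false)))
      else if Good hn τ F then MGate.input ⟨0, hn⟩ ⟨0, hn⟩
      else MGate.or (e (Sum.inl ((τ, r, F), false))) (e (Sum.inl ((τ, r, F), false))) := rfl

theorem gt_B (hn : 1 ≤ n) (e : Nd k n b → Fin N) (τ : Fin k → Fin b) (r : Fin (MM k n b + 1))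
    (F : Finset (Fin (MM k n b))) : gt hn e (Sum.inl ((τ, r, F), true)) =
      if h : r.val < MM k n b then
        MGate.and (e (Sum.inr (Sum.inr (pr' hn τ ⟨r.val, h⟩))))
          (e (Sum.inl ((τ, ⟨r.val + 1, by omega⟩, insert ⟨r.val, h⟩ F), false)))
      else MGate.or (e (Sum.inl ((τ, r, F), true))) (e (Sum.inl ((τ, r, F), true))) := rfl

theorem gt_O (hn : 1 ≤ n) (e : Nd k n b → Fin N) (i : Fin (b ^ k + 1)) :
    gt hn e (Sum.inr (Sum.inl i)) =
      if h : i.val < b ^ k then
        MGate.and (e (Sum.inl (((eP k b).symm ⟨i.val, h⟩, ⟨0, by omega⟩, ∅), false)))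
          (e (Sum.inr (Sum.inl ⟨i.val + 1, by omega⟩)))
      else MGate.input ⟨0, hn⟩ ⟨0, hn⟩ := rfl

theorem gt_I (hn : 1 ≤ n) (e : Nd k n b → Fin N) (z : Fin n × Fin n) :
    gt hn e (Sum.inr (Sum.inr z)) = MGate.input z.1 z.2 := rfl

/-- some set of non-edges of `H` completes `F` -/
def SA (hn : 1 ≤ n) (H : SimpleGraph (Fin n)) (τ : Fin k → Fin b)
    (F : Finset (Fin (MM k n b))) : Prop :=
  ∃ F' : Finset (Fin (MM k n b)), (∀ r ∈ F', ¬ H.Adj (pr' hn τ r).1 (pr' hn τ r).2) ∧
    Good hn τ (F ∪ F')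

/-- the meaning of the nodes -/
def Sem (hn : 1 ≤ n) (H : SimpleGraph (Fin n)) : Nd k n b → Prop
  | Sum.inl ((τ, _, F), _) => SA hn H τ F
  | Sum.inr (Sum.inl i) => ∀ i' : Fin (b ^ k), i.val ≤ i'.val → SA hn H ((eP k b).symm i') ∅
  | Sum.inr (Sum.inr z) => ¬ H.Adj z.1 z.2

theorem sem_input (hn : 1 ≤ n) (H : SimpleGraph (Fin n)) (e : Nd k n b → Fin N) (nd : Nd k n b)
    (x y : Fin n) (h : gt hn e nd = MGate.input x y) (hxy : ¬ H.Adj x y) : Sem hn H nd := by
  rcases nd with ⟨⟨τ, r, F⟩, _ | _⟩ | i | z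
  · simp only [gt_A] at h
    split_ifs at h with h1 h2
    exact ⟨∅, by simp, by rw [union_empty]; exact h2⟩
  · simp only [gt_B] at h
    split_ifs at h
  · simp only [gt_O] at h
    split_ifs at h with h1
    intro i' hi'
    exact absurd i'.isLt (by omega)
  · simp only [gt_I] at h
    injection h with h1 h2
    change ¬ H.Adj z.1 z.2
    rw [h1, h2]
    exact hxy

theorem sem_or (hn : 1 ≤ n) (H : SimpleGraph (Fin n)) (e : Nd k n b ≃ Fin N) (nd : Nd k n b)
    (x y : Fin N) (h : gt hn e nd = MGate.or x y)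
    (hxy : Sem hn H (e.symm x) ∨ Sem hn H (e.symm y)) : Sem hn H nd := by
  rcases nd with ⟨⟨τ, r, F⟩, _ | _⟩ | i | z
  · simp only [gt_A] at h
    split_ifs at h with h1 h2
    · injection h with h3 h4
      rw [← h3, ← h4, e.symm_apply_apply, e.symm_apply_apply] at hxy
      rcases hxy with h5 | h5 <;> exact h5
    · injection h with h3 h4
      rw [← h3, ← h4, e.symm_apply_apply] at hxy
      rcases hxy with h5 | h5 <;> exact h5
  · simp only [gt_B] at h
    split_ifs at h with h1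
    injection h with h3 h4
    rw [← h3, ← h4, e.symm_apply_apply] at hxy
    rcases hxy with h5 | h5 <;> exact h5
  · simp only [gt_O] at h
    split_ifs at h
  · simp only [gt_I] at h
    cases h

theorem sem_and (hn : 1 ≤ n) (H : SimpleGraph (Fin n)) (e : Nd k n b ≃ Fin N) (nd : Nd k n b)
    (x y : Fin N) (h : gt hn e nd = MGate.and x y)
    (hx : Sem hn H (e.symm x)) (hy : Sem hn H (e.symm y)) : Sem hn H nd := by
  rcases nd with ⟨⟨τ, r, F⟩, _ | _⟩ | i | z
  · simp only [gt_A] at h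
    split_ifs at h
  · simp only [gt_B] at h
    split_ifs at h with h1
    injection h with h3 h4
    rw [← h3, e.symm_apply_apply] at hx
    rw [← h4, e.symm_apply_apply] at hy
    have hy' : SA hn H τ (insert (⟨r.val, h1⟩ : Fin (MM k n b)) F) := hy
    obtain ⟨F', hF1, hF2⟩ := hy'
    refine ⟨insert ⟨r.val, h1⟩ F', fun r' hr' => ?_, ?_⟩
    · rcases mem_insert.1 hr' with h5 | h5
      · rw [h5]
        exact hx
      · exact hF1 r' h5
    · rwa [union_insert, ← insert_union]
  · simp only [gt_O] at h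
    split_ifs at h with h1
    injection h with h3 h4
    rw [← h3, e.symm_apply_apply] at hx
    rw [← h4, e.symm_apply_apply] at hy
    intro i' hi'
    by_cases h5 : i'.val = i.val
    · have h6 : i' = ⟨i.val, h1⟩ := Fin.ext h5
      rw [h6]
      exact hx
    · have h6 : ∀ i'' : Fin (b ^ k), i.val + 1 ≤ i''.val →
          SA hn H ((eP k b).symm i'') ∅ := hy
      exact h6 i' (by omega)
  · simp only [gt_I] at h
    cases h

/-- the circuit -/
noncomputable def CC (hn : 1 ≤ n) (e : Nd k n b ≃ Fin N) : Fin N → MGate n N :=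
  fun x => gt hn e (e.symm x)

theorem CC_e (hn : 1 ≤ n) (e : Nd k n b ≃ Fin N) (nd : Nd k n b) :
    CC hn e (e nd) = gt hn e nd := by
  unfold CC
  rw [e.symm_apply_apply]

theorem sound (hn : 1 ≤ n) (H : SimpleGraph (Fin n)) (e : Nd k n b ≃ Fin N) (x : Fin N) (T : ℕ)
    (P : Finset (Fin N)) (D : ℕ) (h : Proof (CC hn e) H x T P D) : Sem hn H (e.symm x) := by
  induction h with
  | leaf g a c hg hac => exact sem_input hn H e _ a c hg hac
  | left g i j T P D hg _ ih => exact sem_or hn H e _ i j hg (Or.inl ih)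
  | right g i j T P D hg _ ih => exact sem_or hn H e _ i j hg (Or.inr ih)
  | and g i j T₁ T₂ P₁ P₂ D₁ D₂ hg _ _ ih₁ ih₂ => exact sem_and hn H e _ i j hg ih₁ ih₂

/-- all non-edges of `G` between the names of `τ` -/
noncomputable def FG (hn : 1 ≤ n) (G : SimpleGraph (Fin n)) (τ : Fin k → Fin b) :
    Finset (Fin (MM k n b)) := by
  classical
  exact univ.filter (fun r => ¬ G.Adj (pr' hn τ r).1 (pr' hn τ r).2)

theorem mem_FG {hn : 1 ≤ n} {G : SimpleGraph (Fin n)} {τ : Fin k → Fin b}
    {r : Fin (MM k n b)} : r ∈ FG hn G τ ↔ ¬ G.Adj (pr' hn τ r).1 (pr' hn τ r).2 := by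
  classical
  unfold FG
  simp

theorem FG_good (hn : 1 ≤ n) (G : SimpleGraph (Fin n)) (hG : G.CliqueFree k)
    (τ : Fin k → Fin b) : Good hn τ (FG hn G τ) := by
  intro H hH v hv hvH
  have hadj : ∀ i j, i ≠ j → G.Adj (v i) (v j) := by
    intro i j hij
    by_contra hcon
    set p : PP k n b := (i, ⟨(v i).val / b, by
      have := Nat.div_le_div_right (c := b) (v i).isLt.le
      omega⟩) with hp
    set p' : PP k n b := (j, ⟨(v j).val / b, by
      have := Nat.div_le_div_right (c := b) (v j).isLt.le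
      omega⟩) with hp'
    have h1 : nm hn τ p = v i := nm_eq hn τ i (v i) (hv i)
    have h2 : nm hn τ p' = v j := nm_eq hn τ j (v j) (hv j)
    have h3 : pr' hn τ (eQ k n b (p, p')) = (v i, v j) := by
      unfold pr'
      rw [Equiv.symm_apply_apply, h1, h2]
    have h4 : eQ k n b (p, p') ∈ FG hn G τ := by
      rw [mem_FG, h3]
      exact hcon
    have h5 := hH _ h4
    rw [h3] at h5
    exact h5 (hvH i j hij)
  have hinj : Function.Injective v := by
    intro i j hij
    by_contra hne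
    have := hadj i j hne
    rw [hij] at this
    exact G.loopless.irrefl _ this
  refine hG (univ.map ⟨v, hinj⟩) ?_
  rw [SimpleGraph.isNClique_iff]
  constructor
  · intro a ha c hc hac
    rw [mem_coe, mem_map] at ha hc
    obtain ⟨i, _, hi⟩ := ha
    obtain ⟨j, _, hj⟩ := hc
    rw [← hi, ← hj]
    refine hadj i j fun h => hac ?_
    rw [← hi, ← hj, h]
  · simp

theorem prfA (hn : 1 ≤ n) (G : SimpleGraph (Fin n)) (hG : G.CliqueFree k)
    (e : Nd k n b ≃ Fin N) (τ : Fin k → Fin b) : ∀ (d r : ℕ) (hr : r + d = MM k n b),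
      ∃ (T : ℕ) (P : Finset (Fin N)) (D : ℕ), T ≤ d + 1 ∧ Proof (CC hn e) G
        (e (Sum.inl ((τ, ⟨r, by omega⟩, (FG hn G τ).filter (fun s => s.val < r)), false)))
        T P D := by
  intro d
  induction d with
  | zero =>
    intro r hr
    refine ⟨1, _, _, le_refl _, Proof.leaf _ ⟨0, hn⟩ ⟨0, hn⟩ ?_ (G.loopless.irrefl _)⟩
    rw [CC_e]
    simp only [gt_A]
    have h1 : (FG hn G τ).filter (fun s => s.val < r) = FG hn G τ :=
      filter_true_of_mem fun s _ => by
        have := s.isLt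
        omega
    rw [dif_neg (by omega), if_pos (by rw [h1]; exact FG_good hn G hG τ)]
  | succ d ih =>
    intro r hr
    obtain ⟨T, P, D, hT, hP⟩ := ih (r + 1) (by omega)
    have hlt : r < MM k n b := by omega
    have hgate : CC hn e (e (Sum.inl ((τ, ⟨r, by omega⟩,
        (FG hn G τ).filter (fun s => s.val < r)), false))) =
        MGate.or (e (Sum.inl ((τ, ⟨r, by omega⟩,
          (FG hn G τ).filter (fun s => s.val < r)), true)))
          (e (Sum.inl ((τ, ⟨r + 1, by omega⟩,
          (FG hn G τ).filter (fun s => s.val < r)), false))) := by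
      rw [CC_e]
      simp only [gt_A]
      rw [dif_pos (by exact hlt)]
    by_cases hmem : (⟨r, hlt⟩ : Fin (MM k n b)) ∈ FG hn G τ
    · have h1 : insert (⟨r, hlt⟩ : Fin (MM k n b)) ((FG hn G τ).filter (fun s => s.val < r)) =
          (FG hn G τ).filter (fun s => s.val < r + 1) := by
        ext s
        rw [mem_insert, mem_filter, mem_filter]
        constructor
        · rintro (h | h)
          · rw [h]
            exact ⟨hmem, Nat.lt_succ_self r⟩
          · exact ⟨h.1, by omega⟩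
        · rintro ⟨h2, h3⟩
          by_cases h4 : s.val < r
          · exact Or.inr ⟨h2, h4⟩
          · exact Or.inl (Fin.ext (by dsimp only; omega))
      have hgate2 : CC hn e (e (Sum.inl ((τ, ⟨r, by omega⟩,
          (FG hn G τ).filter (fun s => s.val < r)), true))) =
          MGate.and (e (Sum.inr (Sum.inr (pr' hn τ ⟨r, hlt⟩))))
            (e (Sum.inl ((τ, ⟨r + 1, by omega⟩,
            (FG hn G τ).filter (fun s => s.val < r + 1)), false))) := by
        rw [CC_e, ← h1]
        simp only [gt_B]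
        rw [dif_pos (by exact hlt)]
      have hleaf : Proof (CC hn e) G (e (Sum.inr (Sum.inr (pr' hn τ ⟨r, hlt⟩)))) 1
          {e (Sum.inr (Sum.inr (pr' hn τ ⟨r, hlt⟩)))} 0 := by
        refine Proof.leaf _ _ _ ?_ (mem_FG.1 hmem)
        rw [CC_e]
        rfl
      exact ⟨1 + T, _, _, by omega, Proof.left _ _ _ _ _ _ hgate
        (Proof.and _ _ _ _ _ _ _ _ _ hgate2 hleaf hP)⟩
    · have h1 : (FG hn G τ).filter (fun s => s.val < r + 1) =
          (FG hn G τ).filter (fun s => s.val < r) := by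
        ext s
        rw [mem_filter, mem_filter]
        constructor
        · rintro ⟨h2, h3⟩
          refine ⟨h2, ?_⟩
          by_contra h4
          apply hmem
          have h5 : s = ⟨r, hlt⟩ := Fin.ext (by dsimp only; omega)
          rw [← h5]
          exact h2
        · rintro ⟨h2, h3⟩
          exact ⟨h2, by omega⟩
      rw [h1] at hP
      exact ⟨T, _, _, by omega, Proof.right _ _ _ _ _ _ hgate hP⟩

theorem prfO (hn : 1 ≤ n) (G : SimpleGraph (Fin n)) (hG : G.CliqueFree k)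
    (e : Nd k n b ≃ Fin N) : ∀ (d i : ℕ) (hi : i + d = b ^ k),
      ∃ (T : ℕ) (P : Finset (Fin N)) (D : ℕ), T ≤ d * (MM k n b + 1) + 1 ∧
        Proof (CC hn e) G (e (Sum.inr (Sum.inl ⟨i, by omega⟩))) T P D := by
  intro d
  induction d with
  | zero =>
    intro i hi
    refine ⟨1, _, _, by omega, Proof.leaf _ ⟨0, hn⟩ ⟨0, hn⟩ ?_ (G.loopless.irrefl _)⟩
    rw [CC_e]
    simp only [gt_O]
    rw [dif_neg (by omega)]
  | succ d ih =>
    intro i hi
    obtain ⟨T, P, D, hT, hP⟩ := ih (i + 1) (by omega)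
    have hlt : i < b ^ k := by omega
    obtain ⟨T', P', D', hT', hP'⟩ := prfA hn G hG e ((eP k b).symm ⟨i, hlt⟩) (MM k n b) 0 (by omega)
    have h0 : (FG hn G ((eP k b).symm ⟨i, hlt⟩)).filter (fun s => s.val < 0) = ∅ := by
      simp
    rw [h0] at hP'
    have hgate : CC hn e (e (Sum.inr (Sum.inl ⟨i, by omega⟩))) =
        MGate.and (e (Sum.inl (((eP k b).symm ⟨i, hlt⟩, ⟨0, by omega⟩, ∅), false)))
          (e (Sum.inr (Sum.inl ⟨i + 1, by omega⟩))) := by
      rw [CC_e]
      simp only [gt_O]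
      rw [dif_pos (by exact hlt)]
    refine ⟨T' + T, _, _, ?_, Proof.and _ _ _ _ _ _ _ _ _ hgate hP' hP⟩
    have : (d + 1) * (MM k n b + 1) = (MM k n b + 1) + d * (MM k n b + 1) := by ring
    omega

end

end CUBx

open CUBx in
/-- CUB -/
theorem cub : CUB := by
  classical
  intro k n b M hn hb hM
  subst hM
  set e : Nd k n b ≃ Fin (2 * b ^ k * (MM k n b + 1) * 2 ^ MM k n b + b ^ k + 1 + n ^ 2) :=
    Fintype.equivFinOfCardEq (card_Nd k n b) with he
  refine ⟨_, CC hn e, e (Sum.inr (Sum.inl ⟨0, by omega⟩)), le_refl _, ?_, ?_⟩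
  · intro H hH T P D hT
    have h1 := sound hn H e _ T P D hT
    rw [e.symm_apply_apply] at h1
    unfold SimpleGraph.CliqueFree at hH
    push Not at hH
    obtain ⟨s, hs⟩ := hH
    set v : Fin k → Fin n := fun i => s.orderEmbOfFin hs.card_eq i with hv
    have hvs : ∀ i, v i ∈ s := fun i => s.orderEmbOfFin_mem hs.card_eq i
    set τ : Fin k → Fin b := fun i => ⟨(v i).val % b, Nat.mod_lt _ (by omega)⟩ with hτ
    have h2 : ∀ i' : Fin (b ^ k), 0 ≤ i'.val → SA hn H ((eP k b).symm i') ∅ := h1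
    obtain ⟨F', hF1, hF2⟩ := h2 (eP k b τ) (Nat.zero_le _)
    rw [Equiv.symm_apply_apply] at hF1 hF2
    rw [empty_union] at hF2
    refine hF2 H hF1 v (fun i => rfl) fun i j hij => ?_
    refine hs.isClique (hvs i) (hvs j) fun h => hij ?_
    exact (s.orderEmbOfFin hs.card_eq).injective h
  · intro G hG
    obtain ⟨T, P, D, hT, hP⟩ := prfO hn G hG e (b ^ k) 0 (by omega)
    exact ⟨T, P, D, hP, hT⟩

end Pool.Agent.KCN
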