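import Pool.Agent.Lib.KCN.CUB

/-!
# Upper side with few gates and small depth: the circuit
-/

set_option autoImplicit false

namespace Pool.Agent.KCN

open Finset

/-- CUBD: the non-edges between the vertices in the blocks of a pattern are guessed first and
verified afterwards, all conjunctions are balanced. -/
def CUBD : Prop :=
  ∀ k n b M L K : ℕ, 1 ≤ n → 1 ≤ b → M = (k * (n / b + 1)) ^ 2 → b ^ k ≤ 2 ^ L → M ≤ 2 ^ K →
    ∃ (N : ℕ) (C : Fin N → MGate n N) (out : Fin N),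
      N ≤ 2 ^ (L + 1) + (b ^ k * (M + 1) * 2 ^ M + b ^ k * 2 ^ M * 2 ^ (K + 1)) ∧
      Sound k C out ∧
      ∀ G : SimpleGraph (Fin n), G.CliqueFree k →
        ∃ (T : ℕ) (P : Finset (Fin N)) (D : ℕ), Proof C G out T P D ∧ T ≤ 2 ^ L * 2 ^ K ∧
          #P ≤ 2 ^ (L + 1) + b ^ k * (M + 1) + b ^ k * 2 ^ (K + 1) ∧ D ≤ L + K

/-- balanced conjunctions -/
theorem bal {n N : ℕ} (C : Fin N → MGate n N) (G : SimpleGraph (Fin n)) (S : Finset (Fin N))
    (f : ℕ → Fin N) (L T₀ D₀ : ℕ)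
    (hand : ∀ j, 1 ≤ j → j < 2 ^ L → C (f j) = MGate.and (f (2 * j)) (f (2 * j + 1)))
    (hS : ∀ j, 1 ≤ j → j < 2 ^ L → f j ∈ S)
    (hleaf : ∀ j, 2 ^ L ≤ j → j < 2 ^ (L + 1) → ∃ (T : ℕ) (P : Finset (Fin N)) (D : ℕ),
      Proof C G (f j) T P D ∧ T ≤ T₀ ∧ P ⊆ S ∧ D ≤ D₀) :
    ∀ d l : ℕ, l + d = L → ∀ j, 2 ^ l ≤ j → j < 2 ^ (l + 1) →
      ∃ (T : ℕ) (P : Finset (Fin N)) (D : ℕ),
      Proof C G (f j) T P D ∧ T ≤ 2 ^ d * T₀ ∧ P ⊆ S ∧ D ≤ d + D₀ := by
  intro d
  induction d with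
  | zero =>
    intro l hl j h1 h2
    have : l = L := by omega
    subst this
    obtain ⟨T, P, D, hP, hT, hPS, hD⟩ := hleaf j h1 h2
    exact ⟨T, P, D, hP, by omega, hPS, by omega⟩
  | succ d ih =>
    intro l hl j h1 h2
    have e1 : 2 ^ (l + 1) = 2 * 2 ^ l := by ring
    have e2 : 2 ^ (l + 1 + 1) = 2 * 2 ^ (l + 1) := by ring
    have hl1 : 1 ≤ 2 ^ l := Nat.one_le_two_pow
    have hlt : 2 ^ (l + 1) ≤ 2 ^ L := Nat.pow_le_pow_right (by norm_num) (by omega)
    obtain ⟨T, P, D, hP, hT, hPS, hD⟩ := ih (l + 1) (by omega) (2 * j) (by omega) (by omega)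
    obtain ⟨T', P', D', hP', hT', hPS', hD'⟩ :=
      ih (l + 1) (by omega) (2 * j + 1) (by omega) (by omega)
    refine ⟨T + T', insert (f j) (P ∪ P'), max D D' + 1,
      Proof.and _ _ _ _ _ _ _ _ _ (hand j (by omega) (by omega)) hP hP', ?_, ?_, ?_⟩
    · have : 2 ^ (d + 1) * T₀ = 2 ^ d * T₀ + 2 ^ d * T₀ := by ring
      omega
    · exact insert_subset (hS j (by omega) (by omega)) (union_subset hPS hPS')
    · omega

namespace CUDx

open CUBx

section

variable {k n b L K N : ℕ}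

/-- the nodes: the tree over the patterns, the guesses, the trees over the pairs -/
abbrev Nd (k n b L K : ℕ) :=
  Fin (2 ^ (L + 1)) ⊕ (((Fin k → Fin b) × Fin (MM k n b + 1) × Finset (Fin (MM k n b))) ⊕
    ((Fin k → Fin b) × Finset (Fin (MM k n b)) × Fin (2 ^ (K + 1))))

theorem card_Nd (k n b L K : ℕ) : Fintype.card (Nd k n b L K) =
    2 ^ (L + 1) + (b ^ k * (MM k n b + 1) * 2 ^ MM k n b +
      b ^ k * 2 ^ MM k n b * 2 ^ (K + 1)) := by
  rw [Fintype.card_sum, Fintype.card_sum, Fintype.card_prod, Fintype.card_prod,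
    Fintype.card_prod, Fintype.card_prod, card_pat, Fintype.card_finset]
  simp only [Fintype.card_fin]
  ring

/-- place number `j` of a tree -/
def hp (R j : ℕ) : Fin (2 ^ (R + 1)) :=
  if h : j < 2 ^ (R + 1) then ⟨j, h⟩ else ⟨0, Nat.two_pow_pos _⟩

theorem hp_val {R j : ℕ} (h : j < 2 ^ (R + 1)) : (hp R j).val = j := by
  unfold hp
  rw [dif_pos h]

open Classical in
/-- the gates -/
noncomputable def gt (hn : 1 ≤ n) (e : Nd k n b L K → Fin N) : Nd k n b L K → MGate n N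
  | Sum.inl j =>
      if j.val = 0 then MGate.or (e (Sum.inl j)) (e (Sum.inl j))
      else if j.val < 2 ^ L then
        MGate.and (e (Sum.inl (hp L (2 * j.val)))) (e (Sum.inl (hp L (2 * j.val + 1))))
      else if h : j.val - 2 ^ L < b ^ k then
        MGate.or
          (e (Sum.inr (Sum.inl ((eP k b).symm ⟨j.val - 2 ^ L, h⟩, ⟨0, by omega⟩, ∅))))
          (e (Sum.inr (Sum.inl ((eP k b).symm ⟨j.val - 2 ^ L, h⟩, ⟨0, by omega⟩, ∅))))
      else MGate.input ⟨0, hn⟩ ⟨0, hn⟩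
  | Sum.inr (Sum.inl (τ, r, F)) =>
      if h : r.val < MM k n b then
        MGate.or (e (Sum.inr (Sum.inl (τ, ⟨r.val + 1, by omega⟩, insert ⟨r.val, h⟩ F))))
          (e (Sum.inr (Sum.inl (τ, ⟨r.val + 1, by omega⟩, F))))
      else if Good hn τ F then
        MGate.or (e (Sum.inr (Sum.inr (τ, F, hp K 1)))) (e (Sum.inr (Sum.inr (τ, F, hp K 1))))
      else MGate.or (e (Sum.inr (Sum.inl (τ, r, F)))) (e (Sum.inr (Sum.inl (τ, r, F))))
  | Sum.inr (Sum.inr (τ, F, j)) =>
      if j.val = 0 then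
        MGate.or (e (Sum.inr (Sum.inr (τ, F, j)))) (e (Sum.inr (Sum.inr (τ, F, j))))
      else if j.val < 2 ^ K then
        MGate.and (e (Sum.inr (Sum.inr (τ, F, hp K (2 * j.val)))))
          (e (Sum.inr (Sum.inr (τ, F, hp K (2 * j.val + 1)))))
      else if h : ∃ r : Fin (MM k n b), r ∈ F ∧ r.val + 2 ^ K = j.val then
        MGate.input (pr' hn τ h.choose).1 (pr' hn τ h.choose).2
      else MGate.input ⟨0, hn⟩ ⟨0, hn⟩

theorem gt_O (hn : 1 ≤ n) (e : Nd k n b L K → Fin N) (j : Fin (2 ^ (L + 1))) :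
    gt hn e (Sum.inl j) =
      if j.val = 0 then MGate.or (e (Sum.inl j)) (e (Sum.inl j))
      else if j.val < 2 ^ L then
        MGate.and (e (Sum.inl (hp L (2 * j.val)))) (e (Sum.inl (hp L (2 * j.val + 1))))
      else if h : j.val - 2 ^ L < b ^ k then
        MGate.or
          (e (Sum.inr (Sum.inl ((eP k b).symm ⟨j.val - 2 ^ L, h⟩, ⟨0, by omega⟩, ∅))))
          (e (Sum.inr (Sum.inl ((eP k b).symm ⟨j.val - 2 ^ L, h⟩, ⟨0, by omega⟩, ∅))))
      else MGate.input ⟨0, hn⟩ ⟨0, hn⟩ := rfl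

open Classical in
theorem gt_A (hn : 1 ≤ n) (e : Nd k n b L K → Fin N) (τ : Fin k → Fin b)
    (r : Fin (MM k n b + 1)) (F : Finset (Fin (MM k n b))) :
    gt hn e (Sum.inr (Sum.inl (τ, r, F))) =
      if h : r.val < MM k n b then
        MGate.or (e (Sum.inr (Sum.inl (τ, ⟨r.val + 1, by omega⟩, insert ⟨r.val, h⟩ F))))
          (e (Sum.inr (Sum.inl (τ, ⟨r.val + 1, by omega⟩, F))))
      else if Good hn τ F then
        MGate.or (e (Sum.inr (Sum.inr (τ, F, hp K 1)))) (e (Sum.inr (Sum.inr (τ, F, hp K 1))))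
      else MGate.or (e (Sum.inr (Sum.inl (τ, r, F)))) (e (Sum.inr (Sum.inl (τ, r, F)))) := rfl

open Classical in
theorem gt_V (hn : 1 ≤ n) (e : Nd k n b L K → Fin N) (τ : Fin k → Fin b)
    (F : Finset (Fin (MM k n b))) (j : Fin (2 ^ (K + 1))) :
    gt hn e (Sum.inr (Sum.inr (τ, F, j))) =
      if j.val = 0 then
        MGate.or (e (Sum.inr (Sum.inr (τ, F, j)))) (e (Sum.inr (Sum.inr (τ, F, j))))
      else if j.val < 2 ^ K then
        MGate.and (e (Sum.inr (Sum.inr (τ, F, hp K (2 * j.val)))))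
          (e (Sum.inr (Sum.inr (τ, F, hp K (2 * j.val + 1)))))
      else if h : ∃ r : Fin (MM k n b), r ∈ F ∧ r.val + 2 ^ K = j.val then
        MGate.input (pr' hn τ h.choose).1 (pr' hn τ h.choose).2
      else MGate.input ⟨0, hn⟩ ⟨0, hn⟩ := rfl

/-- some set of non-edges of `H` excludes the pattern -/
def SB (hn : 1 ≤ n) (H : SimpleGraph (Fin n)) (τ : Fin k → Fin b) : Prop :=
  ∃ F : Finset (Fin (MM k n b)), (∀ r ∈ F, ¬ H.Adj (pr' hn τ r).1 (pr' hn τ r).2) ∧
    Good hn τ F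

/-- the meaning of the nodes -/
def Sem (hn : 1 ≤ n) (H : SimpleGraph (Fin n)) : Nd k n b L K → Prop
  | Sum.inl j => ∀ (d : ℕ) (i : Fin (b ^ k)), (i.val + 2 ^ L) / 2 ^ d = j.val →
      SB hn H ((eP k b).symm i)
  | Sum.inr (Sum.inl (τ, _, _)) => SB hn H τ
  | Sum.inr (Sum.inr (τ, F, j)) => ∀ (d : ℕ) (r : Fin (MM k n b)), r ∈ F →
      (r.val + 2 ^ K) / 2 ^ d = j.val → ¬ H.Adj (pr' hn τ r).1 (pr' hn τ r).2

theorem half {x j d R : ℕ} (hj : j < 2 ^ R) (h : (x + 2 ^ R) / 2 ^ d = j) :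
    ∃ d', (x + 2 ^ R) / 2 ^ d' = 2 * j ∨ (x + 2 ^ R) / 2 ^ d' = 2 * j + 1 := by
  rcases d with _ | d
  · rw [pow_zero, Nat.div_one] at h
    omega
  · refine ⟨d, ?_⟩
    rw [pow_succ, ← Nat.div_div_eq_div_mul] at h
    omega

theorem whole {x j d R : ℕ} (hx : x < 2 ^ R) (hj : 2 ^ R ≤ j) (h : (x + 2 ^ R) / 2 ^ d = j) :
    x + 2 ^ R = j := by
  rcases d with _ | d
  · rw [pow_zero, Nat.div_one] at h
    exact h
  · exfalso
    have h1 : (x + 2 ^ R) / 2 ^ (d + 1) ≤ (x + 2 ^ R) / 2 := by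
      refine Nat.div_le_div_left ?_ (by norm_num)
      have := Nat.one_le_two_pow (n := d)
      have h2 : 2 ^ (d + 1) = 2 * 2 ^ d := by ring
      omega
    omega

theorem sem_input (hn : 1 ≤ n) (hL : b ^ k ≤ 2 ^ L) (hK : MM k n b ≤ 2 ^ K)
    (H : SimpleGraph (Fin n)) (e : Nd k n b L K → Fin N) (nd : Nd k n b L K)
    (x y : Fin n) (h : gt hn e nd = MGate.input x y) (hxy : ¬ H.Adj x y) : Sem hn H nd := by
  rcases nd with j | ⟨τ, r, F⟩ | ⟨τ, F, j⟩
  · rw [gt_O] at h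
    split_ifs at h with h1 h2 h3
    intro d i hi
    have h4 := whole (lt_of_lt_of_le i.isLt hL) (not_lt.1 h2) hi
    have h5 := i.isLt
    omega
  · rw [gt_A] at h
    split_ifs at h
  · rw [gt_V] at h
    split_ifs at h with h1 h2 h3
    · intro d r hr hi
      have h4 := whole (lt_of_lt_of_le r.isLt hK) (not_lt.1 h2) hi
      have h5 := h3.choose_spec.2
      have h6 : h3.choose = r := Fin.ext (by omega)
      rw [h6] at h
      injection h with h7 h8
      rw [h7, h8]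
      exact hxy
    · intro d r hr hi
      have h4 := whole (lt_of_lt_of_le r.isLt hK) (not_lt.1 h2) hi
      exact absurd ⟨r, hr, h4⟩ h3

theorem sem_or (hn : 1 ≤ n) (hL : b ^ k ≤ 2 ^ L) (hK : MM k n b ≤ 2 ^ K)
    (H : SimpleGraph (Fin n)) (e : Nd k n b L K ≃ Fin N) (nd : Nd k n b L K)
    (x y : Fin N) (h : gt hn e nd = MGate.or x y)
    (hxy : Sem hn H (e.symm x) ∨ Sem hn H (e.symm y)) : Sem hn H nd := by
  rcases nd with j | ⟨τ, r, F⟩ | ⟨τ, F, j⟩
  · rw [gt_O] at h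
    split_ifs at h with h1 h2 h3
    · injection h with h3 h4
      rw [← h3, ← h4, e.symm_apply_apply, or_self_iff] at hxy
      exact hxy
    · injection h with h4 h5
      rw [← h4, ← h5, e.symm_apply_apply, or_self_iff] at hxy
      intro d i hi
      have h6 := whole (lt_of_lt_of_le i.isLt hL) (not_lt.1 h2) hi
      have h7 : i = ⟨j.val - 2 ^ L, h3⟩ := Fin.ext (by dsimp only; omega)
      rw [h7]
      exact hxy
  · rw [gt_A] at h
    split_ifs at h with h1 h2
    · injection h with h3 h4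
      rw [← h3, ← h4, e.symm_apply_apply, e.symm_apply_apply] at hxy
      rcases hxy with h5 | h5 <;> exact h5
    · injection h with h3 h4
      rw [← h3, ← h4, e.symm_apply_apply, or_self_iff] at hxy
      refine ⟨F, fun r' hr' => ?_, h2⟩
      refine hxy K r' hr' ?_
      rw [hp_val (by
        have := Nat.one_le_two_pow (n := K)
        have h2 : 2 ^ (K + 1) = 2 * 2 ^ K := by ring
        omega)]
      have h6 := r'.isLt
      refine Nat.div_eq_of_lt_le ?_ ?_
      · omega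
      · omega
    · injection h with h3 h4
      rw [← h3, ← h4, e.symm_apply_apply, or_self_iff] at hxy
      exact hxy
  · rw [gt_V] at h
    split_ifs at h with h1 h2 h3
    injection h with h3 h4
    rw [← h3, ← h4, e.symm_apply_apply, or_self_iff] at hxy
    exact hxy

theorem sem_and (hn : 1 ≤ n) (H : SimpleGraph (Fin n)) (e : Nd k n b L K ≃ Fin N)
    (nd : Nd k n b L K) (x y : Fin N) (h : gt hn e nd = MGate.and x y)
    (hx : Sem hn H (e.symm x)) (hy : Sem hn H (e.symm y)) : Sem hn H nd := by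
  rcases nd with j | ⟨τ, r, F⟩ | ⟨τ, F, j⟩
  · rw [gt_O] at h
    split_ifs at h with h1 h2 h3
    injection h with h3 h4
    rw [← h3, e.symm_apply_apply] at hx
    rw [← h4, e.symm_apply_apply] at hy
    intro d i hi
    have e1 : 2 ^ (L + 1) = 2 * 2 ^ L := by ring
    obtain ⟨d', h5 | h5⟩ := half h2 hi
    · refine hx d' i ?_
      rw [hp_val (by omega)]
      exact h5
    · refine hy d' i ?_
      rw [hp_val (by omega)]
      exact h5
  · rw [gt_A] at h
    split_ifs at h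
  · rw [gt_V] at h
    split_ifs at h with h1 h2 h3
    injection h with h3 h4
    rw [← h3, e.symm_apply_apply] at hx
    rw [← h4, e.symm_apply_apply] at hy
    intro d r hr hi
    have e1 : 2 ^ (K + 1) = 2 * 2 ^ K := by ring
    obtain ⟨d', h5 | h5⟩ := half h2 hi
    · refine hx d' r hr ?_
      rw [hp_val (by omega)]
      exact h5
    · refine hy d' r hr ?_
      rw [hp_val (by omega)]
      exact h5

/-- the circuit -/
noncomputable def CC (hn : 1 ≤ n) (e : Nd k n b L K ≃ Fin N) : Fin N → MGate n N :=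
  fun x => gt hn e (e.symm x)

theorem CC_e (hn : 1 ≤ n) (e : Nd k n b L K ≃ Fin N) (nd : Nd k n b L K) :
    CC hn e (e nd) = gt hn e nd := by
  unfold CC
  rw [e.symm_apply_apply]

theorem sound (hn : 1 ≤ n) (hL : b ^ k ≤ 2 ^ L) (hK : MM k n b ≤ 2 ^ K)
    (H : SimpleGraph (Fin n)) (e : Nd k n b L K ≃ Fin N) (x : Fin N) (T : ℕ)
    (P : Finset (Fin N)) (D : ℕ) (h : Proof (CC hn e) H x T P D) : Sem hn H (e.symm x) := by
  induction h with
  | leaf g a c hg hac => exact sem_input hn hL hK H e _ a c hg hac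
  | left g i j T P D hg _ ih => exact sem_or hn hL hK H e _ i j hg (Or.inl ih)
  | right g i j T P D hg _ ih => exact sem_or hn hL hK H e _ i j hg (Or.inr ih)
  | and g i j T₁ T₂ P₁ P₂ D₁ D₂ hg _ _ ih₁ ih₂ => exact sem_and hn H e _ i j hg ih₁ ih₂

/-- guessed non-edges before pair `r` -/
noncomputable def FL (hn : 1 ≤ n) (G : SimpleGraph (Fin n)) (τ : Fin k → Fin b) (r : ℕ) :
    Finset (Fin (MM k n b)) :=
  (FG hn G τ).filter (fun s => s.val < r)

/-- the nodes which are used -/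
noncomputable def US (hn : 1 ≤ n) (G : SimpleGraph (Fin n)) (e : Nd k n b L K ≃ Fin N) :
    Finset (Fin N) := by
  classical
  exact (univ : Finset (Fin (2 ^ (L + 1)))).image (fun j => e (Sum.inl j)) ∪
    (univ : Finset ((Fin k → Fin b) × Fin (MM k n b + 1))).image
      (fun z => e (Sum.inr (Sum.inl (z.1, z.2, FL hn G z.1 z.2.val)))) ∪
    (univ : Finset ((Fin k → Fin b) × Fin (2 ^ (K + 1)))).image
      (fun z => e (Sum.inr (Sum.inr (z.1, FG hn G z.1, z.2))))

theorem card_US (hn : 1 ≤ n) (G : SimpleGraph (Fin n)) (e : Nd k n b L K ≃ Fin N) :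
    #(US hn G e) ≤ 2 ^ (L + 1) + b ^ k * (MM k n b + 1) + b ^ k * 2 ^ (K + 1) := by
  classical
  unfold US
  refine (card_union_le _ _).trans (Nat.add_le_add ((card_union_le _ _).trans
    (Nat.add_le_add ?_ ?_)) ?_)
  · refine card_image_le.trans (le_of_eq ?_)
    rw [card_univ, Fintype.card_fin]
  · refine card_image_le.trans (le_of_eq ?_)
    rw [card_univ, Fintype.card_prod, card_pat, Fintype.card_fin]
  · refine card_image_le.trans (le_of_eq ?_)
    rw [card_univ, Fintype.card_prod, card_pat, Fintype.card_fin]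

theorem mem_US1 (hn : 1 ≤ n) (G : SimpleGraph (Fin n)) (e : Nd k n b L K ≃ Fin N)
    (j : Fin (2 ^ (L + 1))) : e (Sum.inl j) ∈ US hn G e := by
  classical
  unfold US
  exact mem_union_left _ (mem_union_left _ (mem_image.2 ⟨j, mem_univ _, rfl⟩))

theorem mem_US2 (hn : 1 ≤ n) (G : SimpleGraph (Fin n)) (e : Nd k n b L K ≃ Fin N)
    (τ : Fin k → Fin b) (r : Fin (MM k n b + 1)) :
    e (Sum.inr (Sum.inl (τ, r, FL hn G τ r.val))) ∈ US hn G e := by
  classical
  unfold US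
  exact mem_union_left _ (mem_union_right _ (mem_image.2 ⟨(τ, r), mem_univ _, rfl⟩))

theorem mem_US3 (hn : 1 ≤ n) (G : SimpleGraph (Fin n)) (e : Nd k n b L K ≃ Fin N)
    (τ : Fin k → Fin b) (j : Fin (2 ^ (K + 1))) :
    e (Sum.inr (Sum.inr (τ, FG hn G τ, j))) ∈ US hn G e := by
  classical
  unfold US
  exact mem_union_right _ (mem_image.2 ⟨(τ, j), mem_univ _, rfl⟩)

theorem prfV (hn : 1 ≤ n) (G : SimpleGraph (Fin n)) (e : Nd k n b L K ≃ Fin N)
    (τ : Fin k → Fin b) : ∃ (T : ℕ) (P : Finset (Fin N)) (D : ℕ),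
      Proof (CC hn e) G (e (Sum.inr (Sum.inr (τ, FG hn G τ, hp K 1)))) T P D ∧
      T ≤ 2 ^ K ∧ P ⊆ US hn G e ∧ D ≤ K := by
  have e1 : 2 ^ (K + 1) = 2 * 2 ^ K := by ring
  have h := bal (CC hn e) G (US hn G e)
    (fun j => e (Sum.inr (Sum.inr (τ, FG hn G τ, hp K j)))) K 1 0 ?_ ?_ ?_ K 0 (by omega) 1
    (by norm_num) (by norm_num)
  · obtain ⟨T, P, D, hP, hT, hPS, hD⟩ := h
    exact ⟨T, P, D, hP, by omega, hPS, by omega⟩
  · intro j h1 h2
    rw [CC_e, gt_V, hp_val (by omega), if_neg (by omega), if_pos h2]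
  · intro j h1 h2
    exact mem_US3 hn G e τ _
  · intro j h1 h2
    refine ⟨1, {e (Sum.inr (Sum.inr (τ, FG hn G τ, hp K j)))}, 0, ?_, le_refl _, ?_, le_refl _⟩
    · have h0 := Nat.one_le_two_pow (n := K)
      by_cases h3 : ∃ r : Fin (MM k n b), r ∈ FG hn G τ ∧ r.val + 2 ^ K = (hp K j).val
      · refine Proof.leaf _ (pr' hn τ h3.choose).1 (pr' hn τ h3.choose).2 ?_
          (mem_FG.1 h3.choose_spec.1)
        rw [CC_e, gt_V, if_neg (by rw [hp_val h2]; omega), if_neg (by rw [hp_val h2]; omega),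
          dif_pos h3]
      · refine Proof.leaf _ ⟨0, hn⟩ ⟨0, hn⟩ ?_ (G.loopless.irrefl _)
        rw [CC_e, gt_V, if_neg (by rw [hp_val h2]; omega), if_neg (by rw [hp_val h2]; omega),
          dif_neg h3]
    · rw [singleton_subset_iff]
      exact mem_US3 hn G e τ _

theorem prfA (hn : 1 ≤ n) (G : SimpleGraph (Fin n)) (hG : G.CliqueFree k)
    (e : Nd k n b L K ≃ Fin N) (τ : Fin k → Fin b) : ∀ (d r : ℕ) (hr : r + d = MM k n b),
      ∃ (T : ℕ) (P : Finset (Fin N)) (D : ℕ), Proof (CC hn e) G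
        (e (Sum.inr (Sum.inl (τ, ⟨r, by omega⟩, FL hn G τ r)))) T P D ∧
        T ≤ 2 ^ K ∧ P ⊆ US hn G e ∧ D ≤ K := by
  classical
  intro d
  induction d with
  | zero =>
    intro r hr
    obtain ⟨T, P, D, hP, hT, hPS, hD⟩ := prfV hn G e τ
    have h1 : FL hn G τ r = FG hn G τ :=
      filter_true_of_mem fun s _ => by
        have := s.isLt
        omega
    have hmem := mem_US2 hn G e τ ⟨r, by omega⟩
    have hgate : CC hn e (e (Sum.inr (Sum.inl (τ, ⟨r, by omega⟩, FL hn G τ r)))) =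
        MGate.or (e (Sum.inr (Sum.inr (τ, FG hn G τ, hp K 1))))
          (e (Sum.inr (Sum.inr (τ, FG hn G τ, hp K 1)))) := by
      rw [CC_e, gt_A, dif_neg (by dsimp only; omega),
        if_pos (by rw [h1]; exact FG_good hn G hG τ), h1]
    exact ⟨T, _, D, Proof.left _ _ _ _ _ _ hgate hP, hT, insert_subset hmem hPS, hD⟩
  | succ d ih =>
    intro r hr
    obtain ⟨T, P, D, hP, hT, hPS, hD⟩ := ih (r + 1) (by omega)
    have hlt : r < MM k n b := by omega
    have hmem := mem_US2 hn G e τ ⟨r, by omega⟩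
    have hgate : CC hn e (e (Sum.inr (Sum.inl (τ, ⟨r, by omega⟩, FL hn G τ r)))) =
        MGate.or (e (Sum.inr (Sum.inl (τ, ⟨r + 1, by omega⟩,
          insert (⟨r, hlt⟩ : Fin (MM k n b)) (FL hn G τ r)))))
          (e (Sum.inr (Sum.inl (τ, ⟨r + 1, by omega⟩, FL hn G τ r)))) := by
      rw [CC_e, gt_A, dif_pos (by exact hlt)]
    by_cases hr' : (⟨r, hlt⟩ : Fin (MM k n b)) ∈ FG hn G τ
    · have h1 : insert (⟨r, hlt⟩ : Fin (MM k n b)) (FL hn G τ r) = FL hn G τ (r + 1) := by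
        unfold FL
        ext s
        rw [mem_insert, mem_filter, mem_filter]
        constructor
        · rintro (h | h)
          · rw [h]
            exact ⟨hr', Nat.lt_succ_self r⟩
          · exact ⟨h.1, by omega⟩
        · rintro ⟨h2, h3⟩
          by_cases h4 : s.val < r
          · exact Or.inr ⟨h2, h4⟩
          · exact Or.inl (Fin.ext (by dsimp only; omega))
      rw [h1] at hgate
      exact ⟨T, _, D, Proof.left _ _ _ _ _ _ hgate hP, hT, insert_subset hmem hPS, hD⟩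
    · have h1 : FL hn G τ (r + 1) = FL hn G τ r := by
        unfold FL
        ext s
        rw [mem_filter, mem_filter]
        constructor
        · rintro ⟨h2, h3⟩
          refine ⟨h2, ?_⟩
          by_contra h4
          apply hr'
          have h5 : s = ⟨r, hlt⟩ := Fin.ext (by dsimp only; omega)
          rw [← h5]
          exact h2
        · rintro ⟨h2, h3⟩
          exact ⟨h2, by omega⟩
      rw [h1] at hP
      exact ⟨T, _, D, Proof.right _ _ _ _ _ _ hgate hP, hT, insert_subset hmem hPS, hD⟩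

theorem prfO (hn : 1 ≤ n) (G : SimpleGraph (Fin n)) (hG : G.CliqueFree k)
    (e : Nd k n b L K ≃ Fin N) : ∃ (T : ℕ) (P : Finset (Fin N)) (D : ℕ),
      Proof (CC hn e) G (e (Sum.inl (hp L 1))) T P D ∧
      T ≤ 2 ^ L * 2 ^ K ∧ P ⊆ US hn G e ∧ D ≤ L + K := by
  have e1 : 2 ^ (L + 1) = 2 * 2 ^ L := by ring
  have h0 := Nat.one_le_two_pow (n := L)
  have hk := Nat.one_le_two_pow (n := K)
  have h := bal (CC hn e) G (US hn G e)
    (fun j => e (Sum.inl (hp L j))) L (2 ^ K) K ?_ ?_ ?_ L 0 (by omega) 1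
    (by norm_num) (by norm_num)
  · exact h
  · intro j h1 h2
    rw [CC_e, gt_O, hp_val (by omega), if_neg (by omega), if_pos h2]
  · intro j h1 h2
    exact mem_US1 hn G e _
  · intro j h1 h2
    by_cases h3 : (hp L j).val - 2 ^ L < b ^ k
    · obtain ⟨T, P, D, hP, hT, hPS, hD⟩ :=
        prfA hn G hG e ((eP k b).symm ⟨(hp L j).val - 2 ^ L, h3⟩) (MM k n b) 0 (by omega)
      have h4 : FL hn G ((eP k b).symm ⟨(hp L j).val - 2 ^ L, h3⟩) 0 = ∅ := by
        unfold FL
        simp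
      rw [h4] at hP
      have hgate : CC hn e (e (Sum.inl (hp L j))) =
          MGate.or (e (Sum.inr (Sum.inl ((eP k b).symm ⟨(hp L j).val - 2 ^ L, h3⟩,
              ⟨0, by omega⟩, ∅))))
            (e (Sum.inr (Sum.inl ((eP k b).symm ⟨(hp L j).val - 2 ^ L, h3⟩,
              ⟨0, by omega⟩, ∅)))) := by
        rw [CC_e, gt_O, if_neg (by rw [hp_val h2]; omega), if_neg (by rw [hp_val h2]; omega),
          dif_pos h3]
      exact ⟨T, _, D, Proof.left _ _ _ _ _ _ hgate hP, hT,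
        insert_subset (mem_US1 hn G e _) hPS, hD⟩
    · refine ⟨1, {e (Sum.inl (hp L j))}, 0, Proof.leaf _ ⟨0, hn⟩ ⟨0, hn⟩ ?_
        (G.loopless.irrefl _), hk, ?_, by omega⟩
      · rw [CC_e, gt_O, if_neg (by rw [hp_val h2]; omega), if_neg (by rw [hp_val h2]; omega),
          dif_neg h3]
      · rw [singleton_subset_iff]
        exact mem_US1 hn G e _

end

end CUDx

open CUBx CUDx in
/-- CUBD -/
theorem cubd : CUBD := by
  classical
  intro k n b M L K hn hb hM hL hK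
  subst hM
  have hK' : MM k n b ≤ 2 ^ K := hK
  set e : CUDx.Nd k n b L K ≃ Fin (2 ^ (L + 1) + (b ^ k * (MM k n b + 1) * 2 ^ MM k n b +
      b ^ k * 2 ^ MM k n b * 2 ^ (K + 1))) :=
    Fintype.equivFinOfCardEq (CUDx.card_Nd k n b L K) with he
  refine ⟨_, CUDx.CC hn e, e (Sum.inl (hp L 1)), le_refl _, ?_, ?_⟩
  · intro H hH T P D hT
    have h1 := CUDx.sound hn hL hK' H e _ T P D hT
    rw [e.symm_apply_apply] at h1
    unfold SimpleGraph.CliqueFree at hH
    push Not at hH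
    obtain ⟨s, hs⟩ := hH
    set v : Fin k → Fin n := fun i => s.orderEmbOfFin hs.card_eq i with hv
    have hvs : ∀ i, v i ∈ s := fun i => s.orderEmbOfFin_mem hs.card_eq i
    set τ : Fin k → Fin b := fun i => ⟨(v i).val % b, Nat.mod_lt _ (by omega)⟩ with hτ
    have h0 := Nat.one_le_two_pow (n := L)
    have h2 : SB hn H ((eP k b).symm (eP k b τ)) := by
      refine h1 L (eP k b τ) ?_
      rw [hp_val (by
        have h2 : 2 ^ (L + 1) = 2 * 2 ^ L := by ring
        omega)]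
      have h6 := (eP k b τ).isLt
      refine Nat.div_eq_of_lt_le ?_ ?_
      · omega
      · omega
    rw [Equiv.symm_apply_apply] at h2
    obtain ⟨F', hF1, hF2⟩ := h2
    refine hF2 H hF1 v (fun i => rfl) fun i j hij => ?_
    refine hs.isClique (hvs i) (hvs j) fun h => hij ?_
    exact (s.orderEmbOfFin hs.card_eq).injective h
  · intro G hG
    obtain ⟨T, P, D, hP, hT, hPS, hD⟩ := CUDx.prfO hn G hG e
    exact ⟨T, P, D, hP, hT, (card_le_card hPS).trans (card_US hn G e), hD⟩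

end Pool.Agent.KCN
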