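import Pool.Agent.Lib.KCN.DefsU
import Pool.Agent.Lib.KCN.PAR

/-!
# MP_678664_lc, upper side in the circuit model, row CUP: the parameters
-/

set_option autoImplicit false

namespace Pool.Agent.KCN

open Filter Topology

/-- **Row CUP**. -/
theorem cup (h : CUB) : CUP := by
  intro γ hγ hγ1
  refine ⟨⌈12 / γ⌉₊ + 1, fun k hk => ?_⟩
  have hk12 : 12 ≤ γ * k := by
    have h1 : 12 / γ ≤ (⌈12 / γ⌉₊ : ℝ) := Nat.le_ceil _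
    have h2 : ((⌈12 / γ⌉₊ + 1 : ℕ) : ℝ) ≤ k := by exact_mod_cast hk
    have h3 : 12 / γ ≤ k := by
      push_cast at h2
      linarith
    rw [div_le_iff₀ hγ] at h3
    linarith
  have hk1 : 1 ≤ k := by omega
  have hkr : (1 : ℝ) ≤ k := by exact_mod_cast hk1
  set C : ℝ := 20 * (k : ℝ) ^ 2 + 3 with hC
  have hC0 : 0 < C := by positivity
  have hev := (PARx.ev_rpow (36 * (k : ℝ) ^ 2) (γ / 2) (by positivity)).and
    ((PARx.ev_pow (C ^ 2) (by positivity) (2 * (k + 2))).and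
      ((PARx.ev_rpow (11 * (k : ℝ) ^ 2) 1 one_pos).and (eventually_ge_atTop 1)))
  obtain ⟨n₀, hn₀⟩ := eventually_atTop.1 hev
  refine ⟨n₀, fun n hn => ?_⟩
  obtain ⟨hE1, hE2, hE3, hn1'⟩ := hn₀ n hn
  have hn1 : (1 : ℝ) ≤ n := by exact_mod_cast hn1'
  have hn0 : (0 : ℝ) < n := by linarith
  rw [Real.rpow_one] at hE3
  set s : ℝ := (n : ℝ) ^ (2 - γ) with hs
  have hsn : (n : ℝ) ≤ s := by
    have h1 : (n : ℝ) ^ (1 : ℝ) ≤ (n : ℝ) ^ (2 - γ) :=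
      Real.rpow_le_rpow_of_exponent_le hn1 (by linarith)
    rwa [Real.rpow_one] at h1
  have hx1 : (1 : ℝ) ≤ (n : ℝ) ^ (3 * γ / 4) := Real.one_le_rpow hn1 (by positivity)
  set b : ℕ := ⌊(n : ℝ) ^ (3 * γ / 4)⌋₊ with hb
  have hb1 : 1 ≤ b := Nat.le_floor (by exact_mod_cast hx1)
  have hb1r : (1 : ℝ) ≤ b := by exact_mod_cast hb1
  have hb0 : (0 : ℝ) < b := by linarith
  have hbx : (b : ℝ) ≤ (n : ℝ) ^ (3 * γ / 4) := Nat.floor_le (by linarith)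
  have hxb : (n : ℝ) ^ (3 * γ / 4) ≤ 2 * b := by
    have h1 := Nat.lt_floor_add_one ((n : ℝ) ^ (3 * γ / 4))
    rw [← hb] at h1
    linarith
  have hbn : (b : ℝ) ≤ n := by
    refine hbx.trans ?_
    calc (n : ℝ) ^ (3 * γ / 4) ≤ (n : ℝ) ^ (1 : ℝ) :=
          Real.rpow_le_rpow_of_exponent_le hn1 (by linarith)
      _ = n := Real.rpow_one _
  set M : ℕ := (k * (n / b + 1)) ^ 2 with hM
  obtain ⟨N, Ci, out, hN, hsound, hcomp⟩ := h k n b M hn1' hb1 hM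
  have hy1 : (1 : ℝ) ≤ (n : ℝ) ^ (1 - 3 * γ / 4) := Real.one_le_rpow hn1 (by linarith)
  have hdiv : ((n / b : ℕ) : ℝ) + 1 ≤ 3 * (n : ℝ) ^ (1 - 3 * γ / 4) := by
    have h1 : ((n / b : ℕ) : ℝ) ≤ (n : ℝ) / b := Nat.cast_div_le
    have h2 : (n : ℝ) / b ≤ 2 * (n : ℝ) ^ (1 - 3 * γ / 4) := by
      rw [div_le_iff₀ hb0, Real.rpow_sub hn0, Real.rpow_one]
      have h3 : 0 < (n : ℝ) ^ (3 * γ / 4) := by linarith
      have h4 : 2 * ((n : ℝ) / (n : ℝ) ^ (3 * γ / 4)) * b =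
          (n : ℝ) * (2 * b / (n : ℝ) ^ (3 * γ / 4)) := by
        field_simp
      rw [h4]
      have h5 : 1 ≤ 2 * b / (n : ℝ) ^ (3 * γ / 4) := by
        rw [le_div_iff₀ h3]
        linarith
      nlinarith
    linarith
  have hMr : (M : ℝ) ≤ 9 * (k : ℝ) ^ 2 * (n : ℝ) ^ (2 - 3 * γ / 2) := by
    have h1 : (M : ℝ) = ((k : ℝ) * (((n / b : ℕ) : ℝ) + 1)) ^ 2 := by
      rw [hM]
      push_cast
      rfl
    have h2 : (n : ℝ) ^ (2 - 3 * γ / 2) = ((n : ℝ) ^ (1 - 3 * γ / 4)) ^ 2 := by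
      rw [← Real.rpow_natCast, ← Real.rpow_mul hn0.le]
      congr 1
      push_cast
      ring
    rw [h1, h2]
    have h3 : (k : ℝ) * (((n / b : ℕ) : ℝ) + 1) ≤ k * (3 * (n : ℝ) ^ (1 - 3 * γ / 4)) :=
      mul_le_mul_of_nonneg_left hdiv (by positivity)
    calc ((k : ℝ) * (((n / b : ℕ) : ℝ) + 1)) ^ 2 ≤ (k * (3 * (n : ℝ) ^ (1 - 3 * γ / 4))) ^ 2 :=
          pow_le_pow_left₀ (by positivity) h3 2
      _ = 9 * (k : ℝ) ^ 2 * ((n : ℝ) ^ (1 - 3 * γ / 4)) ^ 2 := by ring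
  have hMs : (M : ℝ) ≤ s / 4 := by
    have h1 : s = (n : ℝ) ^ (γ / 2) * (n : ℝ) ^ (2 - 3 * γ / 2) := by
      rw [hs, ← Real.rpow_add hn0]
      congr 1
      ring
    have h2 : 36 * (k : ℝ) ^ 2 * (n : ℝ) ^ (2 - 3 * γ / 2) ≤ s := by
      rw [h1]
      exact mul_le_mul_of_nonneg_right hE1 (by positivity)
    linarith
  have hMn : (M : ℝ) + 1 ≤ 10 * (k : ℝ) ^ 2 * (n : ℝ) ^ 2 := by
    have h1 : (n : ℝ) ^ (2 - 3 * γ / 2) ≤ (n : ℝ) ^ 2 := by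
      rw [← Real.rpow_natCast]
      refine Real.rpow_le_rpow_of_exponent_le hn1 ?_
      push_cast
      linarith
    have h2 : 9 * (k : ℝ) ^ 2 * (n : ℝ) ^ (2 - 3 * γ / 2) ≤ 9 * (k : ℝ) ^ 2 * (n : ℝ) ^ 2 :=
      mul_le_mul_of_nonneg_left h1 (by positivity)
    have h3 : 1 ≤ (k : ℝ) ^ 2 * (n : ℝ) ^ 2 := by
      have h4 : (1 : ℝ) ≤ (k : ℝ) ^ 2 := one_le_pow₀ hkr
      have h5 : (1 : ℝ) ≤ (n : ℝ) ^ 2 := one_le_pow₀ hn1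
      nlinarith
    nlinarith
  refine ⟨N, Ci, out, ?_, hsound, fun G hG => ?_⟩
  · have hN' : (N : ℝ) ≤ 2 * (b : ℝ) ^ k * ((M : ℝ) + 1) * 2 ^ M + (b : ℝ) ^ k + 1 +
        (n : ℝ) ^ 2 := by exact_mod_cast hN
    have hbk : (b : ℝ) ^ k ≤ (n : ℝ) ^ k := pow_le_pow_left₀ hb0.le hbn k
    have h2M : (2 : ℝ) ^ M ≤ 2 ^ (s / 4) := by
      rw [← Real.rpow_natCast]
      exact Real.rpow_le_rpow_of_exponent_le (by norm_num) hMs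
    have h2M1 : (1 : ℝ) ≤ 2 ^ (s / 4) := Real.one_le_rpow (by norm_num) (by positivity)
    have hP : (1 : ℝ) ≤ (n : ℝ) ^ (k + 2) := one_le_pow₀ hn1
    have hPk : (n : ℝ) ^ k ≤ (n : ℝ) ^ (k + 2) := pow_le_pow_right₀ hn1 (by omega)
    have hP2 : (n : ℝ) ^ 2 ≤ (n : ℝ) ^ (k + 2) := pow_le_pow_right₀ hn1 (by omega)
    have h1 : 2 * (b : ℝ) ^ k * ((M : ℝ) + 1) * 2 ^ M ≤
        20 * (k : ℝ) ^ 2 * (n : ℝ) ^ (k + 2) * 2 ^ (s / 4) := by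
      calc 2 * (b : ℝ) ^ k * ((M : ℝ) + 1) * 2 ^ M ≤
            2 * (n : ℝ) ^ k * (10 * (k : ℝ) ^ 2 * (n : ℝ) ^ 2) * 2 ^ (s / 4) := by gcongr
        _ = 20 * (k : ℝ) ^ 2 * (n : ℝ) ^ (k + 2) * 2 ^ (s / 4) := by rw [pow_add]; ring
    have h2 : (b : ℝ) ^ k + 1 + (n : ℝ) ^ 2 ≤ 3 * (n : ℝ) ^ (k + 2) * 2 ^ (s / 4) := by
      have h3 : (b : ℝ) ^ k + 1 + (n : ℝ) ^ 2 ≤ 3 * (n : ℝ) ^ (k + 2) := by linarith
      have h4 : 3 * (n : ℝ) ^ (k + 2) * 1 ≤ 3 * (n : ℝ) ^ (k + 2) * 2 ^ (s / 4) :=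
        mul_le_mul_of_nonneg_left h2M1 (by positivity)
      linarith
    have h3 : (N : ℝ) ≤ C * (n : ℝ) ^ (k + 2) * 2 ^ (s / 4) := by
      rw [hC]
      nlinarith
    have h4 : C * (n : ℝ) ^ (k + 2) ≤ 2 ^ (s / 2) := by
      have h5 : (C * (n : ℝ) ^ (k + 2)) ^ 2 ≤ (2 ^ ((n : ℝ) / 2)) ^ 2 := by
        have h6 : ((2 : ℝ) ^ ((n : ℝ) / 2)) ^ 2 = 2 ^ n := by
          rw [← Real.rpow_natCast, ← Real.rpow_mul (by norm_num), ← Real.rpow_natCast]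
          congr 1
          push_cast
          ring
        rw [h6, mul_pow, ← pow_mul]
        convert hE2 using 3
        ring
      have h6 : C * (n : ℝ) ^ (k + 2) ≤ 2 ^ ((n : ℝ) / 2) :=
        (pow_le_pow_iff_left₀ (by positivity) (by positivity) (by norm_num)).1 h5
      exact h6.trans (Real.rpow_le_rpow_of_exponent_le (by norm_num) (by linarith))
    calc (N : ℝ) ≤ C * (n : ℝ) ^ (k + 2) * 2 ^ (s / 4) := h3
      _ ≤ 2 ^ (s / 2) * 2 ^ (s / 4) := mul_le_mul_of_nonneg_right h4 (by positivity)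
      _ = 2 ^ (s / 2 + s / 4) := (Real.rpow_add (by norm_num) _ _).symm
      _ ≤ 2 ^ s := Real.rpow_le_rpow_of_exponent_le (by norm_num) (by linarith)
  · obtain ⟨T, P, D, hT, hTle⟩ := hcomp G hG
    refine ⟨T, P, D, hT, ?_⟩
    have hT' : (T : ℝ) ≤ (b : ℝ) ^ k * ((M : ℝ) + 1) + 1 := by exact_mod_cast hTle
    have hbk : (b : ℝ) ^ k ≤ (n : ℝ) ^ (3 * γ / 4 * k) := by
      rw [Real.rpow_mul hn0.le, Real.rpow_natCast]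
      exact pow_le_pow_left₀ hb0.le hbx k
    have hbk1 : (1 : ℝ) ≤ (n : ℝ) ^ (3 * γ / 4 * k) := Real.one_le_rpow hn1 (by positivity)
    have h3 : (n : ℝ) ^ 3 ≤ (n : ℝ) ^ (γ * k / 4) := by
      rw [← Real.rpow_natCast]
      refine Real.rpow_le_rpow_of_exponent_le hn1 ?_
      push_cast
      linarith
    have hkn : 1 ≤ (k : ℝ) ^ 2 * (n : ℝ) ^ 2 := by
      have h4 : (1 : ℝ) ≤ (k : ℝ) ^ 2 := one_le_pow₀ hkr
      have h5 : (1 : ℝ) ≤ (n : ℝ) ^ 2 := one_le_pow₀ hn1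
      nlinarith
    calc (T : ℝ) ≤ (b : ℝ) ^ k * ((M : ℝ) + 1) + 1 := hT'
      _ ≤ (n : ℝ) ^ (3 * γ / 4 * k) * (10 * (k : ℝ) ^ 2 * (n : ℝ) ^ 2) + 1 := by gcongr
      _ ≤ (n : ℝ) ^ (3 * γ / 4 * k) * (11 * (k : ℝ) ^ 2 * (n : ℝ) ^ 2) := by nlinarith
      _ ≤ (n : ℝ) ^ (3 * γ / 4 * k) * ((n : ℝ) * (n : ℝ) ^ 2) := by gcongr
      _ = (n : ℝ) ^ (3 * γ / 4 * k) * (n : ℝ) ^ 3 := by ring
      _ ≤ (n : ℝ) ^ (3 * γ / 4 * k) * (n : ℝ) ^ (γ * k / 4) := by gcongr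
      _ = (n : ℝ) ^ (γ * k) := by
        rw [← Real.rpow_add hn0]
        congr 1
        ring

end Pool.Agent.KCN
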