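import Pool.Agent.Lib.KCN.CUBD

/-!
# Upper side with few gates and small depth: the parameters
-/

set_option autoImplicit false

namespace Pool.Agent.KCN

open Finset Filter

/-- CUPD: memory `n ^ (2 - γ)` suffices for proof trees with at most `n ^ (γ k)` leaves, at most
`n ^ (γ k)` different gates and at most `γ k log n` conjunctions on every path -/
def CUPD : Prop :=
  ∀ γ : ℝ, 0 < γ → γ ≤ 1 → ∃ k₀ : ℕ, ∀ k : ℕ, k₀ ≤ k → ∃ n₀ : ℕ, ∀ n : ℕ, n₀ ≤ n →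
    ∃ (N : ℕ) (C : Fin N → MGate n N) (out : Fin N),
      (N : ℝ) ≤ 2 ^ ((n : ℝ) ^ (2 - γ)) ∧
      Sound k C out ∧
      ∀ G : SimpleGraph (Fin n), G.CliqueFree k →
        ∃ (T : ℕ) (P : Finset (Fin N)) (D : ℕ), Proof C G out T P D ∧
          (T : ℝ) ≤ (n : ℝ) ^ (γ * k) ∧ (#P : ℝ) ≤ (n : ℝ) ^ (γ * k) ∧
          (D : ℝ) ≤ γ * k * Real.logb 2 n

namespace CUDx

theorem clog_le (a : ℕ) (ha : 1 ≤ a) : 2 ^ Nat.clog 2 a ≤ 2 * a := by
  rcases Nat.lt_or_ge 1 a with h | h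
  · have h1 := Nat.pow_pred_clog_lt_self (b := 2) (by norm_num) h
    have h2 : 0 < Nat.clog 2 a := Nat.clog_pos (by norm_num) h
    have h3 : 2 ^ Nat.clog 2 a = 2 * 2 ^ (Nat.clog 2 a).pred := by
      rw [← pow_succ']
      congr 1
      have := Nat.succ_pred_eq_of_pos h2
      omega
    omega
  · have h4 : a = 1 := by omega
    rw [h4]
    simp

/-- the sizes -/
theorem sizes (γ : ℝ) (hγ : 0 < γ) (hγ1 : γ ≤ 1) (k n b M : ℕ) (hk : 1 ≤ k)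
    (hk12 : 12 ≤ γ * k) (hn : (90 * k ^ 2 : ℝ) ≤ n) (hb : b = ⌊(n : ℝ) ^ (3 * γ / 4)⌋₊)
    (hM : M = (k * (n / b + 1)) ^ 2) : 1 ≤ b ∧ 1 ≤ M ∧
      (M : ℝ) ≤ 9 * k ^ 2 * (n : ℝ) ^ (2 - 3 * γ / 2) ∧
      10 * ((b : ℝ) ^ k * M) ≤ (n : ℝ) ^ (γ * k) := by
  have hkR : (1 : ℝ) ≤ k := by exact_mod_cast hk
  have hn1 : (1 : ℝ) ≤ n := by nlinarith
  have hn0 : (0 : ℝ) < n := by linarith
  set X : ℝ := (n : ℝ) ^ (3 * γ / 4) with hX
  set Y : ℝ := (n : ℝ) ^ (1 - 3 * γ / 4) with hY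
  have hX1 : 1 ≤ X := Real.one_le_rpow hn1 (by positivity)
  have hY1 : 1 ≤ Y := Real.one_le_rpow hn1 (by linarith)
  have hYn : Y ≤ n := by
    calc Y ≤ (n : ℝ) ^ (1 : ℝ) := Real.rpow_le_rpow_of_exponent_le hn1 (by linarith)
      _ = n := Real.rpow_one _
  have hXY : X * Y = n := by
    rw [hX, hY, ← Real.rpow_add hn0]
    have : 3 * γ / 4 + (1 - 3 * γ / 4) = 1 := by ring
    rw [this, Real.rpow_one]
  have hb1 : 1 ≤ b := by
    rw [hb]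
    exact Nat.le_floor (by simpa using hX1)
  have hbR : (1 : ℝ) ≤ b := by exact_mod_cast hb1
  have hbX : (b : ℝ) ≤ X := by
    rw [hb]
    exact Nat.floor_le (by linarith)
  have hXb : X ≤ 2 * b := by
    have := Nat.lt_floor_add_one X
    rw [← hb] at this
    linarith
  have hdiv : ((n / b : ℕ) : ℝ) ≤ 2 * Y := by
    calc ((n / b : ℕ) : ℝ) ≤ (n : ℝ) / b := Nat.cast_div_le
      _ ≤ 2 * Y := by
        rw [div_le_iff₀ (by linarith), ← hXY]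
        nlinarith
  have hMR : (M : ℝ) = (k * (((n / b : ℕ) : ℝ) + 1)) ^ 2 := by
    rw [hM]
    push_cast
    ring
  have hd0 : (0 : ℝ) ≤ ((n / b : ℕ) : ℝ) := Nat.cast_nonneg _
  have hM9 : (M : ℝ) ≤ 9 * k ^ 2 * Y ^ 2 := by
    rw [hMR]
    calc ((k : ℝ) * (((n / b : ℕ) : ℝ) + 1)) ^ 2 ≤ (k * (3 * Y)) ^ 2 := by
          refine pow_le_pow_left₀ (by positivity) ?_ 2
          refine mul_le_mul_of_nonneg_left ?_ (by linarith)
          linarith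
      _ = 9 * k ^ 2 * Y ^ 2 := by ring
  have hM1 : 1 ≤ M := by
    rw [hM]
    exact Nat.one_le_pow _ _ (Nat.mul_pos hk (Nat.succ_pos _))
  refine ⟨hb1, hM1, ?_, ?_⟩
  · have : Y ^ 2 = (n : ℝ) ^ (2 - 3 * γ / 2) := by
      rw [hY, ← Real.rpow_natCast, ← Real.rpow_mul hn0.le]
      congr 1
      push_cast
      ring
    rw [← this]
    exact hM9
  · have hMn : (M : ℝ) ≤ 9 * k ^ 2 * (n : ℝ) ^ 2 := by
      refine hM9.trans ?_
      refine mul_le_mul_of_nonneg_left ?_ (by positivity)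
      exact pow_le_pow_left₀ (by linarith) hYn 2
    have hbk : (b : ℝ) ^ k ≤ (n : ℝ) ^ (3 * γ / 4 * k) := by
      calc (b : ℝ) ^ k ≤ X ^ k := pow_le_pow_left₀ (by linarith) hbX k
        _ = (n : ℝ) ^ (3 * γ / 4 * k) := by
          rw [hX, ← Real.rpow_natCast, ← Real.rpow_mul hn0.le]
    have h3 : (n : ℝ) ^ 3 ≤ (n : ℝ) ^ (γ / 4 * k) := by
      rw [← Real.rpow_natCast]
      refine Real.rpow_le_rpow_of_exponent_le hn1 ?_
      push_cast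
      linarith
    have h4 : 10 * (9 * (k : ℝ) ^ 2 * (n : ℝ) ^ 2) ≤ (n : ℝ) ^ (γ / 4 * k) := by
      refine le_trans ?_ h3
      have : (0 : ℝ) ≤ (n : ℝ) ^ 2 := by positivity
      nlinarith
    calc 10 * ((b : ℝ) ^ k * M) = (b : ℝ) ^ k * (10 * M) := by ring
      _ ≤ (n : ℝ) ^ (3 * γ / 4 * k) * (n : ℝ) ^ (γ / 4 * k) := by
        refine mul_le_mul hbk ?_ (by positivity) (by positivity)
        refine le_trans ?_ h4
        linarith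
      _ = (n : ℝ) ^ (γ * k) := by
        rw [← Real.rpow_add hn0]
        congr 1
        ring

theorem log_small (n k : ℕ) (hk : 1 ≤ k) (hn : (90 * k ^ 2 : ℝ) ≤ n) :
    (k : ℝ) * Real.logb 2 n ≤ n / 2 := by
  have hkR : (1 : ℝ) ≤ k := by exact_mod_cast hk
  have hn1 : (1 : ℝ) ≤ n := by nlinarith
  have hn0 : (0 : ℝ) < n := by linarith
  have h1 : Real.log n ≤ 2 * (Real.sqrt n) := by
    have h2 := Real.log_le_sub_one_of_pos (Real.sqrt_pos.2 hn0)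
    rw [Real.log_sqrt hn0.le] at h2
    linarith
  have hl2 := Real.log_two_gt_d9
  have h3 : Real.logb 2 n ≤ 4 * Real.sqrt n := by
    unfold Real.logb
    rw [div_le_iff₀ (by linarith)]
    have : 0 ≤ Real.sqrt n := Real.sqrt_nonneg _
    nlinarith
  have h5 : Real.sqrt n * Real.sqrt n = n := Real.mul_self_sqrt hn0.le
  have h6 : 9 * (k : ℝ) ≤ Real.sqrt n := by
    refine Real.le_sqrt_of_sq_le ?_
    nlinarith
  have h7 : (k : ℝ) * Real.logb 2 n ≤ k * (4 * Real.sqrt n) :=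
    mul_le_mul_of_nonneg_left h3 (by linarith)
  nlinarith [Real.sqrt_nonneg (n : ℝ)]

theorem mem_small (γ : ℝ) (hγ1 : γ ≤ 1) (k n : ℕ) (M : ℝ) (hk : 1 ≤ k)
    (hn : (90 * k ^ 2 : ℝ) ≤ n) (hn' : (18 * k ^ 2 : ℝ) ≤ (n : ℝ) ^ (γ / 2))
    (hM : M ≤ 9 * k ^ 2 * (n : ℝ) ^ (2 - 3 * γ / 2)) :
    M + γ * k * Real.logb 2 n ≤ (n : ℝ) ^ (2 - γ) := by
  have hkR : (1 : ℝ) ≤ k := by exact_mod_cast hk
  have hn1 : (1 : ℝ) ≤ n := by nlinarith
  have hn0 : (0 : ℝ) < n := by linarith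
  have h1 : (n : ℝ) ^ (2 - γ) = (n : ℝ) ^ (γ / 2) * (n : ℝ) ^ (2 - 3 * γ / 2) := by
    rw [← Real.rpow_add hn0]
    congr 1
    ring
  have h2 : (n : ℝ) ≤ (n : ℝ) ^ (2 - γ) := by
    calc (n : ℝ) = (n : ℝ) ^ (1 : ℝ) := (Real.rpow_one _).symm
      _ ≤ (n : ℝ) ^ (2 - γ) := Real.rpow_le_rpow_of_exponent_le hn1 (by linarith)
  have h3 : 18 * k ^ 2 * (n : ℝ) ^ (2 - 3 * γ / 2) ≤ (n : ℝ) ^ (2 - γ) := by
    rw [h1]
    exact mul_le_mul_of_nonneg_right hn' (by positivity)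
  have h4 := log_small n k hk hn
  have h5 : 0 ≤ (k : ℝ) * Real.logb 2 n :=
    mul_nonneg (by linarith) (Real.logb_nonneg (by norm_num) hn1)
  have h6 : γ * k * Real.logb 2 n ≤ k * Real.logb 2 n := by
    rw [mul_assoc]
    nlinarith
  linarith

end CUDx

open CUDx in
/-- CUPD -/
theorem cupd : CUPD := by
  intro γ hγ hγ1
  refine ⟨⌈12 / γ⌉₊ + 1, fun k hk => ?_⟩
  have hk1 : 1 ≤ k := by omega
  have hk12 : 12 ≤ γ * k := by
    have h1 : 12 / γ ≤ (⌈12 / γ⌉₊ : ℝ) := Nat.le_ceil _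
    have h2 : ((⌈12 / γ⌉₊ : ℕ) : ℝ) ≤ k := by exact_mod_cast (by omega : ⌈12 / γ⌉₊ ≤ k)
    have h3 : 12 / γ ≤ k := h1.trans h2
    rw [div_le_iff₀ hγ] at h3
    linarith
  have t1 : ∀ᶠ n : ℕ in atTop, (18 * k ^ 2 : ℝ) ≤ (n : ℝ) ^ (γ / 2) :=
    ((tendsto_rpow_atTop (by positivity)).comp tendsto_natCast_atTop_atTop).eventually_ge_atTop _
  have t2 : ∀ᶠ n : ℕ in atTop, (90 * k ^ 2 : ℝ) ≤ (n : ℝ) :=
    tendsto_natCast_atTop_atTop.eventually_ge_atTop _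
  obtain ⟨n₀, h₀⟩ := eventually_atTop.1 (t1.and t2)
  refine ⟨n₀, fun n hn => ?_⟩
  obtain ⟨hn1, hn2⟩ := h₀ n hn
  have hkR : (1 : ℝ) ≤ k := by exact_mod_cast hk1
  have hnR : (1 : ℝ) ≤ n := by nlinarith
  have hnN : 1 ≤ n := by exact_mod_cast hnR
  set b : ℕ := ⌊(n : ℝ) ^ (3 * γ / 4)⌋₊ with hb
  set M : ℕ := (k * (n / b + 1)) ^ 2 with hM
  obtain ⟨hb1, hM1, hMs, hZ⟩ := sizes γ hγ hγ1 k n b M hk1 hk12 hn2 hb hM
  have hmem := mem_small γ hγ1 k n M hk1 hn2 hn1 hMs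
  set Z : ℕ := b ^ k * M with hZd
  have hZR : 10 * (Z : ℝ) ≤ (n : ℝ) ^ (γ * k) := by
    rw [hZd]
    push_cast
    exact hZ
  have hbk1 : 1 ≤ b ^ k := Nat.one_le_pow _ _ hb1
  have hL := clog_le (b ^ k) hbk1
  have hK := clog_le M hM1
  obtain ⟨N, C, out, hN, hS, hC⟩ := cubd k n b M (Nat.clog 2 (b ^ k)) (Nat.clog 2 M) hnN hb1 hM
    (Nat.le_pow_clog (by norm_num) _) (Nat.le_pow_clog (by norm_num) _)
  have hZ1 : b ^ k ≤ Z := Nat.le_mul_of_pos_right _ hM1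
  refine ⟨N, C, out, ?_, hS, fun G hG => ?_⟩
  · have h2M : 1 ≤ 2 ^ M := Nat.one_le_two_pow
    have h1 : N ≤ 2 ^ M * (10 * Z) := by
      refine hN.trans ?_
      have e1 : 2 ^ (Nat.clog 2 (b ^ k) + 1) ≤ 2 ^ M * (4 * Z) := by
        calc 2 ^ (Nat.clog 2 (b ^ k) + 1) = 2 ^ Nat.clog 2 (b ^ k) * 2 := pow_succ _ _
          _ ≤ 4 * Z := by omega
          _ ≤ 2 ^ M * (4 * Z) := Nat.le_mul_of_pos_left _ h2M
      have e2 : b ^ k * (M + 1) * 2 ^ M ≤ 2 ^ M * (2 * Z) := by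
        calc b ^ k * (M + 1) * 2 ^ M = 2 ^ M * (b ^ k * M + b ^ k) := by ring
          _ ≤ 2 ^ M * (2 * Z) := Nat.mul_le_mul_left _ (by omega)
      have e3 : b ^ k * 2 ^ M * 2 ^ (Nat.clog 2 M + 1) ≤ 2 ^ M * (4 * Z) := by
        calc b ^ k * 2 ^ M * 2 ^ (Nat.clog 2 M + 1)
            = 2 ^ M * (b ^ k * (2 ^ Nat.clog 2 M * 2)) := by ring
          _ ≤ 2 ^ M * (b ^ k * (4 * M)) :=
            Nat.mul_le_mul_left _ (Nat.mul_le_mul_left _ (by omega))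
          _ = 2 ^ M * (4 * Z) := by rw [hZd]; ring
      calc _ ≤ 2 ^ M * (4 * Z) + (2 ^ M * (2 * Z) + 2 ^ M * (4 * Z)) :=
            Nat.add_le_add e1 (Nat.add_le_add e2 e3)
        _ = 2 ^ M * (10 * Z) := by ring
    calc (N : ℝ) ≤ ((2 ^ M * (10 * Z) : ℕ) : ℝ) := by exact_mod_cast h1
      _ = 2 ^ (M : ℝ) * (10 * Z) := by
        push_cast
        rw [Real.rpow_natCast]
      _ ≤ 2 ^ (M : ℝ) * (n : ℝ) ^ (γ * k) := mul_le_mul_of_nonneg_left hZR (by positivity)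
      _ = 2 ^ (M : ℝ) * 2 ^ (γ * k * Real.logb 2 n) := by
        congr 1
        rw [mul_comm (γ * k) (Real.logb 2 n), Real.rpow_mul (by norm_num) (Real.logb 2 n),
          Real.rpow_logb (by norm_num) (by norm_num) (by linarith)]
      _ = 2 ^ ((M : ℝ) + γ * k * Real.logb 2 n) := (Real.rpow_add (by norm_num) _ _).symm
      _ ≤ 2 ^ ((n : ℝ) ^ (2 - γ)) := Real.rpow_le_rpow_of_exponent_le (by norm_num) hmem
  · obtain ⟨T, P, D, hP, hT, hPc, hD⟩ := hC G hG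
    have hLK : 2 ^ Nat.clog 2 (b ^ k) * 2 ^ Nat.clog 2 M ≤ 10 * Z := by
      calc 2 ^ Nat.clog 2 (b ^ k) * 2 ^ Nat.clog 2 M ≤ (2 * b ^ k) * (2 * M) :=
            Nat.mul_le_mul hL hK
        _ = 4 * Z := by rw [hZd]; ring
        _ ≤ 10 * Z := by omega
    have hPZ : #P ≤ 10 * Z := by
      refine hPc.trans ?_
      have e1 : 2 ^ (Nat.clog 2 (b ^ k) + 1) ≤ 4 * Z := by
        calc 2 ^ (Nat.clog 2 (b ^ k) + 1) = 2 ^ Nat.clog 2 (b ^ k) * 2 := pow_succ _ _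
          _ ≤ 4 * Z := by omega
      have e2 : b ^ k * (M + 1) ≤ 2 * Z := by
        calc b ^ k * (M + 1) = b ^ k * M + b ^ k := by ring
          _ ≤ 2 * Z := by omega
      have e3 : b ^ k * 2 ^ (Nat.clog 2 M + 1) ≤ 4 * Z := by
        calc b ^ k * 2 ^ (Nat.clog 2 M + 1) = b ^ k * (2 ^ Nat.clog 2 M * 2) := by ring
          _ ≤ b ^ k * (4 * M) := Nat.mul_le_mul_left _ (by omega)
          _ = 4 * Z := by rw [hZd]; ring
      omega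
    refine ⟨T, P, D, hP, ?_, ?_, ?_⟩
    · refine le_trans ?_ hZR
      exact_mod_cast hT.trans hLK
    · refine le_trans ?_ hZR
      exact_mod_cast hPZ
    · have h1 : (2 : ℝ) ^ (D : ℝ) ≤ (n : ℝ) ^ (γ * k) := by
        refine le_trans ?_ hZR
        rw [Real.rpow_natCast]
        have h2 : 2 ^ D ≤ 10 * Z := by
          calc 2 ^ D ≤ 2 ^ (Nat.clog 2 (b ^ k) + Nat.clog 2 M) :=
                Nat.pow_le_pow_right (by norm_num) hD
            _ = 2 ^ Nat.clog 2 (b ^ k) * 2 ^ Nat.clog 2 M := pow_add _ _ _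
            _ ≤ 10 * Z := hLK
        exact_mod_cast h2
      have h2 : Real.logb 2 ((2 : ℝ) ^ (D : ℝ)) ≤ Real.logb 2 ((n : ℝ) ^ (γ * k)) :=
        Real.logb_le_logb_of_le (by norm_num) (by positivity) h1
      rw [Real.logb_rpow (by norm_num) (by norm_num), Real.logb_rpow_eq_mul_logb_of_pos
        (by linarith)] at h2
      exact h2

end Pool.Agent.KCN
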