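import Mathlib

/-!
# Dag-like search for `k`-cliques (MP_678664_lc): the model
-/

set_option autoImplicit false

namespace Pool.Agent.KCN

/-- A dag-like search: `M` lines `W t`, each one of the sets in `V` of excluded `k`-tuples, with
ranks at most `D`, one of them is the set of all tuples. Each line `W t` is contained in the union
of at most two lines of smaller rank and of the set of tuples with `v i = a`, `v j = b`, for one
pair of non-adjacent (or equal) vertices `a, b` and positions `i ≠ j`. -/
def HasDag {n k : ℕ} (G : SimpleGraph (Fin n)) (V : Finset (Finset (Fin k → Fin n)))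
    (M D : ℕ) : Prop :=
  ∃ (W : Fin M → Finset (Fin k → Fin n)) (rank : Fin M → ℕ),
    (∀ t, W t ∈ V) ∧ (∀ t, rank t ≤ D) ∧ (∃ t, W t = Finset.univ) ∧
    ∀ t, ∃ J : Finset (Fin M), J.card ≤ 2 ∧ (∀ r ∈ J, rank r < rank t) ∧
      ∃ (i j : Fin k) (a b : Fin n), i ≠ j ∧ ¬ G.Adj a b ∧
        ∀ v ∈ W t, (∃ r ∈ J, v ∈ W r) ∨ (v i = a ∧ v j = b)

end Pool.Agent.KCN
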