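import Pool.Agent.Lib.KCM.K1
import Pool.Agent.Lib.KCM.Model

/-!
# k-clique search with memory below the size of the input (MP_678664_lc): definitions and rows

Part 1: random tables `g i : α → Fin m` on a spread set `S` of tuples `x : Fin k → α`.
Part 2: the public graph: a vertex is a function `a : ((positions) → Fin K) → Fin w`.
Part 3: the hidden pair tables, the graph, the derivations.
-/

set_option autoImplicit false

namespace Pool.Agent.KCN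

open Finset Pool.Agent.SL Pool.Agent.KCM

/-! ## Part 1 -/

section one

variable {k m : ℕ} {α : Type} [Fintype α] [DecidableEq α]

/-- `S` is spread with parameter `q` up to size `D` -/
def SSp (q D : ℕ) (S : Finset (Fin k → α)) : Prop :=
  ∀ T : Finset (Fin k), T.card ≤ D → ∀ a : Fin k → α,
    (S ∩ Fib T a).card * q ^ T.card ≤ S.card

/-- `p` is spread outside `T` with parameter `r`, up to total size `D` -/
def SpD (r D : ℕ) (T : Finset (Fin k)) (p : Finset (Fin k → α)) : Prop :=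
  ∀ B : Finset (Fin k), Disjoint B T → T.card + B.card ≤ D → ∀ a : Fin k → α,
    (p.filter (fun x => ∀ i ∈ B, x i = a i)).card * r ^ B.card ≤ p.card

/-- the kernel -/
noncomputable def Kr (D : ℕ) (g : Fin k → α → Fin m) (η : Fin k → Fin m) (x : Fin k → α) : ℝ :=
  ∑ A ∈ (univ : Finset (Finset (Fin k))).filter (fun A => A.card ≤ D), Qf g η A x

/-- main term of a piece -/
noncomputable def zv (g : Fin k → α → Fin m) (η : Fin k → Fin m) (T : Finset (Fin k))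
    (a : Fin k → α) : ℝ :=
  ∏ i ∈ T, ((m : ℝ) * (if g i (a i) = η i then 1 else 0))

end one

/-- P2: good tables (copy of `Lib/KCM/K2.lean`; the second event is a union over `S`) -/
def P2 : Prop :=
  ∀ (k m κ : ℕ) (α : Type) [Fintype α] [DecidableEq α], 1 ≤ m → 1 ≤ κ →
    ∀ (η : Fin k → Fin m) (Fam : Finset (Finset (Fin k → α))) (S : Finset (Fin k → α)),
      4 * (Fam.card * 2 ^ k) ≤ 4 ^ κ → 4 * S.card ≤ m ^ k →
      ∃ g : Fin k → α → Fin m,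
        (∀ p ∈ Fam, ∀ B : Finset (Fin k), (∑ x ∈ p, Qf g η B x) ^ 2 ≤
          4 * ((24 * (κ : ℝ) * (m : ℝ) ^ 2) ^ B.card * (Wp B p : ℝ))) ∧
        (∀ x ∈ S, ∃ i, g i (x i) ≠ η i)

/-- P3: partition into spread pieces (copy of `Lib/KCM/K3.lean`, candidates with `|T| ≤ D`,
nothing is left over) -/
def P3 : Prop :=
  ∀ (k D r : ℕ) (α : Type) [Fintype α] [DecidableEq α], 1 ≤ r →
    ∀ U : Finset (Fin k → α),
      ∃ P : Finset (Fin k) → (Fin k → α) → Finset (Fin k → α),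
        (∀ T a, P T a ⊆ U ∩ Fib T a) ∧
        (∀ f : (Fin k → α) → ℝ,
          ∑ x ∈ U, f x = ∑ T : Finset (Fin k), ∑ a : Fin k → α, ∑ x ∈ P T a, f x) ∧
        (∀ T a, SpD r D T (P T a)) ∧
        (∀ T a, (P T a).Nonempty → T.card ≤ D) ∧
        ∑ T : Finset (Fin k), ∑ a : Fin k → α,
          Real.sqrt ((P T a).card : ℝ) / Real.sqrt (r : ℝ) ^ T.card ≤
            2 * Real.sqrt (U.card : ℝ)

/-- P4: value of a piece (copy of `Lib/KCM/K4.lean`, without `avgJ`) -/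
def P4 : Prop :=
  ∀ (k m r q D : ℕ) (α : Type) [Fintype α] [DecidableEq α] (y : ℝ), 1 ≤ k → 1 ≤ m → 1 ≤ q →
    0 < y → Real.sqrt (r : ℝ) = 16 * k * y → (k : ℝ) * (y / Real.sqrt (q : ℝ)) ≤ 1 →
    ∀ (S : Finset (Fin k → α)) (g : Fin k → α → Fin m) (η : Fin k → Fin m)
      (T : Finset (Fin k)) (a : Fin k → α) (p : Finset (Fin k → α)),
      SSp q (2 * D) S → T.card ≤ D → p ⊆ S ∩ Fib T a → SpD r D T p →
      (∀ B : Finset (Fin k),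
        (∑ x ∈ p, Qf g η B x) ^ 2 ≤ 4 * ((y ^ 2) ^ B.card * (Wp B p : ℝ))) →
      |(∑ x ∈ p, Kr D g η x) - p.card * zv g η T a| ≤
        p.card * (zv g η T a / 2) +
          6 * (16 * (m + 1) * (k * (y / Real.sqrt (q : ℝ)))) ^ (D + 1) *
            (Real.sqrt (p.card : ℝ) / Real.sqrt (r : ℝ) ^ T.card) * Real.sqrt (S.card : ℝ)

/-- the error -/
noncomputable def Lam (k m κ q D : ℕ) : ℝ :=
  15 * (16 * (m + 1) * (k * (Real.sqrt (24 * (κ : ℝ) * (m : ℝ) ^ 2) / Real.sqrt (q : ℝ)))) ^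
    (D + 1)

/-- P5: the pseudo-measure (from P2, P3, P4) -/
def P5 : Prop :=
  ∀ (k m κ q D : ℕ) (α : Type) [Fintype α] [DecidableEq α], 1 ≤ k → 1 ≤ m → 1 ≤ κ → 1 ≤ q →
    1 ≤ D →
    ∀ (η : Fin k → Fin m) (S : Finset (Fin k → α)) (Fam : Finset (Finset (Fin k → α))),
      S.Nonempty → SSp q (2 * D) S → (∀ U ∈ Fam, U ⊆ S) →
      4 * ((Fam.card + 1) * (2 ^ k * Fintype.card (Fin k → α)) * 2 ^ k) ≤ 4 ^ κ →
      4 * S.card ≤ m ^ k →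
      Lam k m κ q D ≤ 1 / 4 →
      ∃ (g : Fin k → α → Fin m) (f : (Fin k → α) → ℝ),
        (∀ x ∈ S, ∃ i, g i (x i) ≠ η i) ∧
        (S.card : ℝ) / 4 ≤ ∑ x ∈ S, f x ∧
        (∀ U ∈ Fam, -(Lam k m κ q D * S.card) ≤ ∑ x ∈ U, f x) ∧
        (∀ U ∈ Fam, ∀ (i : Fin k) (v : α), (∀ x ∈ U, x i = v) → g i v ≠ η i →
          ∑ x ∈ U, f x ≤ Lam k m κ q D * S.card)

/-! ## Part 2: the public graph -/

/-- positions: `k' ` pairs -/
abbrev Pos (k' : ℕ) := Fin k' × Bool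

/-- vertices of one part -/
abbrev Vx (k' K w : ℕ) := (Pos k' → Fin K) → Fin w

/-- public compatibility of the vertices `a` at position `i` and `b` at position `j` -/
def Comp {k' K w : ℕ} (i j : Pos k') (a b : Vx k' K w) : Prop :=
  ∀ σ : Pos k' → Fin K, σ i = σ j → a σ = b σ

/-- the vertex at position `i` -/
def pr {k' K w : ℕ} (x : Fin k' → Vx k' K w × Vx k' K w) (i : Pos k') : Vx k' K w :=
  if i.2 then (x i.1).2 else (x i.1).1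

open Classical in
/-- the compatible tuples -/
noncomputable def SS (k' K w : ℕ) : Finset (Fin k' → Vx k' K w × Vx k' K w) :=
  univ.filter (fun x => ∀ i j : Pos k', Comp i j (pr x i) (pr x j))

/-- ST: size and spread of the set of compatible tuples -/
def ST : Prop :=
  ∀ (k' K w D q : ℕ), 1 ≤ k' → 1 ≤ K → 1 ≤ w → D ≤ K →
    q ≤ w ^ (2 * K ^ (2 * k' - 1) * (K - D)) →
    (SS k' K w).Nonempty ∧ (SS k' K w).card ≤ w ^ (K * K ^ (2 * k')) ∧ SSp q D (SS k' K w)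

/-! ## Part 3: the graph and the derivations -/

/-- GR: the map `φ` from tuples of pairs to `k`-tuples of vertices does not depend on the hidden
tables `g`; the graph has no `k`-clique, and a non-edge either meets no compatible tuple or fixes
one pair `x l = v` with `g l v ≠ η l`. -/
def GR : Prop :=
  ∀ (k' e n K w : ℕ), 1 ≤ k' → 1 ≤ K → 1 ≤ w → 2 * k' * w ^ (K ^ (2 * k')) + e ≤ n →
    ∃ φ : (Fin k' → Vx k' K w × Vx k' K w) → (Fin (2 * k' + e) → Fin n),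
      ∀ (m : ℕ) (g : Fin k' → Vx k' K w × Vx k' K w → Fin m) (η : Fin k' → Fin m),
        (∀ x ∈ SS k' K w, ∃ i, g i (x i) ≠ η i) →
        ∃ G : SimpleGraph (Fin n), G.CliqueFree (2 * k' + e) ∧
          ∀ (i j : Fin (2 * k' + e)) (u v : Fin n), i ≠ j → ¬ G.Adj u v →
            (∀ x ∈ SS k' K w, ¬ (φ x i = u ∧ φ x j = v)) ∨
            ∃ (l : Fin k') (c : Vx k' K w × Vx k' K w), g l c ≠ η l ∧
              ∀ x ∈ SS k' K w, φ x i = u → φ x j = v → x l = c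

open Classical in
/-- the part of `S` in `W₁` outside `W₂ \ W₃` -/
noncomputable def UU {k n : ℕ} {Ω : Type} (S : Finset Ω) (φ : Ω → (Fin k → Fin n))
    (W₁ W₂ W₃ : Finset (Fin k → Fin n)) : Finset Ω :=
  S.filter (fun x => φ x ∈ W₁ ∧ ¬ (φ x ∈ W₂ ∧ φ x ∉ W₃))

/-- ACC: the accounting along a derivation. Invariant: there is `W₀ ⊇ W` in `V ∪ {∅}` whose
value is at most `(4 T - 2) Λ` (`W₀ = ∅` if `T = 0`). -/
def ACC : Prop :=
  ∀ (k n : ℕ) (Ω : Type) (G : SimpleGraph (Fin n)) (V : Finset (Finset (Fin k → Fin n)))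
    (S : Finset Ω) (φ : Ω → (Fin k → Fin n)) (f : Ω → ℝ) (Λ : ℝ), 0 ≤ Λ →
    (∀ W₁ W₂ W₃ : Finset (Fin k → Fin n), (W₁ ∈ V ∨ W₁ = ∅) → (W₂ ∈ V ∨ W₂ = ∅) →
      (W₃ ∈ V ∨ W₃ = ∅) → -Λ ≤ ∑ x ∈ UU S φ W₁ W₂ W₃, f x) →
    (∀ W₁ W₂ : Finset (Fin k → Fin n), (W₁ ∈ V ∨ W₁ = ∅) → (W₂ ∈ V ∨ W₂ = ∅) →
      ∀ (i j : Fin k) (a b : Fin n), i ≠ j → ¬ G.Adj a b →
        (∀ x ∈ UU S φ W₁ W₂ ∅, φ x i = a ∧ φ x j = b) → ∑ x ∈ UU S φ W₁ W₂ ∅, f x ≤ Λ) →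
    ∀ (T : ℕ) (e : (Fin k → Fin n) → ℕ), Der G V univ T e → ∑ x ∈ S, f x ≤ 4 * T * Λ

/-- TB: the main theorem: memory `n ^ (2 - γ)` -/
def TB : Prop :=
  ∀ γ : ℝ, 0 < γ → ∃ c : ℝ, 0 < c ∧ ∃ k₀ : ℕ, ∀ k : ℕ, k₀ ≤ k → ∃ n₀ : ℕ, ∀ n : ℕ, n₀ ≤ n →
    ∀ V : Finset (Finset (Fin k → Fin n)), (V.card : ℝ) ≤ 2 ^ ((n : ℝ) ^ (2 - γ)) →
      ∃ G : SimpleGraph (Fin n), G.CliqueFree k ∧
        ∀ (T : ℕ) (e : (Fin k → Fin n) → ℕ), Der G V univ T e → (n : ℝ) ^ (c * k) ≤ T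

/-- PAR: the parameters. Proof: `j = ⌈12/γ⌉`, `K = ⌊k'/j⌋`, `D = ⌊K/(2j)⌋`, `w = w₁^j` with
`w₁` maximal, `M = K^(2k')`, `X = w₁^M` (so `w^M = X^j`, about `n/(2k')`), `m = 4 X`,
`q = X^(2(j-1))`, `κ = 4 ⌈n^(2-γ)⌉ `; then the base of `Lam` is at most `C X^(3 - jγ/2)`, at most
`C X^(-jγ/4)`, that is about `n^(-γ/4)`, and `D + 1 ≥ k/(10 j²)`. -/
def PAR : Prop :=
  ∀ γ : ℝ, 0 < γ → γ ≤ 1 → ∃ c : ℝ, 0 < c ∧ ∃ k₀ : ℕ, ∀ k' e : ℕ, k₀ ≤ k' → e ≤ 1 →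
    ∃ n₀ : ℕ, ∀ n : ℕ, n₀ ≤ n → ∃ K w D q m κ : ℕ,
      1 ≤ K ∧ 1 ≤ w ∧ 1 ≤ D ∧ 1 ≤ q ∧ 1 ≤ m ∧ 1 ≤ κ ∧ 2 * D ≤ K ∧
      2 * k' * w ^ (K ^ (2 * k')) + e ≤ n ∧
      q ≤ w ^ (2 * K ^ (2 * k' - 1) * (K - 2 * D)) ∧
      4 * w ^ (K * K ^ (2 * k')) ≤ m ^ k' ∧
      (∀ F : ℕ, (F : ℝ) ≤ ((2 : ℝ) ^ ((n : ℝ) ^ (2 - γ)) + 1) ^ 3 →
        4 * ((F + 1) * (2 ^ k' * (w ^ (K ^ (2 * k')) * w ^ (K ^ (2 * k'))) ^ k') * 2 ^ k') ≤
          4 ^ κ) ∧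
      Lam k' m κ q D ≤ 1 / 4 ∧
      16 * Lam k' m κ q D * (n : ℝ) ^ (c * (2 * k' + e)) ≤ 1

/-- UPN: with memory for the whole graph `k² n²` steps suffice -/
def UPN : Prop :=
  ∀ k n : ℕ, 2 ≤ k →
    ∃ V : Finset (Finset (Fin k → Fin n)),
      V.card ≤ 2 ^ (n * (n + 1) / 2) * (k ^ 2 * n ^ 2 + 1) ∧
      ∀ G : SimpleGraph (Fin n), G.CliqueFree k →
        ∃ (T : ℕ) (e : (Fin k → Fin n) → ℕ), Der G V univ T e ∧ (∀ v, e v ≤ 1) ∧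
          T ≤ k ^ 2 * n ^ 2

end Pool.Agent.KCN
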