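import Pool.Agent.Lib.KCN.Defs

/-!
# Gap form of the rows: graphs without a clique of size `(1/2 + ε) k`

The only change: the second event for the tables is `for all x ∈ S and all sets L of at least h
pairs some i ∈ L has g i (x i) ≠ η i`.
-/

set_option autoImplicit false

namespace Pool.Agent.KCN

open Finset Pool.Agent.SL Pool.Agent.KCM

/-- P2G: good tables, gap form. A clique on `L` already occurs on a subset of `L` of size `h`: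
at most `#S * 2 ^ k` events of probability `m ^ (-h)`. -/
def P2G : Prop :=
  ∀ (k m κ h : ℕ) (α : Type) [Fintype α] [DecidableEq α], 1 ≤ m → 1 ≤ κ →
    ∀ (η : Fin k → Fin m) (Fam : Finset (Finset (Fin k → α))) (S : Finset (Fin k → α)),
      4 * (Fam.card * 2 ^ k) ≤ 4 ^ κ → 4 * (S.card * 2 ^ k) ≤ m ^ h →
      ∃ g : Fin k → α → Fin m,
        (∀ p ∈ Fam, ∀ B : Finset (Fin k), (∑ x ∈ p, Qf g η B x) ^ 2 ≤
          4 * ((24 * (κ : ℝ) * (m : ℝ) ^ 2) ^ B.card * (Wp B p : ℝ))) ∧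
        (∀ x ∈ S, ∀ L : Finset (Fin k), h ≤ L.card → ∃ i ∈ L, g i (x i) ≠ η i)

/-- P5G: the pseudo-measure, gap form (from P2G, P3, P4) -/
def P5G : Prop :=
  ∀ (k m κ q D h : ℕ) (α : Type) [Fintype α] [DecidableEq α], 1 ≤ k → 1 ≤ m → 1 ≤ κ → 1 ≤ q →
    1 ≤ D →
    ∀ (η : Fin k → Fin m) (S : Finset (Fin k → α)) (Fam : Finset (Finset (Fin k → α))),
      S.Nonempty → SSp q (2 * D) S → (∀ U ∈ Fam, U ⊆ S) →
      4 * ((Fam.card + 1) * (2 ^ k * Fintype.card (Fin k → α)) * 2 ^ k) ≤ 4 ^ κ →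
      4 * (S.card * 2 ^ k) ≤ m ^ h →
      Lam k m κ q D ≤ 1 / 4 →
      ∃ (g : Fin k → α → Fin m) (f : (Fin k → α) → ℝ),
        (∀ x ∈ S, ∀ L : Finset (Fin k), h ≤ L.card → ∃ i ∈ L, g i (x i) ≠ η i) ∧
        (S.card : ℝ) / 4 ≤ ∑ x ∈ S, f x ∧
        (∀ U ∈ Fam, -(Lam k m κ q D * S.card) ≤ ∑ x ∈ U, f x) ∧
        (∀ U ∈ Fam, ∀ (i : Fin k) (v : α), (∀ x ∈ U, x i = v) → g i v ≠ η i →
          ∑ x ∈ U, f x ≤ Lam k m κ q D * S.card)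

/-- GRG: the graph, gap form. A clique with `k' + h + e` vertices meets at least `k' + h` parts,
so it contains both vertices of at least `h` pairs; extend it to a compatible tuple. -/
def GRG : Prop :=
  ∀ (k' e n K w : ℕ), 1 ≤ k' → 1 ≤ K → 1 ≤ w → 2 * k' * w ^ (K ^ (2 * k')) + e ≤ n →
    ∃ φ : (Fin k' → Vx k' K w × Vx k' K w) → (Fin (2 * k' + e) → Fin n),
      ∀ (m h : ℕ) (g : Fin k' → Vx k' K w × Vx k' K w → Fin m) (η : Fin k' → Fin m),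
        (∀ x ∈ SS k' K w, ∀ L : Finset (Fin k'), h ≤ L.card → ∃ i ∈ L, g i (x i) ≠ η i) →
        ∃ G : SimpleGraph (Fin n), G.CliqueFree (k' + h + e) ∧
          ∀ (i j : Fin (2 * k' + e)) (u v : Fin n), i ≠ j → ¬ G.Adj u v →
            (∀ x ∈ SS k' K w, ¬ (φ x i = u ∧ φ x j = v)) ∨
            ∃ (l : Fin k') (c : Vx k' K w × Vx k' K w), g l c ≠ η l ∧
              ∀ x ∈ SS k' K w, φ x i = u → φ x j = v → x l = c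

/-- PARG: the parameters, gap form: as PAR with `h` about `2 ε k'`, `K = ⌊h/j⌋` -/
def PARG : Prop :=
  ∀ γ ε : ℝ, 0 < γ → γ ≤ 1 → 0 < ε → ∃ c : ℝ, 0 < c ∧ ∃ k₀ : ℕ, ∀ k' e : ℕ, k₀ ≤ k' →
    e ≤ 1 → ∃ h : ℕ, (k' : ℝ) + h + e ≤ (1 / 2 + ε) * (2 * k' + e) ∧
    ∃ n₀ : ℕ, ∀ n : ℕ, n₀ ≤ n → ∃ K w D q m κ : ℕ,
      1 ≤ K ∧ 1 ≤ w ∧ 1 ≤ D ∧ 1 ≤ q ∧ 1 ≤ m ∧ 1 ≤ κ ∧ 2 * D ≤ K ∧
      2 * k' * w ^ (K ^ (2 * k')) + e ≤ n ∧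
      q ≤ w ^ (2 * K ^ (2 * k' - 1) * (K - 2 * D)) ∧
      4 * (w ^ (K * K ^ (2 * k')) * 2 ^ k') ≤ m ^ h ∧
      (∀ F : ℕ, (F : ℝ) ≤ ((2 : ℝ) ^ ((n : ℝ) ^ (2 - γ)) + 1) ^ 3 →
        4 * ((F + 1) * (2 ^ k' * (w ^ (K ^ (2 * k')) * w ^ (K ^ (2 * k'))) ^ k') * 2 ^ k') ≤
          4 ^ κ) ∧
      Lam k' m κ q D ≤ 1 / 4 ∧
      16 * Lam k' m κ q D * (n : ℝ) ^ (c * (2 * k' + e)) ≤ 1

/-- TBG: the main theorem, gap form -/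
def TBG : Prop :=
  ∀ γ ε : ℝ, 0 < γ → 0 < ε → ∃ c : ℝ, 0 < c ∧ ∃ k₀ : ℕ, ∀ k : ℕ, k₀ ≤ k →
    ∃ n₀ : ℕ, ∀ n : ℕ, n₀ ≤ n →
    ∀ V : Finset (Finset (Fin k → Fin n)), (V.card : ℝ) ≤ 2 ^ ((n : ℝ) ^ (2 - γ)) →
      ∃ G : SimpleGraph (Fin n), (∀ u : ℕ, (1 / 2 + ε) * k ≤ u → G.CliqueFree u) ∧
        ∀ (T : ℕ) (e : (Fin k → Fin n) → ℕ), Der G V univ T e → (n : ℝ) ^ (c * k) ≤ T

end Pool.Agent.KCN
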