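import Pool.Agent.Lib.KCN.Proofs

/-!
# Row CIA: small memory, circuit form of Theorem A (`Lib/KCM/K8.lean`, `lower`)
-/

set_option autoImplicit false

namespace Pool.Agent.KCN

/-- CIA: sound circuits with at most `2 ^ s` gates on complete `(u - 1)`-partite graphs. -/
def CIA : Prop :=
  ∃ B : ℕ, ∀ u k n s N : ℕ, 2 ≤ u → u ≤ k → n ≤ 2 ^ s → N ≤ 2 ^ s →
    ∀ C : Fin N → MGate n N,
      ∃ (G : SimpleGraph (Fin n)) (c : Fin n → Fin (u - 1)),
        (∀ a b, G.Adj a b ↔ c a ≠ c b) ∧ ∀ out : Fin N, Sound k C out →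
        ∀ (T : ℕ) (P : Finset (Fin N)) (D : ℕ), Proof C G out T P D →
          ((n : ℝ) / ((k : ℝ) ^ B * s)) ^ (u + 2) ≤ (T : ℝ) ^ 2

end Pool.Agent.KCN
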