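import Pool.Agent.Lib.KCN.PMD

/-!
# Rows for graphs without a clique of size `ε k`

`k' ` groups of `t` parts. The coordinate `x l` of the group `l` is a table of codewords
`Fin w × Fin w`, one for each `σ : groups → Fin K`; the vertex of `x` in the part `i` of the
group `l` is the table `σ ↦ cod i (x l σ)`; any two values `cod i c`, `cod i' c` determine `c`.
Public compatibility: vertices in equal parts `i` of different groups `l`, `l'` agree at every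
`σ` with `σ l = σ l'`. Inside a group two vertices determine the coordinate (hidden table `g l`).
-/

set_option autoImplicit false

namespace Pool.Agent.KCN

open Finset Pool.Agent.SL Pool.Agent.KCM

/-- tables of codewords -/
abbrev Cw (k' K w : ℕ) := (Fin k' → Fin K) → Fin w × Fin w

open Classical in
/-- the compatible tuples -/
noncomputable def SE (k' K w : ℕ) : Finset (Fin k' → Cw k' K w) :=
  univ.filter (fun x => ∀ (i j : Fin k') (σ : Fin k' → Fin K), σ i = σ j → x i σ = x j σ)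

/-- STE: size and spread of the set of compatible tuples -/
def STE : Prop :=
  ∀ (k' K w D q : ℕ), 1 ≤ k' → 1 ≤ K → 1 ≤ w → D ≤ K →
    q ≤ (w * w) ^ (K ^ (k' - 1) * (K - D)) →
    (SE k' K w).Nonempty ∧ (SE k' K w).card ≤ (w * w) ^ (K * K ^ k') ∧ SSp q D (SE k' K w)

/-- a code of length `t` in which two places determine the codeword -/
def Cod {t w : ℕ} (cod : Fin t → Fin w × Fin w → Fin w) : Prop :=
  ∀ (i i' : Fin t) (c c' : Fin w × Fin w), i ≠ i' → cod i c = cod i c' → cod i' c = cod i' c' →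
    c = c'

/-- MDS: such codes exist for powers of primes `p ≥ t` -/
def MDS : Prop :=
  ∀ t p j : ℕ, p.Prime → t ≤ p → ∃ cod : Fin t → Fin (p ^ j) × Fin (p ^ j) → Fin (p ^ j), Cod cod

/-- GRE: the graph. -/
def GRE : Prop :=
  ∀ (t k' e n K w : ℕ), 1 ≤ t → 1 ≤ k' → 1 ≤ K → 1 ≤ w → t * k' * w ^ (K ^ k') + e ≤ n →
    ∀ cod : Fin t → Fin w × Fin w → Fin w, Cod cod →
    ∃ φ : (Fin k' → Cw k' K w) → (Fin (t * k' + e) → Fin n),
      (∀ (x y : Fin k' → Cw k' K w) (i j : Fin (t * k' + e)), φ x i = φ y j → i = j) ∧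
      ∀ (m h : ℕ) (g : Fin k' → Cw k' K w → Fin m) (η : Fin k' → Fin m), 1 ≤ h →
        (∀ x ∈ SE k' K w, ∀ L : Finset (Fin k'), h ≤ L.card → ∃ i ∈ L, g i (x i) ≠ η i) →
        ∃ G : SimpleGraph (Fin n), G.CliqueFree (k' + t ^ 3 * h + e) ∧
          ∀ (i j : Fin (t * k' + e)) (u v : Fin n), i ≠ j → ¬ G.Adj u v →
            (∀ x ∈ SE k' K w, ¬ (φ x i = u ∧ φ x j = v)) ∨
            ∃ (l : Fin k') (c : Cw k' K w), g l c ≠ η l ∧
              ∀ x ∈ SE k' K w, φ x i = u → φ x j = v → x l = c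

/-- PARE: the parameters: as PARG with `w = p ^ j`, `p` a prime `≥ t`, `M = K ^ k'`, `X = p ^ M`,
`K = ⌊h / (2 j)⌋` -/
def PARE : Prop :=
  ∀ γ ε : ℝ, 0 < γ → γ ≤ 1 → 0 < ε → ∃ t : ℕ, 1 ≤ t ∧ ∃ c : ℝ, 0 < c ∧ ∃ k₀ : ℕ,
    ∀ k' e : ℕ, k₀ ≤ k' → e < t → ∃ h : ℕ, 1 ≤ h ∧
    (k' : ℝ) + t ^ 3 * h + e ≤ ε * (t * k' + e) ∧
    ∃ n₀ : ℕ, ∀ n : ℕ, n₀ ≤ n → ∃ K p j D q m κ : ℕ, p.Prime ∧ t ≤ p ∧
      1 ≤ K ∧ 1 ≤ D ∧ 1 ≤ q ∧ 1 ≤ m ∧ 1 ≤ κ ∧ 2 * D ≤ K ∧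
      t * k' * (p ^ j) ^ (K ^ k') + e ≤ n ∧
      q ≤ (p ^ j * p ^ j) ^ (K ^ (k' - 1) * (K - 2 * D)) ∧
      4 * ((p ^ j * p ^ j) ^ (K * K ^ k') * 2 ^ k') ≤ m ^ h ∧
      (∀ F : ℕ, (F : ℝ) ≤ (2 : ℝ) ^ ((n : ℝ) ^ (2 - γ)) →
        4 * ((F + 1) * (2 ^ k' * ((p ^ j * p ^ j) ^ (K ^ k')) ^ k') * 2 ^ k') ≤ 4 ^ κ) ∧
      Lam k' m κ q D ≤ 1 / 4 ∧
      16 * Lam k' m κ q D * (n : ℝ) ^ (c * (t * k' + e)) ≤ 1

end Pool.Agent.KCN
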