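import Pool.Agent.Lib.KCN.Proofs

/-!
# Upper side in the circuit model: rows CUB (the circuit) and CUP (the parameters)
-/

set_option autoImplicit false

namespace Pool.Agent.KCN

/-- CUB: `b` blocks of vertices (residues mod `b`), patterns `τ : Fin k → Fin b`; for a pattern
the non-edges between the at most `k * (n / b + 1)` vertices in its blocks are guessed. -/
def CUB : Prop :=
  ∀ k n b M : ℕ, 1 ≤ n → 1 ≤ b → M = (k * (n / b + 1)) ^ 2 →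
    ∃ (N : ℕ) (C : Fin N → MGate n N) (out : Fin N),
      N ≤ 2 * b ^ k * (M + 1) * 2 ^ M + b ^ k + 1 + n ^ 2 ∧
      Sound k C out ∧
      ∀ G : SimpleGraph (Fin n), G.CliqueFree k →
        ∃ (T : ℕ) (P : Finset (Fin N)) (D : ℕ), Proof C G out T P D ∧ T ≤ b ^ k * (M + 1) + 1

/-- CUP: memory `n ^ (2 - γ)` suffices for `n ^ (γ k)` leaves (`b = ⌊n ^ (3 γ / 4)⌋`) -/
def CUP : Prop :=
  ∀ γ : ℝ, 0 < γ → γ ≤ 1 → ∃ k₀ : ℕ, ∀ k : ℕ, k₀ ≤ k → ∃ n₀ : ℕ, ∀ n : ℕ, n₀ ≤ n →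
    ∃ (N : ℕ) (C : Fin N → MGate n N) (out : Fin N),
      (N : ℝ) ≤ 2 ^ ((n : ℝ) ^ (2 - γ)) ∧
      Sound k C out ∧
      ∀ G : SimpleGraph (Fin n), G.CliqueFree k →
        ∃ (T : ℕ) (P : Finset (Fin N)) (D : ℕ), Proof C G out T P D ∧ (T : ℝ) ≤ (n : ℝ) ^ (γ * k)

end Pool.Agent.KCN
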