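import Pool.Agent.Lib.KCN.CIA
import Pool.Agent.Lib.KCN.ToM
import Pool.Agent.Lib.KCN.AVG
import Pool.Agent.Lib.KCN.PME3D

/-!
# MP_678664_lc, row EIA: Theorem A for circuits which read some edges
-/

set_option autoImplicit false

namespace Pool.Agent.KCN

open Finset

namespace EIAx

variable {n N : ℕ}

open Classical in
/-- the set of edges of `z` -/
noncomputable def ES {e : ℕ} (z : Fin e → Option (Fin n × Fin n)) : Finset (Fin n × Fin n) :=
  univ.filter fun p => ∃ i, z i = some p

theorem exists_z (E : Finset (Fin n × Fin n)) (e : ℕ) (hE : E.card ≤ e) :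
    ∃ z : Fin e → Option (Fin n × Fin n), ES z = E := by
  classical
  refine ⟨fun i => E.toList[(i : ℕ)]?, ?_⟩
  ext p
  unfold ES
  rw [mem_filter]
  constructor
  · rintro ⟨-, i, hi⟩
    exact Finset.mem_toList.1 (List.mem_of_getElem? hi)
  · intro hp
    refine ⟨mem_univ _, ?_⟩
    obtain ⟨i, hi⟩ := List.mem_iff_getElem?.1 (Finset.mem_toList.2 hp)
    have h1 : i < E.toList.length := by
      by_contra h2
      rw [List.getElem?_eq_none (not_lt.1 h2)] at hi
      cases hi
    rw [Finset.length_toList] at h1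
    exact ⟨⟨i, by omega⟩, hi⟩

/-- the pairs which are read as edges are edges -/
theorem read_adj {C : Fin N → EGate n N} {G : SimpleGraph (Fin n)} {g : Fin N} {T : ℕ}
    {P : Finset (Fin N)} {D : ℕ} {E : Finset (Fin n × Fin n)} (h : EProof C G g T P D E) :
    ∀ p ∈ E, G.Adj p.1 p.2 := by
  induction h with
  | non g a b hg hab => intro p hp; exact absurd hp (notMem_empty p)
  | adj g a b hg hab =>
    intro p hp
    rw [mem_singleton] at hp
    rw [hp]
    exact hab
  | left g i j T P D F hg _ ih => exact ih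
  | right g i j T P D F hg _ ih => exact ih
  | and g i j T₁ T₂ P₁ P₂ D₁ D₂ F₁ F₂ hg _ _ ih₁ ih₂ =>
    intro p hp
    rcases mem_union.1 hp with h | h
    · exact ih₁ p h
    · exact ih₂ p h

end EIAx

open EIAx AVGx ToMx in
/-- **Row EIA**: Theorem A for circuits which read at most `e` edges. -/
theorem eia : EIA := by
  classical
  obtain ⟨B, hB⟩ := cia
  refine ⟨B + 2, fun u k n s e N hu huk hn hN C => ?_⟩
  set Z := Fin e → Option (Fin n × Fin n) with hZ
  set m : ℕ := Fintype.card Z with hm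
  let f : Fin m ≃ Z := (Fintype.equivFin Z).symm
  let Ns : Fin m → ℕ := fun _ => N
  let Cs : ∀ i : Fin m, Fin (Ns i) → MGate n (Ns i) := fun i => toM (ES (f i)) C
  set S : ℕ := (2 * s + 1) * e + s with hS
  have hm' : m ≤ 2 ^ ((2 * s + 1) * e) := by
    have h1 : m = (n * n + 1) ^ e := by
      rw [hm]
      change Fintype.card (Fin e → Option (Fin n × Fin n)) = _
      rw [Fintype.card_fun, Fintype.card_option, Fintype.card_prod, Fintype.card_fin,
        Fintype.card_fin]
    rw [h1, pow_mul]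
    refine Nat.pow_le_pow_left ?_ e
    have h2 : n * n ≤ 2 ^ (2 * s) := by
      calc n * n ≤ 2 ^ s * 2 ^ s := Nat.mul_le_mul hn hn
        _ = 2 ^ (2 * s) := by rw [← pow_add]; congr 1; ring
    have h3 : 1 ≤ 2 ^ (2 * s) := Nat.one_le_two_pow
    rw [pow_succ]
    omega
  have hN' : (∑ i, Ns i) ≤ 2 ^ S := by
    have h1 : (∑ i, Ns i) = m * N := by
      simp [Ns]
    rw [h1, hS, pow_add]
    exact Nat.mul_le_mul hm' hN
  have hn' : n ≤ 2 ^ S := hn.trans (Nat.pow_le_pow_right (by norm_num) (by omega))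
  obtain ⟨G, c, hG, h⟩ := hB u k n S (∑ i, Ns i) hu huk hn' hN' (UC Ns Cs)
  refine ⟨G, c, hG, fun out hC T P D E hp hE => ?_⟩
  obtain ⟨z, hz⟩ := exists_z E e hE
  have hfz : ES (f (f.symm z)) = E := by
    rw [Equiv.apply_symm_apply, hz]
  have hsound : Sound k (UC Ns Cs) (nam Ns (f.symm z) out) := by
    intro H hH T' P' D' hp'
    obtain ⟨P'', hp''⟩ := down Ns Cs hp' (f.symm z) out rfl
    obtain ⟨T₃, P₃, D₃, F₃, hp₃⟩ := backward hp''
    refine hC _ ?_ _ _ _ _ hp₃
    intro hfree
    exact hH (SimpleGraph.CliqueFree.anti le_sup_left hfree)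
  have hpf : Proof (toM (ES (f (f.symm z))) C) G out T P D := by
    rw [hfz]
    exact forward (fun p hp' _ => read_adj hp p hp') hp (Finset.Subset.refl _)
  have hup := up Ns Cs (i := f.symm z) hpf
  have hmain := h _ hsound T _ D hup
  refine le_trans ?_ hmain
  refine pow_le_pow_left₀ (by positivity) ?_ _
  have hk2 : (2 : ℝ) ≤ k := by
    have : 2 ≤ k := hu.trans huk
    exact_mod_cast this
  rcases Nat.eq_zero_or_pos s with h0 | h0
  · rw [h0]
    simp only [Nat.cast_zero, mul_zero, zero_mul, div_zero]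
    positivity
  · have hs1 : (1 : ℝ) ≤ s := by exact_mod_cast h0
    have hk0 : (0 : ℝ) < k := by linarith
    have he0 : (0 : ℝ) ≤ e := Nat.cast_nonneg e
    have hS0 : (0 : ℝ) < S := by
      rw [hS]
      push_cast
      nlinarith [mul_nonneg (by linarith : (0 : ℝ) ≤ 2 * s + 1) he0]
    have hSle : (S : ℝ) ≤ (k : ℝ) ^ 2 * (s * (e + 1)) := by
      have h1 : (S : ℝ) ≤ 3 * (s * (e + 1)) := by
        rw [hS]
        push_cast
        nlinarith [mul_nonneg (by linarith : (0 : ℝ) ≤ s - 1) he0]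
      have h2 : (3 : ℝ) ≤ (k : ℝ) ^ 2 := by nlinarith
      have h3 : (0 : ℝ) ≤ s * (e + 1) := by positivity
      nlinarith
    have h4 : (k : ℝ) ^ B * S ≤ (k : ℝ) ^ (B + 2) * s * (e + 1) := by
      have h5 : (k : ℝ) ^ (B + 2) * s * (e + 1) = (k : ℝ) ^ B * ((k : ℝ) ^ 2 * (s * (e + 1))) := by
        rw [pow_add]
        ring
      rw [h5]
      exact mul_le_mul_of_nonneg_left hSle (by positivity)
    exact div_le_div_of_nonneg_left (Nat.cast_nonneg n) (by positivity) h4

end Pool.Agent.KCN
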