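import Pool.Agent.Lib.KCN.CUPD
import Pool.Agent.Lib.KCN.PME3D

/-!
# Row EUP: upper side for circuits which may read edges
-/

set_option autoImplicit false

namespace Pool.Agent.KCN

namespace EUPx

variable {n N : ℕ}

/-- a monotone gate as a gate which may read edges -/
def em : MGate n N → EGate n N
  | MGate.input a b => EGate.non a b
  | MGate.or i j => EGate.or i j
  | MGate.and i j => EGate.and i j

theorem fwd {C : Fin N → MGate n N} {G : SimpleGraph (Fin n)} {g : Fin N} {T : ℕ}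
    {P : Finset (Fin N)} {D : ℕ} (h : Proof C G g T P D) :
    EProof (fun x => em (C x)) G g T P D ∅ := by
  induction h with
  | leaf g a b h1 h2 => exact EProof.non g a b (by simp only [h1, em]) h2
  | left g i j T P D h1 _ ih => exact EProof.left g i j T P D ∅ (by simp only [h1, em]) ih
  | right g i j T P D h1 _ ih => exact EProof.right g i j T P D ∅ (by simp only [h1, em]) ih
  | and g i j T₁ T₂ P₁ P₂ D₁ D₂ h1 _ _ ih1 ih2 =>
    have h3 := EProof.and g i j T₁ T₂ P₁ P₂ D₁ D₂ ∅ ∅ (by simp only [h1, em]) ih1 ih2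
    rw [Finset.empty_union] at h3
    exact h3

theorem bwd {C : Fin N → MGate n N} {G : SimpleGraph (Fin n)} {g : Fin N} {T : ℕ}
    {P : Finset (Fin N)} {D : ℕ} {E : Finset (Fin n × Fin n)}
    (h : EProof (fun x => em (C x)) G g T P D E) : Proof C G g T P D := by
  induction h with
  | non g a b h1 h2 =>
    rcases hg : C g with ⟨a', b'⟩ | ⟨i, j⟩ | ⟨i, j⟩
    · simp only [hg, em, EGate.non.injEq] at h1
      exact Proof.leaf g a' b' hg (by rw [h1.1, h1.2]; exact h2)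
    · simp [hg, em] at h1
    · simp [hg, em] at h1
  | adj g a b h1 h2 =>
    rcases hg : C g with ⟨a', b'⟩ | ⟨i, j⟩ | ⟨i, j⟩ <;> simp [hg, em] at h1
  | left g i j T P D E h1 _ ih =>
    rcases hg : C g with ⟨a', b'⟩ | ⟨i', j'⟩ | ⟨i', j'⟩
    · simp [hg, em] at h1
    · simp only [hg, em, EGate.or.injEq] at h1
      exact Proof.left g i' j' T P D hg (by rw [h1.1]; exact ih)
    · simp [hg, em] at h1
  | right g i j T P D E h1 _ ih =>
    rcases hg : C g with ⟨a', b'⟩ | ⟨i', j'⟩ | ⟨i', j'⟩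
    · simp [hg, em] at h1
    · simp only [hg, em, EGate.or.injEq] at h1
      exact Proof.right g i' j' T P D hg (by rw [h1.2]; exact ih)
    · simp [hg, em] at h1
  | and g i j T₁ T₂ P₁ P₂ D₁ D₂ E₁ E₂ h1 _ _ ih1 ih2 =>
    rcases hg : C g with ⟨a', b'⟩ | ⟨i', j'⟩ | ⟨i', j'⟩
    · simp [hg, em] at h1
    · simp [hg, em] at h1
    · simp only [hg, em, EGate.and.injEq] at h1
      exact Proof.and g i' j' T₁ T₂ P₁ P₂ D₁ D₂ hg (by rw [h1.1]; exact ih1)
        (by rw [h1.2]; exact ih2)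

end EUPx

/-- **Row EUP.** -/
theorem eup (h : CUPD) : EUP := by
  intro γ hγ hγ1
  obtain ⟨k₀, hk₀⟩ := h γ hγ hγ1
  refine ⟨k₀, fun k hk => ?_⟩
  obtain ⟨n₀, hn₀⟩ := hk₀ k hk
  refine ⟨n₀, fun n hn => ?_⟩
  obtain ⟨N, C, out, hN, hs, hG⟩ := hn₀ n hn
  refine ⟨N, fun x => EUPx.em (C x), out, hN, ?_, ?_⟩
  · intro H hH T P D E hp
    exact hs H hH T P D (EUPx.bwd hp)
  · intro G hGf
    obtain ⟨T, P, D, hp, h1, h2, h3⟩ := hG G hGf
    exact ⟨T, P, D, EUPx.fwd hp, h1, h2, h3⟩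

end Pool.Agent.KCN
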