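import Pool.Agent.Lib.KCN.Defs

/-!
# Theorem B (MP_678664_lc), row GR: the graph
-/

set_option autoImplicit false

namespace Pool.Agent.KCN

open Finset Pool.Agent.SL Pool.Agent.KCM

namespace GRx

/-- abstract vertices -/
abbrev Vert (k' K w e : ℕ) := (Pos k' × Vx k' K w) ⊕ Fin e

/-- abstract positions -/
abbrev Ps (k' e : ℕ) := Pos k' ⊕ Fin e

theorem comp_symm {k' K w : ℕ} {i j : Pos k'} {a b : Vx k' K w} (h : Comp i j a b) :
    Comp j i b a := fun σ hσ => (h σ hσ.symm).symm

section

variable {k' K w e m : ℕ} (g : Fin k' → Vx k' K w × Vx k' K w → Fin m) (η : Fin k' → Fin m)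

/-- adjacency -/
def HA : Vert k' K w e → Vert k' K w e → Prop
  | Sum.inl (p, a), Sum.inl (p', b) => p ≠ p' ∧ Comp p p' a b ∧
      ∀ l : Fin k', (p = (l, false) → p' = (l, true) → g l (a, b) = η l) ∧
        (p = (l, true) → p' = (l, false) → g l (b, a) = η l)
  | Sum.inl _, Sum.inr _ => True
  | Sum.inr _, Sum.inl _ => True
  | Sum.inr t, Sum.inr t' => t ≠ t'

theorem HA_symm (u v : Vert k' K w e) (h : HA g η u v) : HA g η v u := by
  rcases u with ⟨p, a⟩ | t <;> rcases v with ⟨p', b⟩ | t'
  · obtain ⟨h1, h2, h3⟩ := h
    exact ⟨h1.symm, comp_symm h2, fun l => ⟨fun e1 e2 => (h3 l).2 e2 e1,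
      fun e1 e2 => (h3 l).1 e2 e1⟩⟩
  · trivial
  · trivial
  · exact Ne.symm h

theorem HA_irrefl (u : Vert k' K w e) : ¬ HA g η u u := by
  rcases u with ⟨p, a⟩ | t
  · exact fun h => h.1 rfl
  · exact fun h => h rfl

/-- the graph on the abstract vertices -/
def H : SimpleGraph (Vert k' K w e) where
  Adj := HA g η
  symm := ⟨fun u v h => HA_symm g η u v h⟩
  loopless := ⟨fun u h => HA_irrefl g η u h⟩

/-- the part of a vertex -/
def col : Vert k' K w e → Ps k' e
  | Sum.inl (p, _) => Sum.inl p
  | Sum.inr t => Sum.inr t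

theorem col_ne {u v : Vert k' K w e} (h : HA g η u v) : col u ≠ col v := by
  rcases u with ⟨p, a⟩ | t <;> rcases v with ⟨p', b⟩ | t'
  · intro hc
    exact h.1 (Sum.inl.inj hc)
  · intro hc
    simp [col] at hc
  · intro hc
    simp [col] at hc
  · intro hc
    exact h (Sum.inr.inj hc)

theorem H_free (hS : ∀ x ∈ SS k' K w, ∃ i, g i (x i) ≠ η i) :
    (H (e := e) g η).CliqueFree (2 * k' + e) := by
  classical
  intro s hs
  have hinj : Set.InjOn col (s : Set (Vert k' K w e)) := by
    intro u hu v hv huv
    by_contra hne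
    exact col_ne g η (hs.isClique hu hv hne) huv
  have hcard : (s.image col).card = Fintype.card (Ps k' e) := by
    rw [card_image_of_injOn hinj, hs.card_eq]
    simp [mul_comm]
  have huniv : s.image col = univ := (card_eq_iff_eq_univ _).1 hcard
  have hex : ∀ p : Pos k', ∃ a : Vx k' K w, (Sum.inl (p, a) : Vert k' K w e) ∈ s := by
    intro p
    have : (Sum.inl p : Ps k' e) ∈ s.image col := by rw [huniv]; exact mem_univ _
    obtain ⟨u, hu, hc⟩ := mem_image.1 this
    rcases u with ⟨p', a⟩ | t
    · have : p' = p := Sum.inl.inj hc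
      subst this
      exact ⟨a, hu⟩
    · simp [col] at hc
  choose a ha using hex
  set x : Fin k' → Vx k' K w × Vx k' K w := fun l => (a (l, false), a (l, true)) with hx
  have hpr : ∀ p : Pos k', pr x p = a p := by
    rintro ⟨l, b⟩
    cases b
    · simp [pr, hx]
    · simp [pr, hx]
  have hadj : ∀ p p' : Pos k', p ≠ p' → HA (e := e) g η (Sum.inl (p, a p)) (Sum.inl (p', a p')) := by
    intro p p' hpp
    refine hs.isClique (ha p) (ha p') fun h => hpp ?_
    exact (Prod.mk.inj (Sum.inl.inj h)).1
  have hxS : x ∈ SS k' K w := by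
    unfold SS
    rw [mem_filter]
    refine ⟨mem_univ _, fun i j => ?_⟩
    rw [hpr, hpr]
    by_cases hij : i = j
    · subst hij
      exact fun _ _ => rfl
    · exact (hadj i j hij).2.1
  obtain ⟨l, hl⟩ := hS x hxS
  refine hl ?_
  exact ((hadj (l, false) (l, true) (by simp)).2.2 l).1 rfl rfl

end

/-- the vertex at an abstract position -/
def vt {k' K w e : ℕ} (x : Fin k' → Vx k' K w × Vx k' K w) : Ps k' e → Vert k' K w e
  | Sum.inl p => Sum.inl (p, pr x p)
  | Sum.inr t => Sum.inr t

theorem pr_eq {k' K w : ℕ} {x y : Fin k' → Vx k' K w × Vx k' K w} {l : Fin k'}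
    (h1 : pr x (l, false) = pr y (l, false)) (h2 : pr x (l, true) = pr y (l, true)) :
    x l = y l := by
  refine Prod.ext ?_ ?_
  · simpa [pr] using h1
  · simpa [pr] using h2

end GRx

open GRx in
theorem gr : GR := by
  classical
  intro k' e n K w hk' hK hw hn
  have hcV : Fintype.card (Vert k' K w e) ≤ Fintype.card (Fin n) := by
    rw [Fintype.card_fin]
    refine le_trans (le_of_eq ?_) hn
    rw [Fintype.card_sum, Fintype.card_prod, Fintype.card_prod, Fintype.card_fun,
      Fintype.card_fun, Fintype.card_prod, Fintype.card_bool]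
    simp only [Fintype.card_fin]
    rw [mul_comm k' 2]
  obtain ⟨ι⟩ := Function.Embedding.nonempty_of_card_le hcV
  have hcP : Fintype.card (Fin (2 * k' + e)) = Fintype.card (Ps k' e) := by
    simp [mul_comm]
  obtain ⟨π⟩ := Fintype.card_eq.1 hcP
  refine ⟨fun x i => ι (vt x (π i)), ?_⟩
  intro m g η hS
  have : Nonempty (Vert k' K w e) :=
    ⟨Sum.inl ((⟨0, hk'⟩, false), fun _ => ⟨0, hw⟩)⟩
  refine ⟨(H (e := e) g η).map ι, ?_, ?_⟩
  · rw [SimpleGraph.cliqueFree_map_iff]
    exact H_free g η hS
  · intro i j u v hij hadj
    by_cases hex : ∃ x ∈ SS k' K w, ι (vt x (π i)) = u ∧ ι (vt x (π j)) = v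
    · right
      obtain ⟨x, hx, hu, hv⟩ := hex
      have hnot : ¬ HA g η (vt x (π i)) (vt x (π j)) := by
        intro h
        refine hadj ?_
        rw [← hu, ← hv, SimpleGraph.map_adj_apply]
        exact h
      have hne : π i ≠ π j := fun h => hij (π.injective h)
      have hcomp : ∀ i j : Pos k', Comp i j (pr x i) (pr x j) := by
        unfold SS at hx
        exact (mem_filter.1 hx).2
      rcases hi : π i with p | t
      · rcases hj : π j with p' | t'
        · rw [hi, hj] at hnot hne
          have hpp : p ≠ p' := fun h => hne (by rw [h])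
          have h1 : ¬ ∀ l : Fin k', (p = (l, false) → p' = (l, true) →
              g l (pr x p, pr x p') = η l) ∧
              (p = (l, true) → p' = (l, false) → g l (pr x p', pr x p) = η l) :=
            fun h => hnot ⟨hpp, hcomp p p', h⟩
          push Not at h1
          obtain ⟨l, hl⟩ := h1
          have key : ∀ y : Fin k' → Vx k' K w × Vx k' K w,
              ι (vt (e := e) y (Sum.inl p)) = u → ι (vt (e := e) y (Sum.inl p')) = v →
              pr y p = pr x p ∧ pr y p' = pr x p' := by
            intro y hyu hyv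
            rw [← hu, hi] at hyu
            rw [← hv, hj] at hyv
            have a1 := ι.injective hyu
            have a2 := ι.injective hyv
            exact ⟨(Prod.mk.inj (Sum.inl.inj a1)).2, (Prod.mk.inj (Sum.inl.inj a2)).2⟩
          by_cases hc : (p = (l, false) → p' = (l, true) → g l (pr x p, pr x p') = η l)
          · obtain ⟨e1, e2, e3⟩ := hl hc
            subst e1 e2
            refine ⟨l, x l, ?_, fun y _ hyu hyv => ?_⟩
            · have : (pr x (l, false), pr x (l, true)) = x l := by simp [pr]
              rw [← this]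
              exact e3
            · simp only at hyu hyv
              rw [hi] at hyu
              rw [hj] at hyv
              obtain ⟨b1, b2⟩ := key y hyu hyv
              exact pr_eq b2 b1
          · push Not at hc
            obtain ⟨e1, e2, e3⟩ := hc
            subst e1 e2
            refine ⟨l, x l, ?_, fun y _ hyu hyv => ?_⟩
            · have : (pr x (l, false), pr x (l, true)) = x l := by simp [pr]
              rw [← this]
              exact e3
            · simp only at hyu hyv
              rw [hi] at hyu
              rw [hj] at hyv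
              obtain ⟨b1, b2⟩ := key y hyu hyv
              exact pr_eq b1 b2
        · rw [hi, hj] at hnot
          exact absurd trivial hnot
      · rcases hj : π j with p' | t'
        · rw [hi, hj] at hnot
          exact absurd trivial hnot
        · rw [hi, hj] at hnot hne
          refine absurd ?_ hnot
          intro h
          exact hne (by rw [h])
    · left
      intro x hx h
      exact hex ⟨x, hx, h⟩

end Pool.Agent.KCN
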