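import Pool.Agent.Lib.KCN.DefsE

/-!
# Theorem B (MP_678664_lc), row GRE: graphs without a clique of size `ε k` (helper87)
-/

set_option autoImplicit false

namespace Pool.Agent.KCN

open Finset Pool.Agent.SL Pool.Agent.KCM

namespace GREx

/-- tables of symbols: the vertices of one part -/
abbrev Tb (k' K w : ℕ) := (Fin k' → Fin K) → Fin w

/-- parts: groups times places, and the extra vertices -/
abbrev Pe (t k' e : ℕ) := (Fin k' × Fin t) ⊕ Fin e

/-- vertices -/
abbrev Ve (t k' K w e : ℕ) := ((Fin k' × Fin t) × Tb k' K w) ⊕ Fin e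

/-- the part of a vertex -/
def cole {t k' K w e : ℕ} : Ve t k' K w e → Pe t k' e
  | Sum.inl (p, _) => Sum.inl p
  | Sum.inr s => Sum.inr s

/-- the vertex of the tuple `x` in a part -/
def ve {t k' K w e : ℕ} (cod : Fin t → Fin w × Fin w → Fin w) (x : Fin k' → Cw k' K w) :
    Pe t k' e → Ve t k' K w e
  | Sum.inl p => Sum.inl (p, fun σ => cod p.2 (x p.1 σ))
  | Sum.inr s => Sum.inr s

theorem col_ve {t k' K w e : ℕ} (cod : Fin t → Fin w × Fin w → Fin w) (x : Fin k' → Cw k' K w)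
    (q : Pe t k' e) : cole (ve cod x q) = q := by
  rcases q with p | s
  · rfl
  · rfl

section

variable {t k' K w e m : ℕ} (cod : Fin t → Fin w × Fin w → Fin w)
  (g : Fin k' → Cw k' K w → Fin m) (η : Fin k' → Fin m)

/-- adjacency -/
def HE : Ve t k' K w e → Ve t k' K w e → Prop
  | Sum.inl (p, a), Sum.inl (p', b) => p ≠ p' ∧
      (p.1 = p'.1 → ∃ c : Cw k' K w, (∀ σ, cod p.2 (c σ) = a σ) ∧ (∀ σ, cod p'.2 (c σ) = b σ) ∧
        g p.1 c = η p.1) ∧
      (p.2 = p'.2 → ∀ σ : Fin k' → Fin K, σ p.1 = σ p'.1 → a σ = b σ)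
  | Sum.inl _, Sum.inr _ => True
  | Sum.inr _, Sum.inl _ => True
  | Sum.inr s, Sum.inr s' => s ≠ s'

theorem HE_symm : ∀ u v : Ve t k' K w e, HE cod g η u v → HE cod g η v u := by
  rintro (⟨p, a⟩ | s) (⟨p', b⟩ | s') h
  · obtain ⟨h1, h2, h3⟩ := h
    refine ⟨fun h => h1 h.symm, fun h => ?_, fun h σ hσ => (h3 h.symm σ hσ.symm).symm⟩
    obtain ⟨c, c1, c2, c3⟩ := h2 h.symm
    refine ⟨c, c2, c1, ?_⟩
    rw [h]
    exact c3
  · trivial
  · trivial
  · exact fun h' => h h'.symm

theorem HE_irrefl : ∀ u : Ve t k' K w e, ¬ HE cod g η u u := by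
  rintro (⟨p, a⟩ | s) h
  · exact h.1 rfl
  · exact h rfl

/-- the graph -/
def GE : SimpleGraph (Ve t k' K w e) where
  Adj := HE cod g η
  symm := ⟨fun u v h => HE_symm cod g η u v h⟩
  loopless := ⟨fun u h => HE_irrefl cod g η u h⟩

theorem cole_ne {u v : Ve t k' K w e} (h : HE cod g η u v) : cole u ≠ cole v := by
  rcases u with ⟨p, a⟩ | s
  · rcases v with ⟨p', b⟩ | s'
    · exact fun h' => h.1 (Sum.inl.inj h')
    · simp [cole]
  · rcases v with ⟨p', b⟩ | s'
    · simp [cole]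
    · exact fun h' => h (Sum.inr.inj h')

theorem GE_free {h : ℕ} (ht : 1 ≤ t) (hw : 1 ≤ w) (hcod : Cod cod)
    (hS : ∀ x ∈ SE k' K w, ∀ L : Finset (Fin k'), h ≤ L.card → ∃ i ∈ L, g i (x i) ≠ η i) :
    (GE (e := e) cod g η).CliqueFree (k' + t ^ 3 * h + e) := by
  classical
  intro s hs
  have hinj : Set.InjOn cole (s : Set (Ve t k' K w e)) := by
    intro u hu v hv huv
    by_contra hne
    exact cole_ne cod g η (hs.isClique hu hv hne) huv
  have hcard : (s.image cole).card = k' + t ^ 3 * h + e := by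
    rw [card_image_of_injOn hinj, hs.card_eq]
  set P : Finset (Fin k' × Fin t) :=
    univ.filter fun p => (Sum.inl p : Pe t k' e) ∈ s.image cole with hP
  have hPcard : k' + t ^ 3 * h ≤ P.card := by
    have h1 : s.image cole ⊆ P.image (Sum.inl : Fin k' × Fin t → Pe t k' e) ∪
        (univ : Finset (Fin e)).image (Sum.inr : Fin e → Pe t k' e) := by
      intro q hq
      rcases q with p | r
      · exact mem_union_left _ (mem_image_of_mem _ (mem_filter.2 ⟨mem_univ _, hq⟩))
      · exact mem_union_right _ (mem_image_of_mem _ (mem_univ _))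
    have h2 := (card_le_card h1).trans (card_union_le _ _)
    have h3 : (P.image (Sum.inl : Fin k' × Fin t → Pe t k' e)).card ≤ P.card := card_image_le
    have h4 : ((univ : Finset (Fin e)).image (Sum.inr : Fin e → Pe t k' e)).card ≤ e := by
      refine card_image_le.trans (le_of_eq ?_)
      rw [card_univ, Fintype.card_fin]
    omega
  -- groups which are hit twice
  set B : Finset (Fin k') := univ.filter fun l => 1 < (P.filter fun p => p.1 = l).card with hB
  have hBcard : t ^ 2 * h ≤ B.card := by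
    have h1 : P.card = ∑ l : Fin k', (P.filter fun p => p.1 = l).card :=
      card_eq_sum_card_fiberwise fun p _ => mem_univ p.1
    have h2 : ∀ l : Fin k', (P.filter fun p => p.1 = l).card ≤ 1 + (if l ∈ B then t else 0) := by
      intro l
      by_cases hl : l ∈ B
      · rw [if_pos hl]
        have h3 : (P.filter fun p => p.1 = l) ⊆ (univ : Finset (Fin t)).image fun i => (l, i) := by
          rintro ⟨l', i⟩ hp
          have h4 : l' = l := (mem_filter.1 hp).2
          subst h4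
          exact mem_image_of_mem _ (mem_univ _)
        have h5 := (card_le_card h3).trans card_image_le
        rw [card_univ, Fintype.card_fin] at h5
        omega
      · rw [if_neg hl]
        have h3 : ¬ 1 < (P.filter fun p => p.1 = l).card := fun h4 =>
          hl (mem_filter.2 ⟨mem_univ _, h4⟩)
        omega
    have h3 : P.card ≤ k' + t * B.card := by
      rw [h1]
      refine (sum_le_sum fun l _ => h2 l).trans ?_
      rw [sum_add_distrib, sum_const, card_univ, Fintype.card_fin, smul_eq_mul, mul_one,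
        ← sum_filter, sum_const, smul_eq_mul]
      have h4 : (univ.filter fun l => l ∈ B) = B := by
        ext l
        simp
      rw [h4, mul_comm]
    have h4 : t * (t ^ 2 * h) ≤ t * B.card := by
      have h5 : t * (t ^ 2 * h) = t ^ 3 * h := by ring
      rw [h5]
      omega
    exact Nat.le_of_mul_le_mul_left h4 ht
  have hpair : ∀ l : Fin k', ∃ ii : Fin t × Fin t, l ∈ B →
      ii.1 ≠ ii.2 ∧ (l, ii.1) ∈ P ∧ (l, ii.2) ∈ P := by
    intro l
    by_cases hl : l ∈ B
    · obtain ⟨p, hp, p', hp', hne⟩ := one_lt_card.1 (mem_filter.1 hl).2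
      obtain ⟨hp1, hp2⟩ := mem_filter.1 hp
      obtain ⟨hp1', hp2'⟩ := mem_filter.1 hp'
      obtain ⟨l1, i1⟩ := p
      obtain ⟨l2, i2⟩ := p'
      simp only at hp2 hp2'
      subst hp2
      subst hp2'
      exact ⟨(i1, i2), fun _ => ⟨fun h1 => hne (congrArg (fun i => (l2, i)) h1), hp1, hp1'⟩⟩
    · exact ⟨(⟨0, ht⟩, ⟨0, ht⟩), fun h1 => absurd h1 hl⟩
  choose ii hii using hpair
  obtain ⟨⟨i, i'⟩, _, hL⟩ := exists_le_card_fiber_of_mul_le_card_of_maps_to
    (s := B) (t := (univ : Finset (Fin t × Fin t))) (f := ii) (n := h)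
    (fun _ _ => mem_univ _) ⟨(⟨0, ht⟩, ⟨0, ht⟩), mem_univ _⟩ (by
      rw [card_univ, Fintype.card_prod, Fintype.card_fin, ← pow_two]
      exact hBcard)
  set L : Finset (Fin k') := B.filter fun l => ii l = (i, i') with hLd
  have hLP : ∀ l ∈ L, i ≠ i' ∧ (l, i) ∈ P ∧ (l, i') ∈ P := by
    intro l hl
    obtain ⟨h1, h2⟩ := mem_filter.1 hl
    have h3 := hii l h1
    rw [h2] at h3
    exact h3
  have hex : ∀ p : Fin k' × Fin t, ∃ a : Tb k' K w,
      p ∈ P → (Sum.inl (p, a) : Ve t k' K w e) ∈ s := by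
    intro p
    by_cases hp : p ∈ P
    · obtain ⟨u, hu, hc⟩ := mem_image.1 (mem_filter.1 hp).2
      rcases u with ⟨p', a⟩ | r
      · have : p' = p := Sum.inl.inj hc
        subst this
        exact ⟨a, fun _ => hu⟩
      · simp [cole] at hc
    · exact ⟨fun _ => ⟨0, hw⟩, fun h1 => absurd h1 hp⟩
  choose a ha using hex
  have hadj : ∀ p p' : Fin k' × Fin t, p ∈ P → p' ∈ P → p ≠ p' →
      HE (e := e) cod g η (Sum.inl (p, a p)) (Sum.inl (p', a p')) := by
    intro p p' hp hp' hpp
    refine hs.isClique (ha p hp) (ha p' hp') fun h1 => hpp ?_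
    exact (Prod.mk.inj (Sum.inl.inj h1)).1
  have hc : ∀ l : Fin k', ∃ c : Cw k' K w, l ∈ L → (∀ σ, cod i (c σ) = a (l, i) σ) ∧
      (∀ σ, cod i' (c σ) = a (l, i') σ) ∧ g l c = η l := by
    intro l
    by_cases hl : l ∈ L
    · obtain ⟨h1, h2, h3⟩ := hLP l hl
      obtain ⟨c, hc⟩ := (hadj (l, i) (l, i') h2 h3 fun h4 => h1 (Prod.mk.inj h4).2).2.1 rfl
      exact ⟨c, fun _ => hc⟩
    · exact ⟨fun _ => (⟨0, hw⟩, ⟨0, hw⟩), fun h1 => absurd h1 hl⟩
  choose c hc using hc
  have hcc : ∀ l ∈ L, ∀ l' ∈ L, ∀ σ : Fin k' → Fin K, σ l = σ l' → c l σ = c l' σ := by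
    intro l hl l' hl' σ hσ
    by_cases hll : l = l'
    · rw [hll]
    obtain ⟨h1, h2, h3⟩ := hLP l hl
    obtain ⟨_, h2', h3'⟩ := hLP l' hl'
    obtain ⟨c1, c2, _⟩ := hc l hl
    obtain ⟨c1', c2', _⟩ := hc l' hl'
    refine hcod i i' _ _ h1 ?_ ?_
    · rw [c1, c1']
      exact (hadj (l, i) (l', i) h2 h2' fun h4 => hll (Prod.mk.inj h4).1).2.2 rfl σ hσ
    · rw [c2, c2']
      exact (hadj (l, i') (l', i') h3 h3' fun h4 => hll (Prod.mk.inj h4).1).2.2 rfl σ hσ
  have hz : ∀ (σ : Fin k' → Fin K) (v : Fin K), ∃ z : Fin w × Fin w,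
      ∀ l ∈ L, σ l = v → c l σ = z := by
    intro σ v
    by_cases h1 : ∃ l ∈ L, σ l = v
    · obtain ⟨l, hl, hlv⟩ := h1
      exact ⟨c l σ, fun l' hl' hlv' => hcc l' hl' l hl σ (hlv'.trans hlv.symm)⟩
    · exact ⟨(⟨0, hw⟩, ⟨0, hw⟩), fun l hl hlv => absurd ⟨l, hl, hlv⟩ h1⟩
  choose z hz using hz
  obtain ⟨x, hx⟩ : ∃ x : Fin k' → Cw k' K w, ∀ l σ, x l σ = z σ (σ l) :=
    ⟨fun l σ => z σ (σ l), fun _ _ => rfl⟩
  have hxS : x ∈ SE k' K w := by
    unfold SE
    rw [mem_filter]
    refine ⟨mem_univ _, fun i j σ hσ => ?_⟩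
    rw [hx, hx, hσ]
  obtain ⟨l, hlL, hl⟩ := hS x hxS L hL
  refine hl ?_
  have h1 : x l = c l := by
    funext σ
    rw [hx]
    exact (hz σ (σ l) l hlL rfl).symm
  rw [h1]
  exact (hc l hlL).2.2

end

end GREx

open GREx in
/-- **Row GRE.** -/
theorem gre : GRE := by
  classical
  intro t k' e n K w ht hk' hK hw hn cod hcod
  have hcV : Fintype.card (Ve t k' K w e) ≤ Fintype.card (Fin n) := by
    rw [Fintype.card_fin]
    refine le_trans (le_of_eq ?_) hn
    rw [Fintype.card_sum, Fintype.card_prod, Fintype.card_prod, Fintype.card_fun,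
      Fintype.card_fun]
    simp only [Fintype.card_fin]
    rw [mul_comm k' t]
  obtain ⟨ι⟩ := Function.Embedding.nonempty_of_card_le hcV
  have hcP : Fintype.card (Fin (t * k' + e)) = Fintype.card (Pe t k' e) := by
    simp [mul_comm]
  obtain ⟨π⟩ := Fintype.card_eq.1 hcP
  refine ⟨fun x i => ι (ve cod x (π i)), ?_, ?_⟩
  · intro x y i j h
    have h1 := ι.injective h
    have h2 := congrArg cole h1
    rw [col_ve, col_ve] at h2
    exact π.injective h2
  intro m h0 g η _ hS
  have : Nonempty (Ve t k' K w e) :=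
    ⟨Sum.inl ((⟨0, hk'⟩, ⟨0, ht⟩), fun _ => ⟨0, hw⟩)⟩
  refine ⟨(GE (e := e) cod g η).map ι, ?_, ?_⟩
  · rw [SimpleGraph.cliqueFree_map_iff]
    exact GE_free cod g η ht hw hcod hS
  · intro i j u v hij hadj
    by_cases hex : ∃ x ∈ SE k' K w, ι (ve cod x (π i)) = u ∧ ι (ve cod x (π j)) = v
    · right
      obtain ⟨x, hx, hu, hv⟩ := hex
      have hnot : ¬ HE cod g η (ve cod x (π i)) (ve cod x (π j)) := by
        intro h
        refine hadj ?_
        rw [← hu, ← hv, SimpleGraph.map_adj_apply]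
        exact h
      have hne : π i ≠ π j := fun h => hij (π.injective h)
      have hcomp : ∀ (l l' : Fin k') (σ : Fin k' → Fin K), σ l = σ l' → x l σ = x l' σ := by
        unfold SE at hx
        exact (mem_filter.1 hx).2
      rcases hi : π i with p | r
      · rcases hj : π j with p' | r'
        · rw [hi, hj] at hnot hne
          have hpp : p ≠ p' := fun h => hne (by rw [h])
          have h3 : p.2 = p'.2 → ∀ σ : Fin k' → Fin K, σ p.1 = σ p'.1 →
              cod p.2 (x p.1 σ) = cod p'.2 (x p'.1 σ) := by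
            intro h σ hσ
            rw [h, hcomp p.1 p'.1 σ hσ]
          have h4 : ¬ (p.1 = p'.1 → ∃ c : Cw k' K w, (∀ σ, cod p.2 (c σ) = cod p.2 (x p.1 σ)) ∧
              (∀ σ, cod p'.2 (c σ) = cod p'.2 (x p'.1 σ)) ∧ g p.1 c = η p.1) :=
            fun h => hnot ⟨hpp, h, h3⟩
          push Not at h4
          obtain ⟨h5, h6⟩ := h4
          have h7 := h6 (x p.1) (fun _ => rfl) (fun σ => by rw [h5])
          refine ⟨p.1, x p.1, h7, fun y _ hyu hyv => ?_⟩
          simp only at hyu hyv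
          rw [← hu, hi] at hyu
          rw [← hv, hj] at hyv
          have a1 := (Prod.mk.inj (Sum.inl.inj (ι.injective hyu))).2
          have a2 := (Prod.mk.inj (Sum.inl.inj (ι.injective hyv))).2
          funext σ
          have b1 : cod p.2 (y p.1 σ) = cod p.2 (x p.1 σ) := congrFun a1 σ
          have b2 : cod p'.2 (y p'.1 σ) = cod p'.2 (x p'.1 σ) := congrFun a2 σ
          rw [← h5] at b2
          exact hcod p.2 p'.2 _ _ (fun h => hpp (Prod.ext h5 h)) b1 b2
        · rw [hi, hj] at hnot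
          exact absurd trivial hnot
      · rcases hj : π j with p' | r'
        · rw [hi, hj] at hnot
          exact absurd trivial hnot
        · rw [hi, hj] at hnot hne
          refine absurd ?_ hnot
          intro h
          exact hne (by rw [h])
    · left
      intro x hx h
      exact hex ⟨x, hx, h⟩

end Pool.Agent.KCN
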