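import Pool.Agent.Lib.KCN.PMD2
import Pool.Agent.Lib.KCN.GRE

/-!
# Row GRE2: as GRE, with an injective map from tables to tuples of vertices (helper87, helper70)
-/

set_option autoImplicit false

namespace Pool.Agent.KCN

open Finset Pool.Agent.SL Pool.Agent.KCM

open GREx in
/-- **Row GRE2.** -/
theorem gre2 : GRE2 := by
  classical
  intro t k' e n K w ht2 hk' hK hw hn cod hcod
  have ht : 1 ≤ t := by omega
  have hcV : Fintype.card (Ve t k' K w e) ≤ Fintype.card (Fin n) := by
    rw [Fintype.card_fin]
    refine le_trans (le_of_eq ?_) hn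
    rw [Fintype.card_sum, Fintype.card_prod, Fintype.card_prod, Fintype.card_fun,
      Fintype.card_fun]
    simp only [Fintype.card_fin]
    rw [mul_comm k' t]
  obtain ⟨ι⟩ := Function.Embedding.nonempty_of_card_le hcV
  have hcP : Fintype.card (Fin (t * k' + e)) = Fintype.card (Pe t k' e) := by
    simp [mul_comm]
  obtain ⟨π⟩ := Fintype.card_eq.1 hcP
  refine ⟨fun x i => ι (ve cod x (π i)), ?_, ?_, ?_⟩
  · intro x y hxy
    funext l σ
    have key : ∀ i : Fin t, cod i (x l σ) = cod i (y l σ) := by
      intro i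
      have h1 := congrFun hxy (π.symm (Sum.inl (l, i)))
      simp only [Equiv.apply_symm_apply] at h1
      have a1 := (Prod.mk.inj (Sum.inl.inj (ι.injective h1))).2
      exact congrFun a1 σ
    refine hcod ⟨0, by omega⟩ ⟨1, by omega⟩ _ _ ?_ (key _) (key _)
    intro h
    exact absurd (congrArg Fin.val h) (by norm_num)
  · intro x y i j h
    have h1 := ι.injective h
    have h2 := congrArg cole h1
    rw [col_ve, col_ve] at h2
    exact π.injective h2
  intro m h0 g η _ hS
  have : Nonempty (Ve t k' K w e) :=
    ⟨Sum.inl ((⟨0, hk'⟩, ⟨0, ht⟩), fun _ => ⟨0, hw⟩)⟩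
  refine ⟨(GE (e := e) cod g η).map ι, ?_, ?_⟩
  · rw [SimpleGraph.cliqueFree_map_iff]
    exact GE_free cod g η ht hw hcod hS
  · intro i j u v hij hadj
    by_cases hex : ∃ x ∈ SE k' K w, ι (ve cod x (π i)) = u ∧ ι (ve cod x (π j)) = v
    · right
      obtain ⟨x, hx, hu, hv⟩ := hex
      have hnot : ¬ HE cod g η (ve cod x (π i)) (ve cod x (π j)) := by
        intro h
        refine hadj ?_
        rw [← hu, ← hv, SimpleGraph.map_adj_apply]
        exact h
      have hne : π i ≠ π j := fun h => hij (π.injective h)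
      have hcomp : ∀ (l l' : Fin k') (σ : Fin k' → Fin K), σ l = σ l' → x l σ = x l' σ := by
        unfold SE at hx
        exact (mem_filter.1 hx).2
      rcases hi : π i with p | r
      · rcases hj : π j with p' | r'
        · rw [hi, hj] at hnot hne
          have hpp : p ≠ p' := fun h => hne (by rw [h])
          have h3 : p.2 = p'.2 → ∀ σ : Fin k' → Fin K, σ p.1 = σ p'.1 →
              cod p.2 (x p.1 σ) = cod p'.2 (x p'.1 σ) := by
            intro h σ hσ
            rw [h, hcomp p.1 p'.1 σ hσ]
          have h4 : ¬ (p.1 = p'.1 → ∃ c : Cw k' K w, (∀ σ, cod p.2 (c σ) = cod p.2 (x p.1 σ)) ∧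
              (∀ σ, cod p'.2 (c σ) = cod p'.2 (x p'.1 σ)) ∧ g p.1 c = η p.1) :=
            fun h => hnot ⟨hpp, h, h3⟩
          push Not at h4
          obtain ⟨h5, h6⟩ := h4
          have h7 := h6 (x p.1) (fun _ => rfl) (fun σ => by rw [h5])
          refine ⟨p.1, x p.1, h7, fun y _ hyu hyv => ?_⟩
          simp only at hyu hyv
          rw [← hu, hi] at hyu
          rw [← hv, hj] at hyv
          have a1 := (Prod.mk.inj (Sum.inl.inj (ι.injective hyu))).2
          have a2 := (Prod.mk.inj (Sum.inl.inj (ι.injective hyv))).2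
          funext σ
          have b1 : cod p.2 (y p.1 σ) = cod p.2 (x p.1 σ) := congrFun a1 σ
          have b2 : cod p'.2 (y p'.1 σ) = cod p'.2 (x p'.1 σ) := congrFun a2 σ
          rw [← h5] at b2
          exact hcod p.2 p'.2 _ _ (fun h => hpp (Prod.ext h5 h)) b1 b2
        · rw [hi, hj] at hnot
          exact absurd trivial hnot
      · rcases hj : π j with p' | r'
        · rw [hi, hj] at hnot
          exact absurd trivial hnot
        · rw [hi, hj] at hnot hne
          refine absurd ?_ hnot
          intro h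
          exact hne (by rw [h])
    · left
      intro x hx h
      exact hex ⟨x, hx, h⟩

end Pool.Agent.KCN
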