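import Pool.Agent.Lib.KCN.GR
import Pool.Agent.Lib.KCN.Defs2

/-!
# Theorem B (MP_678664_lc), row GRG: the graph, gap form (helper87; second half copied from GR)
-/

set_option autoImplicit false

namespace Pool.Agent.KCN

open Finset Pool.Agent.SL Pool.Agent.KCM

namespace GRGx

open GRx

section

variable {k' K w e m : ℕ} (g : Fin k' → Vx k' K w × Vx k' K w → Fin m) (η : Fin k' → Fin m)

theorem H_free_gap {h : ℕ} (hw : 1 ≤ w)
    (hS : ∀ x ∈ SS k' K w, ∀ L : Finset (Fin k'), h ≤ L.card → ∃ i ∈ L, g i (x i) ≠ η i) :
    (H (e := e) g η).CliqueFree (k' + h + e) := by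
  classical
  intro s hs
  have hinj : Set.InjOn col (s : Set (Vert k' K w e)) := by
    intro u hu v hv huv
    by_contra hne
    exact col_ne g η (hs.isClique hu hv hne) huv
  have hcard : (s.image col).card = k' + h + e := by
    rw [card_image_of_injOn hinj, hs.card_eq]
  -- the positions of the clique
  set P : Finset (Pos k') := univ.filter fun p => (Sum.inl p : Ps k' e) ∈ s.image col with hP
  have hPcard : k' + h ≤ P.card := by
    have h1 : s.image col ⊆ P.image (Sum.inl : Pos k' → Ps k' e) ∪
        (univ : Finset (Fin e)).image (Sum.inr : Fin e → Ps k' e) := by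
      intro q hq
      rcases q with p | t
      · exact mem_union_left _ (mem_image_of_mem _ (mem_filter.2 ⟨mem_univ _, hq⟩))
      · exact mem_union_right _ (mem_image_of_mem _ (mem_univ _))
    have h2 := (card_le_card h1).trans (card_union_le _ _)
    have h3 : (P.image (Sum.inl : Pos k' → Ps k' e)).card ≤ P.card := card_image_le
    have h4 : ((univ : Finset (Fin e)).image (Sum.inr : Fin e → Ps k' e)).card ≤ e := by
      refine card_image_le.trans (le_of_eq ?_)
      rw [card_univ, Fintype.card_fin]
    omega
  set L : Finset (Fin k') := univ.filter fun l => (l, false) ∈ P ∧ (l, true) ∈ P with hL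
  have hLcard : h ≤ L.card := by
    have h1 : P ⊆ (univ : Finset (Fin k')).image (fun l => if (l, false) ∈ P then (l, false)
        else (l, true)) ∪ L.image (fun l => (l, true)) := by
      rintro ⟨l, b⟩ hp
      by_cases h2 : (l, false) ∈ P
      · cases b
        · refine mem_union_left _ (mem_image.2 ⟨l, mem_univ _, ?_⟩)
          rw [if_pos h2]
        · exact mem_union_right _ (mem_image.2 ⟨l, mem_filter.2 ⟨mem_univ _, h2, hp⟩, rfl⟩)
      · cases b
        · exact absurd hp h2
        · refine mem_union_left _ (mem_image.2 ⟨l, mem_univ _, ?_⟩)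
          rw [if_neg h2]
    have h2 := (card_le_card h1).trans (card_union_le _ _)
    have h3 : ((univ : Finset (Fin k')).image (fun l => if (l, false) ∈ P then (l, false)
        else (l, true))).card ≤ k' := by
      refine card_image_le.trans (le_of_eq ?_)
      rw [card_univ, Fintype.card_fin]
    have h4 : (L.image (fun l => (l, true))).card ≤ L.card := card_image_le
    omega
  have hex : ∀ p : Pos k', ∃ a : Vx k' K w, p ∈ P → (Sum.inl (p, a) : Vert k' K w e) ∈ s := by
    intro p
    by_cases hp : p ∈ P
    · obtain ⟨u, hu, hc⟩ := mem_image.1 (mem_filter.1 hp).2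
      rcases u with ⟨p', a⟩ | t
      · have : p' = p := Sum.inl.inj hc
        subst this
        exact ⟨a, fun _ => hu⟩
      · simp [col] at hc
    · exact ⟨fun _ => ⟨0, hw⟩, fun h1 => absurd h1 hp⟩
  choose a ha using hex
  have hadj : ∀ p p' : Pos k', p ∈ P → p' ∈ P → p ≠ p' →
      HA (e := e) g η (Sum.inl (p, a p)) (Sum.inl (p', a p')) := by
    intro p p' hp hp' hpp
    refine hs.isClique (ha p hp) (ha p' hp') fun h1 => hpp ?_
    exact (Prod.mk.inj (Sum.inl.inj h1)).1
  -- the values
  have hz : ∀ (σ : Pos k' → Fin K) (v : Fin K), ∃ z : Fin w, ∀ p ∈ P, σ p = v → a p σ = z := by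
    intro σ v
    by_cases h1 : ∃ p ∈ P, σ p = v
    · obtain ⟨p, hp, hpv⟩ := h1
      refine ⟨a p σ, fun p' hp' hpv' => ?_⟩
      by_cases h2 : p' = p
      · rw [h2]
      · exact (hadj p' p hp' hp h2).2.1 σ (hpv'.trans hpv.symm)
    · exact ⟨⟨0, hw⟩, fun p hp hpv => absurd ⟨p, hp, hpv⟩ h1⟩
  choose z hz using hz
  set b : Pos k' → Vx k' K w := fun p σ => z σ (σ p) with hb
  have hba : ∀ p ∈ P, b p = a p := by
    intro p hp
    funext σ
    exact (hz σ (σ p) p hp rfl).symm
  set x : Fin k' → Vx k' K w × Vx k' K w := fun l => (b (l, false), b (l, true)) with hx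
  have hpr : ∀ p : Pos k', pr x p = b p := by
    rintro ⟨l, c⟩
    cases c
    · simp [pr, hx]
    · simp [pr, hx]
  have hxS : x ∈ SS k' K w := by
    unfold SS
    rw [mem_filter]
    refine ⟨mem_univ _, fun i j σ hσ => ?_⟩
    rw [hpr, hpr]
    simp only [hb]
    rw [hσ]
  obtain ⟨l, hlL, hl⟩ := hS x hxS L hLcard
  have h1 := (mem_filter.1 hlL).2
  refine hl ?_
  have h2 := ((hadj (l, false) (l, true) h1.1 h1.2 (by simp)).2.2 l).1 rfl rfl
  rw [hx]
  simp only
  rw [hba _ h1.1, hba _ h1.2]
  exact h2

end

end GRGx

open GRx GRGx in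
theorem grg : GRG := by
  classical
  intro k' e n K w hk' hK hw hn
  have hcV : Fintype.card (Vert k' K w e) ≤ Fintype.card (Fin n) := by
    rw [Fintype.card_fin]
    refine le_trans (le_of_eq ?_) hn
    rw [Fintype.card_sum, Fintype.card_prod, Fintype.card_prod, Fintype.card_fun,
      Fintype.card_fun, Fintype.card_prod, Fintype.card_bool]
    simp only [Fintype.card_fin]
    rw [mul_comm k' 2]
  obtain ⟨ι⟩ := Function.Embedding.nonempty_of_card_le hcV
  have hcP : Fintype.card (Fin (2 * k' + e)) = Fintype.card (Ps k' e) := by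
    simp [mul_comm]
  obtain ⟨π⟩ := Fintype.card_eq.1 hcP
  refine ⟨fun x i => ι (vt x (π i)), ?_⟩
  intro m h0 g η hS
  have : Nonempty (Vert k' K w e) :=
    ⟨Sum.inl ((⟨0, hk'⟩, false), fun _ => ⟨0, hw⟩)⟩
  refine ⟨(H (e := e) g η).map ι, ?_, ?_⟩
  · rw [SimpleGraph.cliqueFree_map_iff]
    exact H_free_gap g η hw hS
  · intro i j u v hij hadj
    by_cases hex : ∃ x ∈ SS k' K w, ι (vt x (π i)) = u ∧ ι (vt x (π j)) = v
    · right
      obtain ⟨x, hx, hu, hv⟩ := hex
      have hnot : ¬ HA g η (vt x (π i)) (vt x (π j)) := by
        intro h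
        refine hadj ?_
        rw [← hu, ← hv, SimpleGraph.map_adj_apply]
        exact h
      have hne : π i ≠ π j := fun h => hij (π.injective h)
      have hcomp : ∀ i j : Pos k', Comp i j (pr x i) (pr x j) := by
        unfold SS at hx
        exact (mem_filter.1 hx).2
      rcases hi : π i with p | t
      · rcases hj : π j with p' | t'
        · rw [hi, hj] at hnot hne
          have hpp : p ≠ p' := fun h => hne (by rw [h])
          have h1 : ¬ ∀ l : Fin k', (p = (l, false) → p' = (l, true) →
              g l (pr x p, pr x p') = η l) ∧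
              (p = (l, true) → p' = (l, false) → g l (pr x p', pr x p) = η l) :=
            fun h => hnot ⟨hpp, hcomp p p', h⟩
          push Not at h1
          obtain ⟨l, hl⟩ := h1
          have key : ∀ y : Fin k' → Vx k' K w × Vx k' K w,
              ι (vt (e := e) y (Sum.inl p)) = u → ι (vt (e := e) y (Sum.inl p')) = v →
              pr y p = pr x p ∧ pr y p' = pr x p' := by
            intro y hyu hyv
            rw [← hu, hi] at hyu
            rw [← hv, hj] at hyv
            have a1 := ι.injective hyu
            have a2 := ι.injective hyv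
            exact ⟨(Prod.mk.inj (Sum.inl.inj a1)).2, (Prod.mk.inj (Sum.inl.inj a2)).2⟩
          by_cases hc : (p = (l, false) → p' = (l, true) → g l (pr x p, pr x p') = η l)
          · obtain ⟨e1, e2, e3⟩ := hl hc
            subst e1 e2
            refine ⟨l, x l, ?_, fun y _ hyu hyv => ?_⟩
            · have : (pr x (l, false), pr x (l, true)) = x l := by simp [pr]
              rw [← this]
              exact e3
            · simp only at hyu hyv
              rw [hi] at hyu
              rw [hj] at hyv
              obtain ⟨b1, b2⟩ := key y hyu hyv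
              exact pr_eq b2 b1
          · push Not at hc
            obtain ⟨e1, e2, e3⟩ := hc
            subst e1 e2
            refine ⟨l, x l, ?_, fun y _ hyu hyv => ?_⟩
            · have : (pr x (l, false), pr x (l, true)) = x l := by simp [pr]
              rw [← this]
              exact e3
            · simp only at hyu hyv
              rw [hi] at hyu
              rw [hj] at hyv
              obtain ⟨b1, b2⟩ := key y hyu hyv
              exact pr_eq b1 b2
        · rw [hi, hj] at hnot
          exact absurd trivial hnot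
      · rcases hj : π j with p' | t'
        · rw [hi, hj] at hnot
          exact absurd trivial hnot
        · rw [hi, hj] at hnot hne
          refine absurd ?_ hnot
          intro h
          exact hne (by rw [h])
    · left
      intro x hx h
      exact hex ⟨x, hx, h⟩

end Pool.Agent.KCN
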