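import Pool.Agent.Lib.KCN.GRG

/-!
# Row GRI: GRG with the fact that each vertex has one position
-/

set_option autoImplicit false

namespace Pool.Agent.KCN

open Finset Pool.Agent.SL Pool.Agent.KCM

/-- GRI: as GRG; moreover the vertices at different positions are different -/
def GRI : Prop :=
  ∀ (k' e n K w : ℕ), 1 ≤ k' → 1 ≤ K → 1 ≤ w → 2 * k' * w ^ (K ^ (2 * k')) + e ≤ n →
    ∃ φ : (Fin k' → Vx k' K w × Vx k' K w) → (Fin (2 * k' + e) → Fin n),
      (∀ (x y : Fin k' → Vx k' K w × Vx k' K w) (i j : Fin (2 * k' + e)), φ x i = φ y j →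
        i = j) ∧
      ∀ (m h : ℕ) (g : Fin k' → Vx k' K w × Vx k' K w → Fin m) (η : Fin k' → Fin m),
        (∀ x ∈ SS k' K w, ∀ L : Finset (Fin k'), h ≤ L.card → ∃ i ∈ L, g i (x i) ≠ η i) →
        ∃ G : SimpleGraph (Fin n), G.CliqueFree (k' + h + e) ∧
          ∀ (i j : Fin (2 * k' + e)) (u v : Fin n), i ≠ j → ¬ G.Adj u v →
            (∀ x ∈ SS k' K w, ¬ (φ x i = u ∧ φ x j = v)) ∨
            ∃ (l : Fin k') (c : Vx k' K w × Vx k' K w), g l c ≠ η l ∧
              ∀ x ∈ SS k' K w, φ x i = u → φ x j = v → x l = c

theorem GRIx.col_vt {k' K w e : ℕ} (x : Fin k' → Vx k' K w × Vx k' K w) (p : GRx.Ps k' e) :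
    GRx.col (GRx.vt x p) = p := by
  rcases p with p | t <;> rfl

open GRIx in
open GRx GRGx in
/-- GRI -/
theorem gri : GRI := by
  classical
  intro k' e n K w hk' hK hw hn
  have hcV : Fintype.card (Vert k' K w e) ≤ Fintype.card (Fin n) := by
    rw [Fintype.card_fin]
    refine le_trans (le_of_eq ?_) hn
    rw [Fintype.card_sum, Fintype.card_prod, Fintype.card_prod, Fintype.card_fun,
      Fintype.card_fun, Fintype.card_prod, Fintype.card_bool]
    simp only [Fintype.card_fin]
    rw [mul_comm k' 2]
  obtain ⟨ι⟩ := Function.Embedding.nonempty_of_card_le hcV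
  have hcP : Fintype.card (Fin (2 * k' + e)) = Fintype.card (Ps k' e) := by
    simp [mul_comm]
  obtain ⟨π⟩ := Fintype.card_eq.1 hcP
  refine ⟨fun x i => ι (vt x (π i)), fun x y i j hij => ?_, ?_⟩
  · have h1 := congrArg (col (k' := k') (K := K) (w := w) (e := e)) (ι.injective hij)
    rw [col_vt, col_vt] at h1
    exact π.injective h1
  intro m h0 g η hS
  have : Nonempty (Vert k' K w e) :=
    ⟨Sum.inl ((⟨0, hk'⟩, false), fun _ => ⟨0, hw⟩)⟩
  refine ⟨(H (e := e) g η).map ι, ?_, ?_⟩
  · rw [SimpleGraph.cliqueFree_map_iff]
    exact H_free_gap g η hw hS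
  · intro i j u v hij hadj
    by_cases hex : ∃ x ∈ SS k' K w, ι (vt x (π i)) = u ∧ ι (vt x (π j)) = v
    · right
      obtain ⟨x, hx, hu, hv⟩ := hex
      have hnot : ¬ HA g η (vt x (π i)) (vt x (π j)) := by
        intro h
        refine hadj ?_
        rw [← hu, ← hv, SimpleGraph.map_adj_apply]
        exact h
      have hne : π i ≠ π j := fun h => hij (π.injective h)
      have hcomp : ∀ i j : Pos k', Comp i j (pr x i) (pr x j) := by
        unfold SS at hx
        exact (mem_filter.1 hx).2
      rcases hi : π i with p | t
      · rcases hj : π j with p' | t'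
        · rw [hi, hj] at hnot hne
          have hpp : p ≠ p' := fun h => hne (by rw [h])
          have h1 : ¬ ∀ l : Fin k', (p = (l, false) → p' = (l, true) →
              g l (pr x p, pr x p') = η l) ∧
              (p = (l, true) → p' = (l, false) → g l (pr x p', pr x p) = η l) :=
            fun h => hnot ⟨hpp, hcomp p p', h⟩
          push Not at h1
          obtain ⟨l, hl⟩ := h1
          have key : ∀ y : Fin k' → Vx k' K w × Vx k' K w,
              ι (vt (e := e) y (Sum.inl p)) = u → ι (vt (e := e) y (Sum.inl p')) = v →
              pr y p = pr x p ∧ pr y p' = pr x p' := by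
            intro y hyu hyv
            rw [← hu, hi] at hyu
            rw [← hv, hj] at hyv
            have a1 := ι.injective hyu
            have a2 := ι.injective hyv
            exact ⟨(Prod.mk.inj (Sum.inl.inj a1)).2, (Prod.mk.inj (Sum.inl.inj a2)).2⟩
          by_cases hc : (p = (l, false) → p' = (l, true) → g l (pr x p, pr x p') = η l)
          · obtain ⟨e1, e2, e3⟩ := hl hc
            subst e1 e2
            refine ⟨l, x l, ?_, fun y _ hyu hyv => ?_⟩
            · have : (pr x (l, false), pr x (l, true)) = x l := by simp [pr]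
              rw [← this]
              exact e3
            · simp only at hyu hyv
              rw [hi] at hyu
              rw [hj] at hyv
              obtain ⟨b1, b2⟩ := key y hyu hyv
              exact pr_eq b2 b1
          · push Not at hc
            obtain ⟨e1, e2, e3⟩ := hc
            subst e1 e2
            refine ⟨l, x l, ?_, fun y _ hyu hyv => ?_⟩
            · have : (pr x (l, false), pr x (l, true)) = x l := by simp [pr]
              rw [← this]
              exact e3
            · simp only at hyu hyv
              rw [hi] at hyu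
              rw [hj] at hyv
              obtain ⟨b1, b2⟩ := key y hyu hyv
              exact pr_eq b1 b2
        · rw [hi, hj] at hnot
          exact absurd trivial hnot
      · rcases hj : π j with p' | t'
        · rw [hi, hj] at hnot
          exact absurd trivial hnot
        · rw [hi, hj] at hnot hne
          refine absurd ?_ hnot
          intro h
          exact hne (by rw [h])
    · left
      intro x hx h
      exact hex ⟨x, hx, h⟩

end Pool.Agent.KCN
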