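import Pool.Agent.Lib.KCN.DefsE

/-!
# Row MDS: codes of length `t` in which two places determine the codeword
-/

set_option autoImplicit false

namespace Pool.Agent.KCN

/-- MDS: lines over a prime field -/
theorem mds : MDS := by
  classical
  intro t p j hp htp
  have : Fact p.Prime := ⟨hp⟩
  have hcard : Fintype.card (Fin j → ZMod p) = p ^ j := by
    rw [Fintype.card_fun, ZMod.card, Fintype.card_fin]
  set E : (Fin j → ZMod p) ≃ Fin (p ^ j) := Fintype.equivFinOfCardEq hcard with hE
  refine ⟨fun i c => E (E.symm c.1 + ((i : ℕ) : ZMod p) • E.symm c.2), ?_⟩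
  intro i i' c c' hii h1 h2
  have e1 := E.injective h1
  have e2 := E.injective h2
  have hne : ((i : ℕ) : ZMod p) - ((i' : ℕ) : ZMod p) ≠ 0 := by
    intro h
    rw [sub_eq_zero, ZMod.natCast_eq_natCast_iff', Nat.mod_eq_of_lt (by omega),
      Nat.mod_eq_of_lt (by omega)] at h
    exact hii (Fin.ext h)
  have hb : E.symm c.2 = E.symm c'.2 := by
    have h3 : (((i : ℕ) : ZMod p) - ((i' : ℕ) : ZMod p)) • (E.symm c.2 - E.symm c'.2) = 0 := by
      funext s
      have a1 := congrFun e1 s
      have a2 := congrFun e2 s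
      simp only [Pi.add_apply, Pi.smul_apply, smul_eq_mul] at a1 a2
      simp only [Pi.smul_apply, Pi.sub_apply, smul_eq_mul, Pi.zero_apply]
      linear_combination a1 - a2
    rcases smul_eq_zero.1 h3 with h4 | h4
    · exact absurd h4 hne
    · exact sub_eq_zero.1 h4
  have ha : E.symm c.1 = E.symm c'.1 := by
    rw [hb] at e1
    exact add_right_cancel e1
  exact Prod.ext (E.symm.injective ha) (E.symm.injective hb)

end Pool.Agent.KCN
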