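import Pool.Agent.Lib.KCN.Defs
import Pool.Agent.Lib.KCM.K2

/-!
# Row P2: good tables
-/

set_option autoImplicit false

namespace Pool.Agent.KCN

open Finset Pool.Agent.SL Pool.Agent.KCM

namespace P2x

/-- tables with a prescribed value -/
lemma card_one {m : ℕ} {α : Type} [Fintype α] [DecidableEq α] (a : α) (l : Fin m) :
    ((univ : Finset (α → Fin m)).filter (fun h => h a = l)).card * m =
      Fintype.card (α → Fin m) := by
  classical
  have h1 : (univ : Finset (α → Fin m)).filter (fun h => h a = l) =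
      Fintype.piFinset (fun b => if b = a then {l} else univ) := by
    ext h
    rw [mem_filter, Fintype.mem_piFinset]
    constructor
    · rintro ⟨-, h1⟩ b
      by_cases hb : b = a
      · rw [if_pos hb, hb, h1, mem_singleton]
      · rw [if_neg hb]
        exact mem_univ _
    · intro h1
      have := h1 a
      rw [if_pos rfl, mem_singleton] at this
      exact ⟨mem_univ _, this⟩
  rw [h1, Fintype.card_piFinset, Fintype.card_fun, Fintype.card_fin,
    ← mul_prod_erase univ _ (mem_univ a), if_pos rfl, card_singleton, one_mul]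
  have h2 : ∀ b ∈ (univ : Finset α).erase a,
      (if b = a then ({l} : Finset (Fin m)) else univ).card = m := by
    intro b hb
    rw [if_neg (ne_of_mem_erase hb), card_univ, Fintype.card_fin]
  rw [prod_congr rfl h2, prod_const, card_erase_of_mem (mem_univ a), card_univ, ← pow_succ,
    Nat.sub_add_cancel (Fintype.card_pos_iff.2 ⟨a⟩)]

lemma card_all {k m : ℕ} {α : Type} [Fintype α] [DecidableEq α] (η : Fin k → Fin m)
    (x : Fin k → α) :
    ((univ : Finset (Fin k → α → Fin m)).filter (fun g => ∀ i, g i (x i) = η i)).card * m ^ k =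
      Fintype.card (Fin k → α → Fin m) := by
  classical
  have h1 : (univ : Finset (Fin k → α → Fin m)).filter (fun g => ∀ i, g i (x i) = η i) =
      Fintype.piFinset (fun i => (univ : Finset (α → Fin m)).filter (fun h => h (x i) = η i)) := by
    ext g
    rw [mem_filter, Fintype.mem_piFinset]
    simp
  have h2 : m ^ k = ∏ _i : Fin k, m := by simp
  rw [h1, Fintype.card_piFinset, h2, ← prod_mul_distrib,
    prod_congr rfl fun i _ => card_one (x i) (η i)]
  simp [Fintype.card_fun]

end P2x

open P2x in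
theorem p2 : P2 := by
  intro k m κ α _ _ hm hκ η Fam S hF hS
  classical
  by_contra hno
  push Not at hno
  set D : Finset (Fin k) → Finset (Fin k → α) → ℝ := fun B p =>
    (24 * (κ : ℝ) * (m : ℝ) ^ 2) ^ B.card * (Wp B p : ℝ) with hD
  let bad : Finset (Fin k → α) × Finset (Fin k) → Finset (Fin k → α → Fin m) := fun z =>
    univ.filter (fun g : Fin k → α → Fin m =>
        4 * D z.2 z.1 < (∑ x ∈ z.1, Qf g η z.2 x) ^ 2)
  let bad' : (Fin k → α) → Finset (Fin k → α → Fin m) := fun x =>
    univ.filter (fun g : Fin k → α → Fin m => ∀ i, g i (x i) = η i)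
  have h1 : (univ : Finset (Fin k → α → Fin m)) ⊆
      (Fam ×ˢ univ).biUnion bad ∪ S.biUnion bad' := by
    intro g _
    rw [mem_union]
    by_cases hg : ∀ p ∈ Fam, ∀ B : Finset (Fin k), (∑ x ∈ p, Qf g η B x) ^ 2 ≤
          4 * ((24 * (κ : ℝ) * (m : ℝ) ^ 2) ^ B.card * (Wp B p : ℝ))
    · right
      obtain ⟨x, hx, hx2⟩ := hno g hg
      rw [mem_biUnion]
      exact ⟨x, hx, by simpa [bad'] using hx2⟩
    · left
      push Not at hg
      obtain ⟨p, hp, B, hB⟩ := hg
      rw [mem_biUnion]
      refine ⟨(p, B), by simp [hp], ?_⟩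
      simp only [bad, mem_filter, mem_univ, true_and]
      exact hB
  have h3 := (card_le_card h1).trans ((card_union_le _ _).trans
    (Nat.add_le_add card_biUnion_le card_biUnion_le))
  have h4 : ∀ z ∈ Fam ×ˢ (univ : Finset (Finset (Fin k))),
      ((bad z).card : ℝ) ≤ (Fintype.card (Fin k → α → Fin m) : ℝ) / 4 ^ κ := by
    intro z _
    rcases z.1.eq_empty_or_nonempty with hp | hp
    · have : bad z = ∅ := by
        rw [filter_eq_empty_iff]
        intro g _
        rw [hp, sum_empty, not_lt, zero_pow two_ne_zero]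
        have : 0 ≤ D z.2 ∅ := by
          rw [hD]
          positivity
        linarith
      rw [this, card_empty, Nat.cast_zero]
      positivity
    · rw [le_div_iff₀ (by positivity)]
      have hW : (0 : ℝ) < Wp z.2 z.1 := by exact_mod_cast Wp_pos z.2 hp
      have hm0 : (0 : ℝ) < m := by exact_mod_cast hm
      have hκ0 : (0 : ℝ) < κ := by exact_mod_cast hκ
      have hDp : 0 < D z.2 z.1 := by
        rw [hD]
        positivity
      have h5 := k1 hm hκ η z.2 z.1
      have h6 : ((bad z).card : ℝ) * (4 * D z.2 z.1) ^ κ ≤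
          ∑ g : Fin k → α → Fin m, (∑ x ∈ z.1, Qf g η z.2 x) ^ (2 * κ) := by
        rw [← nsmul_eq_mul, ← sum_const]
        refine (sum_le_sum fun g hg => ?_).trans
          (sum_le_sum_of_subset_of_nonneg (filter_subset _ _)
            fun g _ _ => (even_two_mul κ).pow_nonneg _)
        simp only [bad, mem_filter] at hg
        rw [pow_mul]
        exact pow_le_pow_left₀ (by positivity) hg.2.le _
      have h7 := h6.trans h5
      rw [mul_pow] at h7
      have hc : 0 < D z.2 z.1 ^ κ := by positivity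
      refine le_of_mul_le_mul_right ?_ hc
      calc ((bad z).card : ℝ) * 4 ^ κ * D z.2 z.1 ^ κ
          = ((bad z).card : ℝ) * (4 ^ κ * D z.2 z.1 ^ κ) := by ring
        _ ≤ _ := h7
  have hm0 : (0 : ℝ) < m := by exact_mod_cast hm
  have h4' : ∀ x ∈ S, ((bad' x).card : ℝ) ≤ (Fintype.card (Fin k → α → Fin m) : ℝ) / m ^ k := by
    intro x _
    rw [le_div_iff₀ (by positivity)]
    have := card_all η x
    exact_mod_cast this.le
  have : Nonempty (Fin m) := ⟨⟨0, hm⟩⟩
  have hG : (0 : ℝ) < (Fintype.card (Fin k → α → Fin m) : ℝ) := by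
    exact_mod_cast Fintype.card_pos
  set N : ℝ := (Fintype.card (Fin k → α → Fin m) : ℝ) with hN
  have h5 : N ≤ ((Fam.card * 2 ^ k : ℕ) : ℝ) * (N / 4 ^ κ) + (S.card : ℝ) * (N / m ^ k) := by
    calc N ≤ ((∑ z ∈ Fam ×ˢ (univ : Finset (Finset (Fin k))), (bad z).card +
            ∑ x ∈ S, (bad' x).card : ℕ) : ℝ) := by
          rw [hN, ← card_univ]
          exact_mod_cast h3
      _ ≤ ∑ z ∈ Fam ×ˢ (univ : Finset (Finset (Fin k))), (N / 4 ^ κ) +
            ∑ x ∈ S, (N / m ^ k) := by
          push_cast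
          exact add_le_add (sum_le_sum h4) (sum_le_sum h4')
      _ = _ := by
          rw [sum_const, sum_const, card_product, nsmul_eq_mul, nsmul_eq_mul]
          congr 2
          simp
  have h6 : 4 * ((Fam.card * 2 ^ k : ℕ) : ℝ) ≤ 4 ^ κ := by exact_mod_cast hF
  have h7 : 4 * (S.card : ℝ) ≤ (m : ℝ) ^ k := by exact_mod_cast hS
  have e1 : ((Fam.card * 2 ^ k : ℕ) : ℝ) * (N / 4 ^ κ) ≤ N / 4 := by
    rw [mul_div_assoc', div_le_div_iff₀ (by positivity) (by norm_num)]
    nlinarith
  have e2 : (S.card : ℝ) * (N / m ^ k) ≤ N / 4 := by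
    rw [mul_div_assoc', div_le_div_iff₀ (by positivity) (by norm_num)]
    nlinarith
  linarith

end Pool.Agent.KCN
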