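import Pool.Agent.Lib.KCN.Defs2
import Pool.Agent.Lib.KCN.P2

/-!
# Row P2G: good tables, gap form
-/

set_option autoImplicit false

namespace Pool.Agent.KCN

open Finset Pool.Agent.SL Pool.Agent.KCM

namespace P2Gx

lemma card_on {k m : ℕ} {α : Type} [Fintype α] [DecidableEq α] (η : Fin k → Fin m)
    (x : Fin k → α) (L : Finset (Fin k)) :
    ((univ : Finset (Fin k → α → Fin m)).filter (fun g => ∀ i ∈ L, g i (x i) = η i)).card *
      m ^ L.card = Fintype.card (Fin k → α → Fin m) := by
  classical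
  have h1 : (univ : Finset (Fin k → α → Fin m)).filter (fun g => ∀ i ∈ L, g i (x i) = η i) =
      Fintype.piFinset (fun i => if i ∈ L then
        (univ : Finset (α → Fin m)).filter (fun h => h (x i) = η i) else univ) := by
    ext g
    rw [mem_filter, Fintype.mem_piFinset]
    constructor
    · rintro ⟨-, hg⟩ i
      by_cases hi : i ∈ L
      · rw [if_pos hi, mem_filter]
        exact ⟨mem_univ _, hg i hi⟩
      · rw [if_neg hi]
        exact mem_univ _
    · intro hg
      refine ⟨mem_univ _, fun i hi => ?_⟩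
      have := hg i
      rw [if_pos hi, mem_filter] at this
      exact this.2
  have h2 : m ^ L.card = ∏ i : Fin k, (if i ∈ L then m else 1) := by
    rw [prod_ite_mem, univ_inter, prod_const]
  rw [h1, Fintype.card_piFinset, h2, ← prod_mul_distrib]
  have h3 : ∀ i ∈ (univ : Finset (Fin k)), (if i ∈ L then
        (univ : Finset (α → Fin m)).filter (fun h => h (x i) = η i) else univ).card *
          (if i ∈ L then m else 1) = Fintype.card (α → Fin m) := by
    intro i _
    by_cases hi : i ∈ L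
    · rw [if_pos hi, if_pos hi]
      exact P2x.card_one (x i) (η i)
    · rw [if_neg hi, if_neg hi, mul_one, card_univ]
  rw [prod_congr rfl h3, prod_const, card_univ, Fintype.card_fin, Fintype.card_fun (α := Fin k),
    Fintype.card_fin]

end P2Gx

open P2Gx in
theorem p2g : P2G := by
  intro k m κ h α _ _ hm hκ η Fam S hF hS
  classical
  by_contra hno
  push Not at hno
  set D : Finset (Fin k) → Finset (Fin k → α) → ℝ := fun B p =>
    (24 * (κ : ℝ) * (m : ℝ) ^ 2) ^ B.card * (Wp B p : ℝ) with hD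
  let bad : Finset (Fin k → α) × Finset (Fin k) → Finset (Fin k → α → Fin m) := fun z =>
    univ.filter (fun g : Fin k → α → Fin m =>
        4 * D z.2 z.1 < (∑ x ∈ z.1, Qf g η z.2 x) ^ 2)
  let Ls : Finset (Finset (Fin k)) := univ.filter (fun L => L.card = h)
  let bad' : (Fin k → α) × Finset (Fin k) → Finset (Fin k → α → Fin m) := fun z =>
    univ.filter (fun g : Fin k → α → Fin m => ∀ i ∈ z.2, g i (z.1 i) = η i)
  have hLs : Ls.card ≤ 2 ^ k := by
    refine (card_le_univ _).trans ?_
    simp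
  have h1 : (univ : Finset (Fin k → α → Fin m)) ⊆
      (Fam ×ˢ univ).biUnion bad ∪ (S ×ˢ Ls).biUnion bad' := by
    intro g _
    rw [mem_union]
    by_cases hg : ∀ p ∈ Fam, ∀ B : Finset (Fin k), (∑ x ∈ p, Qf g η B x) ^ 2 ≤
          4 * ((24 * (κ : ℝ) * (m : ℝ) ^ 2) ^ B.card * (Wp B p : ℝ))
    · right
      obtain ⟨x, hx, L, hL, hx2⟩ := hno g hg
      obtain ⟨L', hL', hc⟩ := exists_subset_card_eq hL
      rw [mem_biUnion]
      refine ⟨(x, L'), mem_product.2 ⟨hx, mem_filter.2 ⟨mem_univ _, hc⟩⟩, ?_⟩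
      simp only [bad', mem_filter, mem_univ, true_and]
      exact fun i hi => hx2 i (hL' hi)
    · left
      push Not at hg
      obtain ⟨p, hp, B, hB⟩ := hg
      rw [mem_biUnion]
      refine ⟨(p, B), by simp [hp], ?_⟩
      simp only [bad, mem_filter, mem_univ, true_and]
      exact hB
  have h3 := (card_le_card h1).trans ((card_union_le _ _).trans
    (Nat.add_le_add card_biUnion_le card_biUnion_le))
  have h4 : ∀ z ∈ Fam ×ˢ (univ : Finset (Finset (Fin k))),
      ((bad z).card : ℝ) ≤ (Fintype.card (Fin k → α → Fin m) : ℝ) / 4 ^ κ := by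
    intro z _
    rcases z.1.eq_empty_or_nonempty with hp | hp
    · have : bad z = ∅ := by
        rw [filter_eq_empty_iff]
        intro g _
        rw [hp, sum_empty, not_lt, zero_pow two_ne_zero]
        have : 0 ≤ D z.2 ∅ := by
          rw [hD]
          positivity
        linarith
      rw [this, card_empty, Nat.cast_zero]
      positivity
    · rw [le_div_iff₀ (by positivity)]
      have hW : (0 : ℝ) < Wp z.2 z.1 := by exact_mod_cast Wp_pos z.2 hp
      have hm0 : (0 : ℝ) < m := by exact_mod_cast hm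
      have hκ0 : (0 : ℝ) < κ := by exact_mod_cast hκ
      have hDp : 0 < D z.2 z.1 := by
        rw [hD]
        positivity
      have h5 := k1 hm hκ η z.2 z.1
      have h6 : ((bad z).card : ℝ) * (4 * D z.2 z.1) ^ κ ≤
          ∑ g : Fin k → α → Fin m, (∑ x ∈ z.1, Qf g η z.2 x) ^ (2 * κ) := by
        rw [← nsmul_eq_mul, ← sum_const]
        refine (sum_le_sum fun g hg => ?_).trans
          (sum_le_sum_of_subset_of_nonneg (filter_subset _ _)
            fun g _ _ => (even_two_mul κ).pow_nonneg _)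
        simp only [bad, mem_filter] at hg
        rw [pow_mul]
        exact pow_le_pow_left₀ (by positivity) hg.2.le _
      have h7 := h6.trans h5
      rw [mul_pow] at h7
      have hc : 0 < D z.2 z.1 ^ κ := by positivity
      refine le_of_mul_le_mul_right ?_ hc
      calc ((bad z).card : ℝ) * 4 ^ κ * D z.2 z.1 ^ κ
          = ((bad z).card : ℝ) * (4 ^ κ * D z.2 z.1 ^ κ) := by ring
        _ ≤ _ := h7
  have hm0 : (0 : ℝ) < m := by exact_mod_cast hm
  have h4' : ∀ z ∈ S ×ˢ Ls,
      ((bad' z).card : ℝ) ≤ (Fintype.card (Fin k → α → Fin m) : ℝ) / m ^ h := by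
    intro z hz
    rw [le_div_iff₀ (by positivity)]
    have h5 := card_on η z.1 z.2
    have h6 : z.2.card = h := (mem_filter.1 (mem_product.1 hz).2).2
    rw [h6] at h5
    exact_mod_cast h5.le
  have : Nonempty (Fin m) := ⟨⟨0, hm⟩⟩
  have hG : (0 : ℝ) < (Fintype.card (Fin k → α → Fin m) : ℝ) := by
    exact_mod_cast Fintype.card_pos
  set N : ℝ := (Fintype.card (Fin k → α → Fin m) : ℝ) with hN
  have h5 : N ≤ ((Fam.card * 2 ^ k : ℕ) : ℝ) * (N / 4 ^ κ) +
      ((S.card * Ls.card : ℕ) : ℝ) * (N / m ^ h) := by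
    calc N ≤ ((∑ z ∈ Fam ×ˢ (univ : Finset (Finset (Fin k))), (bad z).card +
            ∑ z ∈ S ×ˢ Ls, (bad' z).card : ℕ) : ℝ) := by
          rw [hN, ← card_univ]
          exact_mod_cast h3
      _ ≤ ∑ z ∈ Fam ×ˢ (univ : Finset (Finset (Fin k))), (N / 4 ^ κ) +
            ∑ z ∈ S ×ˢ Ls, (N / m ^ h) := by
          push_cast
          exact add_le_add (sum_le_sum h4) (sum_le_sum h4')
      _ = _ := by
          rw [sum_const, sum_const, card_product, card_product, nsmul_eq_mul, nsmul_eq_mul]
          congr 2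
          simp
  have h6 : 4 * ((Fam.card * 2 ^ k : ℕ) : ℝ) ≤ 4 ^ κ := by exact_mod_cast hF
  have h7 : 4 * ((S.card * Ls.card : ℕ) : ℝ) ≤ (m : ℝ) ^ h := by
    have : 4 * (S.card * Ls.card) ≤ m ^ h :=
      (Nat.mul_le_mul_left 4 (Nat.mul_le_mul_left _ hLs)).trans hS
    exact_mod_cast this
  have e1 : ((Fam.card * 2 ^ k : ℕ) : ℝ) * (N / 4 ^ κ) ≤ N / 4 := by
    rw [mul_div_assoc', div_le_div_iff₀ (by positivity) (by norm_num)]
    nlinarith
  have e2 : ((S.card * Ls.card : ℕ) : ℝ) * (N / m ^ h) ≤ N / 4 := by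
    rw [mul_div_assoc', div_le_div_iff₀ (by positivity) (by norm_num)]
    nlinarith
  linarith

end Pool.Agent.KCN
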