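import Pool.Agent.Lib.KCN.Defs

/-!
# Row P5: the pseudo-measure
-/

set_option autoImplicit false

namespace Pool.Agent.KCN

open Finset Pool.Agent.SL Pool.Agent.KCM

namespace P5x

variable {k m : ℕ} {α : Type}

theorem zv_nonneg (g : Fin k → α → Fin m) (η : Fin k → Fin m) (T : Finset (Fin k))
    (a : Fin k → α) : 0 ≤ zv g η T a := by
  unfold zv
  refine prod_nonneg fun i _ => ?_
  split_ifs <;> positivity

theorem zv_le (g : Fin k → α → Fin m) (η : Fin k → Fin m) (T : Finset (Fin k))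
    (a : Fin k → α) : zv g η T a ≤ (m : ℝ) ^ T.card := by
  unfold zv
  rw [← prod_const]
  refine prod_le_prod (fun i _ => ?_) fun i _ => ?_
  · split_ifs <;> positivity
  · have : (0 : ℝ) ≤ m := Nat.cast_nonneg m
    split_ifs <;> linarith

theorem zv_zero (g : Fin k → α → Fin m) (η : Fin k → Fin m) (T : Finset (Fin k))
    (a : Fin k → α) {i : Fin k} (hi : i ∈ T) (h : g i (a i) ≠ η i) : zv g η T a = 0 := by
  unfold zv
  refine prod_eq_zero hi ?_
  rw [if_neg h, mul_zero]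

variable [Fintype α] [DecidableEq α]

theorem mem_Fib {T : Finset (Fin k)} {a x : Fin k → α} : x ∈ Fib T a ↔ ∀ i ∈ T, x i = a i := by
  unfold Fib
  simp

theorem Wp_le {q D : ℕ} {S : Finset (Fin k → α)} (hS : SSp q D S) {B : Finset (Fin k)}
    (hB : B.card ≤ D) : Wp B S * q ^ B.card ≤ S.card * S.card := by
  have h1 : Wp B S = ∑ x ∈ S, (S ∩ Fib B x).card := by
    unfold Wp
    rw [card_filter, sum_product]
    refine sum_congr rfl fun x _ => ?_
    rw [← card_filter]
    congr 1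
    ext z
    rw [mem_filter, mem_inter, mem_Fib]
    refine and_congr_right fun _ => forall₂_congr fun i _ => ?_
    exact eq_comm
  rw [h1, sum_mul]
  calc ∑ x ∈ S, (S ∩ Fib B x).card * q ^ B.card ≤ ∑ _x ∈ S, S.card :=
        sum_le_sum fun x _ => hS B hB x
    _ = S.card * S.card := by rw [sum_const, smul_eq_mul]

/-- the total mass -/
theorem mass {q D : ℕ} {y : ℝ} (hy : 0 < y) (hq : 1 ≤ q)
    (ht : (k : ℝ) * (y / Real.sqrt (q : ℝ)) ≤ 1 / 32) {S : Finset (Fin k → α)}
    (hS : SSp q (2 * D) S) (g : Fin k → α → Fin m) (η : Fin k → Fin m)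
    (hG : ∀ B : Finset (Fin k),
        (∑ x ∈ S, Qf g η B x) ^ 2 ≤ 4 * ((y ^ 2) ^ B.card * (Wp B S : ℝ))) :
    (S.card : ℝ) / 4 ≤ ∑ x ∈ S, Kr D g η x := by
  set ρ : ℝ := y / Real.sqrt (q : ℝ) with hρ
  have hq' : (0 : ℝ) < q := by exact_mod_cast hq
  have hsq : 0 < Real.sqrt (q : ℝ) := Real.sqrt_pos.2 hq'
  have hρ0 : 0 < ρ := by positivity
  have hρ2 : ρ ^ 2 = y ^ 2 / q := by
    rw [hρ, div_pow, Real.sq_sqrt hq'.le]
  set N : ℝ := (S.card : ℝ) with hN
  have hN0 : 0 ≤ N := Nat.cast_nonneg _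
  set F : Finset (Finset (Fin k)) := univ.filter (fun A => A.card ≤ D) with hF
  have h1 : ∑ x ∈ S, Kr D g η x = ∑ A ∈ F, ∑ x ∈ S, Qf g η A x := by
    unfold Kr
    rw [sum_comm]
  have h0F : (∅ : Finset (Fin k)) ∈ F := by
    rw [hF, mem_filter]
    exact ⟨mem_univ _, by simp⟩
  have h2 : ∑ A ∈ F, ∑ x ∈ S, Qf g η A x = N + ∑ A ∈ F.erase ∅, ∑ x ∈ S, Qf g η A x := by
    rw [← add_sum_erase F _ h0F]
    congr 1
    simp [Qf, hN]
  have h3 : ∀ A ∈ F.erase ∅, -(2 * N * ρ ^ A.card) ≤ ∑ x ∈ S, Qf g η A x := by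
    intro A hA
    have hA' : A.card ≤ D := (mem_filter.1 (mem_of_mem_erase hA)).2
    have h4 := hG A
    have h5 : (Wp A S : ℝ) * (q : ℝ) ^ A.card ≤ N * N := by
      have := Wp_le hS (B := A) (by omega)
      rw [hN]
      exact_mod_cast this
    have h6 : (∑ x ∈ S, Qf g η A x) ^ 2 ≤ (2 * N * ρ ^ A.card) ^ 2 := by
      refine h4.trans ?_
      have e : (2 * N * ρ ^ A.card) ^ 2 = 4 * ((y ^ 2) ^ A.card * (N * N / (q : ℝ) ^ A.card)) := by
        rw [mul_pow, ← pow_mul, mul_comm A.card 2, pow_mul, hρ2, div_pow]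
        ring
      rw [e]
      have h7 : (Wp A S : ℝ) ≤ N * N / (q : ℝ) ^ A.card := by
        rw [le_div_iff₀ (by positivity)]
        exact h5
      gcongr
    have h8 : 0 ≤ 2 * N * ρ ^ A.card := by positivity
    have h9 := abs_le_of_sq_le_sq h6 h8
    exact (abs_le.1 h9).1
  have h10 : ∑ A ∈ F.erase ∅, 2 * N * ρ ^ A.card ≤ 2 * N * ((1 + ρ) ^ k - 1) := by
    rw [← mul_sum]
    refine mul_le_mul_of_nonneg_left ?_ (by positivity)
    have e1 : ∑ A ∈ (univ : Finset (Finset (Fin k))).erase ∅, ρ ^ A.card = (1 + ρ) ^ k - 1 := by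
      have e2 := Fintype.sum_pow_mul_eq_add_pow (Fin k) ρ 1
      simp only [one_pow, mul_one, Fintype.card_fin] at e2
      rw [← add_sum_erase univ _ (mem_univ (∅ : Finset (Fin k)))] at e2
      rw [card_empty, pow_zero, add_comm ρ 1] at e2
      linarith
    rw [← e1]
    refine sum_le_sum_of_subset_of_nonneg (erase_subset_erase _ (filter_subset _ _)) ?_
    intro A _ _
    positivity
  have h11 : (1 + ρ) ^ k ≤ 32 / 31 := by
    have e1 : (1 + ρ) ^ k ≤ Real.exp (k * ρ) := by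
      rw [Real.exp_nat_mul]
      refine pow_le_pow_left₀ (by positivity) ?_ _
      have := Real.add_one_le_exp ρ
      linarith
    have e2 := Real.exp_bound_div_one_sub_of_interval (x := (k : ℝ) * ρ) (by positivity)
      (by linarith)
    refine e1.trans (e2.trans ?_)
    rw [div_le_div_iff₀ (by linarith) (by norm_num)]
    linarith
  rw [h1, h2]
  have h12 : -(∑ A ∈ F.erase ∅, 2 * N * ρ ^ A.card) ≤ ∑ A ∈ F.erase ∅, ∑ x ∈ S, Qf g η A x := by
    rw [← sum_neg_distrib]
    exact sum_le_sum h3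
  nlinarith

omit [DecidableEq α] in
/-- the sum of the tails -/
theorem tails {E sU sS N : ℝ} (hE : 0 ≤ E) (h1 : sU ≤ sS) (h2 : 0 ≤ sS) (h3 : sS * sS = N)
    (w : Finset (Fin k) → (Fin k → α) → ℝ)
    (hw : ∑ T : Finset (Fin k), ∑ a : Fin k → α, w T a ≤ 2 * sU) :
    ∑ T : Finset (Fin k), ∑ a : Fin k → α, 6 * E * w T a * sS ≤ 12 * E * N := by
  have e : ∑ T : Finset (Fin k), ∑ a : Fin k → α, 6 * E * w T a * sS =
      6 * E * (∑ T : Finset (Fin k), ∑ a : Fin k → α, w T a) * sS := by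
    rw [mul_sum, sum_mul]
    refine sum_congr rfl fun T _ => ?_
    rw [mul_sum, sum_mul]
  rw [e]
  calc _ ≤ 6 * E * (2 * sU) * sS := by gcongr
    _ ≤ 6 * E * (2 * sS) * sS := by gcongr
    _ = 12 * E * (sS * sS) := by ring
    _ = _ := by rw [h3]

/-- a piece with `|T| = D`, `i ∉ T` -/
theorem top {q D : ℕ} (hq : 1 ≤ q) {y t E sr c z N : ℝ} (hy : 1 ≤ y) (hk : 1 ≤ k)
    (ht : t = (k : ℝ) * (y / Real.sqrt (q : ℝ))) (hE : E = (16 * ((m : ℝ) + 1) * t) ^ (D + 1))
    (hsr : sr = 16 * k * y) (hc : 0 ≤ c) (hcN : c * (q : ℝ) ^ (D + 1) ≤ N)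
    (hz : z ≤ (m : ℝ) ^ D) :
    3 / 2 * (c * z) ≤ 1 / 4 * (6 * E * (Real.sqrt c / sr ^ D) * Real.sqrt N) := by
  have hk' : (1 : ℝ) ≤ k := by exact_mod_cast hk
  have hm0 : (0 : ℝ) ≤ m := Nat.cast_nonneg m
  have hq' : (0 : ℝ) < q := by exact_mod_cast hq
  set sq : ℝ := Real.sqrt (q : ℝ) with hsq
  have hsq0 : 0 < sq := Real.sqrt_pos.2 hq'
  have hsq2 : sq ^ 2 = q := Real.sq_sqrt hq'.le
  have hy0 : 0 < y := by linarith
  have hN : 0 ≤ N := le_trans (by positivity) hcN
  have h1 : Real.sqrt c * sq ^ (D + 1) ≤ Real.sqrt N := by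
    refine (sq_le_sq₀ (by positivity) (Real.sqrt_nonneg _)).1 ?_
    rw [mul_pow, Real.sq_sqrt hc, Real.sq_sqrt hN, ← pow_mul, mul_comm (D + 1) 2, pow_mul, hsq2]
    exact hcN
  have hcc : Real.sqrt c * Real.sqrt c = c := Real.mul_self_sqrt hc
  have hE' : E / sr ^ D = ((m : ℝ) + 1) ^ (D + 1) * (16 * k * y) / sq ^ (D + 1) := by
    rw [hE, ht, hsr]
    have e1 : 16 * ((m : ℝ) + 1) * ((k : ℝ) * (y / sq)) = ((m : ℝ) + 1) * (16 * k * y) / sq := by
      field_simp
    rw [e1, div_pow, mul_pow, pow_succ (16 * (k : ℝ) * y) D]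
    field_simp
  have h2 : (m : ℝ) ^ D ≤ ((m : ℝ) + 1) ^ (D + 1) * (16 * k * y) := by
    have e1 : (m : ℝ) ^ D ≤ ((m : ℝ) + 1) ^ D := pow_le_pow_left₀ hm0 (by linarith) _
    have e2 : ((m : ℝ) + 1) ^ D ≤ ((m : ℝ) + 1) ^ (D + 1) :=
      pow_le_pow_right₀ (by linarith) (Nat.le_succ D)
    have e3 : (1 : ℝ) ≤ 16 * k * y := by nlinarith
    have e4 : (0 : ℝ) ≤ ((m : ℝ) + 1) ^ (D + 1) := by positivity
    nlinarith
  calc 3 / 2 * (c * z) ≤ 3 / 2 * (c * (m : ℝ) ^ D) := by gcongr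
    _ ≤ 3 / 2 * (c * (((m : ℝ) + 1) ^ (D + 1) * (16 * k * y))) := by gcongr
    _ = 3 / 2 * (Real.sqrt c * sq ^ (D + 1) * Real.sqrt c *
        (((m : ℝ) + 1) ^ (D + 1) * (16 * k * y) / sq ^ (D + 1))) := by
        rw [mul_right_comm (Real.sqrt c) (sq ^ (D + 1)) (Real.sqrt c), hcc]
        field_simp
    _ ≤ 3 / 2 * (Real.sqrt N * Real.sqrt c *
        (((m : ℝ) + 1) ^ (D + 1) * (16 * k * y) / sq ^ (D + 1))) := by gcongr
    _ = 1 / 4 * (6 * E * (Real.sqrt c / sr ^ D) * Real.sqrt N) := by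
        rw [← hE']
        ring

end P5x

open P5x in
theorem p5 : P2 → P3 → P4 → P5 := by
  classical
  intro h2 h3 h4 k m κ q D α _ _ hk hm hκ hq hD η S Fam hSne hSp hFam hcard hSm hLam
  have hk' : (1 : ℝ) ≤ k := by exact_mod_cast hk
  have hm' : (1 : ℝ) ≤ m := by exact_mod_cast hm
  have hκ' : (1 : ℝ) ≤ κ := by exact_mod_cast hκ
  have hq' : (0 : ℝ) < q := by exact_mod_cast hq
  have hsq : 0 < Real.sqrt (q : ℝ) := Real.sqrt_pos.2 hq'
  set y : ℝ := Real.sqrt (24 * (κ : ℝ) * (m : ℝ) ^ 2) with hy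
  have hy2 : y ^ 2 = 24 * (κ : ℝ) * (m : ℝ) ^ 2 := Real.sq_sqrt (by positivity)
  have hy0 : 0 < y := Real.sqrt_pos.2 (by positivity)
  have hm2 : (1 : ℝ) ≤ (m : ℝ) ^ 2 := by nlinarith
  have hy1 : 1 ≤ y := by
    have h : (1 : ℝ) ≤ y ^ 2 := by
      rw [hy2]
      nlinarith
    nlinarith
  set t : ℝ := (k : ℝ) * (y / Real.sqrt (q : ℝ)) with ht
  have ht0 : 0 < t := by positivity
  set E : ℝ := (16 * (m + 1) * t) ^ (D + 1) with hE
  have hE0 : 0 < E := by positivity
  have hLE : Lam k m κ q D = 15 * E := rfl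
  rw [hLE] at hLam
  have ht32 : t ≤ 1 / 32 := by
    by_contra hcon
    rw [not_le] at hcon
    have : (1 : ℝ) ≤ 16 * (m + 1) * t := by nlinarith
    have h5 : (1 : ℝ) ≤ E := one_le_pow₀ this
    linarith
  set r : ℕ := 256 * k ^ 2 * (24 * κ * m ^ 2) with hr
  have hr' : (r : ℝ) = (16 * k * y) ^ 2 := by
    rw [mul_pow, hy2, hr]
    push_cast
    ring
  have hsr : Real.sqrt (r : ℝ) = 16 * k * y := by
    rw [hr', Real.sqrt_sq (by positivity)]
  have hr2 : 2 ≤ r := by
    rw [hr]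
    have h1 : 1 ≤ k ^ 2 := Nat.one_le_pow _ _ hk
    have h2 : 1 ≤ m ^ 2 := Nat.one_le_pow _ _ hm
    have h3 : 1 ≤ κ * m ^ 2 := Nat.mul_le_mul hκ h2 |>.trans' (by norm_num)
    have h4 : 1 ≤ k ^ 2 * (κ * m ^ 2) := Nat.mul_le_mul h1 h3 |>.trans' (by norm_num)
    calc 2 ≤ 256 * 24 * 1 := by norm_num
      _ ≤ 256 * 24 * (k ^ 2 * (κ * m ^ 2)) := Nat.mul_le_mul_left _ h4
      _ = _ := by ring
  have hEt : E = (16 * (m + 1) * ((k : ℝ) * (y / Real.sqrt (q : ℝ)))) ^ (D + 1) := rfl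
  clear_value r E t y
  choose P hP1 hP2 hP3 hP4 hP5 using fun U => h3 k D r α (by omega) U
  -- the family
  set Fam' : Finset (Finset (Fin k → α)) := insert S
    ((Fam ×ˢ (univ : Finset (Finset (Fin k) × (Fin k → α)))).image
      (fun z => P z.1 z.2.1 z.2.2)) with hFam'
  have hc1 : Fam'.card ≤ (Fam.card + 1) * (2 ^ k * Fintype.card (Fin k → α)) := by
    refine (card_insert_le _ _).trans ?_
    have h5 := card_image_le (s := Fam ×ˢ (univ : Finset (Finset (Fin k) × (Fin k → α))))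
      (f := fun z => P z.1 z.2.1 z.2.2)
    rw [card_product, card_univ, Fintype.card_prod, Fintype.card_finset, Fintype.card_fin] at h5
    have h6 : 0 < Fintype.card (Fin k → α) := by
      obtain ⟨x, _⟩ := hSne
      exact Fintype.card_pos_iff.2 ⟨x⟩
    have h7 : 0 < 2 ^ k * Fintype.card (Fin k → α) := by positivity
    rw [add_mul, one_mul]
    omega
  obtain ⟨g, hg1, hg2⟩ := h2 k m κ α hm hκ η Fam' S (by
    refine le_trans ?_ hcard
    gcongr) hSm
  have hG : ∀ p ∈ Fam', ∀ B : Finset (Fin k), (∑ x ∈ p, Qf g η B x) ^ 2 ≤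
      4 * ((y ^ 2) ^ B.card * (Wp B p : ℝ)) := by
    intro p hp B
    rw [hy2]
    exact hg1 p hp B
  refine ⟨g, Kr D g η, hg2, ?_, ?_, ?_⟩
  · exact mass hy0 hq (by rw [← ht]; exact ht32) hSp g η (hG S (mem_insert_self _ _))
  all_goals rw [hLE]
  all_goals clear hcard hSm hc1 hg1 hr
  all_goals intro U hU
  all_goals
    have hUS : U ⊆ S := hFam U hU
    have htail := tails hE0.le (Real.sqrt_le_sqrt (Nat.cast_le.2 (card_le_card hUS)))
      (Real.sqrt_nonneg _) (Real.mul_self_sqrt (Nat.cast_nonneg (α := ℝ) S.card)) _ (hP5 U)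
    have hpiece : ∀ T a, (P U T a).Nonempty →
        |(∑ x ∈ P U T a, Kr D g η x) - (P U T a).card * zv g η T a| ≤
          (P U T a).card * (zv g η T a / 2) +
          6 * E * (Real.sqrt ((P U T a).card : ℝ) / Real.sqrt (r : ℝ) ^ T.card) *
            Real.sqrt (S.card : ℝ) := by
      intro T a h
      rw [hEt]
      exact h4 k m r q D α y hk hm hq hy0 hsr (by rw [← ht]; linarith) S g η T a (P U T a) hSp
          (hP4 U T a h) ((hP1 U T a).trans (inter_subset_inter_right hUS)) (hP3 U T a)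
          (hG _ (mem_insert_of_mem (mem_image.2 ⟨(U, T, a), mem_product.2 ⟨hU, mem_univ _⟩, rfl⟩)))
  -- lower bound
  · have hlow : ∀ T a, -(6 * E * (Real.sqrt ((P U T a).card : ℝ) / Real.sqrt (r : ℝ) ^ T.card) *
        Real.sqrt (S.card : ℝ)) ≤ ∑ x ∈ P U T a, Kr D g η x := by
      intro T a
      rcases (P U T a).eq_empty_or_nonempty with h | h
      · rw [h]
        simp
      · have h6 := (abs_le.1 (hpiece T a h)).1
        have h7 : 0 ≤ ((P U T a).card : ℝ) * zv g η T a :=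
          mul_nonneg (Nat.cast_nonneg _) (zv_nonneg g η T a)
        have h8 : ((P U T a).card : ℝ) * (zv g η T a / 2) =
          ((P U T a).card : ℝ) * zv g η T a / 2 := by ring
        rw [h8] at h6
        linarith
    rw [hP2 U]
    have hsum : -(∑ T : Finset (Fin k), ∑ a : Fin k → α,
        6 * E * (Real.sqrt ((P U T a).card : ℝ) / Real.sqrt (r : ℝ) ^ T.card) *
        Real.sqrt (S.card : ℝ)) ≤
        ∑ T : Finset (Fin k), ∑ a : Fin k → α, ∑ x ∈ P U T a, Kr D g η x := by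
      rw [← sum_neg_distrib]
      refine sum_le_sum fun T _ => ?_
      rw [← sum_neg_distrib]
      exact sum_le_sum fun a _ => hlow T a
    have h9 : 0 ≤ E * (S.card : ℝ) := mul_nonneg hE0.le (Nat.cast_nonneg _)
    nlinarith
  -- upper bound
  · intro i v hv hgv
    have hup : ∀ T a, ∑ x ∈ P U T a, Kr D g η x ≤
        5 / 4 * (6 * E * (Real.sqrt ((P U T a).card : ℝ) / Real.sqrt (r : ℝ) ^ T.card) *
        Real.sqrt (S.card : ℝ)) := by
      intro T a
      rcases (P U T a).eq_empty_or_nonempty with h | h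
      · rw [h]
        simp
      · have h6 := (abs_le.1 (hpiece T a h)).2
        set tl : ℝ := 6 * E * (Real.sqrt ((P U T a).card : ℝ) / Real.sqrt (r : ℝ) ^ T.card) *
          Real.sqrt (S.card : ℝ) with htl
        have htl0 : 0 ≤ tl := mul_nonneg (mul_nonneg (mul_nonneg (by norm_num) hE0.le)
          (div_nonneg (Real.sqrt_nonneg _) (pow_nonneg (Real.sqrt_nonneg _) _)))
          (Real.sqrt_nonneg _)
        obtain ⟨x₀, hx₀⟩ := h
        have hpU : P U T a ⊆ U := (hP1 U T a).trans inter_subset_left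
        by_cases hi : i ∈ T
        · have hz : zv g η T a = 0 := by
            refine zv_zero g η T a hi ?_
            have h7 := mem_Fib.1 (mem_inter.1 (hP1 U T a hx₀)).2 i hi
            rw [← h7, hv x₀ (hpU hx₀)]
            exact hgv
          rw [hz] at h6
          linarith
        · by_cases hTD : T.card < D
          · exfalso
            have h7 := hP3 U T a {i} (disjoint_singleton_left.2 hi) (by simpa using hTD) x₀
            have h8 : (P U T a).filter (fun x => ∀ j ∈ ({i} : Finset (Fin k)), x j = x₀ j) =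
                P U T a := by
              refine filter_true_of_mem fun x hx j hj => ?_
              rw [mem_singleton] at hj
              rw [hj, hv x (hpU hx), hv x₀ (hpU hx₀)]
            rw [h8, card_singleton, pow_one] at h7
            have h9 : 0 < (P U T a).card := card_pos.2 ⟨x₀, hx₀⟩
            nlinarith
          · have hTD' : T.card = D := le_antisymm (hP4 U T a ⟨x₀, hx₀⟩) (not_lt.1 hTD)
            have h7 : (P U T a).card * q ^ (D + 1) ≤ S.card := by
              have h8 : (insert i T).card = D + 1 := by rw [card_insert_of_notMem hi, hTD']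
              have h9 := hSp (insert i T) (by omega) x₀
              rw [h8] at h9
              refine le_trans (Nat.mul_le_mul_right _ (card_le_card ?_)) h9
              intro x hx
              refine mem_inter.2 ⟨hUS (hpU hx), mem_Fib.2 fun j hj => ?_⟩
              rcases mem_insert.1 hj with h10 | h10
              · rw [h10, hv x (hpU hx), hv x₀ (hpU hx₀)]
              · rw [mem_Fib.1 (mem_inter.1 (hP1 U T a hx)).2 j h10,
                  mem_Fib.1 (mem_inter.1 (hP1 U T a hx₀)).2 j h10]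
            have h12 : zv g η T a ≤ (m : ℝ) ^ D := by
              have := zv_le g η T a
              rwa [hTD'] at this
            have h11 := top (m := m) hq hy1 hk ht hE hsr
              (Nat.cast_nonneg (α := ℝ) (P U T a).card) (N := (S.card : ℝ))
              (by exact_mod_cast h7) h12
            have h13 : tl = 6 * E * (Real.sqrt ((P U T a).card : ℝ) / Real.sqrt (r : ℝ) ^ D) *
                Real.sqrt (S.card : ℝ) := by rw [htl, hTD']
            rw [← h13] at h11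
            have h14 : ((P U T a).card : ℝ) * (zv g η T a / 2) =
              ((P U T a).card : ℝ) * zv g η T a / 2 := by ring
            rw [h14] at h6
            linarith
    rw [hP2 U]
    have hsum : ∑ T : Finset (Fin k), ∑ a : Fin k → α, ∑ x ∈ P U T a, Kr D g η x ≤
        5 / 4 * ∑ T : Finset (Fin k), ∑ a : Fin k → α,
        6 * E * (Real.sqrt ((P U T a).card : ℝ) / Real.sqrt (r : ℝ) ^ T.card) *
        Real.sqrt (S.card : ℝ) := by
      rw [mul_sum]
      refine sum_le_sum fun T _ => ?_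
      rw [mul_sum]
      exact sum_le_sum fun a _ => hup T a
    linarith

end Pool.Agent.KCN
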