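import Pool.Agent.Lib.KCN.PMD2
import Pool.Agent.Lib.KCN.P5G

/-!
# Row P5H: the pseudo-measure, with the value of all large sets
-/

set_option autoImplicit false

namespace Pool.Agent.KCN

open Finset Pool.Agent.SL Pool.Agent.KCM


open P5Gx in
/-- P5H -/
theorem p5h (h2 : P2G) (h3 : P3) (h4 : P4) : P5H := by
  intro k m κ q D h α _ _ hk hm hκ hq hD η S Fam hne hsp hFS hcard hS hLam
  classical
  have hk' : (1 : ℝ) ≤ k := by exact_mod_cast hk
  have hm' : (1 : ℝ) ≤ m := by exact_mod_cast hm
  have hκ' : (1 : ℝ) ≤ κ := by exact_mod_cast hκ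
  have hq' : (1 : ℝ) ≤ q := by exact_mod_cast hq
  set y : ℝ := Real.sqrt (24 * (κ : ℝ) * (m : ℝ) ^ 2) with hy
  have hy2 : y ^ 2 = 24 * (κ : ℝ) * (m : ℝ) ^ 2 := Real.sq_sqrt (by positivity)
  have hy1 : 1 ≤ y := by
    rw [hy]
    refine Real.one_le_sqrt.2 ?_
    nlinarith [mul_le_mul hκ' (one_le_pow₀ hm' (n := 2)) (by norm_num) (by positivity)]
  have hy0 : 0 < y := by linarith
  set sq : ℝ := Real.sqrt (q : ℝ) with hsq
  have hsq1 : 1 ≤ sq := Real.one_le_sqrt.2 hq'
  have hsq0 : 0 < sq := by linarith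
  set r : ℕ := (16 * k) ^ 2 * (24 * κ * m ^ 2) with hr
  have hrs : Real.sqrt (r : ℝ) = 16 * k * y := by
    rw [Real.sqrt_eq_iff_mul_self_eq (by positivity) (by positivity), hr]
    push_cast
    nlinarith [hy2]
  set ρ : ℝ := 16 * k * y with hρ
  have hρ1 : 1 ≤ ρ := by
    rw [hρ]
    nlinarith
  have hρ0 : 0 < ρ := by linarith
  set Λ : ℝ := 16 * ((m : ℝ) + 1) * (k * (y / sq)) with hΛ
  have hΛ0 : 0 ≤ Λ := by positivity
  have hLamE : Lam k m κ q D = 15 * Λ ^ (D + 1) := by
    unfold Lam
    rw [← hy, ← hsq, ← hΛ]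
  have hΛe : Λ = ((m : ℝ) + 1) * ρ / sq := by
    rw [hΛ, hρ]
    ring
  rw [hLamE] at hLam
  have hΛ1 : Λ < 1 := by
    by_contra hcon
    have := one_le_pow₀ (not_lt.1 hcon) (n := D + 1)
    linarith
  have hψ : (k : ℝ) * (y / sq) ≤ 1 := by
    have h5 : (k : ℝ) * (y / sq) ≤ Λ := by
      rw [hΛ]
      have h6 : 0 ≤ (k : ℝ) * (y / sq) := by positivity
      nlinarith
    linarith
  have hrq : r ≤ q := by
    have h5 : ρ ≤ sq := by
      have h6 : ((m : ℝ) + 1) * ρ < sq := by
        rw [hΛe, div_lt_one hsq0] at hΛ1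
        exact hΛ1
      nlinarith
    rw [← hrs, hsq] at h5
    have h6 := (Real.sqrt_le_sqrt_iff (by positivity)).1 h5
    exact_mod_cast h6
  have hr2 : 2 ≤ r := by
    rw [hr]
    have h5 : 1 ≤ k ^ 2 := Nat.one_le_pow _ _ hk
    have h6 : 1 ≤ κ * m ^ 2 := Nat.mul_pos hκ (Nat.pow_pos hm)
    calc 2 ≤ 256 * 24 := by norm_num
      _ ≤ 256 * 24 * (k ^ 2 * (κ * m ^ 2)) := Nat.le_mul_of_pos_right _ (Nat.mul_pos h5 h6)
      _ = (16 * k) ^ 2 * (24 * κ * m ^ 2) := by ring
  choose P hP1 hP2 hP3 hP4 hP5 using h3 k D r α (by omega)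
  obtain ⟨x₀, hx₀⟩ := hne
  set Fam' : Finset (Finset (Fin k → α)) := Fam ∪ (Fam.biUnion fun U =>
    (univ : Finset (Finset (Fin k) × (Fin k → α))).image fun z => P U z.1 z.2) with hFam'
  have hne' : Nonempty (Fin k → α) := ⟨x₀⟩
  have hFcard : Fam'.card ≤ (2 * Fam.card + 2) * (2 ^ k * Fintype.card (Fin k → α)) := by
    have h5 : (Fam.biUnion fun U =>
        (univ : Finset (Finset (Fin k) × (Fin k → α))).image fun z => P U z.1 z.2).card ≤
        Fam.card * (2 ^ k * Fintype.card (Fin k → α)) := by
      refine card_biUnion_le_card_mul _ _ _ fun U _ => card_image_le.trans (le_of_eq ?_)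
      rw [card_univ, Fintype.card_prod, Fintype.card_finset, Fintype.card_fin]
    have h6 : 1 ≤ 2 ^ k * Fintype.card (Fin k → α) :=
      Nat.mul_pos (Nat.pow_pos (by norm_num)) Fintype.card_pos
    calc Fam'.card ≤ Fam.card + _ := card_union_le _ _
      _ ≤ Fam.card * (2 ^ k * Fintype.card (Fin k → α)) +
          Fam.card * (2 ^ k * Fintype.card (Fin k → α)) :=
          Nat.add_le_add (Nat.le_mul_of_pos_right _ h6) h5
      _ ≤ _ := by nlinarith
  obtain ⟨g, hg1, hg2⟩ := h2 k m κ h α hm hκ η Fam' S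
    (le_trans (Nat.mul_le_mul_left 4 (Nat.mul_le_mul_right _ hFcard)) (by
      rw [← mul_assoc] at hcard ⊢
      exact hcard)) hS
  set sS : ℝ := Real.sqrt (S.card : ℝ) with hsS
  have hsS0 : 0 ≤ sS := Real.sqrt_nonneg _
  have hsS2 : sS * sS = S.card := Real.mul_self_sqrt (Nat.cast_nonneg _)
  have hScard : (0 : ℝ) < S.card := by exact_mod_cast card_pos.2 ⟨x₀, hx₀⟩
  -- value of a piece
  have hval : ∀ (T : Finset (Fin k)) (a : Fin k → α) (p : Finset (Fin k → α)), T.card ≤ D →
      p ⊆ S ∩ Fib T a → SpD r D T p → p ∈ Fam' →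
      |(∑ x ∈ p, Kr D g η x) - p.card * zv g η T a| ≤ p.card * (zv g η T a / 2) +
        6 * Λ ^ (D + 1) * (Real.sqrt (p.card : ℝ) / ρ ^ T.card) * sS := by
    intro T a p hT hp hsp' hmem
    have h5 := h4 k m r q D α y hk hm hq hy0 hrs hψ S g η T a p hsp hT hp hsp'
      (fun B => by rw [hy2]; exact hg1 p hmem B)
    rw [hrs] at h5
    exact h5
  clear hcard hS hg1 h2 h3 h4 hFcard hy2
  clear_value sS Λ ρ sq y r
  refine ⟨g, fun x => Kr D g η x, hg2, ?_, ?_, ?_⟩
  · -- the large sets
    intro L hL1 hLq U hU hSU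
    have hL0 : (0 : ℝ) < L := by
      have : 0 < L := by omega
      exact_mod_cast this
    have hfilt : ∀ (B : Finset (Fin k)) (a : Fin k → α),
        U.filter (fun x => ∀ i ∈ B, x i = a i) ⊆ S ∩ Fib B a := by
      intro B a x hx
      rw [mem_filter] at hx
      rw [mem_inter, R1x.mem_Fib]
      exact ⟨hFS U hU hx.1, hx.2⟩
    have hspU : SpD r D ∅ U := by
      intro B _ hB a
      rcases B.eq_empty_or_nonempty with hBe | hBn
      · rw [hBe, card_empty, pow_zero, mul_one]
        exact card_filter_le _ _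
      · rw [card_empty, zero_add] at hB
        have e1 := hsp B (by omega) a
        have e2 := card_le_card (hfilt B a)
        have hc : 1 ≤ B.card := card_pos.2 hBn
        have e3 : L * r ^ B.card ≤ q ^ B.card := by
          calc L * r ^ B.card ≤ L ^ B.card * r ^ B.card :=
                Nat.mul_le_mul_right _ (Nat.le_self_pow (by omega) L)
            _ = (L * r) ^ B.card := (mul_pow _ _ _).symm
            _ ≤ q ^ B.card := Nat.pow_le_pow_left hLq _
        have e4 : L * ((U.filter (fun x => ∀ i ∈ B, x i = a i)).card * r ^ B.card) ≤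
            L * U.card := by
          calc L * ((U.filter (fun x => ∀ i ∈ B, x i = a i)).card * r ^ B.card)
              = (U.filter (fun x => ∀ i ∈ B, x i = a i)).card * (L * r ^ B.card) := by ring
            _ ≤ (S ∩ Fib B a).card * q ^ B.card := Nat.mul_le_mul e2 e3
            _ ≤ S.card := e1
            _ ≤ L * U.card := hSU
        exact Nat.le_of_mul_le_mul_left e4 (by omega)
    have h5 := hval ∅ x₀ U (by simp) (by
      intro x hx
      rw [mem_inter, R1x.mem_Fib]
      exact ⟨hFS U hU hx, fun i hi => absurd hi (notMem_empty i)⟩) hspU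
      (mem_union_left _ hU)
    have hz : zv g η ∅ x₀ = 1 := by
      unfold zv
      rw [prod_empty]
    rw [hz, card_empty, pow_zero, div_one, mul_one] at h5
    have h6 := (abs_le.1 h5).1
    have h9 : Real.sqrt (U.card : ℝ) ≤ sS := by
      rw [hsS]
      exact Real.sqrt_le_sqrt (Nat.cast_le.2 (card_le_card (hFS U hU)))
    have h7 : 6 * Λ ^ (D + 1) * Real.sqrt (U.card : ℝ) * sS ≤ 15 * Λ ^ (D + 1) * S.card := by
      have e1 := pow_nonneg hΛ0 (D + 1)
      calc 6 * Λ ^ (D + 1) * Real.sqrt (U.card : ℝ) * sS ≤ 6 * Λ ^ (D + 1) * sS * sS := by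
            gcongr
        _ = 6 * Λ ^ (D + 1) * S.card := by rw [mul_assoc, hsS2]
        _ ≤ 15 * Λ ^ (D + 1) * S.card := by
            refine mul_le_mul_of_nonneg_right ?_ hScard.le
            linarith
    have h8 : (S.card : ℝ) / (2 * L) ≤ U.card * (1 / 2) := by
      rw [div_le_iff₀ (by positivity)]
      have : (S.card : ℝ) ≤ L * U.card := by exact_mod_cast hSU
      linarith
    rw [hLamE]
    linarith
  · -- lower bound
    intro U hU
    rw [hLamE, hP2 U]
    have h5 : ∀ (T : Finset (Fin k)) (a : Fin k → α),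
        -(6 * Λ ^ (D + 1) * (Real.sqrt ((P U T a).card : ℝ) / ρ ^ T.card) * sS) ≤
          ∑ x ∈ P U T a, Kr D g η x := by
      intro T a
      rcases (P U T a).eq_empty_or_nonempty with he | he
      · rw [he, sum_empty, card_empty, Nat.cast_zero, Real.sqrt_zero, zero_div, mul_zero, zero_mul,
          neg_zero]
      · have h6 := hval T a (P U T a) (hP4 U T a he)
          ((hP1 U T a).trans (inter_subset_inter_right (hFS U hU))) (hP3 U T a)
          (mem_union_right _ (mem_biUnion.2 ⟨U, hU, mem_image.2 ⟨(T, a), mem_univ _, rfl⟩⟩))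
        have h7 := (abs_le.1 h6).1
        have h8 : 0 ≤ ((P U T a).card : ℝ) * zv g η T a :=
          mul_nonneg (Nat.cast_nonneg _) (zv_nonneg g η T a)
        linarith
    have h6 : ∑ T : Finset (Fin k), ∑ a : Fin k → α,
        -(6 * Λ ^ (D + 1) * (Real.sqrt ((P U T a).card : ℝ) / ρ ^ T.card) * sS) ≤
        ∑ T : Finset (Fin k), ∑ a : Fin k → α, ∑ x ∈ P U T a, Kr D g η x :=
      sum_le_sum fun T _ => sum_le_sum fun a _ => h5 T a
    refine le_trans ?_ h6
    have h7 := hP5 U
    rw [hrs] at h7
    have h8 : ∑ T : Finset (Fin k), ∑ a : Fin k → α,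
        -(6 * Λ ^ (D + 1) * (Real.sqrt ((P U T a).card : ℝ) / ρ ^ T.card) * sS) =
        -(6 * Λ ^ (D + 1) * sS * ∑ T : Finset (Fin k), ∑ a : Fin k → α,
          Real.sqrt ((P U T a).card : ℝ) / ρ ^ T.card) := by
      simp_rw [mul_sum, ← sum_neg_distrib]
      refine sum_congr rfl fun T _ => sum_congr rfl fun a _ => ?_
      ring
    rw [h8]
    have h9 : Real.sqrt (U.card : ℝ) ≤ sS := by
      rw [hsS]
      exact Real.sqrt_le_sqrt (Nat.cast_le.2 (card_le_card (hFS U hU)))
    have h10 : 6 * Λ ^ (D + 1) * sS * ∑ T : Finset (Fin k), ∑ a : Fin k → α,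
          Real.sqrt ((P U T a).card : ℝ) / ρ ^ T.card ≤ 6 * Λ ^ (D + 1) * sS * (2 * sS) :=
      mul_le_mul_of_nonneg_left (by linarith) (by positivity)
    have h11 : 6 * Λ ^ (D + 1) * sS * (2 * sS) = 12 * Λ ^ (D + 1) * S.card := by
      rw [← hsS2]
      ring
    have h12 : 12 * Λ ^ (D + 1) * (S.card : ℝ) ≤ 15 * Λ ^ (D + 1) * S.card :=
      mul_le_mul_of_nonneg_right (by nlinarith [pow_nonneg hΛ0 (D + 1)]) hScard.le
    linarith
  · -- upper bound inside a non-edge
    intro U hU i v hUv hgv
    rw [hLamE, hP2 U]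
    have h5 : ∀ (T : Finset (Fin k)) (a : Fin k → α),
        ∑ x ∈ P U T a, Kr D g η x ≤
          15 / 2 * Λ ^ (D + 1) * (Real.sqrt ((P U T a).card : ℝ) / ρ ^ T.card) * sS := by
      intro T a
      have hpS0 : P U T a ⊆ S ∩ Fib T a :=
        (hP1 U T a).trans (inter_subset_inter_right (hFS U hU))
      have hpU0 : P U T a ⊆ U := (hP1 U T a).trans inter_subset_left
      have hTD0 := hP4 U T a
      have hSp0 := hP3 U T a
      have hm0 : P U T a ∈ Fam' :=
        mem_union_right _ (mem_biUnion.2 ⟨U, hU, mem_image.2 ⟨(T, a), mem_univ _, rfl⟩⟩)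
      generalize P U T a = p at hpS0 hpU0 hTD0 hSp0 hm0 ⊢
      obtain ⟨sp, hspd⟩ : ∃ sp : ℝ, sp = Real.sqrt (p.card : ℝ) := ⟨_, rfl⟩
      have hsp0 : 0 ≤ sp := by rw [hspd]; exact Real.sqrt_nonneg _
      have hsp2 : sp * sp = p.card := by
        rw [hspd]; exact Real.mul_self_sqrt (Nat.cast_nonneg _)
      rw [← hspd]
      have hE0 : 0 ≤ Λ ^ (D + 1) * (sp / ρ ^ T.card) * sS := by
        have e1 := pow_nonneg hΛ0 (D + 1)
        have e2 := (pow_pos hρ0 T.card).le
        exact mul_nonneg (mul_nonneg e1 (div_nonneg hsp0 e2)) hsS0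
      rcases p.eq_empty_or_nonempty with he | he
      · rw [he, sum_empty]
        linarith
      · have hpS := hpS0
        have hpU := hpU0
        have hTD : T.card ≤ D := hTD0 he
        have h6 := hval T a p hTD hpS hSp0 hm0
        rw [← hspd] at h6
        have h7 := (abs_le.1 h6).2
        have hmain : (p.card : ℝ) * zv g η T a * (3 / 2) ≤
            3 / 2 * (Λ ^ (D + 1) * (sp / ρ ^ T.card) * sS) := by
          by_cases hiT : i ∈ T
          · obtain ⟨x, hx⟩ := he
            have h8 : a i = v := by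
              rw [← R1x.mem_Fib.1 (mem_inter.1 (hpS hx)).2 i hiT]
              exact hUv x (hpU hx)
            rw [zv_zero g η T a i hiT (h8 ▸ hgv), mul_zero, zero_mul]
            linarith
          · rcases hTD.lt_or_eq with hlt | heq
            · exfalso
              have h8 := hSp0 {i} (disjoint_singleton_left.2 hiT) (by
                rw [card_singleton]; omega) (fun _ => v)
              rw [card_singleton, pow_one, filter_true_of_mem (by
                intro x hx j hj
                rw [mem_singleton.1 hj]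
                exact hUv x (hpU hx))] at h8
              have h9 : 0 < p.card := card_pos.2 he
              nlinarith
            · -- `|T| = D`
              set a' : Fin k → α := Function.update a i v with ha'
              have h8 : p ⊆ S ∩ Fib (insert i T) a' := by
                intro x hx
                have h9 := mem_inter.1 (hpS hx)
                rw [mem_inter, R1x.mem_Fib]
                refine ⟨h9.1, fun j hj => ?_⟩
                by_cases hji : j = i
                · rw [hji, ha', Function.update_self]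
                  exact hUv x (hpU hx)
                · rw [ha', Function.update_of_ne hji]
                  rcases mem_insert.1 hj with h10 | h10
                  · exact absurd h10 hji
                  · exact R1x.mem_Fib.1 h9.2 j h10
              have hc : (insert i T).card = D + 1 := by
                rw [card_insert_of_notMem hiT, heq]
              have h9 := hsp (insert i T) (by omega) a'
              rw [hc] at h9
              have h10 : p.card * q ^ (D + 1) ≤ S.card :=
                (Nat.mul_le_mul_right _ (card_le_card h8)).trans h9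
              have h11 : (p.card : ℝ) * (q : ℝ) ^ (D + 1) ≤ S.card := by exact_mod_cast h10
              have h12 : sp * sq ^ (D + 1) ≤ sS := by
                refine (sq_le_sq₀ (mul_nonneg hsp0 (pow_nonneg hsq0.le _)) hsS0).1 ?_
                have e1 : sq ^ 2 = (q : ℝ) := by
                  rw [hsq, Real.sq_sqrt (Nat.cast_nonneg _)]
                have e2 : sp ^ 2 = (p.card : ℝ) := by rw [pow_two, hsp2]
                have e3 : sS ^ 2 = (S.card : ℝ) := by rw [pow_two, hsS2]
                rw [mul_pow, ← pow_mul, mul_comm (D + 1) 2, pow_mul, e1, e2, e3]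
                exact h11
              have hz := zv_le g η T a
              rw [heq] at hz ⊢
              have hz0 := zv_nonneg g η T a
              have h13 : (p.card : ℝ) * zv g η T a ≤ sp * (m : ℝ) ^ D * (sS / sq ^ (D + 1)) := by
                rw [← hsp2]
                have h14 : sp ≤ sS / sq ^ (D + 1) := by
                  rw [le_div_iff₀ (by positivity)]
                  exact h12
                calc sp * sp * zv g η T a ≤ sp * (sS / sq ^ (D + 1)) * (m : ℝ) ^ D := by
                      gcongr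
                  _ = _ := by ring
              have h15 : (m : ℝ) ^ D ≤ (((m : ℝ) + 1) * ρ) ^ (D + 1) / ρ ^ D := by
                rw [le_div_iff₀ (by positivity), ← mul_pow]
                calc ((m : ℝ) * ρ) ^ D ≤ (((m : ℝ) + 1) * ρ) ^ D := by gcongr; linarith
                  _ ≤ (((m : ℝ) + 1) * ρ) ^ (D + 1) := by
                      refine pow_le_pow_right₀ ?_ (by omega)
                      nlinarith
              have h16 : Λ ^ (D + 1) * (sp / ρ ^ D) * sS =
                  sp * ((((m : ℝ) + 1) * ρ) ^ (D + 1) / ρ ^ D) * (sS / sq ^ (D + 1)) := by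
                rw [hΛe, div_pow]
                field_simp
              rw [h16]
              have h17 : sp * (m : ℝ) ^ D * (sS / sq ^ (D + 1)) ≤
                  sp * ((((m : ℝ) + 1) * ρ) ^ (D + 1) / ρ ^ D) * (sS / sq ^ (D + 1)) := by
                gcongr
              linarith
        linarith
    have h6 : ∑ T : Finset (Fin k), ∑ a : Fin k → α, ∑ x ∈ P U T a, Kr D g η x ≤
        ∑ T : Finset (Fin k), ∑ a : Fin k → α,
          15 / 2 * Λ ^ (D + 1) * (Real.sqrt ((P U T a).card : ℝ) / ρ ^ T.card) * sS :=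
      sum_le_sum fun T _ => sum_le_sum fun a _ => h5 T a
    refine h6.trans ?_
    have h7 := hP5 U
    rw [hrs] at h7
    have h8 : ∑ T : Finset (Fin k), ∑ a : Fin k → α,
        15 / 2 * Λ ^ (D + 1) * (Real.sqrt ((P U T a).card : ℝ) / ρ ^ T.card) * sS =
        15 / 2 * Λ ^ (D + 1) * sS * ∑ T : Finset (Fin k), ∑ a : Fin k → α,
          Real.sqrt ((P U T a).card : ℝ) / ρ ^ T.card := by
      simp_rw [mul_sum]
      refine sum_congr rfl fun T _ => sum_congr rfl fun a _ => ?_
      ring
    rw [h8]
    have h9 : Real.sqrt (U.card : ℝ) ≤ sS := by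
      rw [hsS]
      exact Real.sqrt_le_sqrt (Nat.cast_le.2 (card_le_card (hFS U hU)))
    have h10 : 15 / 2 * Λ ^ (D + 1) * sS * ∑ T : Finset (Fin k), ∑ a : Fin k → α,
          Real.sqrt ((P U T a).card : ℝ) / ρ ^ T.card ≤ 15 / 2 * Λ ^ (D + 1) * sS * (2 * sS) :=
      mul_le_mul_of_nonneg_left (by linarith) (by positivity)
    have h11 : 15 / 2 * Λ ^ (D + 1) * sS * (2 * sS) = 15 * Λ ^ (D + 1) * S.card := by
      rw [← hsS2]
      ring
    linarith

end Pool.Agent.KCN
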