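import Pool.Agent.Lib.KCN.Defs2
import Pool.Agent.Lib.KCN.PAR

/-!
# MP_678664_lc, gap form, row PARG: the parameters
-/

set_option autoImplicit false

namespace Pool.Agent.KCN

open Filter Topology

namespace PARGx

/-- the base of `Lam` -/
theorem base_le {γ n X k κ C A : ℝ} {j : ℕ} (hA : 1 ≤ A) (hj : 12 ≤ γ * j) (hj12 : 12 ≤ j)
    (hn : 1 ≤ n) (hX : 1 ≤ X) (hk : 1 ≤ k) (hκ : κ ≤ 8 * n ^ (2 - γ))
    (hXn : X ^ j ≤ n) (hnX : n ≤ C * X ^ j) :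
    16 * (A * X + 1) * (k * (Real.sqrt (24 * κ * (A * X) ^ 2) / X ^ (j - 1))) ≤
      448 * A ^ 2 * k * C * n ^ (-(γ / 4)) := by
  have hn0 : 0 < n := by linarith
  have hX0 : 0 < X := by linarith
  have hXj : 0 < X ^ j := pow_pos hX0 j
  have hC : 0 ≤ C := by
    by_contra h
    push Not at h
    nlinarith
  -- the root
  have hA0 : 0 < A := by linarith
  have h1 : Real.sqrt (24 * κ * (A * X) ^ 2) ≤ 14 * A * n ^ (1 - γ / 2) * X := by
    rw [Real.sqrt_le_left (by positivity)]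
    have h2 : (n ^ (1 - γ / 2)) ^ 2 = n ^ (2 - γ) := by
      rw [← Real.rpow_natCast, ← Real.rpow_mul hn0.le]
      congr 1
      push_cast
      ring
    have h3 : (14 * A * n ^ (1 - γ / 2) * X) ^ 2 = 196 * n ^ (2 - γ) * (A * X) ^ 2 := by
      rw [← h2]
      ring
    rw [h3]
    refine mul_le_mul_of_nonneg_right ?_ (by positivity)
    linarith [Real.rpow_nonneg hn0.le (2 - γ)]
  have h2 : X ^ (j - 1) * X = X ^ j := by
    rw [← pow_succ]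
    congr 1
    omega
  -- `X³`
  have h3 : X ^ 3 ≤ n ^ (γ / 4) := by
    have hj0 : (0 : ℝ) < j := by
      have : (12 : ℝ) ≤ j := by exact_mod_cast hj12
      linarith
    have e1 : X ^ 3 = (X ^ j) ^ ((3 : ℝ) / j) := by
      rw [← Real.rpow_natCast X j, ← Real.rpow_mul hX0.le, mul_div_cancel₀ _ hj0.ne']
      norm_num
    rw [e1]
    calc (X ^ j) ^ ((3 : ℝ) / j) ≤ n ^ ((3 : ℝ) / j) :=
          Real.rpow_le_rpow hXj.le hXn (by positivity)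
      _ ≤ n ^ (γ / 4) := by
          refine Real.rpow_le_rpow_of_exponent_le hn ?_
          rw [div_le_div_iff₀ hj0 (by norm_num)]
          linarith
  have h4 : 1 / X ^ j ≤ C / n := by
    rw [div_le_div_iff₀ hXj hn0]
    linarith
  have h5 : n ^ (1 - γ / 2) * n ^ (γ / 4) * (C / n) = C * n ^ (-(γ / 4)) := by
    rw [← Real.rpow_add hn0]
    have e : (C / n : ℝ) = C * n ^ (-1 : ℝ) := by
      rw [Real.rpow_neg_one]
      rfl
    rw [e, mul_comm, mul_assoc, ← Real.rpow_add hn0]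
    congr 2
    ring
  have hAX : A * X + 1 ≤ 2 * A * X := by nlinarith
  calc 16 * (A * X + 1) * (k * (Real.sqrt (24 * κ * (A * X) ^ 2) / X ^ (j - 1)))
      ≤ 16 * (2 * A * X) * (k * ((14 * A * n ^ (1 - γ / 2) * X) / X ^ (j - 1))) := by
        gcongr
    _ = 448 * A ^ 2 * k * (n ^ (1 - γ / 2) * X ^ 3 * (1 / X ^ j)) := by
        rw [← h2]
        field_simp
        ring
    _ ≤ 448 * A ^ 2 * k * (n ^ (1 - γ / 2) * n ^ (γ / 4) * (C / n)) := by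
        gcongr
    _ = 448 * A ^ 2 * k * C * n ^ (-(γ / 4)) := by
        rw [h5]
        ring

end PARGx

open PARx in
theorem parg : PARG := by
  intro γ ε hγ hγ1 hε
  obtain ⟨j, hj⟩ : ∃ j : ℕ, 12 / γ ≤ j := exists_nat_ge _
  have hjγ : 12 ≤ γ * j := by
    rw [div_le_iff₀ hγ] at hj
    linarith
  have hj12 : 12 ≤ j := by
    have h1 : (12 : ℝ) ≤ j := by nlinarith [Nat.cast_nonneg (α := ℝ) j]
    exact_mod_cast h1
  have hjpos : (0 : ℝ) < j := by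
    have : 0 < j := by omega
    exact_mod_cast this
  obtain ⟨r, hr⟩ : ∃ r : ℕ, 2 / ε ≤ r := exists_nat_ge _
  refine ⟨γ * ε / (384 * j ^ 2), by positivity, ⌈2 * (j : ℝ) ^ 2 / ε⌉₊, ?_⟩
  intro k' e hk' he
  have hεk : 2 * (j : ℝ) ^ 2 ≤ ε * k' := by
    have h1 : 2 * (j : ℝ) ^ 2 / ε ≤ k' := (Nat.le_ceil _).trans (by exact_mod_cast hk')
    rw [div_le_iff₀ hε] at h1
    linarith
  have hj12' : (12 : ℝ) ≤ j := by exact_mod_cast hj12
  obtain ⟨h, hh⟩ : ∃ h : ℕ, h = ⌊ε * k'⌋₊ := ⟨_, rfl⟩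
  have hh1 : (h : ℝ) ≤ ε * k' := by
    rw [hh]
    exact Nat.floor_le (by positivity)
  have hh2 : ε * k' ≤ 2 * h := by
    have h1 := Nat.lt_floor_add_one (ε * (k' : ℝ))
    rw [← hh] at h1
    nlinarith
  have hhj : 2 * j ^ 2 ≤ h := by
    rw [hh]
    refine Nat.le_floor ?_
    push_cast
    exact hεk
  have he' : (e : ℝ) ≤ 1 := by exact_mod_cast he
  have he0 : (0 : ℝ) ≤ e := Nat.cast_nonneg e
  have hrh : k' ≤ r * h := by
    have h1 : (2 : ℝ) ≤ r * ε := by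
      rw [div_le_iff₀ hε] at hr
      exact hr
    have h2 : (k' : ℝ) * 2 ≤ (r * h) * 2 := by
      calc (k' : ℝ) * 2 ≤ k' * (r * ε) := mul_le_mul_of_nonneg_left h1 (Nat.cast_nonneg k')
        _ = r * (ε * k') := by ring
        _ ≤ r * (2 * h) := mul_le_mul_of_nonneg_left hh2 (Nat.cast_nonneg r)
        _ = (r * h) * 2 := by ring
    have h3 : (k' : ℝ) ≤ ((r * h : ℕ) : ℝ) := by
      push_cast
      linarith
    exact_mod_cast h3
  refine ⟨h, ?_, ?_⟩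
  · nlinarith
  set A : ℕ := 2 ^ (r + 2) with hA
  have hA1 : 1 ≤ A := Nat.one_le_two_pow
  have hA1' : (1 : ℝ) ≤ (A : ℝ) := by exact_mod_cast hA1
  set K := h / j with hK
  set D := K / (2 * j) with hD
  set M := K ^ (2 * k') with hM
  have hj1 : 1 ≤ j := by omega
  have hk'1 : 1 ≤ k' := by
    by_contra h1
    have h2 : k' = 0 := by omega
    rw [h2] at hεk
    push_cast at hεk
    nlinarith
  have hK2j : 2 * j ≤ K := by
    rw [hK, Nat.le_div_iff_mul_le (by omega)]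
    nlinarith
  have hK1 : 1 ≤ K := by omega
  have hD1 : 1 ≤ D := by
    rw [hD, Nat.le_div_iff_mul_le (by omega)]
    omega
  have hDK : 2 * j * D ≤ K := Nat.mul_div_le K (2 * j)
  have hKk : j * K ≤ h := Nat.mul_div_le h j
  have hM1 : 1 ≤ M := Nat.one_le_pow _ _ hK1
  have hMK : K ^ (2 * k' - 1) * K = M := by
    rw [hM, ← pow_succ]
    congr 1
    omega
  have hL1 : 1 ≤ j * M := Nat.mul_pos (by omega) (by omega)
  -- the exponent
  have hexp : γ * ε / (384 * j ^ 2) * (2 * k' + e) ≤ γ / 16 * ((D : ℝ) + 1) := by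
    have h1 : K < 2 * j * (D + 1) := by
      have := Nat.lt_mul_div_succ K (by omega : 0 < 2 * j)
      rw [← hD] at this
      exact this
    have h2 : h < j * (K + 1) := by
      have := Nat.lt_mul_div_succ h (by omega : 0 < j)
      rw [← hK] at this
      exact this
    have h3 : h < j * (2 * j * (D + 1)) := by
      calc h < j * (K + 1) := h2
        _ ≤ j * (2 * j * (D + 1)) := Nat.mul_le_mul_left _ (by omega)
    have h3' : (h : ℝ) ≤ 2 * j ^ 2 * (D + 1) := by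
      have : (h : ℝ) < ((j * (2 * j * (D + 1)) : ℕ) : ℝ) := by exact_mod_cast h3
      push_cast at this
      nlinarith
    have h4 : (2 * (k' : ℝ) + e) ≤ 3 * k' := by
      have : 2 * k' + e ≤ 3 * k' := by omega
      exact_mod_cast this
    have h5 : ε * (2 * k' + e) ≤ 12 * j ^ 2 * (D + 1) := by
      calc ε * (2 * k' + e) ≤ ε * (3 * k') := mul_le_mul_of_nonneg_left h4 hε.le
        _ = 3 * (ε * k') := by ring
        _ ≤ 3 * (2 * h) := mul_le_mul_of_nonneg_left hh2 (by norm_num)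
        _ ≤ 12 * j ^ 2 * (D + 1) := by linarith
    calc γ * ε / (384 * j ^ 2) * (2 * k' + e) = γ / (384 * j ^ 2) * (ε * (2 * k' + e)) := by
          ring
      _ ≤ γ / (384 * j ^ 2) * (12 * j ^ 2 * (D + 1)) :=
          mul_le_mul_of_nonneg_left h5 (by positivity)
      _ = γ / 32 * ((D : ℝ) + 1) := by
          field_simp
          ring
      _ ≤ γ / 16 * ((D : ℝ) + 1) := by
          gcongr
          norm_num
  -- the constant
  set C₂ : ℝ := 2 * k' * 2 ^ (j * M) with hC₂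
  have hev := (ev_rpow (448 * (A : ℝ) ^ 2 * k' * C₂) (γ / 8) (by positivity)).and
    ((ev_rpow 240 (γ / 16) (by positivity)).and
      ((ev_pow (64 * 4 ^ k') (by positivity) (2 * k')).and (eventually_ge_atTop (2 * k' + 1))))
  obtain ⟨n₀, hn₀⟩ := eventually_atTop.1 hev
  refine ⟨n₀, fun n hn => ?_⟩
  obtain ⟨hAn, hB, hE, hn2⟩ := hn₀ n hn
  obtain ⟨w₁, hw1, hwn, hnw⟩ := exists_root (j * M) (2 * k') n hL1 (by omega) hn2
  have hn1 : (1 : ℝ) ≤ n := by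
    have : 1 ≤ n := by omega
    exact_mod_cast this
  have hn0 : (0 : ℝ) < n := by linarith
  set s : ℝ := (n : ℝ) ^ (2 - γ) with hs
  have hsn : (n : ℝ) ≤ s := by
    have h1 : (n : ℝ) ^ (1 : ℝ) ≤ (n : ℝ) ^ (2 - γ) :=
      Real.rpow_le_rpow_of_exponent_le hn1 (by linarith)
    rwa [Real.rpow_one] at h1
  have hs1 : 1 ≤ s := by linarith
  -- `X = w₁ ^ M`
  have hX1 : 1 ≤ w₁ ^ M := Nat.one_le_pow _ _ hw1
  have hXj : (w₁ ^ M) ^ j = w₁ ^ (j * M) := by rw [← pow_mul, mul_comm]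
  have hwM : (w₁ ^ j) ^ M = w₁ ^ (j * M) := by rw [← pow_mul]
  have hwM' : (w₁ ^ j) ^ M ≤ n := by
    rw [hwM]
    have : w₁ ^ (j * M) ≤ 2 * k' * w₁ ^ (j * M) := Nat.le_mul_of_pos_left _ (by omega)
    omega
  have hκpos : 0 < ⌈s⌉₊ := Nat.ceil_pos.2 (by linarith)
  have hκle : ((4 * ⌈s⌉₊ : ℕ) : ℝ) ≤ 8 * s := by
    have h1 := Nat.ceil_lt_add_one (by linarith : (0 : ℝ) ≤ s)
    push_cast
    linarith
  -- the bound for `Lam`
  have hX1' : (1 : ℝ) ≤ ((w₁ ^ M : ℕ) : ℝ) := by exact_mod_cast hX1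
  have hbase : 16 * ((A * w₁ ^ M : ℕ) + 1 : ℝ) * ((k' : ℝ) *
      (Real.sqrt (24 * ((4 * ⌈s⌉₊ : ℕ) : ℝ) * ((A * w₁ ^ M : ℕ) : ℝ) ^ 2) /
        Real.sqrt (((w₁ ^ M) ^ (2 * (j - 1)) : ℕ) : ℝ))) ≤ (n : ℝ) ^ (-(γ / 8)) := by
    have h1 : Real.sqrt (((w₁ ^ M) ^ (2 * (j - 1)) : ℕ) : ℝ) =
        ((w₁ ^ M : ℕ) : ℝ) ^ (j - 1) := by
      rw [Nat.cast_pow, mul_comm, pow_mul, Real.sqrt_sq (by positivity)]
    rw [h1]
    have h2 := PARGx.base_le (A := (A : ℝ)) (γ := γ) (n := n) (X := ((w₁ ^ M : ℕ) : ℝ)) (k := k')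
      (κ := ((4 * ⌈s⌉₊ : ℕ) : ℝ)) (C := C₂) (j := j) hA1' hjγ hj12 hn1 hX1'
      (by exact_mod_cast hk'1) hκle (by
        rw [← Nat.cast_pow, hXj]
        have h3 : w₁ ^ (j * M) ≤ n := by rw [← hwM]; exact hwM'
        exact_mod_cast h3) (by
        rw [← Nat.cast_pow, hXj]
        have h3 : (n : ℝ) ≤ ((2 * k' * (2 * w₁) ^ (j * M) : ℕ) : ℝ) := by exact_mod_cast hnw
        refine h3.trans (le_of_eq ?_)
        rw [hC₂]
        push_cast
        rw [mul_pow]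
        ring)
    have h3 : ((A * w₁ ^ M : ℕ) : ℝ) = A * ((w₁ ^ M : ℕ) : ℝ) := by push_cast; ring
    rw [h3]
    refine h2.trans ?_
    have h4 : (n : ℝ) ^ (-(γ / 8)) = (n : ℝ) ^ (γ / 8) * (n : ℝ) ^ (-(γ / 4)) := by
      rw [← Real.rpow_add hn0]
      congr 1
      ring
    rw [h4]
    exact mul_le_mul_of_nonneg_right hAn (Real.rpow_nonneg hn0.le _)
  have hbase0 : (0 : ℝ) ≤ 16 * ((A * w₁ ^ M : ℕ) + 1 : ℝ) * ((k' : ℝ) *
      (Real.sqrt (24 * ((4 * ⌈s⌉₊ : ℕ) : ℝ) * ((A * w₁ ^ M : ℕ) : ℝ) ^ 2) /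
        Real.sqrt (((w₁ ^ M) ^ (2 * (j - 1)) : ℕ) : ℝ))) := by positivity
  have hLam : Lam k' (A * w₁ ^ M) (4 * ⌈s⌉₊) ((w₁ ^ M) ^ (2 * (j - 1))) D ≤
      15 * ((n : ℝ) ^ (-(γ / 8))) ^ (D + 1) := by
    unfold Lam
    refine mul_le_mul_of_nonneg_left ?_ (by norm_num)
    exact pow_le_pow_left₀ hbase0 hbase _
  have hsmall : 240 * (n : ℝ) ^ (-(γ / 16)) ≤ 1 := by
    rw [Real.rpow_neg hn0.le]
    have h1 : 0 < (n : ℝ) ^ (γ / 16) := Real.rpow_pos_of_pos hn0 _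
    rw [← div_eq_mul_inv, div_le_one h1]
    exact hB
  have hle1 : (n : ℝ) ^ (-(γ / 16)) ≤ 1 := by
    have := Real.rpow_nonneg hn0.le (-(γ / 16))
    linarith
  have hnn : (0 : ℝ) ≤ (n : ℝ) ^ (-(γ / 16)) := Real.rpow_nonneg hn0.le _
  have h7 : 240 * ((n : ℝ) ^ (-(γ / 8))) ^ (D + 1) *
      (n : ℝ) ^ (γ * ε / (384 * j ^ 2) * (2 * k' + e)) ≤ 1 := by
    have h1 : (n : ℝ) ^ (γ * ε / (384 * j ^ 2) * (2 * k' + e)) ≤
        (n : ℝ) ^ (γ / 16 * ((D : ℝ) + 1)) :=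
      Real.rpow_le_rpow_of_exponent_le hn1 hexp
    have h2 : (n : ℝ) ^ (γ / 16 * ((D : ℝ) + 1)) = ((n : ℝ) ^ (γ / 16)) ^ (D + 1) := by
      rw [← Real.rpow_natCast, ← Real.rpow_mul hn0.le]
      push_cast
      rfl
    have h3 : ((n : ℝ) ^ (-(γ / 8))) ^ (D + 1) * ((n : ℝ) ^ (γ / 16)) ^ (D + 1) =
        ((n : ℝ) ^ (-(γ / 16))) ^ (D + 1) := by
      rw [← mul_pow, ← Real.rpow_add hn0]
      congr 2
      ring
    calc 240 * ((n : ℝ) ^ (-(γ / 8))) ^ (D + 1) *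
        (n : ℝ) ^ (γ * ε / (384 * j ^ 2) * (2 * k' + e))
        ≤ 240 * ((n : ℝ) ^ (-(γ / 8))) ^ (D + 1) * ((n : ℝ) ^ (γ / 16)) ^ (D + 1) := by
          rw [← h2]
          exact mul_le_mul_of_nonneg_left h1 (by positivity)
      _ = 240 * ((n : ℝ) ^ (-(γ / 16))) ^ (D + 1) := by rw [mul_assoc, h3]
      _ ≤ 240 * (n : ℝ) ^ (-(γ / 16)) := by
          refine mul_le_mul_of_nonneg_left ?_ (by norm_num)
          rw [pow_succ]
          exact mul_le_of_le_one_left hnn (pow_le_one₀ hnn hle1)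
      _ ≤ 1 := hsmall
  refine ⟨K, w₁ ^ j, D, (w₁ ^ M) ^ (2 * (j - 1)), A * w₁ ^ M, 4 * ⌈s⌉₊, hK1,
    Nat.one_le_pow _ _ hw1, hD1, Nat.one_le_pow _ _ hX1,
    Nat.mul_pos hA1 hX1, by omega, ?_, ?_, ?_, ?_, ?_,
    ?_, ?_⟩
  · have : 2 * D ≤ 2 * j * D := Nat.mul_le_mul_right _ (by omega)
    omega
  · rw [hwM]
    omega
  · rw [← pow_mul, ← pow_mul]
    refine Nat.pow_le_pow_right hw1 ?_
    have h1 : (j - 1) * K ≤ j * (K - 2 * D) := by
      have h2 : j * (K - 2 * D) = j * K - j * (2 * D) := Nat.mul_sub _ _ _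
      have h3 : (j - 1) * K = j * K - K := by rw [Nat.sub_mul, one_mul]
      have h4 : j * (2 * D) ≤ K := by
        calc j * (2 * D) = 2 * j * D := by ring
          _ ≤ K := hDK
      omega
    calc M * (2 * (j - 1)) = 2 * K ^ (2 * k' - 1) * ((j - 1) * K) := by
          rw [← hMK]
          ring
      _ ≤ 2 * K ^ (2 * k' - 1) * (j * (K - 2 * D)) := Nat.mul_le_mul_left _ h1
      _ = j * (2 * K ^ (2 * k' - 1) * (K - 2 * D)) := by ring
  · -- (4)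
    have h1 : (w₁ ^ j) ^ (K * M) = (w₁ ^ M) ^ (j * K) := by
      rw [← pow_mul, ← pow_mul]
      congr 1
      ring
    rw [h1, mul_pow]
    have h2 : (w₁ ^ M) ^ (j * K) ≤ (w₁ ^ M) ^ h := Nat.pow_le_pow_right hX1 hKk
    have h0 : 1 ≤ h := by nlinarith
    have h3 : 4 * 2 ^ k' ≤ A ^ h := by
      calc 4 * 2 ^ k' = 2 ^ (k' + 2) := by ring
        _ ≤ 2 ^ ((r + 2) * h) := Nat.pow_le_pow_right (by norm_num) (by nlinarith)
        _ = A ^ h := by rw [hA, ← pow_mul]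
    calc 4 * ((w₁ ^ M) ^ (j * K) * 2 ^ k') = 4 * 2 ^ k' * (w₁ ^ M) ^ (j * K) := by ring
      _ ≤ A ^ h * (w₁ ^ M) ^ h := Nat.mul_le_mul h3 h2
  · -- (5)
    intro F hF
    have hN : (((w₁ ^ j) ^ M : ℕ) : ℝ) ≤ n := by exact_mod_cast hwM'
    have hR : (4 * ((F + 1) * (2 ^ k' * ((w₁ ^ j) ^ M * (w₁ ^ j) ^ M) ^ k') * 2 ^ k') : ℝ) ≤
        4 ^ (4 * ⌈s⌉₊) := by
      set a : ℝ := 2 ^ s with ha
      have ha1 : 1 ≤ a := Real.one_le_rpow one_le_two (by linarith)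
      have h2n : (2 : ℝ) ^ n ≤ a := by
        rw [ha, ← Real.rpow_natCast]
        exact Real.rpow_le_rpow_of_exponent_le one_le_two hsn
      have hab : a ≤ 2 ^ ⌈s⌉₊ := by
        rw [ha, ← Real.rpow_natCast]
        exact Real.rpow_le_rpow_of_exponent_le one_le_two (Nat.le_ceil s)
      have hF1 : (F : ℝ) + 1 ≤ 16 * a ^ 3 := by
        have h1 : (a + 1) ^ 3 ≤ (2 * a) ^ 3 := pow_le_pow_left₀ (by linarith) (by linarith) 3
        have h2 : 1 ≤ a ^ 3 := one_le_pow₀ ha1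
        nlinarith
      have hN0 : (0 : ℝ) ≤ ((w₁ : ℝ) ^ j) ^ M := by positivity
      have hN' : ((w₁ : ℝ) ^ j) ^ M ≤ n := by
        push_cast at hN
        exact hN
      have hNN : (((w₁ : ℝ) ^ j) ^ M * ((w₁ : ℝ) ^ j) ^ M) ^ k' ≤ (n : ℝ) ^ (2 * k') := by
        rw [pow_mul, ← sq]
        exact pow_le_pow_left₀ (by positivity) (pow_le_pow_left₀ hN0 hN' 2) k'
      calc (4 * ((F + 1) * (2 ^ k' * (((w₁ : ℝ) ^ j) ^ M * ((w₁ : ℝ) ^ j) ^ M) ^ k') *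
          2 ^ k') : ℝ)
          ≤ 4 * ((16 * a ^ 3) * (2 ^ k' * (n : ℝ) ^ (2 * k')) * 2 ^ k') := by
            gcongr
        _ = (64 * 4 ^ k' * (n : ℝ) ^ (2 * k')) * a ^ 3 := by
            have : (4 : ℝ) ^ k' = 2 ^ k' * 2 ^ k' := by
              rw [← mul_pow]
              norm_num
            rw [this]
            ring
        _ ≤ 2 ^ n * a ^ 3 := mul_le_mul_of_nonneg_right hE (by positivity)
        _ ≤ a * a ^ 3 := mul_le_mul_of_nonneg_right h2n (by positivity)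
        _ = a ^ 4 := by ring
        _ ≤ a ^ 8 := pow_le_pow_right₀ ha1 (by norm_num)
        _ ≤ (2 ^ ⌈s⌉₊) ^ 8 := pow_le_pow_left₀ (by linarith) hab 8
        _ = 4 ^ (4 * ⌈s⌉₊) := by
            rw [← pow_mul, show (4 : ℝ) = 2 ^ 2 by norm_num, ← pow_mul]
            congr 1
            ring
    exact_mod_cast hR
  · -- (6)
    refine hLam.trans ?_
    have h1 : (n : ℝ) ^ (-(γ / 8)) ≤ (n : ℝ) ^ (-(γ / 16)) :=
      Real.rpow_le_rpow_of_exponent_le hn1 (by linarith)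
    have h2 : (0 : ℝ) ≤ (n : ℝ) ^ (-(γ / 8)) := Real.rpow_nonneg hn0.le _
    have h3 : ((n : ℝ) ^ (-(γ / 8))) ^ (D + 1) ≤ (n : ℝ) ^ (-(γ / 8)) := by
      rw [pow_succ]
      exact mul_le_of_le_one_left h2 (pow_le_one₀ h2 (by linarith))
    linarith
  · -- (7)
    have h1 : (0 : ℝ) ≤ (n : ℝ) ^ (γ * ε / (384 * j ^ 2) * (2 * k' + e)) :=
      Real.rpow_nonneg hn0.le _
    calc 16 * Lam k' (A * w₁ ^ M) (4 * ⌈s⌉₊) ((w₁ ^ M) ^ (2 * (j - 1))) D *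
        (n : ℝ) ^ (γ * ε / (384 * j ^ 2) * (2 * k' + e))
        ≤ 16 * (15 * ((n : ℝ) ^ (-(γ / 8))) ^ (D + 1)) *
          (n : ℝ) ^ (γ * ε / (384 * j ^ 2) * (2 * k' + e)) := by
          refine mul_le_mul_of_nonneg_right ?_ h1
          exact mul_le_mul_of_nonneg_left hLam (by norm_num)
      _ = 240 * ((n : ℝ) ^ (-(γ / 8))) ^ (D + 1) *
          (n : ℝ) ^ (γ * ε / (384 * j ^ 2) * (2 * k' + e)) := by ring
      _ ≤ 1 := h7

end Pool.Agent.KCN
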