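import Pool.Agent.Lib.KCN.DefsE
import Pool.Agent.Lib.KCN.PARG
import Mathlib.NumberTheory.Bertrand

/-!
# MP_678664_lc, row PARE: the parameters (every `ε`)
-/

set_option autoImplicit false

namespace Pool.Agent.KCN

open Filter Topology

namespace PAREx

/-- a prime root -/
theorem exists_prime_root (L a t n : ℕ) (hL : 1 ≤ L) (ha : 1 ≤ a)
    (hn : a * (4 * t + 4) ^ L + t ≤ n) :
    ∃ p : ℕ, p.Prime ∧ t ≤ p ∧ a * p ^ L + t ≤ n ∧ n ≤ 2 * (a * (4 * p) ^ L) := by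
  have hpow : 4 * t + 4 ≤ (4 * t + 4) ^ L := Nat.le_self_pow (by omega) _
  have ha1 : a * 4 ≤ a * (4 * t + 4) ^ L := Nat.mul_le_mul_left a (by omega)
  obtain ⟨w, hw1, hw2, hw3⟩ := PARx.exists_root L a (n - t) hL ha (by omega)
  have hw : 2 * t + 2 ≤ w := by
    by_contra hcon
    push Not at hcon
    have h1 : (2 * w) ^ L < (4 * t + 4) ^ L := Nat.pow_lt_pow_left (by omega) (by omega)
    have h2 : a * (2 * w) ^ L < a * (4 * t + 4) ^ L := Nat.mul_lt_mul_of_pos_left h1 (by omega)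
    omega
  obtain ⟨p, hp, hp1, hp2⟩ := Nat.exists_prime_lt_and_le_two_mul (w / 2) (by omega)
  refine ⟨p, hp, by omega, ?_, ?_⟩
  · have h1 : p ^ L ≤ w ^ L := Nat.pow_le_pow_left (by omega) L
    have h2 : a * p ^ L ≤ a * w ^ L := Nat.mul_le_mul_left a h1
    omega
  · have h1 : (2 * w) ^ L ≤ (4 * p) ^ L := Nat.pow_le_pow_left (by omega) L
    have h2 : a * (2 * w) ^ L ≤ a * (4 * p) ^ L := Nat.mul_le_mul_left a h1
    have h3 : 4 * p ≤ (4 * p) ^ L := Nat.le_self_pow (by omega) _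
    have h4 : (4 * p) ^ L ≤ a * (4 * p) ^ L := Nat.le_mul_of_pos_left _ ha
    omega

end PAREx

open PARx in
theorem pare : PARE := by
  intro γ ε hγ hγ1 hε
  obtain ⟨t, ht4, ht1⟩ : ∃ t : ℕ, 4 / ε ≤ t ∧ 1 ≤ t := by
    obtain ⟨t, ht⟩ : ∃ t : ℕ, 4 / ε ≤ t := exists_nat_ge _
    exact ⟨t + 1, by push_cast; linarith, by omega⟩
  have htε : 4 ≤ ε * t := by
    rw [div_le_iff₀ hε] at ht4
    linarith
  obtain ⟨j, hj⟩ : ∃ j : ℕ, 12 / γ ≤ j := exists_nat_ge _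
  have hjγ : 12 ≤ γ * j := by
    rw [div_le_iff₀ hγ] at hj
    linarith
  have hj12 : 12 ≤ j := by
    have h1 : (12 : ℝ) ≤ j := by nlinarith [Nat.cast_nonneg (α := ℝ) j]
    exact_mod_cast h1
  have hjpos : (0 : ℝ) < j := by
    have : 0 < j := by omega
    exact_mod_cast this
  have htpos : (0 : ℝ) < t := by
    have : 0 < t := by omega
    exact_mod_cast this
  have hj1 : 1 ≤ j := by omega
  have ht3 : 1 ≤ t ^ 3 := Nat.one_le_pow _ _ ht1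
  refine ⟨t, ht1, γ / (256 * t ^ 4 * j ^ 2), by positivity, 4 * t ^ 3 * j ^ 2, ?_⟩
  intro k' e hk' he
  obtain ⟨h, hh⟩ : ∃ h : ℕ, h = k' / t ^ 3 := ⟨_, rfl⟩
  have hh1 : t ^ 3 * h ≤ k' := by
    rw [hh]
    exact Nat.mul_div_le k' (t ^ 3)
  have hhj : 4 * j ^ 2 ≤ h := by
    rw [hh, Nat.le_div_iff_mul_le (by omega)]
    calc 4 * j ^ 2 * t ^ 3 = 4 * t ^ 3 * j ^ 2 := by ring
      _ ≤ k' := hk'
  have hjj : 1 ≤ j ^ 2 := Nat.one_le_pow _ _ hj1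
  have h0 : 1 ≤ h := by omega
  have hh2 : k' ≤ 2 * t ^ 3 * h := by
    have h1 : k' < t ^ 3 * (h + 1) := by
      rw [hh]
      exact Nat.lt_mul_div_succ k' (by omega)
    have h2 : t ^ 3 * 1 ≤ t ^ 3 * h := Nat.mul_le_mul_left _ h0
    have h3 : t ^ 3 * (h + 1) = t ^ 3 * h + t ^ 3 * 1 := by ring
    have h4 : 2 * t ^ 3 * h = t ^ 3 * h + t ^ 3 * h := by ring
    omega
  have htk : t ≤ k' := by
    calc t ≤ t ^ 3 := Nat.le_self_pow (by omega) t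
      _ ≤ t ^ 3 * h := Nat.le_mul_of_pos_right _ h0
      _ ≤ k' := hh1
  have hek : e ≤ k' := by omega
  have hk'1 : 1 ≤ k' := by omega
  refine ⟨h, h0, ?_, ?_⟩
  · have e1 : ((t ^ 3 * h : ℕ) : ℝ) ≤ k' := by exact_mod_cast hh1
    have e2 : (e : ℝ) ≤ k' := by exact_mod_cast hek
    have e3 : 4 * (k' : ℝ) ≤ ε * t * k' :=
      mul_le_mul_of_nonneg_right htε (Nat.cast_nonneg k')
    have e4 : (0 : ℝ) ≤ ε * e := by positivity
    push_cast at e1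
    have e5 : ε * ((t : ℝ) * k' + e) = ε * t * k' + ε * e := by ring
    have e6 : (0 : ℝ) ≤ k' := Nat.cast_nonneg k'
    rw [e5]
    linarith
  set r := 2 * t ^ 3 with hr
  have hrh : k' ≤ r * h := hh2
  set A : ℕ := 2 ^ (r + 2) with hA
  have hA1 : 1 ≤ A := Nat.one_le_two_pow
  have hA1' : (1 : ℝ) ≤ (A : ℝ) := by exact_mod_cast hA1
  set K := h / (2 * j) with hK
  set D := K / (2 * j) with hD
  set M := K ^ k' with hM
  have hK2j : 2 * j ≤ K := by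
    rw [hK, Nat.le_div_iff_mul_le (by omega)]
    calc 2 * j * (2 * j) = 4 * j ^ 2 := by ring
      _ ≤ h := hhj
  have hK1 : 1 ≤ K := by omega
  have hD1 : 1 ≤ D := by
    rw [hD, Nat.le_div_iff_mul_le (by omega)]
    omega
  have hDK : 2 * j * D ≤ K := Nat.mul_div_le K (2 * j)
  have hKk : 2 * j * K ≤ h := Nat.mul_div_le h (2 * j)
  have hM1 : 1 ≤ M := Nat.one_le_pow _ _ hK1
  have hMK : K ^ (k' - 1) * K = M := by
    rw [hM, ← pow_succ]
    congr 1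
    omega
  have hL1 : 1 ≤ j * M := Nat.mul_pos (by omega) (by omega)
  -- the exponent
  have hexp : γ / (256 * t ^ 4 * j ^ 2) * (t * k' + e) ≤ γ / 16 * ((D : ℝ) + 1) := by
    have h1 : K < 2 * j * (D + 1) := by
      have := Nat.lt_mul_div_succ K (by omega : 0 < 2 * j)
      rw [← hD] at this
      exact this
    have h2 : h < 2 * j * (K + 1) := by
      have := Nat.lt_mul_div_succ h (by omega : 0 < 2 * j)
      rw [← hK] at this
      exact this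
    have h3 : h < 2 * j * (2 * j * (D + 1)) := by
      calc h < 2 * j * (K + 1) := h2
        _ ≤ 2 * j * (2 * j * (D + 1)) := Nat.mul_le_mul_left _ (by omega)
    have h4 : t * k' + e ≤ 2 * t * k' := by
      have : k' ≤ t * k' := Nat.le_mul_of_pos_left _ ht1
      have h5 : 2 * t * k' = t * k' + t * k' := by ring
      omega
    have h5 : t * k' + e ≤ 16 * t ^ 4 * j ^ 2 * (D + 1) := by
      calc t * k' + e ≤ 2 * t * k' := h4
        _ ≤ 2 * t * (2 * t ^ 3 * h) := Nat.mul_le_mul_left _ hh2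
        _ ≤ 2 * t * (2 * t ^ 3 * (2 * j * (2 * j * (D + 1)))) :=
            Nat.mul_le_mul_left _ (Nat.mul_le_mul_left _ h3.le)
        _ = 16 * t ^ 4 * j ^ 2 * (D + 1) := by ring
    have h6 : ((t : ℝ) * k' + e) ≤ 16 * t ^ 4 * j ^ 2 * (D + 1) := by exact_mod_cast h5
    calc γ / (256 * t ^ 4 * j ^ 2) * (t * k' + e)
        ≤ γ / (256 * t ^ 4 * j ^ 2) * (16 * t ^ 4 * j ^ 2 * (D + 1)) :=
          mul_le_mul_of_nonneg_left h6 (by positivity)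
      _ = γ / 16 * ((D : ℝ) + 1) := by
          field_simp
          ring
  -- the constant
  set C₂ : ℝ := 2 * (t * k') * 4 ^ (j * M) with hC₂
  have hev := (ev_rpow (448 * (A : ℝ) ^ 2 * k' * C₂) (γ / 8) (by positivity)).and
    ((ev_rpow 240 (γ / 16) (by positivity)).and
      ((ev_pow (64 * 4 ^ k') (by positivity) (2 * k')).and
        (eventually_ge_atTop (t * k' * (4 * t + 4) ^ (j * M) + t))))
  obtain ⟨n₀, hn₀⟩ := eventually_atTop.1 hev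
  refine ⟨n₀, fun n hn => ?_⟩
  obtain ⟨hAn, hB, hE, hn2⟩ := hn₀ n hn
  have htk1 : 1 ≤ t * k' := Nat.mul_pos ht1 hk'1
  obtain ⟨p, hp, htp, hwn, hnw⟩ := PAREx.exists_prime_root (j * M) (t * k') t n hL1 htk1 hn2
  have hp1 : 1 ≤ p := hp.one_le
  have hn1 : (1 : ℝ) ≤ n := by
    have : 1 ≤ n := by omega
    exact_mod_cast this
  have hn0 : (0 : ℝ) < n := by linarith
  set s : ℝ := (n : ℝ) ^ (2 - γ) with hs
  have hsn : (n : ℝ) ≤ s := by
    have h1 : (n : ℝ) ^ (1 : ℝ) ≤ (n : ℝ) ^ (2 - γ) :=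
      Real.rpow_le_rpow_of_exponent_le hn1 (by linarith)
    rwa [Real.rpow_one] at h1
  have hs1 : 1 ≤ s := by linarith
  -- `X = p ^ M`
  have hX1 : 1 ≤ p ^ M := Nat.one_le_pow _ _ hp1
  have hXj : (p ^ M) ^ j = p ^ (j * M) := by rw [← pow_mul, mul_comm]
  have hwM : (p ^ j) ^ M = p ^ (j * M) := by rw [← pow_mul]
  have hwM' : (p ^ j) ^ M ≤ n := by
    rw [hwM]
    have : p ^ (j * M) ≤ t * k' * p ^ (j * M) := Nat.le_mul_of_pos_left _ (by omega)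
    omega
  have hκpos : 0 < ⌈s⌉₊ := Nat.ceil_pos.2 (by linarith)
  have hκle : ((4 * ⌈s⌉₊ : ℕ) : ℝ) ≤ 8 * s := by
    have h1 := Nat.ceil_lt_add_one (by linarith : (0 : ℝ) ≤ s)
    push_cast
    linarith
  -- the bound for `Lam`
  have hX1' : (1 : ℝ) ≤ ((p ^ M : ℕ) : ℝ) := by exact_mod_cast hX1
  have hbase : 16 * ((A * p ^ M : ℕ) + 1 : ℝ) * ((k' : ℝ) *
      (Real.sqrt (24 * ((4 * ⌈s⌉₊ : ℕ) : ℝ) * ((A * p ^ M : ℕ) : ℝ) ^ 2) /
        Real.sqrt (((p ^ M) ^ (2 * (j - 1)) : ℕ) : ℝ))) ≤ (n : ℝ) ^ (-(γ / 8)) := by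
    have h1 : Real.sqrt (((p ^ M) ^ (2 * (j - 1)) : ℕ) : ℝ) =
        ((p ^ M : ℕ) : ℝ) ^ (j - 1) := by
      rw [Nat.cast_pow, mul_comm, pow_mul, Real.sqrt_sq (by positivity)]
    rw [h1]
    have h2 := PARGx.base_le (A := (A : ℝ)) (γ := γ) (n := n) (X := ((p ^ M : ℕ) : ℝ)) (k := k')
      (κ := ((4 * ⌈s⌉₊ : ℕ) : ℝ)) (C := C₂) (j := j) hA1' hjγ hj12 hn1 hX1'
      (by exact_mod_cast hk'1) hκle (by
        rw [← Nat.cast_pow, hXj]
        have h3 : p ^ (j * M) ≤ n := by rw [← hwM]; exact hwM'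
        exact_mod_cast h3) (by
        rw [← Nat.cast_pow, hXj]
        have h3 : (n : ℝ) ≤ ((2 * (t * k' * (4 * p) ^ (j * M)) : ℕ) : ℝ) := by
          exact_mod_cast hnw
        refine h3.trans (le_of_eq ?_)
        rw [hC₂]
        push_cast
        rw [mul_pow]
        ring)
    have h3 : ((A * p ^ M : ℕ) : ℝ) = A * ((p ^ M : ℕ) : ℝ) := by push_cast; ring
    rw [h3]
    refine h2.trans ?_
    have h4 : (n : ℝ) ^ (-(γ / 8)) = (n : ℝ) ^ (γ / 8) * (n : ℝ) ^ (-(γ / 4)) := by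
      rw [← Real.rpow_add hn0]
      congr 1
      ring
    rw [h4]
    exact mul_le_mul_of_nonneg_right hAn (Real.rpow_nonneg hn0.le _)
  have hbase0 : (0 : ℝ) ≤ 16 * ((A * p ^ M : ℕ) + 1 : ℝ) * ((k' : ℝ) *
      (Real.sqrt (24 * ((4 * ⌈s⌉₊ : ℕ) : ℝ) * ((A * p ^ M : ℕ) : ℝ) ^ 2) /
        Real.sqrt (((p ^ M) ^ (2 * (j - 1)) : ℕ) : ℝ))) := by positivity
  have hLam : Lam k' (A * p ^ M) (4 * ⌈s⌉₊) ((p ^ M) ^ (2 * (j - 1))) D ≤
      15 * ((n : ℝ) ^ (-(γ / 8))) ^ (D + 1) := by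
    unfold Lam
    refine mul_le_mul_of_nonneg_left ?_ (by norm_num)
    exact pow_le_pow_left₀ hbase0 hbase _
  have hsmall : 240 * (n : ℝ) ^ (-(γ / 16)) ≤ 1 := by
    rw [Real.rpow_neg hn0.le]
    have h1 : 0 < (n : ℝ) ^ (γ / 16) := Real.rpow_pos_of_pos hn0 _
    rw [← div_eq_mul_inv, div_le_one h1]
    exact hB
  have hle1 : (n : ℝ) ^ (-(γ / 16)) ≤ 1 := by
    have := Real.rpow_nonneg hn0.le (-(γ / 16))
    linarith
  have hnn : (0 : ℝ) ≤ (n : ℝ) ^ (-(γ / 16)) := Real.rpow_nonneg hn0.le _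
  have h7 : 240 * ((n : ℝ) ^ (-(γ / 8))) ^ (D + 1) *
      (n : ℝ) ^ (γ / (256 * t ^ 4 * j ^ 2) * (t * k' + e)) ≤ 1 := by
    have h1 : (n : ℝ) ^ (γ / (256 * t ^ 4 * j ^ 2) * (t * k' + e)) ≤
        (n : ℝ) ^ (γ / 16 * ((D : ℝ) + 1)) :=
      Real.rpow_le_rpow_of_exponent_le hn1 hexp
    have h2 : (n : ℝ) ^ (γ / 16 * ((D : ℝ) + 1)) = ((n : ℝ) ^ (γ / 16)) ^ (D + 1) := by
      rw [← Real.rpow_natCast, ← Real.rpow_mul hn0.le]
      push_cast
      rfl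
    have h3 : ((n : ℝ) ^ (-(γ / 8))) ^ (D + 1) * ((n : ℝ) ^ (γ / 16)) ^ (D + 1) =
        ((n : ℝ) ^ (-(γ / 16))) ^ (D + 1) := by
      rw [← mul_pow, ← Real.rpow_add hn0]
      congr 2
      ring
    calc 240 * ((n : ℝ) ^ (-(γ / 8))) ^ (D + 1) *
        (n : ℝ) ^ (γ / (256 * t ^ 4 * j ^ 2) * (t * k' + e))
        ≤ 240 * ((n : ℝ) ^ (-(γ / 8))) ^ (D + 1) * ((n : ℝ) ^ (γ / 16)) ^ (D + 1) := by
          rw [← h2]
          exact mul_le_mul_of_nonneg_left h1 (by positivity)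
      _ = 240 * ((n : ℝ) ^ (-(γ / 16))) ^ (D + 1) := by rw [mul_assoc, h3]
      _ ≤ 240 * (n : ℝ) ^ (-(γ / 16)) := by
          refine mul_le_mul_of_nonneg_left ?_ (by norm_num)
          rw [pow_succ]
          exact mul_le_of_le_one_left hnn (pow_le_one₀ hnn hle1)
      _ ≤ 1 := hsmall
  refine ⟨K, p, j, D, (p ^ M) ^ (2 * (j - 1)), A * p ^ M, 4 * ⌈s⌉₊, hp, htp, hK1,
    hD1, Nat.one_le_pow _ _ hX1,
    Nat.mul_pos hA1 hX1, by omega, ?_, ?_, ?_, ?_, ?_,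
    ?_, ?_⟩
  · have : 2 * D ≤ 2 * j * D := Nat.mul_le_mul_right _ (by omega)
    omega
  · rw [hwM]
    omega
  · rw [← pow_add, ← pow_mul, ← pow_mul]
    refine Nat.pow_le_pow_right hp1 ?_
    have h1 : (j - 1) * K ≤ j * (K - 2 * D) := by
      have h2 : j * (K - 2 * D) = j * K - j * (2 * D) := Nat.mul_sub _ _ _
      have h3 : (j - 1) * K = j * K - K := by rw [Nat.sub_mul, one_mul]
      have h4 : j * (2 * D) ≤ K := by
        calc j * (2 * D) = 2 * j * D := by ring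
          _ ≤ K := hDK
      omega
    calc M * (2 * (j - 1)) = 2 * K ^ (k' - 1) * ((j - 1) * K) := by
          rw [← hMK]
          ring
      _ ≤ 2 * K ^ (k' - 1) * (j * (K - 2 * D)) := Nat.mul_le_mul_left _ h1
      _ = (j + j) * (K ^ (k' - 1) * (K - 2 * D)) := by ring
  · -- (4)
    have h1 : (p ^ j * p ^ j) ^ (K * M) = (p ^ M) ^ (2 * j * K) := by
      rw [← pow_add, ← pow_mul, ← pow_mul]
      congr 1
      ring
    rw [h1, mul_pow]
    have h2 : (p ^ M) ^ (2 * j * K) ≤ (p ^ M) ^ h := Nat.pow_le_pow_right hX1 hKk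
    have h3 : 4 * 2 ^ k' ≤ A ^ h := by
      calc 4 * 2 ^ k' = 2 ^ (k' + 2) := by ring
        _ ≤ 2 ^ ((r + 2) * h) := Nat.pow_le_pow_right (by norm_num) (by nlinarith)
        _ = A ^ h := by rw [hA, ← pow_mul]
    calc 4 * ((p ^ M) ^ (2 * j * K) * 2 ^ k') = 4 * 2 ^ k' * (p ^ M) ^ (2 * j * K) := by ring
      _ ≤ A ^ h * (p ^ M) ^ h := Nat.mul_le_mul h3 h2
  · -- (5)
    intro F hF
    have hN : (((p ^ j) ^ M : ℕ) : ℝ) ≤ n := by exact_mod_cast hwM'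
    have hR : (4 * ((F + 1) * (2 ^ k' * ((p ^ j * p ^ j) ^ M) ^ k') * 2 ^ k') : ℝ) ≤
        4 ^ (4 * ⌈s⌉₊) := by
      set a : ℝ := 2 ^ s with ha
      have ha1 : 1 ≤ a := Real.one_le_rpow one_le_two (by linarith)
      have h2n : (2 : ℝ) ^ n ≤ a := by
        rw [ha, ← Real.rpow_natCast]
        exact Real.rpow_le_rpow_of_exponent_le one_le_two hsn
      have hab : a ≤ 2 ^ ⌈s⌉₊ := by
        rw [ha, ← Real.rpow_natCast]
        exact Real.rpow_le_rpow_of_exponent_le one_le_two (Nat.le_ceil s)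
      have hF1 : (F : ℝ) + 1 ≤ 16 * a ^ 3 := by
        have h2 : a ≤ a ^ 3 := le_self_pow₀ ha1 (by norm_num)
        linarith
      have hN0 : (0 : ℝ) ≤ ((p : ℝ) ^ j) ^ M := by positivity
      have hN' : ((p : ℝ) ^ j) ^ M ≤ n := by
        push_cast at hN
        exact hN
      have hNN : (((p : ℝ) ^ j * (p : ℝ) ^ j) ^ M) ^ k' ≤ (n : ℝ) ^ (2 * k') := by
        rw [pow_mul, mul_pow, ← sq]
        exact pow_le_pow_left₀ (by positivity) (pow_le_pow_left₀ hN0 hN' 2) k'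
      calc (4 * ((F + 1) * (2 ^ k' * (((p : ℝ) ^ j * (p : ℝ) ^ j) ^ M) ^ k') *
          2 ^ k') : ℝ)
          ≤ 4 * ((16 * a ^ 3) * (2 ^ k' * (n : ℝ) ^ (2 * k')) * 2 ^ k') := by
            gcongr
        _ = (64 * 4 ^ k' * (n : ℝ) ^ (2 * k')) * a ^ 3 := by
            have : (4 : ℝ) ^ k' = 2 ^ k' * 2 ^ k' := by
              rw [← mul_pow]
              norm_num
            rw [this]
            ring
        _ ≤ 2 ^ n * a ^ 3 := mul_le_mul_of_nonneg_right hE (by positivity)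
        _ ≤ a * a ^ 3 := mul_le_mul_of_nonneg_right h2n (by positivity)
        _ = a ^ 4 := by ring
        _ ≤ a ^ 8 := pow_le_pow_right₀ ha1 (by norm_num)
        _ ≤ (2 ^ ⌈s⌉₊) ^ 8 := pow_le_pow_left₀ (by linarith) hab 8
        _ = 4 ^ (4 * ⌈s⌉₊) := by
            rw [← pow_mul, show (4 : ℝ) = 2 ^ 2 by norm_num, ← pow_mul]
            congr 1
            ring
    exact_mod_cast hR
  · -- (6)
    refine hLam.trans ?_
    have h1 : (n : ℝ) ^ (-(γ / 8)) ≤ (n : ℝ) ^ (-(γ / 16)) :=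
      Real.rpow_le_rpow_of_exponent_le hn1 (by linarith)
    have h2 : (0 : ℝ) ≤ (n : ℝ) ^ (-(γ / 8)) := Real.rpow_nonneg hn0.le _
    have h3 : ((n : ℝ) ^ (-(γ / 8))) ^ (D + 1) ≤ (n : ℝ) ^ (-(γ / 8)) := by
      rw [pow_succ]
      exact mul_le_of_le_one_left h2 (pow_le_one₀ h2 (by linarith))
    linarith
  · -- (7)
    have h1 : (0 : ℝ) ≤ (n : ℝ) ^ (γ / (256 * t ^ 4 * j ^ 2) * (t * k' + e)) :=
      Real.rpow_nonneg hn0.le _
    calc 16 * Lam k' (A * p ^ M) (4 * ⌈s⌉₊) ((p ^ M) ^ (2 * (j - 1))) D *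
        (n : ℝ) ^ (γ / (256 * t ^ 4 * j ^ 2) * (t * k' + e))
        ≤ 16 * (15 * ((n : ℝ) ^ (-(γ / 8))) ^ (D + 1)) *
          (n : ℝ) ^ (γ / (256 * t ^ 4 * j ^ 2) * (t * k' + e)) := by
          refine mul_le_mul_of_nonneg_right ?_ h1
          exact mul_le_mul_of_nonneg_left hLam (by norm_num)
      _ = 240 * ((n : ℝ) ^ (-(γ / 8))) ^ (D + 1) *
          (n : ℝ) ^ (γ / (256 * t ^ 4 * j ^ 2) * (t * k' + e)) := by ring
      _ ≤ 1 := h7

end Pool.Agent.KCN
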