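import Pool.Agent.Lib.KCN.DefsE

/-!
# Row PME: the pseudo-measure on `k`-tuples, every `ε`
-/

set_option autoImplicit false

namespace Pool.Agent.KCN

open Finset Pool.Agent.SL Pool.Agent.KCM

namespace PMEx

open Classical in
theorem fib_sum {k n : ℕ} {Ω : Type} (S : Finset Ω) (φ : Ω → (Fin k → Fin n)) (f : Ω → ℝ)
    (U : Finset (Fin k → Fin n)) :
    ∑ v ∈ U, ∑ x ∈ S.filter (fun x => φ x = v), f x =
      ∑ x ∈ S.filter (fun x => φ x ∈ U), f x := by
  rw [← sum_fiberwise_of_maps_to (s := S.filter (fun x => φ x ∈ U)) (t := U) (g := φ)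
    (fun x hx => (mem_filter.1 hx).2)]
  refine sum_congr rfl fun v hv => ?_
  refine sum_congr ?_ fun _ _ => rfl
  ext x
  rw [mem_filter, mem_filter, mem_filter]
  exact ⟨fun h => ⟨⟨h.1, by rw [h.2]; exact hv⟩, h.2⟩, fun h => ⟨h.1.1, h.2⟩⟩

end PMEx

open PMEx in
/-- PM 0 -/
theorem pme (h5 : P5G) (hst : STE) (hgr : GRE) (hmds : MDS) (hpar : PARE) : PM 0 := by
  classical
  intro γ ε hγ hε
  set γ' : ℝ := min γ 1 with hγ'
  have hγ0 : 0 < γ' := lt_min hγ one_pos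
  have hγ1 : γ' ≤ 1 := min_le_right _ _
  have hγγ : γ' ≤ γ := min_le_left _ _
  obtain ⟨t, ht1, c, hc, k₀, hk₀⟩ := hpar γ' ε hγ0 hγ1 hε
  refine ⟨c, hc, t * (k₀ + 1), fun k hk => ?_⟩
  obtain ⟨k', e, he, hk', hk1, rfl⟩ : ∃ k' e, e < t ∧ k₀ ≤ k' ∧ 1 ≤ k' ∧ k = t * k' + e := by
    have h1 : k₀ + 1 ≤ k / t := by
      rw [Nat.le_div_iff_mul_le (by omega), mul_comm]
      exact hk
    exact ⟨k / t, k % t, Nat.mod_lt _ (by omega), by omega, by omega, (Nat.div_add_mod k t).symm⟩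
  obtain ⟨h, hh1, hh, n₀, hn₀⟩ := hk₀ k' e hk' he
  refine ⟨max n₀ 1, fun n hn => ?_⟩
  obtain ⟨K, p, j, D, q, m, κ, hp, htp, hK, hD, hq, hm, hκ, hDK, hnn, hqw, hmk, hF, hL, hfin⟩ :=
    hn₀ n (le_trans (le_max_left _ _) hn)
  have hn1 : (1 : ℝ) ≤ n := by exact_mod_cast le_trans (le_max_right _ _) hn
  have hn0 : (0 : ℝ) < n := by linarith
  have hw : 1 ≤ p ^ j := Nat.one_le_pow _ _ hp.one_le
  obtain ⟨cod, hcod⟩ := hmds t p j hp htp
  obtain ⟨hne, hcard, hsp⟩ := hst k' K (p ^ j) (2 * D) q hk1 hK hw hDK hqw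
  obtain ⟨φ, hφi, hφ⟩ := hgr t k' e n K (p ^ j) ht1 hk1 hK hw hnn cod hcod
  set S := SE k' K (p ^ j) with hS
  refine ⟨S.image φ, ?_, ?_⟩
  · intro v hv v' hv' i i' hii
    obtain ⟨x, _, rfl⟩ := mem_image.1 hv
    obtain ⟨y, _, rfl⟩ := mem_image.1 hv'
    exact hφi x y i i' hii
  intro Fam hFam
  set Fam' : Finset (Finset (Fin k' → Cw k' K (p ^ j))) :=
    Fam.image (fun U => S.filter (fun x => φ x ∈ U)) with hFam'
  have hFcard : Fam'.card ≤ Fam.card := card_image_le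
  have hFreal : (Fam.card : ℝ) ≤ (2 : ℝ) ^ ((n : ℝ) ^ (2 - γ')) := by
    refine hFam.trans ?_
    refine Real.rpow_le_rpow_of_exponent_le (by norm_num) ?_
    exact Real.rpow_le_rpow_of_exponent_le hn1 (by linarith)
  have hcardα : Fintype.card (Fin k' → Cw k' K (p ^ j)) =
      ((p ^ j * p ^ j) ^ (K ^ k')) ^ k' := by
    rw [Fintype.card_fun, Fintype.card_fun, Fintype.card_prod, Fintype.card_fun,
      Fintype.card_fin, Fintype.card_fin, Fintype.card_fin]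
  have hcond : 4 * ((Fam'.card + 1) *
      (2 ^ k' * Fintype.card (Fin k' → Cw k' K (p ^ j))) * 2 ^ k') ≤ 4 ^ κ := by
    rw [hcardα]
    refine le_trans ?_ (hF Fam.card hFreal)
    gcongr
  obtain ⟨g, f, hg1, hg2, hg3, hg4⟩ := h5 k' m κ q D h (Cw k' K (p ^ j)) hk1 hm hκ hq hD
    (fun _ => ⟨0, hm⟩) S Fam' hne hsp (fun U hU => by
      obtain ⟨z, _, rfl⟩ := mem_image.1 hU
      exact filter_subset _ _) hcond
    ((Nat.mul_le_mul_left 4 (Nat.mul_le_mul_right _ hcard)).trans hmk) hL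
  obtain ⟨G, hG1, hG2⟩ := hφ m h g (fun _ => ⟨0, hm⟩) hh1 hg1
  have hScard : (0 : ℝ) < S.card := by exact_mod_cast card_pos.2 hne
  have hLam0 : 0 ≤ Lam k' m κ q D := by
    unfold Lam
    positivity
  set Λ := Lam k' m κ q D with hΛ
  set Z : ℝ := ∑ x ∈ S, f x with hZ
  have hZ4 : (S.card : ℝ) / 4 ≤ Z := hg2
  have hZ0 : 0 < Z := by linarith
  have hLZ : Λ * S.card / Z ≤ (n : ℝ) ^ (-(c * ((t * k' + e : ℕ) : ℝ))) := by
    have e1 : Λ * S.card / Z ≤ 4 * Λ := by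
      rw [div_le_iff₀ hZ0]
      nlinarith
    have e2 : (0 : ℝ) < (n : ℝ) ^ (c * ((t * k' + e : ℕ) : ℝ)) := Real.rpow_pos_of_pos hn0 _
    have e3 : 16 * Λ * (n : ℝ) ^ (c * ((t * k' + e : ℕ) : ℝ)) ≤ 1 := by
      push_cast
      exact hfin
    rw [Real.rpow_neg hn0.le, ← one_div, le_div_iff₀ e2]
    refine le_trans (mul_le_mul_of_nonneg_right e1 e2.le) ?_
    nlinarith [mul_nonneg hLam0 e2.le]
  have hsum : ∀ U : Finset (Fin (t * k' + e) → Fin n),
      ∑ v ∈ U, (∑ x ∈ S.filter (fun x => φ x = v), f x) / Z =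
        (∑ x ∈ S.filter (fun x => φ x ∈ U), f x) / Z := by
    intro U
    rw [← sum_div, fib_sum]
  refine ⟨G, fun v => (∑ x ∈ S.filter (fun x => φ x = v), f x) / Z, ?_, ?_, ?_, ?_⟩
  · intro u hu
    refine hG1.mono ?_
    have h14 : ((k' + t ^ 3 * h + e : ℕ) : ℝ) ≤ (u : ℝ) := by
      push_cast at hu ⊢
      rw [zero_add] at hu
      linarith
    exact_mod_cast h14
  · rw [hsum]
    have : S.filter (fun x => φ x ∈ S.image φ) = S :=
      filter_true_of_mem fun x hx => mem_image_of_mem _ hx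
    rw [this]
    exact div_self hZ0.ne'
  · intro U hU _
    rw [hsum]
    have h1 := hg3 _ (mem_image_of_mem (fun U => S.filter (fun x => φ x ∈ U)) hU)
    have h2 : -(Λ * S.card / Z) ≤ (∑ x ∈ S.filter (fun x => φ x ∈ U), f x) / Z := by
      rw [← neg_div]
      exact div_le_div_of_nonneg_right h1 hZ0.le
    linarith
  · intro U hU _ i i' a b hii hab hUab
    rw [hsum]
    have h1 : ∑ x ∈ S.filter (fun x => φ x ∈ U), f x ≤ Λ * S.card := by
      rcases hG2 i i' a b hii hab with h | ⟨l, cc, hcc, h⟩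
      · have hempty : S.filter (fun x => φ x ∈ U) = ∅ := by
          rw [filter_eq_empty_iff]
          intro x hx hxU
          exact h x hx (hUab _ hxU)
        rw [hempty, sum_empty]
        positivity
      · refine hg4 _ (mem_image_of_mem (fun U => S.filter (fun x => φ x ∈ U)) hU) l cc
          (fun x hx => ?_) hcc
        obtain ⟨hx1, hx2⟩ := mem_filter.1 hx
        exact h x hx1 (hUab _ hx2).1 (hUab _ hx2).2
    exact (div_le_div_of_nonneg_right h1 hZ0.le).trans hLZ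

end Pool.Agent.KCN
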