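import Pool.Agent.Lib.KCN.Defs
import Pool.Agent.Lib.SL.R1

/-!
# Row ST: size and spread of the set of compatible tuples
-/

set_option autoImplicit false

namespace Pool.Agent.KCN

open Finset Pool.Agent.SL Pool.Agent.KCM

namespace STx

theorem two_card {P V : Type} [DecidableEq P] [DecidableEq V] (σ : P → V) (J : Finset P) :
    2 * J.card ≤ 2 * (J.image σ).card +
      ((J ×ˢ J).filter (fun z => z.1 ≠ z.2 ∧ σ z.1 = σ z.2)).card := by
  induction J using Finset.induction_on with
  | empty => simp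
  | insert a J ha ih =>
    have hsub : (J ×ˢ J).filter (fun z => z.1 ≠ z.2 ∧ σ z.1 = σ z.2) ⊆
        ((insert a J) ×ˢ (insert a J)).filter (fun z => z.1 ≠ z.2 ∧ σ z.1 = σ z.2) := by
      intro z hz
      rw [mem_filter, mem_product] at hz ⊢
      exact ⟨⟨mem_insert_of_mem hz.1.1, mem_insert_of_mem hz.1.2⟩, hz.2⟩
    rw [card_insert_of_notMem ha, image_insert]
    by_cases h : σ a ∈ J.image σ
    · rw [insert_eq_self.2 h]
      obtain ⟨j, hj, hja⟩ := mem_image.1 h
      have hne : a ≠ j := fun e => ha (e ▸ hj)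
      set C := (J ×ˢ J).filter (fun z => z.1 ≠ z.2 ∧ σ z.1 = σ z.2) with hC
      have h1 : (a, j) ∉ C := by
        rw [hC, mem_filter, mem_product]
        exact fun h => ha h.1.1
      have h2 : (j, a) ∉ insert (a, j) C := by
        rw [mem_insert, hC, mem_filter, mem_product]
        rintro (h | h)
        · exact hne (Prod.ext_iff.1 h).2
        · exact ha h.1.2
      have h3 : insert (j, a) (insert (a, j) C) ⊆
          ((insert a J) ×ˢ (insert a J)).filter (fun z => z.1 ≠ z.2 ∧ σ z.1 = σ z.2) := by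
        intro z hz
        rcases mem_insert.1 hz with rfl | hz
        · rw [mem_filter, mem_product]
          exact ⟨⟨mem_insert_of_mem hj, mem_insert_self _ _⟩, hne.symm, hja⟩
        · rcases mem_insert.1 hz with rfl | hz
          · rw [mem_filter, mem_product]
            exact ⟨⟨mem_insert_self _ _, mem_insert_of_mem hj⟩, hne, hja.symm⟩
          · exact hsub hz
      have h4 := card_le_card h3
      rw [card_insert_of_notMem h2, card_insert_of_notMem h1] at h4
      omega
    · rw [card_insert_of_notMem h]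
      have := card_le_card hsub
      omega

theorem coll {P : Type} [Fintype P] [DecidableEq P] (K : ℕ) (i j : P) (hij : i ≠ j) :
    (univ.filter (fun σ : P → Fin K => σ i = σ j)).card * K ≤ K ^ Fintype.card P := by
  have h1 : ((univ.filter (fun σ : P → Fin K => σ i = σ j)) ×ˢ (univ : Finset (Fin K))).card ≤
      (univ : Finset (P → Fin K)).card := by
    refine card_le_card_of_injOn (fun z => Function.update z.1 j z.2) (fun _ _ => by simp) ?_
    rintro ⟨σ, v⟩ hz ⟨τ, u⟩ hz' h
    rw [coe_product, Set.mem_prod] at hz hz'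
    have hσ : σ i = σ j := by
      have := hz.1
      simpa using this
    have hτ : τ i = τ j := by
      have := hz'.1
      simpa using this
    simp only at h
    have h2 : ∀ l, l ≠ j → σ l = τ l := by
      intro l hl
      have := congrFun h l
      rwa [Function.update_of_ne hl, Function.update_of_ne hl] at this
    have h3 : v = u := by
      have := congrFun h j
      rwa [Function.update_self, Function.update_self] at this
    refine Prod.ext ?_ h3
    funext l
    change σ l = τ l
    by_cases hl : l = j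
    · rw [hl, ← hσ, ← hτ]
      exact h2 i hij
    · exact h2 l hl
  rw [card_product, card_univ, card_univ, Fintype.card_fin, Fintype.card_fun,
    Fintype.card_fin] at h1
  exact h1

/-- the sum of the sizes of the images -/
theorem images {P : Type} [Fintype P] [DecidableEq P] (K : ℕ) (J : Finset P) :
    K ^ Fintype.card P * (J.card * (2 * K)) ≤
      2 * K * ∑ σ : P → Fin K, (J.image σ).card + J.card * J.card * K ^ Fintype.card P := by
  have h1 : ∀ σ : P → Fin K, 2 * J.card ≤ 2 * (J.image σ).card +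
      ((J ×ˢ J).filter (fun z => z.1 ≠ z.2 ∧ σ z.1 = σ z.2)).card := fun σ => two_card σ J
  have h2 := sum_le_sum fun (σ : P → Fin K) (_ : σ ∈ (univ : Finset (P → Fin K))) => h1 σ
  rw [sum_const, card_univ, Fintype.card_fun, Fintype.card_fin, smul_eq_mul, sum_add_distrib,
    ← mul_sum] at h2
  have h3 : ∑ σ : P → Fin K, ((J ×ˢ J).filter (fun z => z.1 ≠ z.2 ∧ σ z.1 = σ z.2)).card =
      ∑ z ∈ J ×ˢ J, (univ.filter (fun σ : P → Fin K => z.1 ≠ z.2 ∧ σ z.1 = σ z.2)).card := by
    simp_rw [card_filter]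
    rw [sum_comm]
  have h4 : (∑ z ∈ J ×ˢ J,
      (univ.filter (fun σ : P → Fin K => z.1 ≠ z.2 ∧ σ z.1 = σ z.2)).card) * K ≤
      J.card * J.card * K ^ Fintype.card P := by
    rw [sum_mul]
    refine (sum_le_sum (g := fun _ => K ^ Fintype.card P) fun z _ => ?_).trans ?_
    · by_cases hz : z.1 = z.2
      · have : univ.filter (fun σ : P → Fin K => z.1 ≠ z.2 ∧ σ z.1 = σ z.2) = ∅ := by
          rw [filter_eq_empty_iff]
          exact fun σ _ h => h.1 hz
        rw [this]
        simp
      · have : univ.filter (fun σ : P → Fin K => z.1 ≠ z.2 ∧ σ z.1 = σ z.2) =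
            univ.filter (fun σ : P → Fin K => σ z.1 = σ z.2) := by
          refine filter_congr fun σ _ => ?_
          exact ⟨fun h => h.2, fun h => ⟨hz, h⟩⟩
        rw [this]
        exact coll K z.1 z.2 hz
    · rw [sum_const, card_product, smul_eq_mul]
  rw [h3] at h2
  calc K ^ Fintype.card P * (J.card * (2 * K))
      = K ^ Fintype.card P * (2 * J.card) * K := by ring
    _ ≤ (2 * ∑ σ : P → Fin K, (J.image σ).card + ∑ z ∈ J ×ˢ J,
        (univ.filter (fun σ : P → Fin K => z.1 ≠ z.2 ∧ σ z.1 = σ z.2)).card) * K :=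
        Nat.mul_le_mul_right K h2
    _ = 2 * K * ∑ σ : P → Fin K, (J.image σ).card + (∑ z ∈ J ×ˢ J,
        (univ.filter (fun σ : P → Fin K => z.1 ≠ z.2 ∧ σ z.1 = σ z.2)).card) * K := by ring
    _ ≤ _ := Nat.add_le_add_left h4 _

variable {k' K w : ℕ}

theorem mem_SS {x : Fin k' → Vx k' K w × Vx k' K w} :
    x ∈ SS k' K w ↔ ∀ i j : Pos k', Comp i j (pr x i) (pr x j) := by
  classical
  unfold SS
  rw [mem_filter]
  exact ⟨fun h => h.2, fun h => ⟨mem_univ _, h⟩⟩

/-- the tuple with the vertices `y` -/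
def tup (y : Pos k' → Vx k' K w) : Fin k' → Vx k' K w × Vx k' K w :=
  fun l => (y (l, false), y (l, true))

theorem pr_tup (y : Pos k' → Vx k' K w) (i : Pos k') : pr (tup y) i = y i := by
  obtain ⟨l, b⟩ := i
  cases b <;> rfl

theorem ext_pr {x x' : Fin k' → Vx k' K w × Vx k' K w} (h : ∀ i, pr x i = pr x' i) : x = x' := by
  funext l
  exact Prod.ext (h (l, false)) (h (l, true))

theorem nonempty (hw : 1 ≤ w) : (SS k' K w).Nonempty :=
  ⟨tup fun _ _ => ⟨0, hw⟩, mem_SS.2 fun i j σ _ => by rw [pr_tup, pr_tup]⟩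

theorem card_le (hw : 1 ≤ w) : (SS k' K w).card ≤ w ^ (K * K ^ (2 * k')) := by
  classical
  have h1 : SS k' K w ⊆ (univ : Finset ((Pos k' → Fin K) × Fin K → Fin w)).image
      (fun z => tup fun i σ => z (σ, σ i)) := by
    intro x hx
    rw [mem_SS] at hx
    refine mem_image.2 ⟨fun p => if h : ∃ i, p.1 i = p.2 then pr x h.choose p.1 else ⟨0, hw⟩,
      mem_univ _, ?_⟩
    refine ext_pr fun i => ?_
    rw [pr_tup]
    funext σ
    have hex : ∃ j, σ j = σ i := ⟨i, rfl⟩
    dsimp only
    rw [dif_pos hex]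
    exact hx _ _ σ hex.choose_spec
  refine (card_le_card h1).trans (card_image_le.trans ?_)
  rw [card_univ, Fintype.card_fun, Fintype.card_prod, Fintype.card_fun, Fintype.card_fin,
    Fintype.card_fin, Fintype.card_prod, Fintype.card_fin, Fintype.card_bool, mul_comm k' 2,
    mul_comm K]

/-- the positions of a set of pairs -/
def JJ (T : Finset (Fin k')) : Finset (Pos k') := T ×ˢ univ

theorem card_JJ (T : Finset (Fin k')) : (JJ T).card = 2 * T.card := by
  unfold JJ
  rw [card_product, card_univ, Fintype.card_bool, mul_comm]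

theorem mem_JJ {T : Finset (Fin k')} {i : Pos k'} : i ∈ JJ T ↔ i.1 ∈ T := by
  unfold JJ
  rw [mem_product]
  exact ⟨fun h => h.1, fun h => ⟨h, mem_univ _⟩⟩

/-- the values fixed by the pairs in `T` -/
def RR (K : ℕ) (T : Finset (Fin k')) : Finset ((Pos k' → Fin K) × Fin K) :=
  univ.filter (fun p => p.2 ∈ (JJ T).image p.1)

theorem mem_RR {T : Finset (Fin k')} {σ : Pos k' → Fin K} {v : Fin K} :
    (σ, v) ∈ RR K T ↔ ∃ j : Pos k', j.1 ∈ T ∧ σ j = v := by
  unfold RR
  rw [mem_filter]
  simp only [mem_image, mem_JJ, mem_univ, true_and]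

theorem card_RR (T : Finset (Fin k')) :
    (RR K T).card = ∑ σ : Pos k' → Fin K, ((JJ T).image σ).card := by
  unfold RR
  rw [card_filter, Fintype.sum_prod_type]
  refine sum_congr rfl fun σ _ => ?_
  rw [← card_filter]
  congr 1
  ext v
  simp

theorem RR_ge {D : ℕ} (hk : 1 ≤ k') (hK : 1 ≤ K) (hD : D ≤ K) (T : Finset (Fin k'))
    (hT : T.card ≤ D) : 2 * K ^ (2 * k' - 1) * (K - D) * T.card ≤ (RR K T).card := by
  have h1 := images K (JJ T)
  rw [← card_RR, card_JJ, Fintype.card_prod, Fintype.card_fin, Fintype.card_bool,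
    mul_comm k' 2] at h1
  have hpow : K ^ (2 * k') = K * K ^ (2 * k' - 1) := by
    rw [← pow_succ']
    congr 1
    omega
  rw [hpow] at h1
  set M := K ^ (2 * k' - 1) with hM
  obtain ⟨d, hd⟩ : ∃ d, K = D + d := ⟨K - D, by omega⟩
  obtain ⟨f, hf⟩ : ∃ f, D = T.card + f := ⟨D - T.card, by omega⟩
  have hKD : K - D = d := by omega
  rw [hKD]
  have hmain : 2 * K * (2 * M * d * T.card) ≤ 2 * K * (RR K T).card := by
    have e1 : K * M * (2 * T.card * (2 * K)) =
        2 * K * (2 * M * d * T.card) + 2 * K * (2 * M * D * T.card) := by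
      rw [hd]; ring
    have e2 : 2 * T.card * (2 * T.card) * (K * M) ≤ 2 * K * (2 * M * D * T.card) := by
      have : 2 * K * (2 * M * D * T.card) =
          2 * T.card * (2 * T.card) * (K * M) + 4 * K * M * f * T.card := by
        rw [hf]; ring
      omega
    omega
  exact Nat.le_of_mul_le_mul_left hmain (by omega)

open Classical in
theorem spread_aux (T : Finset (Fin k')) (a : Fin k' → Vx k' K w × Vx k' K w) :
    ((SS k' K w).filter (fun x => ∀ i ∈ T, x i = a i)).card * w ^ (RR K T).card ≤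
      (SS k' K w).card := by
  have h1 : (((SS k' K w).filter (fun x => ∀ i ∈ T, x i = a i)) ×ˢ
      (univ : Finset ({p : (Pos k' → Fin K) × Fin K // p ∈ RR K T} → Fin w))).card ≤
      (SS k' K w).card := by
    refine card_le_card_of_injOn (fun z => tup fun i σ =>
      if h : (σ, σ i) ∈ RR K T then z.2 ⟨(σ, σ i), h⟩ else pr z.1 i σ) ?_ ?_
    · rintro ⟨x, u⟩ hz
      rw [coe_product, Set.mem_prod] at hz
      have hx : x ∈ SS k' K w := (mem_filter.1 (mem_coe.1 hz.1)).1
      rw [mem_SS] at hx
      rw [mem_coe, mem_SS]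
      intro i j σ hij
      rw [pr_tup, pr_tup]
      dsimp only
      by_cases h : (σ, σ i) ∈ RR K T
      · have h' : (σ, σ j) ∈ RR K T := hij ▸ h
        rw [dif_pos h, dif_pos h']
        congr 1
        exact Subtype.ext (congrArg (fun v => (σ, v)) hij)
      · have h' : (σ, σ j) ∉ RR K T := hij ▸ h
        rw [dif_neg h, dif_neg h']
        exact hx i j σ hij
    · rintro ⟨x, u⟩ hz ⟨x', u'⟩ hz' h
      rw [coe_product, Set.mem_prod] at hz hz'
      have hx := mem_filter.1 (mem_coe.1 hz.1)
      have hx' := mem_filter.1 (mem_coe.1 hz'.1)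
      dsimp only at hx hx'
      have hxS := mem_SS.1 hx.1
      have hxS' := mem_SS.1 hx'.1
      have hxF := hx.2
      have hxF' := hx'.2
      have hy : ∀ (i : Pos k') (σ : Pos k' → Fin K),
          (if h : (σ, σ i) ∈ RR K T then u ⟨(σ, σ i), h⟩ else pr x i σ) =
          (if h : (σ, σ i) ∈ RR K T then u' ⟨(σ, σ i), h⟩ else pr x' i σ) := by
        intro i σ
        have := congrFun (congrArg (fun t => pr t i) h) σ
        simpa only [pr_tup] using this
      have hT : ∀ j : Pos k', j.1 ∈ T → pr x j = pr x' j := by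
        intro j hj
        unfold pr
        rw [hxF j.1 hj, hxF' j.1 hj]
      refine Prod.ext ?_ ?_
      · refine ext_pr fun i => ?_
        funext σ
        dsimp only
        by_cases hR : (σ, σ i) ∈ RR K T
        · obtain ⟨j, hj, hji⟩ := mem_RR.1 hR
          rw [← hxS j i σ hji, ← hxS' j i σ hji, hT j hj]
        · have := hy i σ
          rwa [dif_neg hR, dif_neg hR] at this
      · funext ⟨⟨σ, v⟩, hR⟩
        dsimp only
        obtain ⟨j, hj, hjv⟩ := mem_RR.1 hR
        subst hjv
        have := hy j σ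
        rwa [dif_pos hR, dif_pos hR] at this
  rw [card_product, card_univ, Fintype.card_fun, Fintype.card_fin, Fintype.card_coe] at h1
  exact h1

theorem ssp_of {k : ℕ} {α : Type} [Fintype α] [DecidableEq α] (q D : ℕ)
    (S : Finset (Fin k → α))
    (h : ∀ T : Finset (Fin k), T.card ≤ D → ∀ (a : Fin k → α) (F : Finset (Fin k → α)),
      (∀ x ∈ F, x ∈ S ∧ ∀ i ∈ T, x i = a i) → F.card * q ^ T.card ≤ S.card) : SSp q D S :=
  fun T hT a => h T hT a _ fun _ hx =>
    ⟨(mem_inter.1 hx).1, R1x.mem_Fib.1 (mem_inter.1 hx).2⟩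

end STx

open STx in
/-- ST -/
theorem st : ST := by
  intro k' K w D q hk hK hw hD hq
  refine ⟨nonempty hw, card_le hw, ?_⟩
  refine ssp_of q D _ fun T hT a F hF => ?_
  refine le_trans (Nat.mul_le_mul_right _ (card_le_card fun x hx =>
    mem_filter.2 ⟨(hF x hx).1, (hF x hx).2⟩)) ?_
  refine le_trans ?_ (spread_aux T a)
  refine Nat.mul_le_mul_left _ ?_
  calc q ^ T.card ≤ (w ^ (2 * K ^ (2 * k' - 1) * (K - D))) ^ T.card := Nat.pow_le_pow_left hq _
    _ = w ^ (2 * K ^ (2 * k' - 1) * (K - D) * T.card) := by rw [← pow_mul]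
    _ ≤ w ^ (RR K T).card := Nat.pow_le_pow_right hw (RR_ge hk hK hD T hT)

end Pool.Agent.KCN
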