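import Pool.Agent.Lib.KCN.DefsE
import Pool.Agent.Lib.KCN.ST

/-!
# Row STE: size and spread of the set of compatible tuples
-/

set_option autoImplicit false

namespace Pool.Agent.KCN

open Finset Pool.Agent.SL Pool.Agent.KCM

namespace STEx

open STx

variable {k' K w : ℕ}

theorem mem_SE {x : Fin k' → Cw k' K w} :
    x ∈ SE k' K w ↔ ∀ (i j : Fin k') (σ : Fin k' → Fin K), σ i = σ j → x i σ = x j σ := by
  classical
  unfold SE
  rw [mem_filter]
  exact ⟨fun h => h.2, fun h => ⟨mem_univ _, h⟩⟩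

theorem nonempty (hw : 1 ≤ w) : (SE k' K w).Nonempty :=
  ⟨fun _ _ => (⟨0, hw⟩, ⟨0, hw⟩), mem_SE.2 fun _ _ _ _ => rfl⟩

theorem card_le (hw : 1 ≤ w) : (SE k' K w).card ≤ (w * w) ^ (K * K ^ k') := by
  classical
  have h1 : SE k' K w ⊆ (univ : Finset ((Fin k' → Fin K) × Fin K → Fin w × Fin w)).image
      (fun z => fun i σ => z (σ, σ i)) := by
    intro x hx
    rw [mem_SE] at hx
    refine mem_image.2 ⟨fun p => if h : ∃ i, p.1 i = p.2 then x h.choose p.1
      else (⟨0, hw⟩, ⟨0, hw⟩), mem_univ _, ?_⟩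
    funext i σ
    have hex : ∃ j, σ j = σ i := ⟨i, rfl⟩
    dsimp only
    rw [dif_pos hex]
    exact hx _ _ σ hex.choose_spec
  refine (card_le_card h1).trans (card_image_le.trans ?_)
  rw [card_univ, Fintype.card_fun, Fintype.card_prod, Fintype.card_prod, Fintype.card_fun,
    Fintype.card_fin, Fintype.card_fin, Fintype.card_fin, mul_comm K]

/-- the values fixed by the groups in `T` -/
def RR (K : ℕ) (T : Finset (Fin k')) : Finset ((Fin k' → Fin K) × Fin K) :=
  univ.filter (fun p => p.2 ∈ T.image p.1)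

theorem mem_RR {T : Finset (Fin k')} {σ : Fin k' → Fin K} {v : Fin K} :
    (σ, v) ∈ RR K T ↔ ∃ j : Fin k', j ∈ T ∧ σ j = v := by
  unfold RR
  rw [mem_filter]
  simp only [mem_image, mem_univ, true_and]

theorem card_RR (T : Finset (Fin k')) :
    (RR K T).card = ∑ σ : Fin k' → Fin K, (T.image σ).card := by
  unfold RR
  rw [card_filter, Fintype.sum_prod_type]
  refine sum_congr rfl fun σ _ => ?_
  rw [← card_filter]
  congr 1
  ext v
  simp

theorem RR_ge {D : ℕ} (hk : 1 ≤ k') (hK : 1 ≤ K) (hD : D ≤ K) (T : Finset (Fin k'))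
    (hT : T.card ≤ D) : K ^ (k' - 1) * (K - D) * T.card ≤ (RR K T).card := by
  have h1 := images K T
  rw [← card_RR, Fintype.card_fin] at h1
  have hpow : K ^ k' = K * K ^ (k' - 1) := by
    rw [← pow_succ']
    congr 1
    omega
  rw [hpow] at h1
  set M := K ^ (k' - 1) with hM
  obtain ⟨d, hd⟩ : ∃ d, K = D + d := ⟨K - D, by omega⟩
  obtain ⟨f, hf⟩ : ∃ f, D = T.card + f := ⟨D - T.card, by omega⟩
  have hKD : K - D = d := by omega
  rw [hKD]
  have hmain : 2 * K * (M * d * T.card) ≤ 2 * K * (RR K T).card := by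
    have e1 : K * M * (T.card * (2 * K)) =
        2 * K * (M * d * T.card) + 2 * K * (M * D * T.card) := by
      rw [hd]; ring
    have e2 : T.card * T.card * (K * M) ≤ 2 * K * (M * D * T.card) := by
      have : 2 * K * (M * D * T.card) =
          T.card * T.card * (K * M) + (T.card * T.card * (K * M) + 2 * K * M * f * T.card) := by
        rw [hf]; ring
      omega
    omega
  exact Nat.le_of_mul_le_mul_left hmain (by omega)

open Classical in
theorem spread_aux (T : Finset (Fin k')) (a : Fin k' → Cw k' K w) :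
    ((SE k' K w).filter (fun x => ∀ i ∈ T, x i = a i)).card * (w * w) ^ (RR K T).card ≤
      (SE k' K w).card := by
  have h1 : (((SE k' K w).filter (fun x => ∀ i ∈ T, x i = a i)) ×ˢ
      (univ : Finset ({p : (Fin k' → Fin K) × Fin K // p ∈ RR K T} → Fin w × Fin w))).card ≤
      (SE k' K w).card := by
    refine card_le_card_of_injOn (fun z => fun i σ =>
      if h : (σ, σ i) ∈ RR K T then z.2 ⟨(σ, σ i), h⟩ else z.1 i σ) ?_ ?_
    · rintro ⟨x, u⟩ hz
      rw [coe_product, Set.mem_prod] at hz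
      have hx : x ∈ SE k' K w := (mem_filter.1 (mem_coe.1 hz.1)).1
      rw [mem_SE] at hx
      rw [mem_coe, mem_SE]
      intro i j σ hij
      dsimp only
      by_cases h : (σ, σ i) ∈ RR K T
      · have h' : (σ, σ j) ∈ RR K T := hij ▸ h
        rw [dif_pos h, dif_pos h']
        congr 1
        exact Subtype.ext (congrArg (fun v => (σ, v)) hij)
      · have h' : (σ, σ j) ∉ RR K T := hij ▸ h
        rw [dif_neg h, dif_neg h']
        exact hx i j σ hij
    · rintro ⟨x, u⟩ hz ⟨x', u'⟩ hz' h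
      rw [coe_product, Set.mem_prod] at hz hz'
      have hx := mem_filter.1 (mem_coe.1 hz.1)
      have hx' := mem_filter.1 (mem_coe.1 hz'.1)
      dsimp only at hx hx'
      have hxS := mem_SE.1 hx.1
      have hxS' := mem_SE.1 hx'.1
      have hy : ∀ (i : Fin k') (σ : Fin k' → Fin K),
          (if h : (σ, σ i) ∈ RR K T then u ⟨(σ, σ i), h⟩ else x i σ) =
          (if h : (σ, σ i) ∈ RR K T then u' ⟨(σ, σ i), h⟩ else x' i σ) :=
        fun i σ => congrFun (congrFun h i) σ
      have hT : ∀ j : Fin k', j ∈ T → x j = x' j := by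
        intro j hj
        rw [hx.2 j hj, hx'.2 j hj]
      refine Prod.ext ?_ ?_
      · funext i σ
        dsimp only
        by_cases hR : (σ, σ i) ∈ RR K T
        · obtain ⟨j, hj, hji⟩ := mem_RR.1 hR
          rw [← hxS j i σ hji, ← hxS' j i σ hji, hT j hj]
        · have := hy i σ
          rwa [dif_neg hR, dif_neg hR] at this
      · funext ⟨⟨σ, v⟩, hR⟩
        dsimp only
        obtain ⟨j, hj, hjv⟩ := mem_RR.1 hR
        subst hjv
        have := hy j σ
        rwa [dif_pos hR, dif_pos hR] at this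
  rw [card_product, card_univ, Fintype.card_fun, Fintype.card_prod, Fintype.card_fin,
    Fintype.card_coe] at h1
  exact h1

end STEx

open STx STEx in
/-- STE -/
theorem ste : STE := by
  intro k' K w D q hk hK hw hD hq
  refine ⟨nonempty hw, card_le hw, ?_⟩
  refine ssp_of q D _ fun T hT a F hF => ?_
  refine le_trans (Nat.mul_le_mul_right _ (card_le_card fun x hx =>
    mem_filter.2 ⟨(hF x hx).1, (hF x hx).2⟩)) ?_
  refine le_trans ?_ (STEx.spread_aux T a)
  refine Nat.mul_le_mul_left _ ?_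
  calc q ^ T.card ≤ ((w * w) ^ (K ^ (k' - 1) * (K - D))) ^ T.card := Nat.pow_le_pow_left hq _
    _ = (w * w) ^ (K ^ (k' - 1) * (K - D) * T.card) := by rw [← pow_mul]
    _ ≤ (w * w) ^ (STEx.RR K T).card :=
        Nat.pow_le_pow_right (Nat.mul_pos hw hw) (STEx.RR_ge hk hK hD T hT)

end Pool.Agent.KCN
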