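import Pool.Agent.Lib.KCN.P2G
import Pool.Agent.Lib.KCN.P3
import Pool.Agent.Lib.KCN.P4
import Pool.Agent.Lib.KCN.P5G
import Pool.Agent.Lib.KCN.STE
import Pool.Agent.Lib.KCN.GRE
import Pool.Agent.Lib.KCN.MDS
import Pool.Agent.Lib.KCN.PARE
import Pool.Agent.Lib.KCN.PME

/-!
# The pseudo-measure on `k`-tuples, every `ε`
-/

namespace Pool.Agent.KCN

/-- PM 0 -/
theorem pm0 : PM 0 := pme (p5g p2g p3 p4) ste gre mds pare

end Pool.Agent.KCN
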