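import Pool.Agent.Lib.KCN.PMD2
import Pool.Agent.Lib.KCN.PME

/-!
# Row PM2: the pseudo-measure on `k`-tuples, with the value of all large sets
-/

set_option autoImplicit false

namespace Pool.Agent.KCN

open Finset Filter Pool.Agent.SL Pool.Agent.KCM

open PMEx in
/-- PM2 -/
theorem pme2 (h5 : P5H) (hst : STE) (hgr : GRE2) (hmds : MDS) (hpar : PARE2) : PM2 := by
  classical
  intro γ₀ ε hγ₀ hε
  set γ : ℝ := min γ₀ 1 / 2 with hγdef
  have hmin0 : 0 < min γ₀ 1 := lt_min hγ₀ one_pos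
  have hγ0 : 0 < γ := by rw [hγdef]; linarith
  have hγ1 : γ ≤ 1 := by
    have := min_le_right γ₀ 1
    rw [hγdef]
    linarith
  have hγγ : 2 * γ ≤ γ₀ := by
    have := min_le_left γ₀ 1
    rw [hγdef]
    linarith
  have hγ2 : 2 * γ ≤ 1 := by
    have := min_le_right γ₀ 1
    rw [hγdef]
    linarith
  obtain ⟨t, ht2, c, hc, k₀, hk₀⟩ := hpar γ ε hγ0 hγ1 hε
  have ht1 : 1 ≤ t := by omega
  set β : ℝ := γ / 16 with hβ
  have hβ0 : 0 < β := by rw [hβ]; linarith
  refine ⟨c, β, hc, hβ0, max (t * (k₀ + 1)) ⌈β / c⌉₊, fun k hk => ?_⟩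
  have hkc : β ≤ c * k := by
    have h1 : ⌈β / c⌉₊ ≤ k := le_trans (le_max_right _ _) hk
    have h2 : β / c ≤ k := (Nat.le_ceil _).trans (by exact_mod_cast h1)
    rw [div_le_iff₀ hc] at h2
    linarith
  have hkt : t * (k₀ + 1) ≤ k := le_trans (le_max_left _ _) hk
  obtain ⟨k', e, he, hk', hk1, rfl⟩ : ∃ k' e, e < t ∧ k₀ ≤ k' ∧ 1 ≤ k' ∧ k = t * k' + e := by
    have h1 : k₀ + 1 ≤ k / t := by
      rw [Nat.le_div_iff_mul_le (by omega), mul_comm]
      exact hkt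
    exact ⟨k / t, k % t, Nat.mod_lt _ (by omega), by omega, by omega, (Nat.div_add_mod k t).symm⟩
  obtain ⟨h, hh1, hh, n₀, hn₀⟩ := hk₀ k' e hk' he
  have hroot := (tendsto_rpow_atTop hβ0).comp tendsto_natCast_atTop_atTop
    |>.eventually_ge_atTop (16 : ℝ)
  obtain ⟨n₁, hn₁⟩ := Filter.eventually_atTop.1 hroot
  have hroot2 := (tendsto_rpow_atTop hγ0).comp tendsto_natCast_atTop_atTop
    |>.eventually_ge_atTop (4 : ℝ)
  obtain ⟨n₂, hn₂⟩ := Filter.eventually_atTop.1 hroot2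
  refine ⟨max (max n₀ 1) (max n₁ n₂), fun n hn => ?_⟩
  obtain ⟨K, p, j, D, q, m, κ, hp, htp, hK, hD, hq, hm, hκ, hDK, hnn, hqw, hmk, hF, hL, hfin,
    hroom⟩ := hn₀ n (by omega)
  have hn1 : (1 : ℝ) ≤ n := by
    have : 1 ≤ n := by omega
    exact_mod_cast this
  have hn0 : (0 : ℝ) < n := by linarith
  have hX16 : (16 : ℝ) ≤ (n : ℝ) ^ β := hn₁ n (by omega)
  have hγ4 : (4 : ℝ) ≤ (n : ℝ) ^ γ := hn₂ n (by omega)
  have hw : 1 ≤ p ^ j := Nat.one_le_pow _ _ hp.one_le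
  obtain ⟨cod, hcod⟩ := hmds t p j hp htp
  obtain ⟨hne, hcard, hsp⟩ := hst k' K (p ^ j) (2 * D) q hk1 hK hw hDK hqw
  obtain ⟨φ, hinj, hφi, hφ⟩ := hgr t k' e n K (p ^ j) ht2 hk1 hK hw hnn cod hcod
  set S := SE k' K (p ^ j) with hS
  refine ⟨S.image φ, hne.image φ, ?_, ?_⟩
  · intro v hv v' hv' i i' hii
    obtain ⟨x, _, rfl⟩ := mem_image.1 hv
    obtain ⟨y, _, rfl⟩ := mem_image.1 hv'
    exact hφi x y i i' hii
  intro Fam hFam
  set Fam' : Finset (Finset (Fin k' → Cw k' K (p ^ j))) :=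
    Fam.image (fun U => S.filter (fun x => φ x ∈ U)) with hFam'
  have hFcard : Fam'.card ≤ Fam.card := card_image_le
  have hFreal : ((2 * Fam.card + 1 : ℕ) : ℝ) ≤ (2 : ℝ) ^ ((n : ℝ) ^ (2 - γ)) := by
    have e0 : (n : ℝ) ^ (2 - γ₀) ≤ (n : ℝ) ^ (2 - 2 * γ) :=
      Real.rpow_le_rpow_of_exponent_le hn1 (by linarith)
    have e1 : (Fam.card : ℝ) ≤ (2 : ℝ) ^ ((n : ℝ) ^ (2 - 2 * γ)) :=
      hFam.trans (Real.rpow_le_rpow_of_exponent_le (by norm_num) e0)
    have e2 : (1 : ℝ) ≤ (n : ℝ) ^ (2 - 2 * γ) := Real.one_le_rpow hn1 (by linarith)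
    have e3 : (1 : ℝ) ≤ (2 : ℝ) ^ ((n : ℝ) ^ (2 - 2 * γ)) :=
      Real.one_le_rpow (by norm_num) (by linarith)
    have e4 : (n : ℝ) ^ (2 - γ) = (n : ℝ) ^ (2 - 2 * γ) * (n : ℝ) ^ γ := by
      rw [← Real.rpow_add hn0]
      congr 1
      ring
    have e5 : (n : ℝ) ^ (2 - 2 * γ) + 2 ≤ (n : ℝ) ^ (2 - γ) := by
      rw [e4]
      nlinarith
    calc ((2 * Fam.card + 1 : ℕ) : ℝ) = 2 * (Fam.card : ℝ) + 1 := by push_cast; ring
      _ ≤ 4 * (2 : ℝ) ^ ((n : ℝ) ^ (2 - 2 * γ)) := by linarith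
      _ = (2 : ℝ) ^ ((n : ℝ) ^ (2 - 2 * γ) + 2) := by
          rw [Real.rpow_add (by norm_num)]
          norm_num
          ring
      _ ≤ _ := Real.rpow_le_rpow_of_exponent_le (by norm_num) e5
  have hcardα : Fintype.card (Fin k' → Cw k' K (p ^ j)) =
      ((p ^ j * p ^ j) ^ (K ^ k')) ^ k' := by
    rw [Fintype.card_fun, Fintype.card_fun, Fintype.card_prod, Fintype.card_fun,
      Fintype.card_fin, Fintype.card_fin, Fintype.card_fin]
  have hcond : 4 * ((2 * Fam'.card + 2) *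
      (2 ^ k' * Fintype.card (Fin k' → Cw k' K (p ^ j))) * 2 ^ k') ≤ 4 ^ κ := by
    rw [hcardα]
    refine le_trans ?_ (hF (2 * Fam.card + 1) hFreal)
    refine Nat.mul_le_mul_left _ (Nat.mul_le_mul_right _ (Nat.mul_le_mul_right _ ?_))
    omega
  obtain ⟨g, f, hg1, hg2, hg3, hg4⟩ := h5 k' m κ q D h (Cw k' K (p ^ j)) hk1 hm hκ hq hD
    (fun _ => ⟨0, hm⟩) S Fam' hne hsp (fun U hU => by
      obtain ⟨z, _, rfl⟩ := mem_image.1 hU
      exact filter_subset _ _) hcond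
    ((Nat.mul_le_mul_left 4 (Nat.mul_le_mul_right _ hcard)).trans hmk) hL
  obtain ⟨G, hG1, hG2⟩ := hφ m h g (fun _ => ⟨0, hm⟩) hh1 hg1
  have hScard : (0 : ℝ) < S.card := by exact_mod_cast card_pos.2 hne
  have hLam0 : 0 ≤ Lam k' m κ q D := by
    unfold Lam
    positivity
  set Λ := Lam k' m κ q D with hΛ
  set Z : ℝ := (S.card : ℝ) with hZ
  have hLamN : 16 * Λ ≤ (n : ℝ) ^ (-(c * ((t * k' + e : ℕ) : ℝ))) := by
    have e2 : (0 : ℝ) < (n : ℝ) ^ (c * ((t * k' + e : ℕ) : ℝ)) := Real.rpow_pos_of_pos hn0 _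
    have e3 : 16 * Λ * (n : ℝ) ^ (c * ((t * k' + e : ℕ) : ℝ)) ≤ 1 := by
      push_cast
      exact hfin
    rw [Real.rpow_neg hn0.le, ← one_div, le_div_iff₀ e2]
    exact e3
  have hLZ : Λ * S.card / Z ≤ (n : ℝ) ^ (-(c * ((t * k' + e : ℕ) : ℝ))) := by
    rw [mul_div_assoc, ← hZ, div_self hScard.ne', mul_one]
    linarith
  have hsum : ∀ U : Finset (Fin (t * k' + e) → Fin n),
      ∑ v ∈ U, (∑ x ∈ S.filter (fun x => φ x = v), f x) / Z =
        (∑ x ∈ S.filter (fun x => φ x ∈ U), f x) / Z := by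
    intro U
    rw [← sum_div, fib_sum]
  refine ⟨G, fun v => (∑ x ∈ S.filter (fun x => φ x = v), f x) / Z, ?_, ?_, ?_, ?_⟩
  · intro u hu
    refine hG1.mono ?_
    have h14 : ((k' + t ^ 3 * h + e : ℕ) : ℝ) ≤ (u : ℝ) := by
      push_cast at hu ⊢
      linarith
    exact_mod_cast h14
  · -- large sets
    intro U hU hUR hbig
    rw [hsum]
    -- the size of the preimage
    have hpre : (S.filter (fun x => φ x ∈ U)).card = U.card := by
      have h1 : (S.filter (fun x => φ x ∈ U)).image φ = U := by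
        ext v
        rw [mem_image]
        constructor
        · rintro ⟨x, hx, rfl⟩
          exact (mem_filter.1 hx).2
        · intro hv
          obtain ⟨x, hx, rfl⟩ := mem_image.1 (hUR hv)
          exact ⟨x, mem_filter.2 ⟨hx, hv⟩, rfl⟩
      rw [← h1, card_image_of_injective _ hinj]
      rw [h1]
    have hRc : (S.image φ).card = S.card := card_image_of_injective _ hinj
    rw [hRc] at hbig
    set X : ℝ := (n : ℝ) ^ β with hX
    have hX0 : 0 < X := by linarith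
    obtain ⟨L, hLdef⟩ : ∃ L : ℕ, L = ⌈X⌉₊ := ⟨_, rfl⟩
    have hLX : X ≤ L := by rw [hLdef]; exact Nat.le_ceil _
    have hLX2 : (L : ℝ) ≤ 2 * X := by
      have := Nat.ceil_lt_add_one hX0.le
      rw [← hLdef] at this
      linarith
    have hL0 : (0 : ℝ) < L := by linarith
    have hL1 : 1 ≤ L := by
      have : (0 : ℝ) < (L : ℝ) := hL0
      have : 0 < L := by exact_mod_cast this
      omega
    have hLroom : (L : ℝ) ≤ (n : ℝ) ^ (γ / 8) := by
      have e1 : (n : ℝ) ^ (γ / 8) = X * X := by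
        rw [hX, ← Real.rpow_add hn0, hβ]
        congr 1
        ring
      rw [e1]
      nlinarith
    have hSU : S.card ≤ L * (S.filter (fun x => φ x ∈ U)).card := by
      have e1 : (S.card : ℝ) ≤ L * (S.filter (fun x => φ x ∈ U)).card := by
        rw [hpre]
        exact hbig.trans (mul_le_mul_of_nonneg_right hLX (Nat.cast_nonneg _))
      exact_mod_cast e1
    have h1 := hg2 L hL1 (hroom L hLroom) _
      (mem_image_of_mem (fun U => S.filter (fun x => φ x ∈ U)) hU) hSU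
    have h2 : (1 : ℝ) / (2 * L) - Λ ≤ (∑ x ∈ S.filter (fun x => φ x ∈ U), f x) / Z := by
      rw [le_div_iff₀ hScard]
      calc (1 / (2 * (L : ℝ)) - Λ) * Z = Z / (2 * L) - Λ * Z := by ring
        _ ≤ _ := h1
    have h3 : Λ ≤ 1 / (16 * X) := by
      have e1 : (n : ℝ) ^ (-(c * ((t * k' + e : ℕ) : ℝ))) ≤ (n : ℝ) ^ (-β) :=
        Real.rpow_le_rpow_of_exponent_le hn1 (by linarith)
      have e2 : (n : ℝ) ^ (-β) = 1 / X := by
        rw [Real.rpow_neg hn0.le, ← hX, one_div]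
      rw [e2] at e1
      have e3 : 16 * Λ ≤ 1 / X := hLamN.trans e1
      have e4 : (1 : ℝ) / (16 * X) = 1 / X / 16 := by
        rw [div_div, mul_comm]
      rw [e4]
      linarith
    have h4 : 1 / (4 * X) ≤ 1 / (2 * (L : ℝ)) :=
      one_div_le_one_div_of_le (by positivity) (by linarith)
    have h5' : 1 / (16 * X) ≤ (∑ x ∈ S.filter (fun x => φ x ∈ U), f x) / Z := by
      have e1 : (1 : ℝ) / (4 * X) = 4 * (1 / (16 * X)) := by
        field_simp
        norm_num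
      have e2 : 0 < 1 / (16 * X) := by positivity
      linarith
    have h6 : (n : ℝ) ^ (2 * β) = X * X := by
      rw [hX, ← Real.rpow_add hn0]
      congr 1
      ring
    rw [h6]
    calc (1 : ℝ) ≤ X * X * (1 / (16 * X)) := by
          have : X * X * (1 / (16 * X)) = X / 16 := by field_simp
          rw [this]
          linarith
      _ ≤ _ := mul_le_mul_of_nonneg_left h5' (by positivity)
  · intro U hU _
    rw [hsum]
    have h1 := hg3 _ (mem_image_of_mem (fun U => S.filter (fun x => φ x ∈ U)) hU)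
    have h2 : -(Λ * S.card / Z) ≤ (∑ x ∈ S.filter (fun x => φ x ∈ U), f x) / Z := by
      rw [← neg_div]
      exact div_le_div_of_nonneg_right h1 hScard.le
    linarith
  · intro U hU _ i i' a b hii hab hUab
    rw [hsum]
    have h1 : ∑ x ∈ S.filter (fun x => φ x ∈ U), f x ≤ Λ * S.card := by
      rcases hG2 i i' a b hii hab with h | ⟨l, cc, hcc, h⟩
      · have hempty : S.filter (fun x => φ x ∈ U) = ∅ := by
          rw [filter_eq_empty_iff]
          intro x hx hxU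
          exact h x hx (hUab _ hxU)
        rw [hempty, sum_empty]
        positivity
      · refine hg4 _ (mem_image_of_mem (fun U => S.filter (fun x => φ x ∈ U)) hU) l cc
          (fun x hx => ?_) hcc
        obtain ⟨hx1, hx2⟩ := mem_filter.1 hx
        exact h x hx1 (hUab _ hx2).1 (hUab _ hx2).2
    exact (div_le_div_of_nonneg_right h1 hScard.le).trans hLZ

end Pool.Agent.KCN
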