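import Pool.Agent.Lib.KCN.P2G
import Pool.Agent.Lib.KCN.P3
import Pool.Agent.Lib.KCN.P4
import Pool.Agent.Lib.KCN.P5H
import Pool.Agent.Lib.KCN.STE
import Pool.Agent.Lib.KCN.GRE2
import Pool.Agent.Lib.KCN.MDS
import Pool.Agent.Lib.KCN.PARE2
import Pool.Agent.Lib.KCN.PME2

/-!
# The pseudo-measure on `k`-tuples, with the value of all large sets
-/

namespace Pool.Agent.KCN

/-- PM2 -/
theorem pm2 : PM2 := pme2 (p5h p2g p3 p4) ste gre2 mds pare2

end Pool.Agent.KCN
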