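import Pool.Agent.Lib.KCN.Defs2

/-!
# The pseudo-measure on `k`-tuples (interface between the rows and the applications)

`PM δ`: no clique of size `(δ + ε) k`. `PM (1 / 2)` follows from the rows of `Defs2.lean`,
`PM 0` from the rows of `DefsE.lean` (groups of `t` parts and lines instead of pairs of parts).
-/

set_option autoImplicit false

namespace Pool.Agent.KCN

open Finset Pool.Agent.SL Pool.Agent.KCM

/-- PM: a set `R` of `k`-tuples, with different vertices at different positions; for every small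
family of sets a graph `G` without large cliques and a signed measure on `R` of total mass 1,
almost nonnegative on the sets of the family, and almost 0 on those which look at a non-edge. -/
def PM (δ : ℝ) : Prop :=
  ∀ γ ε : ℝ, 0 < γ → 0 < ε → ∃ c : ℝ, 0 < c ∧ ∃ k₀ : ℕ, ∀ k : ℕ, k₀ ≤ k →
    ∃ n₀ : ℕ, ∀ n : ℕ, n₀ ≤ n → ∃ R : Finset (Fin k → Fin n),
      (∀ v ∈ R, ∀ v' ∈ R, ∀ i j : Fin k, v i = v' j → i = j) ∧
      ∀ Fam : Finset (Finset (Fin k → Fin n)), (Fam.card : ℝ) ≤ 2 ^ ((n : ℝ) ^ (2 - γ)) →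
        ∃ (G : SimpleGraph (Fin n)) (μ : (Fin k → Fin n) → ℝ),
          (∀ u : ℕ, (δ + ε) * k ≤ u → G.CliqueFree u) ∧ ∑ v ∈ R, μ v = 1 ∧
          (∀ U ∈ Fam, U ⊆ R → -(n : ℝ) ^ (-(c * k)) ≤ ∑ v ∈ U, μ v) ∧
          (∀ U ∈ Fam, U ⊆ R → ∀ (i j : Fin k) (a b : Fin n), i ≠ j → ¬ G.Adj a b →
            (∀ v ∈ U, v i = a ∧ v j = b) → ∑ v ∈ U, μ v ≤ (n : ℝ) ^ (-(c * k)))

end Pool.Agent.KCN
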