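import Pool.Agent.Lib.KCN.Defs
import Pool.Agent.Lib.KCM.Upper

/-!
# Search with memory for the whole graph (row UPN)

The memory stores all pairs of non-adjacent vertices and a counter for the pairs of places; after
`k ^ 2 * n ^ 2` steps all tuples are excluded.
-/

set_option autoImplicit false

namespace Pool.Agent.KCN

namespace Upn

open Finset Pool.Agent.KCM

/-- pairs of places -/
abbrev Pl (k n : ℕ) := (Fin k × Fin n) × (Fin k × Fin n)

theorem card_Pl (k n : ℕ) : Fintype.card (Pl k n) = k ^ 2 * n ^ 2 := by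
  simp [Pl, Fintype.card_prod, Fintype.card_fin]
  ring

noncomputable def num (k n : ℕ) : Pl k n ≃ Fin (k ^ 2 * n ^ 2) :=
  Fintype.equivFinOfCardEq (card_Pl k n)

variable {k n : ℕ}

/-- the tuple `v` sits at the two places, which the memory holds to be non-adjacent -/
def At (R : Sym2 (Fin n) → Bool) (e : Pl k n) (v : Fin k → Fin n) : Prop :=
  e.1.1 ≠ e.2.1 ∧ R s(e.1.2, e.2.2) = true ∧ v e.1.1 = e.1.2 ∧ v e.2.1 = e.2.2

open Classical in
/-- the memories -/
noncomputable def S (R : Sym2 (Fin n) → Bool) (t : ℕ) : Finset (Fin k → Fin n) :=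
  univ.filter (fun v => ∃ e : Pl k n, (num k n e).val < t ∧ At R e v)

theorem mem_S {R : Sym2 (Fin n) → Bool} {t : ℕ} {v : Fin k → Fin n} :
    v ∈ S R t ↔ ∃ e : Pl k n, (num k n e).val < t ∧ At R e v := by
  classical
  unfold S
  rw [mem_filter]
  exact ⟨fun h => h.2, fun h => ⟨mem_univ _, h⟩⟩

open Classical in
/-- the non-edges -/
noncomputable def RG (G : SimpleGraph (Fin n)) : Sym2 (Fin n) → Bool :=
  fun p => decide (p ∉ G.edgeSet)

theorem RG_iff (G : SimpleGraph (Fin n)) (a b : Fin n) :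
    RG G s(a, b) = true ↔ ¬ G.Adj a b := by
  classical
  unfold RG
  rw [decide_eq_true_eq, SimpleGraph.mem_edgeSet]

theorem step (G : SimpleGraph (Fin n)) (t : ℕ) (ht : t < k ^ 2 * n ^ 2) :
    (S (RG G) t : Finset (Fin k → Fin n)) ⊆ S (RG G) (t + 1) ∧
      ((S (RG G) (t + 1) : Finset (Fin k → Fin n)) = S (RG G) t ∨
      ∃ (i j : Fin k) (a b : Fin n), i ≠ j ∧ ¬ G.Adj a b ∧
        ∀ v ∈ (S (RG G) (t + 1) : Finset (Fin k → Fin n)), v ∈ S (RG G) t ∨
          (v i = a ∧ v j = b)) := by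
  have hmono : (S (RG G) t : Finset (Fin k → Fin n)) ⊆ S (RG G) (t + 1) := by
    intro v hv
    rw [mem_S] at hv ⊢
    obtain ⟨e, he, hA⟩ := hv
    exact ⟨e, by omega, hA⟩
  refine ⟨hmono, ?_⟩
  set e := (num k n).symm ⟨t, ht⟩ with he
  have hstep : ∀ v ∈ (S (RG G) (t + 1) : Finset (Fin k → Fin n)),
      v ∈ (S (RG G) t : Finset (Fin k → Fin n)) ∨ At (RG G) e v := by
    intro v hv
    rw [mem_S] at hv
    obtain ⟨e', he', hA⟩ := hv
    by_cases h1 : (num k n e').val < t
    · exact Or.inl (mem_S.2 ⟨e', h1, hA⟩)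
    · right
      have h2 : num k n e' = ⟨t, ht⟩ := Fin.ext (by simp only []; omega)
      have h3 : e = e' := by rw [he, ← h2, Equiv.symm_apply_apply]
      rw [h3]
      exact hA
  by_cases hc : e.1.1 ≠ e.2.1 ∧ RG G s(e.1.2, e.2.2) = true
  · right
    refine ⟨e.1.1, e.2.1, e.1.2, e.2.2, hc.1, (RG_iff G _ _).1 hc.2, ?_⟩
    intro v hv
    rcases hstep v hv with h | h
    · exact Or.inl h
    · exact Or.inr ⟨h.2.2.1, h.2.2.2⟩
  · left
    refine Subset.antisymm ?_ hmono
    intro v hv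
    rcases hstep v hv with h | h
    · exact h
    · exact absurd ⟨h.1, h.2.1⟩ hc

theorem S_end (G : SimpleGraph (Fin n)) (hG : G.CliqueFree k) :
    (S (RG G) (k ^ 2 * n ^ 2) : Finset (Fin k → Fin n)) = univ := by
  ext v
  rw [mem_S]
  simp only [mem_univ, iff_true]
  obtain ⟨i, j, hij, hna⟩ := Up.exists_nonadj hG v
  exact ⟨((i, v i), (j, v j)), Fin.isLt _, hij, (RG_iff G _ _).2 hna, rfl, rfl⟩

end Upn

open Finset Pool.Agent.KCM Upn in
theorem upn : UPN := by
  classical
  intro k n _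
  refine ⟨univ.image (fun p : (Sym2 (Fin n) → Bool) × Fin (k ^ 2 * n ^ 2 + 1) =>
    (S p.1 p.2.val : Finset (Fin k → Fin n))), ?_, ?_⟩
  · refine le_trans card_image_le ?_
    rw [card_univ, Fintype.card_prod, Fintype.card_fun, Fintype.card_bool, Fintype.card_fin,
      Sym2.card, Fintype.card_fin, Nat.choose_two_right]
    have h : (n + 1) * (n + 1 - 1) / 2 = n * (n + 1) / 2 := by
      rw [Nat.add_sub_cancel, Nat.mul_comm]
    rw [h]
  · intro G hG
    obtain ⟨T, e, hD, he, hT⟩ := Up.chain G (univ.image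
        (fun p : (Sym2 (Fin n) → Bool) × Fin (k ^ 2 * n ^ 2 + 1) =>
          (S p.1 p.2.val : Finset (Fin k → Fin n))))
      (fun t => S (RG G) t) (k ^ 2 * n ^ 2)
      (by
        ext v
        rw [mem_S]
        simp)
      (by
        intro t ht
        exact mem_image.2 ⟨(RG G, ⟨t, by omega⟩), mem_univ _, rfl⟩)
      (fun t ht => step G t ht) (k ^ 2 * n ^ 2) (le_refl _)
    rw [S_end G hG] at hD
    refine ⟨T, e, hD, ?_, hT⟩
    intro v
    rw [he v]
    split_ifs <;> omega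

end Pool.Agent.KCN
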